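import Mathlib
import Pool.Agent.H16.NC.SD

/-!
# Graded dg algebras, dg bimodules, semi-free and perfect modules

All gradings are cohomological (the differential has degree `+1`).  `P` is always the projection
on the part of even degree and `E = 2P - 1` the sign `v ↦ (-1)^|v| v`.
-/

set_option autoImplicit false

open scoped TensorProduct

noncomputable section

namespace NC

/-- A cochain complex of `k`-vector spaces: a vector space `V` with a `ℤ`-grading `gr`,
differential `D` of degree `1`; `P` is the projection on the part of even degree. -/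
structure ZD (k : Type) [Field k] extends SD k where
  gr : ℤ → Submodule k V
  internal : DirectSum.IsInternal gr
  P_gr : ∀ i, ∀ v ∈ gr i, P v = if Even i then v else 0
  D_gr : ∀ i, ∀ v ∈ gr i, D v ∈ gr (i + 1)

/-- A dg algebra over `k`. -/
structure ZDGA (k : Type) [Field k] extends DGA k, ZD k where
  mul_gr : ∀ i j, ∀ a ∈ gr i, ∀ b ∈ gr j, mul a b ∈ gr (i + j)
  one_gr : one ∈ gr 0

variable {k : Type} [Field k]

/-- A dg `A`-`A`-bimodule. -/
structure ZBim (A : ZDGA k) extends ZD k where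
  l : A.V →ₗ[k] V →ₗ[k] V
  r : V →ₗ[k] A.V →ₗ[k] V
  l_one : ∀ m, l A.one m = m
  r_one : ∀ m, r m A.one = m
  l_mul : ∀ a b m, l (A.mul a b) m = l a (l b m)
  r_mul : ∀ m a b, r m (A.mul a b) = r (r m a) b
  l_r : ∀ a m b, r (l a m) b = l a (r m b)
  D_l : ∀ a m, D (l a m) = l (A.D a) m + l (A.E a) (D m)
  D_r : ∀ m a, D (r m a) = r (D m) a + r (toSD.E m) (A.D a)
  l_gr : ∀ i j, ∀ a ∈ A.gr i, ∀ m ∈ gr j, l a m ∈ gr (i + j)
  r_gr : ∀ i j, ∀ m ∈ gr i, ∀ a ∈ A.gr j, r m a ∈ gr (i + j)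

/-- A right dg `A`-module. -/
structure ZRMod (A : ZDGA k) extends ZD k where
  r : V →ₗ[k] A.V →ₗ[k] V
  r_one : ∀ m, r m A.one = m
  r_mul : ∀ m a b, r m (A.mul a b) = r (r m a) b
  D_r : ∀ m a, D (r m a) = r (D m) a + r (toSD.E m) (A.D a)
  r_gr : ∀ i j, ∀ m ∈ gr i, ∀ a ∈ A.gr j, r m a ∈ gr (i + j)

/-- the underlying right module of a bimodule -/
def ZBim.right {A : ZDGA k} (M : ZBim A) : ZRMod A :=
  { M.toZD with
    r := M.r
    r_one := M.r_one
    r_mul := M.r_mul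
    D_r := M.D_r
    r_gr := M.r_gr }

/-- the diagonal bimodule -/
def ZDGA.diag (A : ZDGA k) : ZBim A :=
  { A.toZD with
    l := A.mul
    r := A.mul
    l_one := A.one_mul'
    r_one := A.mul_one'
    l_mul := fun a b m => A.mul_assoc' a b m
    r_mul := fun m a b => (A.mul_assoc' m a b).symm
    l_r := fun a m b => A.mul_assoc' a m b
    D_l := A.D_mul
    D_r := A.D_mul
    l_gr := A.mul_gr
    r_gr := A.mul_gr }

/-! ### Bimodules -/

namespace ZBim

variable {A : ZDGA k}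

/-- morphisms of dg bimodules (of degree `0`) -/
structure Hom (M N : ZBim A) where
  f : M.V →ₗ[k] N.V
  l : ∀ a m, f (M.l a m) = N.l a (f m)
  r : ∀ m a, f (M.r m a) = N.r (f m) a
  D : ∀ m, f (M.D m) = N.D (f m)
  gr : ∀ i, ∀ m ∈ M.gr i, f m ∈ N.gr i

/-- quasi-isomorphisms: isomorphisms on the cohomology -/
def Hom.IsQuasiIso {M N : ZBim A} (φ : Hom M N) : Prop :=
  (∀ m, M.D m = 0 → (∃ n, N.D n = φ.f m) → ∃ m', M.D m' = m) ∧
    ∀ n, N.D n = 0 → ∃ m n', M.D m = 0 ∧ φ.f m = n + N.D n'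

/-- `Σ aᵢ ⊗ bᵢ ↦ Σ aᵢ x bᵢ` -/
def act (M : ZBim A) (x : M.V) : A.V ⊗[k] A.V →ₗ[k] M.V :=
  TensorProduct.lift (M.l.compl₂ (M.r x))

/-- `Σ aᵢ ⊗ bᵢ ↦ Σ aᵢ xᵢ bᵢ` for a family `x` -/
def comb (M : ZBim A) {I : Type} (x : I → M.V) : (I →₀ A.V ⊗[k] A.V) →ₗ[k] M.V :=
  Finsupp.lsum k (fun i => M.act (x i))

/-- `M` is semi-free over `A ᵒᵖ ⊗ A` on a homogeneous basis indexed by `I`: the elements
`a x_i b` span freely, and the differential of `x_i` is a combination of basis elements of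
smaller rank. -/
def IsSemiFree (M : ZBim A) (I : Type) : Prop :=
  ∃ (x : I → M.V) (deg : I → ℤ) (rk : I → ℕ),
    (∀ i, x i ∈ M.gr (deg i)) ∧ Function.Bijective (M.comb x) ∧
      ∀ i, M.D (x i) ∈ Submodule.span k {m | ∃ j a b, rk j < rk i ∧ m = M.l a (M.r (x j) b)}

/-- `X` is a homotopy retract of `F` (as dg bimodules): `r ∘ s = 1 + D h + h D`, where `h` is a
bimodule map of degree `-1`. -/
def IsHRetract (X F : ZBim A) : Prop :=
  ∃ (s : Hom X F) (r : Hom F X) (h : X.V →ₗ[k] X.V),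
    (∀ i, ∀ x ∈ X.gr i, h x ∈ X.gr (i - 1)) ∧ (∀ a x, h (X.l a x) = X.l (A.E a) (h x)) ∧
      (∀ x a, h (X.r x a) = X.r (h x) a) ∧ ∀ x, r.f (s.f x) = x + X.D (h x) + h (X.D x)

/-- Perfect dg bimodules: `N` is quasi-isomorphic to a homotopy retract of a semi-free bimodule
with a finite basis. -/
def IsPerfect (N : ZBim A) : Prop :=
  ∃ (X F : ZBim A) (n : ℕ) (φ : Hom X N), φ.IsQuasiIso ∧ F.IsSemiFree (Fin n) ∧ IsHRetract X F

end ZBim

/-! ### Right modules -/

namespace ZRMod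

variable {A : ZDGA k}

/-- morphisms of right dg modules (of degree `0`) -/
structure Hom (M N : ZRMod A) where
  f : M.V →ₗ[k] N.V
  r : ∀ m a, f (M.r m a) = N.r (f m) a
  D : ∀ m, f (M.D m) = N.D (f m)
  gr : ∀ i, ∀ m ∈ M.gr i, f m ∈ N.gr i

/-- `Σ xᵢ bᵢ` for a family `x` -/
def comb (M : ZRMod A) {I : Type} (x : I → M.V) : (I →₀ A.V) →ₗ[k] M.V :=
  Finsupp.lsum k (fun i => M.r (x i))

/-- `M` is semi-free over `A` on a homogeneous basis indexed by `I`. -/
def IsSemiFree (M : ZRMod A) (I : Type) : Prop :=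
  ∃ (x : I → M.V) (deg : I → ℤ) (rk : I → ℕ),
    (∀ i, x i ∈ M.gr (deg i)) ∧ Function.Bijective (M.comb x) ∧
      ∀ i, M.D (x i) ∈ Submodule.span k {m | ∃ j b, rk j < rk i ∧ m = M.r (x j) b}

/-- `X` is a homotopy retract of `F` (as right dg modules). -/
def IsHRetract (X F : ZRMod A) : Prop :=
  ∃ (s : Hom X F) (r : Hom F X) (h : X.V →ₗ[k] X.V),
    (∀ i, ∀ x ∈ X.gr i, h x ∈ X.gr (i - 1)) ∧ (∀ x a, h (X.r x a) = X.r (h x) a) ∧
      ∀ x, r.f (s.f x) = x + X.D (h x) + h (X.D x)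

end ZRMod

/-! ### Saturated dg algebras and correspondences -/

/-- the total cohomology of a complex -/
def SD.Coh (X : SD k) : Type :=
  ↥(LinearMap.ker X.D) ⧸ (LinearMap.range X.D).comap (LinearMap.ker X.D).subtype

instance (X : SD k) : AddCommGroup X.Coh := inferInstanceAs (AddCommGroup (_ ⧸ _))
instance (X : SD k) : Module k X.Coh := inferInstanceAs (Module k (_ ⧸ _))

/-- Saturated dg algebras: `A` is a perfect `A`-`A`-bimodule and the total cohomology
`⨁ᵢ Hⁱ(A)` has finite dimension. -/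
def ZDGA.IsSaturated (A : ZDGA k) : Prop :=
  A.diag.IsPerfect ∧ FiniteDimensional k A.toSD.Coh

/-- Bimodules that represent the classes of `K₀(Aᵒᵖ ⊗ A)`: semi-free bimodules (every dg
bimodule is quasi-isomorphic to one of these) which are perfect as right `A`-modules. -/
def ZBim.IsCorr {A : ZDGA k} (M : ZBim A) : Prop :=
  (∃ I : Type, M.IsSemiFree I) ∧
    ∃ (F : ZRMod A) (n : ℕ), F.IsSemiFree (Fin n) ∧ ZRMod.IsHRetract M.right F

/-- Morphisms of dg algebras that need not preserve the unit. -/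
structure ZHom (A B : ZDGA k) where
  f : A.V →ₗ[k] B.V
  mul : ∀ a b, f (A.mul a b) = B.mul (f a) (f b)
  D : ∀ a, f (A.D a) = B.D (f a)
  gr : ∀ i, ∀ a ∈ A.gr i, f a ∈ B.gr i

end NC
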