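import Mathlib

/-!
# Graded cyclic modules, windows of the periodic complex

`CycMod k`: a vector space with a family of subspaces `gr m` (the elements of degree `m`) and
operators `b`, `b'` of degree `-1` and `T` (`= 1 - t`), `N` of degree `0` with the usual relations.
The periodic complex has the column `p` equal to `(V, b)` for `p` even and `(V, -b')` for `p` odd;
the horizontal map from column `p` to column `p - 1` is `T` for `p` odd and `N` for `p` even.
Its elements of degree `m` are the families `c p ∈ gr (m - p)`, `p ∈ ℤ`, with `c p = 0` for all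
large `p` (Laurent series in the periodicity operator).  For a set `I` of columns `CycMod.H I m`
is the homology in degree `m` of the columns `p ∈ I`:
`I = univ` gives periodic cyclic homology, `I = Ici 0` cyclic homology, `I = Ico 0 2` Hochschild
homology (if `b'` is exact).
-/

set_option autoImplicit false

noncomputable section

namespace NC

/-- A graded cyclic module. -/
structure CycMod (k : Type) [Field k] where
  V : Type
  [ab : AddCommGroup V]
  [md : Module k V]
  /-- the elements of degree `m` -/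
  gr : ℤ → Submodule k V
  b : V →ₗ[k] V
  b' : V →ₗ[k] V
  T : V →ₗ[k] V
  N : V →ₗ[k] V
  bb : ∀ v, b (b v) = 0
  b'b' : ∀ v, b' (b' v) = 0
  bT : ∀ v, b (T v) = T (b' v)
  b'N : ∀ v, b' (N v) = N (b v)
  TN : ∀ v, T (N v) = 0
  NT : ∀ v, N (T v) = 0
  b_gr : ∀ m, ∀ v ∈ gr m, b v ∈ gr (m - 1)
  b'_gr : ∀ m, ∀ v ∈ gr m, b' v ∈ gr (m - 1)
  T_gr : ∀ m, ∀ v ∈ gr m, T v ∈ gr m
  N_gr : ∀ m, ∀ v ∈ gr m, N v ∈ gr m

attribute [instance] CycMod.ab CycMod.md

namespace CycMod

variable {k : Type} [Field k]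

/-- morphisms of graded cyclic modules -/
structure Hom (X Y : CycMod k) where
  f : X.V →ₗ[k] Y.V
  gr : ∀ m, ∀ v ∈ X.gr m, f v ∈ Y.gr m
  b : ∀ v, f (X.b v) = Y.b (f v)
  b' : ∀ v, f (X.b' v) = Y.b' (f v)
  T : ∀ v, f (X.T v) = Y.T (f v)
  N : ∀ v, f (X.N v) = Y.N (f v)

variable (X : CycMod k)

/-- the differential of column `p` -/
def col (p : ℤ) : X.V →ₗ[k] X.V := if Even p then X.b else - X.b'

/-- the horizontal map from column `p` to column `p - 1` -/
def hor (p : ℤ) : X.V →ₗ[k] X.V := if Even p then X.N else X.T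

/-- the differential of the periodic complex -/
def per : (ℤ → X.V) →ₗ[k] (ℤ → X.V) where
  toFun c p := X.col p (c p) + X.hor (p + 1) (c (p + 1))
  map_add' c d := by
    funext p
    simp only [Pi.add_apply, map_add]
    abel
  map_smul' r c := by
    funext p
    simp only [Pi.smul_apply, map_smul, RingHom.id_apply, smul_add]

theorem per_apply (c : ℤ → X.V) (p : ℤ) :
    X.per c p = X.col p (c p) + X.hor (p + 1) (c (p + 1)) := rfl

theorem per_per (c : ℤ → X.V) : X.per (X.per c) = 0 := by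
  funext p
  rw [per_apply, per_apply, per_apply]
  unfold col hor
  rcases Int.even_or_odd p with h | h
  · have h1 : ¬ Even (p + 1) := by
      rw [Int.not_even_iff_odd]
      exact h.add_one
    have h2 : Even (p + 1 + 1) := by
      have := (h.add_one).add_one
      exact this
    simp [h, h1, h2, X.bb, X.bT, X.TN]
  · have h0 : ¬ Even p := by
      rw [Int.not_even_iff_odd]
      exact h
    have h1 : Even (p + 1) := h.add_one
    have h2 : ¬ Even (p + 1 + 1) := by
      rw [Int.not_even_iff_odd]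
      exact h1.add_one
    simp [h0, h1, h2, X.b'b', X.b'N, X.NT]

open Classical in
/-- restriction to the columns in `I` -/
def cut (I : Set ℤ) : (ℤ → X.V) →ₗ[k] (ℤ → X.V) where
  toFun c p := if p ∈ I then c p else 0
  map_add' c d := by
    funext p
    by_cases h : p ∈ I <;> simp [h]
  map_smul' r c := by
    funext p
    by_cases h : p ∈ I <;> simp [h]

theorem cut_mem {I : Set ℤ} (c : ℤ → X.V) {p : ℤ} (h : p ∈ I) : X.cut I c p = c p := if_pos h

theorem cut_not_mem {I : Set ℤ} (c : ℤ → X.V) {p : ℤ} (h : p ∉ I) : X.cut I c p = 0 := if_neg h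

/-- the differential on the columns in `I` -/
def wD (I : Set ℤ) : (ℤ → X.V) →ₗ[k] (ℤ → X.V) := X.cut I ∘ₗ X.per

theorem wD_mem {I : Set ℤ} (c : ℤ → X.V) {p : ℤ} (h : p ∈ I) :
    X.wD I c p = X.col p (c p) + X.hor (p + 1) (c (p + 1)) := X.cut_mem _ h

theorem wD_not_mem {I : Set ℤ} (c : ℤ → X.V) {p : ℤ} (h : p ∉ I) : X.wD I c p = 0 :=
  X.cut_not_mem _ h

/-- the elements of degree `m` of the columns in `I` -/
def CP (I : Set ℤ) (m : ℤ) : Submodule k (ℤ → X.V) where
  carrier := {c | (∀ p, c p ∈ X.gr (m - p)) ∧ (∀ p, p ∉ I → c p = 0) ∧ ∃ P, ∀ p, P < p → c p = 0}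
  add_mem' := by
    rintro c d ⟨h1, h2, P, h3⟩ ⟨h1', h2', P', h3'⟩
    refine ⟨fun p => Submodule.add_mem _ (h1 p) (h1' p), fun p hp => ?_, max P P', fun p hp => ?_⟩
    · rw [Pi.add_apply, h2 p hp, h2' p hp, add_zero]
    · rw [Pi.add_apply, h3 p (lt_of_le_of_lt (le_max_left _ _) hp),
        h3' p (lt_of_le_of_lt (le_max_right _ _) hp), add_zero]
  zero_mem' := ⟨fun p => Submodule.zero_mem _, fun p _ => rfl, 0, fun p _ => rfl⟩
  smul_mem' := by
    rintro r c ⟨h1, h2, P, h3⟩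
    refine ⟨fun p => Submodule.smul_mem _ _ (h1 p), fun p hp => ?_, P, fun p hp => ?_⟩
    · rw [Pi.smul_apply, h2 p hp, smul_zero]
    · rw [Pi.smul_apply, h3 p hp, smul_zero]

theorem col_gr (m p : ℤ) (v : X.V) (hv : v ∈ X.gr m) : X.col p v ∈ X.gr (m - 1) := by
  unfold col
  split_ifs
  · exact X.b_gr m v hv
  · rw [LinearMap.neg_apply]
    exact Submodule.neg_mem _ (X.b'_gr m v hv)

theorem hor_gr (m p : ℤ) (v : X.V) (hv : v ∈ X.gr m) : X.hor p v ∈ X.gr m := by
  unfold hor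
  split_ifs
  · exact X.N_gr m v hv
  · exact X.T_gr m v hv

theorem wD_CP (I : Set ℤ) (m : ℤ) {c : ℤ → X.V} (hc : c ∈ X.CP I m) :
    X.wD I c ∈ X.CP I (m - 1) := by
  obtain ⟨h1, h2, P, h3⟩ := hc
  refine ⟨fun p => ?_, fun p hp => X.wD_not_mem c hp, P, fun p hp => ?_⟩
  · by_cases hp : p ∈ I
    · rw [X.wD_mem c hp]
      refine Submodule.add_mem _ ?_ ?_
      · have := X.col_gr _ p _ (h1 p)
        rwa [show m - p - 1 = m - 1 - p by ring] at this
      · have := X.hor_gr _ (p + 1) _ (h1 (p + 1))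
        rwa [show m - (p + 1) = m - 1 - p by ring] at this
    · rw [X.wD_not_mem c hp]
      exact Submodule.zero_mem _
  · by_cases hp' : p ∈ I
    · rw [X.wD_mem c hp', h3 p hp, h3 (p + 1) (by omega), map_zero, map_zero, add_zero]
    · exact X.wD_not_mem c hp'

/-- for an interval `I` the square of the differential is zero -/
theorem wD_wD (I : Set ℤ) (hI : I.OrdConnected) (c : ℤ → X.V) (hc : ∀ p, p ∉ I → c p = 0) :
    X.wD I (X.wD I c) = 0 := by
  funext p
  by_cases hp : p ∈ I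
  · have h0 := congrFun (X.per_per c) p
    rw [X.per_apply, X.per_apply, X.per_apply, Pi.zero_apply] at h0
    rw [X.wD_mem _ hp, X.wD_mem _ hp, Pi.zero_apply]
    by_cases hp1 : p + 1 ∈ I
    · rw [X.wD_mem _ hp1]
      exact h0
    · have h2 : p + 1 + 1 ∉ I := fun h => hp1 (hI.out hp h ⟨by omega, by omega⟩)
      rw [X.wD_not_mem _ hp1]
      rw [hc _ hp1, hc _ h2] at h0
      rw [hc _ hp1]
      simpa using h0
  · rw [X.wD_not_mem _ hp]
    rfl

/-- cycles of degree `m` in the columns in `I` -/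
def Z (I : Set ℤ) (m : ℤ) : Submodule k (ℤ → X.V) := LinearMap.ker (X.wD I) ⊓ X.CP I m

/-- boundaries of degree `m` in the columns in `I` -/
def B (I : Set ℤ) (m : ℤ) : Submodule k (ℤ → X.V) := (X.CP I (m + 1)).map (X.wD I)

/-- the homology in degree `m` of the columns in `I` -/
def H (I : Set ℤ) (m : ℤ) : Type := ↥(X.Z I m) ⧸ (X.B I m).comap (X.Z I m).subtype

instance (I : Set ℤ) (m : ℤ) : AddCommGroup (X.H I m) := inferInstanceAs (AddCommGroup (_ ⧸ _))
instance (I : Set ℤ) (m : ℤ) : Module k (X.H I m) := inferInstanceAs (Module k (_ ⧸ _))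

theorem mem_Z {I : Set ℤ} {m : ℤ} {c : ℤ → X.V} : c ∈ X.Z I m ↔ X.wD I c = 0 ∧ c ∈ X.CP I m :=
  Iff.rfl

/-- the projection of the cycles on the homology -/
def toH (I : Set ℤ) (m : ℤ) : ↥(X.Z I m) →ₗ[k] X.H I m := Submodule.mkQ _

/-- the class of a cycle -/
def cls {I : Set ℤ} {m : ℤ} (c : ℤ → X.V) (hc : c ∈ X.Z I m) : X.H I m := X.toH I m ⟨c, hc⟩

theorem cls_surj {I : Set ℤ} {m : ℤ} (x : X.H I m) :
    ∃ (c : ℤ → X.V) (hc : c ∈ X.Z I m), X.cls c hc = x := by
  obtain ⟨c, rfl⟩ := Submodule.mkQ_surjective _ x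
  exact ⟨c.1, c.2, rfl⟩

theorem cls_eq_zero {I : Set ℤ} {m : ℤ} (c : ℤ → X.V) (hc : c ∈ X.Z I m) :
    X.cls c hc = 0 ↔ ∃ y ∈ X.CP I (m + 1), X.wD I y = c :=
  Submodule.Quotient.mk_eq_zero _

theorem cls_add {I : Set ℤ} {m : ℤ} (c d : ℤ → X.V) (hc : c ∈ X.Z I m) (hd : d ∈ X.Z I m) :
    X.cls (c + d) (Submodule.add_mem _ hc hd) = X.cls c hc + X.cls d hd := rfl

theorem cls_sub {I : Set ℤ} {m : ℤ} (c d : ℤ → X.V) (hc : c ∈ X.Z I m) (hd : d ∈ X.Z I m) :
    X.cls (c - d) (Submodule.sub_mem _ hc hd) = X.cls c hc - X.cls d hd := rfl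

theorem cls_smul {I : Set ℤ} {m : ℤ} (r : k) (c : ℤ → X.V) (hc : c ∈ X.Z I m) :
    X.cls (r • c) (Submodule.smul_mem _ r hc) = r • X.cls c hc := rfl

end CycMod

end NC
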