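import Mathlib
import Pool.Agent.H94.NC.Cyc

/-!
# The long exact sequence of two adjacent windows
-/

set_option autoImplicit false

noncomputable section

namespace NC

namespace CycMod

variable {k : Type} [Field k]

/-- a general way to define maps between the homology groups -/
def descend (X Y : CycMod k) {I J : Set ℤ} {m n : ℤ} (F : (ℤ → X.V) →ₗ[k] (ℤ → Y.V))
    (hZ : ∀ c ∈ X.Z I m, F c ∈ Y.Z J n) (hB : ∀ y ∈ X.CP I (m + 1), F (X.wD I y) ∈ Y.B J n) :
    X.H I m →ₗ[k] Y.H J n :=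
  Submodule.mapQ _ _ (F.restrict hZ) (by
    rintro ⟨c, hc⟩ ⟨y, hy, hyc⟩
    have h := hB y hy
    rw [hyc] at h
    exact h)

theorem descend_cls (X Y : CycMod k) {I J : Set ℤ} {m n : ℤ} (F : (ℤ → X.V) →ₗ[k] (ℤ → Y.V))
    (hZ : ∀ c ∈ X.Z I m, F c ∈ Y.Z J n) (hB : ∀ y ∈ X.CP I (m + 1), F (X.wD I y) ∈ Y.B J n)
    (c : ℤ → X.V) (hc : c ∈ X.Z I m) :
    descend X Y F hZ hB (X.cls c hc) = Y.cls (F c) (hZ c hc) := rfl

section LES

variable (X : CycMod k)

/-- `J` and `K` are adjacent intervals, `J` below `K`, with union `I` -/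
structure Adj (J K I : Set ℤ) : Prop where
  union : J ∪ K = I
  lt : ∀ j ∈ J, ∀ p ∈ K, j < p
  conn : I.OrdConnected

variable {J K I : Set ℤ} (h : Adj J K I)

include h

theorem Adj.left {p : ℤ} (hp : p ∈ J) : p ∈ I := h.union ▸ Or.inl hp

theorem Adj.right {p : ℤ} (hp : p ∈ K) : p ∈ I := h.union ▸ Or.inr hp

theorem Adj.disj {p : ℤ} (hp : p ∈ J) : p ∉ K := fun hk => lt_irrefl _ (h.lt p hp p hk)

theorem Adj.disj' {p : ℤ} (hp : p ∈ K) : p ∉ J := fun hj => lt_irrefl _ (h.lt p hj p hp)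

theorem Adj.cases {p : ℤ} (hp : p ∈ I) : p ∈ J ∨ p ∈ K := by
  rw [← h.union] at hp
  exact hp

theorem Adj.succ_not {p : ℤ} (hp : p ∈ K) : p + 1 ∉ J := fun hj => by
  have := h.lt _ hj p hp
  omega

theorem Adj.connJ : J.OrdConnected := by
  refine ⟨fun a ha b hb c hc => ?_⟩
  rcases h.cases (h.conn.out (h.left ha) (h.left hb) hc) with h1 | h1
  · exact h1
  · have := h.lt b hb c h1
    have h2 := hc.2
    omega

theorem Adj.connK : K.OrdConnected := by
  refine ⟨fun a ha b hb c hc => ?_⟩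
  rcases h.cases (h.conn.out (h.right ha) (h.right hb) hc) with h1 | h1
  · have := h.lt c h1 a ha
    have h2 := hc.1
    omega
  · exact h1

/-- on elements supported in `J` the differentials of `I` and `J` agree -/
theorem Adj.wD_left (c : ℤ → X.V) (hc : ∀ p, p ∉ J → c p = 0) : X.wD I c = X.wD J c := by
  funext p
  by_cases hp : p ∈ J
  · rw [X.wD_mem _ hp, X.wD_mem _ (h.left hp)]
  · rw [X.wD_not_mem _ hp]
    by_cases hI : p ∈ I
    · have hK : p ∈ K := (h.cases hI).resolve_left hp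
      rw [X.wD_mem _ hI, hc p hp, hc (p + 1) (h.succ_not hK), map_zero, map_zero, add_zero]
    · exact X.wD_not_mem _ hI

/-- the projection on the columns in `K` is a chain map -/
theorem Adj.cut_wD (c : ℤ → X.V) (hc : ∀ p, p ∉ I → c p = 0) :
    X.cut K (X.wD I c) = X.wD K (X.cut K c) := by
  funext p
  by_cases hp : p ∈ K
  · rw [X.cut_mem _ hp, X.wD_mem _ hp, X.wD_mem _ (h.right hp), X.cut_mem _ hp]
    by_cases h1 : p + 1 ∈ K
    · rw [X.cut_mem _ h1]
    · have h2 : p + 1 ∉ I := fun h3 => (h.cases h3).elim (h.succ_not hp) h1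
      rw [X.cut_not_mem _ h1, hc _ h2]
  · rw [X.cut_not_mem _ hp, X.wD_not_mem _ hp]

omit h in
theorem Adj.cut_CP {m : ℤ} (c : ℤ → X.V) (hc : c ∈ X.CP I m) : X.cut K c ∈ X.CP K m := by
  obtain ⟨h1, h2, P, h3⟩ := hc
  refine ⟨fun p => ?_, fun p hp => X.cut_not_mem _ hp, P, fun p hp => ?_⟩
  · by_cases hp : p ∈ K
    · rw [X.cut_mem _ hp]
      exact h1 p
    · rw [X.cut_not_mem _ hp]
      exact Submodule.zero_mem _
  · by_cases hp' : p ∈ K
    · rw [X.cut_mem _ hp', h3 p hp]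
    · exact X.cut_not_mem _ hp'

theorem Adj.left_CP {m : ℤ} {c : ℤ → X.V} (hc : c ∈ X.CP J m) : c ∈ X.CP I m :=
  ⟨hc.1, fun p hp => hc.2.1 p fun h1 => hp (h.left h1), hc.2.2⟩

theorem Adj.right_CP {m : ℤ} {c : ℤ → X.V} (hc : c ∈ X.CP K m) : c ∈ X.CP I m :=
  ⟨hc.1, fun p hp => hc.2.1 p fun h1 => hp (h.right h1), hc.2.2⟩

/-- restriction of the differential of an element supported in `K` -/
theorem Adj.wD_right (c : ℤ → X.V) (hc : ∀ p, p ∉ K → c p = 0) :
    X.wD I c = X.wD J c + X.wD K c := by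
  funext p
  rw [Pi.add_apply]
  by_cases hJ : p ∈ J
  · rw [X.wD_mem _ hJ, X.wD_mem _ (h.left hJ), X.wD_not_mem _ (h.disj hJ), add_zero]
  · by_cases hK : p ∈ K
    · rw [X.wD_mem _ hK, X.wD_mem _ (h.right hK), X.wD_not_mem _ hJ, zero_add]
    · have hI : p ∉ I := fun hI => (h.cases hI).elim hJ hK
      rw [X.wD_not_mem _ hJ, X.wD_not_mem _ hK, X.wD_not_mem _ hI, add_zero]

theorem Adj.wDJ_CP {m : ℤ} {c : ℤ → X.V} (hc : c ∈ X.CP K m) : X.wD J c ∈ X.CP J (m - 1) := by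
  have h1 := X.wD_CP I m (h.right_CP X hc)
  have h2 : X.wD J c = X.wD I c - X.wD K c := by
    rw [h.wD_right X c hc.2.1, add_sub_cancel_right]
  refine ⟨fun p => ?_, fun p hp => X.wD_not_mem _ hp, ?_⟩
  · rw [h2]
    exact Submodule.sub_mem _ (h1.1 p) ((X.wD_CP K m hc).1 p)
  · rw [h2]
    exact (Submodule.sub_mem _ h1 (h.right_CP X (X.wD_CP K m hc))).2.2

/-- inclusion of the lower columns -/
def Adj.inc (m : ℤ) : X.H J m →ₗ[k] X.H I m :=
  descend X X LinearMap.id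
    (fun c hc => ⟨by
      change X.wD I c = 0
      rw [h.wD_left X c hc.2.2.1]
      exact hc.1, h.left_CP X hc.2⟩)
    (fun y hy => ⟨y, h.left_CP X hy, h.wD_left X y hy.2.1⟩)

/-- projection to the upper columns -/
def Adj.pr (m : ℤ) : X.H I m →ₗ[k] X.H K m :=
  descend X X (X.cut K)
    (fun c hc => ⟨by
      change X.wD K (X.cut K c) = 0
      have h1 : X.wD I c = 0 := hc.1
      rw [← h.cut_wD X c hc.2.2.1, h1, map_zero], Adj.cut_CP X c hc.2⟩)
    (fun y hy => ⟨X.cut K y, Adj.cut_CP X y hy, (h.cut_wD X y hy.2.1).symm⟩)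

theorem Adj.wD_anti (c : ℤ → X.V) (hc : ∀ p, p ∉ K → c p = 0) :
    X.wD J (X.wD K c) = - X.wD J (X.wD J c) := by
  have hI : ∀ p, p ∉ I → c p = 0 := fun p hp => hc p fun h1 => hp (h.right h1)
  have h1 := X.wD_wD I h.conn c hI
  rw [h.wD_right X c hc, map_add, h.wD_left X (X.wD J c) (fun p hp => X.wD_not_mem _ hp),
    h.wD_right X (X.wD K c) (fun p hp => X.wD_not_mem _ hp),
    X.wD_wD K h.connK c hc, add_zero] at h1
  exact eq_neg_of_add_eq_zero_right h1

/-- the connecting map -/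
def Adj.del (m : ℤ) : X.H K m →ₗ[k] X.H J (m - 1) :=
  descend X X (X.wD J)
    (fun c hc => ⟨by
      have h1 : X.wD K c = 0 := hc.1
      have h2 := h.wD_anti X c hc.2.2.1
      rw [h1, map_zero] at h2
      change X.wD J (X.wD J c) = 0
      exact (neg_eq_zero.1 h2.symm), h.wDJ_CP X hc.2⟩)
    (fun y hy => ⟨- X.wD J y, by
      have := h.wDJ_CP X hy
      rw [add_sub_cancel_right] at this
      rw [sub_add_cancel]
      exact Submodule.neg_mem _ this, by rw [map_neg, h.wD_anti X y hy.2.1]⟩)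

omit h in
theorem mem_B {I : Set ℤ} {m : ℤ} {c : ℤ → X.V} :
    c ∈ X.B I m ↔ ∃ y ∈ X.CP I (m + 1), X.wD I y = c := Iff.rfl

theorem Adj.pr_inc (m : ℤ) (x : X.H J m) : h.pr X m (h.inc X m x) = 0 := by
  obtain ⟨c, hc, rfl⟩ := X.cls_surj x
  have h1 : X.cut K c = 0 := by
    funext p
    by_cases hp : p ∈ K
    · rw [X.cut_mem _ hp, hc.2.2.1 p (h.disj' hp)]
      rfl
    · exact X.cut_not_mem _ hp
  refine (X.cls_eq_zero _ _).2 ⟨0, Submodule.zero_mem _, ?_⟩
  rw [map_zero]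
  exact h1.symm

theorem Adj.exact_mid (m : ℤ) (x : X.H I m) (hx : h.pr X m x = 0) : ∃ y, h.inc X m y = x := by
  obtain ⟨c, hc, rfl⟩ := X.cls_surj x
  obtain ⟨z, hz, hz0⟩ := (X.cls_eq_zero _ _).1 hx
  have hz1 : X.wD K z = X.cut K c := hz0
  have hzI := h.right_CP X hz
  have h1 : c - X.wD I z ∈ X.CP I m := by
    refine Submodule.sub_mem _ hc.2 ?_
    have := X.wD_CP I (m + 1) hzI
    rwa [add_sub_cancel_right] at this
  have h2 : ∀ p, p ∉ J → (c - X.wD I z) p = 0 := by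
    intro p hp
    by_cases hI : p ∈ I
    · have hK : p ∈ K := (h.cases hI).resolve_left hp
      have h3 := congrFun hz1 p
      rw [X.cut_mem _ hK, X.wD_mem _ hK] at h3
      rw [Pi.sub_apply, X.wD_mem _ hI, h3, sub_self]
    · exact h1.2.1 p hI
  have h3 : c - X.wD I z ∈ X.Z J m := by
    refine ⟨?_, h1.1, h2, h1.2.2⟩
    change X.wD J (c - X.wD I z) = 0
    have hc1 : X.wD I c = 0 := hc.1
    rw [← h.wD_left X _ h2, map_sub, hc1, X.wD_wD I h.conn z hzI.2.1, sub_zero]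
  refine ⟨X.cls _ h3, ?_⟩
  have h4 : h.inc X m (X.cls _ h3) - X.cls c hc = 0 := by
    refine (X.cls_eq_zero (c - X.wD I z - c) _).2 ⟨-z, Submodule.neg_mem _ hzI, ?_⟩
    rw [map_neg]
    abel
  exact sub_eq_zero.1 h4

theorem Adj.del_pr (m : ℤ) (x : X.H I m) : h.del X m (h.pr X m x) = 0 := by
  obtain ⟨c, hc, rfl⟩ := X.cls_surj x
  refine (X.cls_eq_zero (X.wD J (X.cut K c)) _).2 ⟨- X.cut J c, ?_, ?_⟩
  · rw [sub_add_cancel]
    refine Submodule.neg_mem _ ⟨fun p => ?_, fun p hp => X.cut_not_mem _ hp, ?_⟩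
    · by_cases hp : p ∈ J
      · rw [X.cut_mem _ hp]
        exact hc.2.1 p
      · rw [X.cut_not_mem _ hp]
        exact Submodule.zero_mem _
    · obtain ⟨P, hP⟩ := hc.2.2.2
      refine ⟨P, fun p hp => ?_⟩
      by_cases hp' : p ∈ J
      · rw [X.cut_mem _ hp', hP p hp]
      · exact X.cut_not_mem _ hp'
  · have h1 : c = X.cut J c + X.cut K c := by
      funext p
      rw [Pi.add_apply]
      by_cases hJ : p ∈ J
      · rw [X.cut_mem _ hJ, X.cut_not_mem _ (h.disj hJ), add_zero]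
      · by_cases hK : p ∈ K
        · rw [X.cut_mem _ hK, X.cut_not_mem _ hJ, zero_add]
        · rw [X.cut_not_mem _ hJ, X.cut_not_mem _ hK, add_zero]
          exact hc.2.2.1 p fun hI => (h.cases hI).elim hJ hK
    have h2 : X.wD J c = 0 := by
      funext p
      by_cases hJ : p ∈ J
      · have h3 : X.wD I c = 0 := hc.1
        have h4 := congrFun h3 p
        rw [X.wD_mem _ (h.left hJ)] at h4
        rw [X.wD_mem _ hJ]
        exact h4
      · exact X.wD_not_mem _ hJ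
    rw [h1, map_add] at h2
    rw [map_neg]
    exact (eq_neg_of_add_eq_zero_right h2).symm

theorem Adj.exact_right (m : ℤ) (x : X.H K m) (hx : h.del X m x = 0) : ∃ y, h.pr X m y = x := by
  obtain ⟨c, hc, rfl⟩ := X.cls_surj x
  obtain ⟨z, hz, hz0⟩ := (X.cls_eq_zero _ _).1 hx
  have hz1 : X.wD J z = X.wD J c := hz0
  rw [sub_add_cancel] at hz
  have hK0 : X.wD K c = 0 := hc.1
  have h1 : c - z ∈ X.Z I m := by
    refine ⟨?_, Submodule.sub_mem _ (h.right_CP X hc.2) (h.left_CP X hz)⟩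
    change X.wD I (c - z) = 0
    rw [map_sub, h.wD_right X c hc.2.2.1, h.wD_left X z hz.2.1, hz1, hK0, add_zero, sub_self]
  refine ⟨X.cls _ h1, ?_⟩
  have h2 : X.cut K (c - z) = c := by
    funext p
    by_cases hp : p ∈ K
    · rw [X.cut_mem _ hp, Pi.sub_apply, hz.2.1 p (h.disj' hp), sub_zero]
    · rw [X.cut_not_mem _ hp, hc.2.2.1 p hp]
  have h3 : h.pr X m (X.cls (c - z) h1) - X.cls c hc = 0 := by
    refine (X.cls_eq_zero (X.cut K (c - z) - c) _).2 ⟨0, Submodule.zero_mem _, ?_⟩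
    rw [map_zero, h2, sub_self]
  exact sub_eq_zero.1 h3

theorem Adj.inc_del (m : ℤ) (x : X.H K m) : h.inc X (m - 1) (h.del X m x) = 0 := by
  obtain ⟨c, hc, rfl⟩ := X.cls_surj x
  refine (X.cls_eq_zero (X.wD J c) _).2 ⟨c, ?_, ?_⟩
  · rw [sub_add_cancel]
    exact h.right_CP X hc.2
  · have hK0 : X.wD K c = 0 := hc.1
    rw [h.wD_right X c hc.2.2.1, hK0, add_zero]

theorem Adj.exact_left (m : ℤ) (x : X.H J (m - 1)) (hx : h.inc X (m - 1) x = 0) :
    ∃ y, h.del X m y = x := by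
  obtain ⟨c, hc, rfl⟩ := X.cls_surj x
  obtain ⟨z, hz, hz1⟩ := (X.cls_eq_zero _ _).1 hx
  rw [sub_add_cancel] at hz
  have hz1' : X.wD I z = c := hz1
  have h1 : X.cut K z ∈ X.Z K m := by
    refine ⟨?_, Adj.cut_CP X z hz⟩
    change X.wD K (X.cut K z) = 0
    rw [← h.cut_wD X z hz.2.1, hz1']
    funext p
    by_cases hp : p ∈ K
    · rw [X.cut_mem _ hp, hc.2.2.1 p (h.disj' hp)]
      rfl
    · exact X.cut_not_mem _ hp
  refine ⟨X.cls _ h1, ?_⟩
  have hJz : X.cut J z ∈ X.CP J m := by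
    refine ⟨fun p => ?_, fun p hp => X.cut_not_mem _ hp, ?_⟩
    · by_cases hp : p ∈ J
      · rw [X.cut_mem _ hp]
        exact hz.1 p
      · rw [X.cut_not_mem _ hp]
        exact Submodule.zero_mem _
    · obtain ⟨P, hP⟩ := hz.2.2
      refine ⟨P, fun p hp => ?_⟩
      by_cases hp' : p ∈ J
      · rw [X.cut_mem _ hp', hP p hp]
      · exact X.cut_not_mem _ hp'
  have h2 : z = X.cut J z + X.cut K z := by
    funext p
    rw [Pi.add_apply]
    by_cases hJ : p ∈ J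
    · rw [X.cut_mem _ hJ, X.cut_not_mem _ (h.disj hJ), add_zero]
    · by_cases hK : p ∈ K
      · rw [X.cut_mem _ hK, X.cut_not_mem _ hJ, zero_add]
      · rw [X.cut_not_mem _ hJ, X.cut_not_mem _ hK, add_zero]
        exact hz.2.1 p fun hI => (h.cases hI).elim hJ hK
  have h3 : h.del X m (X.cls (X.cut K z) h1) - X.cls c hc = 0 := by
    refine (X.cls_eq_zero (X.wD J (X.cut K z) - c) _).2 ⟨- X.cut J z, ?_, ?_⟩
    · rw [sub_add_cancel]
      exact Submodule.neg_mem _ hJz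
    · have h4 : X.wD J z = c := by
        funext p
        by_cases hJ : p ∈ J
        · have h5 := congrFun hz1' p
          rw [X.wD_mem _ (h.left hJ)] at h5
          rw [X.wD_mem _ hJ]
          exact h5
        · rw [X.wD_not_mem _ hJ, hc.2.2.1 p hJ]
      have h6 : X.wD J z = X.wD J (X.cut J z) + X.wD J (X.cut K z) := by
        rw [← map_add, ← h2]
      rw [map_neg, ← h4, h6]
      abel
  exact sub_eq_zero.1 h3

end LES

end CycMod

end NC
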