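import Mathlib
import Pool.Agent.H94.NC.CycLES

/-!
# Morphisms of graded cyclic modules, shift
-/

set_option autoImplicit false

noncomputable section

namespace NC

namespace CycMod

variable {k : Type} [Field k]

section

variable {X Y : CycMod k} (f : Hom X Y)

/-- the map on families -/
def Hom.fm : (ℤ → X.V) →ₗ[k] (ℤ → Y.V) where
  toFun c p := f.f (c p)
  map_add' c d := by
    funext p
    simp
  map_smul' r c := by
    funext p
    simp

theorem Hom.fm_apply (c : ℤ → X.V) (p : ℤ) : f.fm c p = f.f (c p) := rfl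

theorem Hom.col (p : ℤ) (v : X.V) : f.f (X.col p v) = Y.col p (f.f v) := by
  unfold CycMod.col
  split_ifs
  · exact f.b v
  · rw [LinearMap.neg_apply, LinearMap.neg_apply, map_neg, f.b']

theorem Hom.hor (p : ℤ) (v : X.V) : f.f (X.hor p v) = Y.hor p (f.f v) := by
  unfold CycMod.hor
  split_ifs
  · exact f.N v
  · exact f.T v

theorem Hom.cut (I : Set ℤ) (c : ℤ → X.V) : f.fm (X.cut I c) = Y.cut I (f.fm c) := by
  funext p
  rw [f.fm_apply]
  by_cases hp : p ∈ I
  · rw [X.cut_mem _ hp, Y.cut_mem _ hp, f.fm_apply]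
  · rw [X.cut_not_mem _ hp, Y.cut_not_mem _ hp, map_zero]

theorem Hom.wD (I : Set ℤ) (c : ℤ → X.V) : f.fm (X.wD I c) = Y.wD I (f.fm c) := by
  funext p
  rw [f.fm_apply]
  by_cases hp : p ∈ I
  · rw [X.wD_mem _ hp, Y.wD_mem _ hp, f.fm_apply, f.fm_apply, map_add, f.col, f.hor]
  · rw [X.wD_not_mem _ hp, Y.wD_not_mem _ hp, map_zero]

theorem Hom.CP (I : Set ℤ) (m : ℤ) {c : ℤ → X.V} (hc : c ∈ X.CP I m) : f.fm c ∈ Y.CP I m := by
  obtain ⟨h1, h2, P, h3⟩ := hc
  refine ⟨fun p => f.gr _ _ (h1 p), fun p hp => ?_, P, fun p hp => ?_⟩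
  · rw [f.fm_apply, h2 p hp, map_zero]
  · rw [f.fm_apply, h3 p hp, map_zero]

theorem Hom.Z {I : Set ℤ} {m : ℤ} {c : ℤ → X.V} (hc : c ∈ X.Z I m) : f.fm c ∈ Y.Z I m := by
  refine ⟨?_, f.CP I m hc.2⟩
  have h1 : X.wD I c = 0 := hc.1
  change Y.wD I (f.fm c) = 0
  rw [← f.wD, h1, map_zero]

/-- the map on the homology of windows -/
def Hom.H (I : Set ℤ) (m : ℤ) : X.H I m →ₗ[k] Y.H I m :=
  descend X Y f.fm (fun _ hc => f.Z hc) (fun y hy => ⟨f.fm y, f.CP I _ hy, (f.wD I y).symm⟩)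

theorem Hom.H_cls {I : Set ℤ} {m : ℤ} (c : ℤ → X.V) (hc : c ∈ X.Z I m) :
    f.H I m (X.cls c hc) = Y.cls (f.fm c) (f.Z hc) := rfl

variable {J K I : Set ℤ} (h : Adj J K I)

theorem Adj.inc_nat (m : ℤ) (x : X.H J m) : f.H I m (h.inc X m x) = h.inc Y m (f.H J m x) := by
  obtain ⟨c, hc, rfl⟩ := X.cls_surj x
  rfl

theorem Adj.pr_nat (m : ℤ) (x : X.H I m) : f.H K m (h.pr X m x) = h.pr Y m (f.H I m x) := by
  obtain ⟨c, hc, rfl⟩ := X.cls_surj x
  have h1 : f.fm (X.cut K c) = Y.cut K (f.fm c) := f.cut K c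
  refine sub_eq_zero.1 ((Y.cls_eq_zero (f.fm (X.cut K c) - Y.cut K (f.fm c)) ?_).2
    ⟨0, Submodule.zero_mem _, ?_⟩)
  · rw [h1, sub_self]
    exact Submodule.zero_mem _
  · rw [h1, sub_self, map_zero]

theorem Adj.del_nat (m : ℤ) (x : X.H K m) :
    f.H J (m - 1) (h.del X m x) = h.del Y m (f.H K m x) := by
  obtain ⟨c, hc, rfl⟩ := X.cls_surj x
  have h1 : f.fm (X.wD J c) = Y.wD J (f.fm c) := f.wD J c
  refine sub_eq_zero.1 ((Y.cls_eq_zero (f.fm (X.wD J c) - Y.wD J (f.fm c)) ?_).2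
    ⟨0, Submodule.zero_mem _, ?_⟩)
  · rw [h1, sub_self]
    exact Submodule.zero_mem _
  · rw [h1, sub_self, map_zero]

end

section shift

variable (X : CycMod k)

/-- the set `I - 2 j` -/
def shS (I : Set ℤ) (j : ℤ) : Set ℤ := {p | p + 2 * j ∈ I}

/-- the shift of families by `2 j` -/
def shf (j : ℤ) : (ℤ → X.V) →ₗ[k] (ℤ → X.V) where
  toFun c p := c (p + 2 * j)
  map_add' _ _ := rfl
  map_smul' _ _ := rfl

theorem shf_apply (j : ℤ) (c : ℤ → X.V) (p : ℤ) : X.shf j c p = c (p + 2 * j) := rfl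

theorem col_add (p j : ℤ) : X.col (p + 2 * j) = X.col p := by
  unfold col
  have h : Even (p + 2 * j) ↔ Even p := by
    rw [Int.even_add]
    simp
  simp only [h]

theorem hor_add (p j : ℤ) : X.hor (p + 2 * j) = X.hor p := by
  unfold hor
  have h : Even (p + 2 * j) ↔ Even p := by
    rw [Int.even_add]
    simp
  simp only [h]

theorem shf_wD (I : Set ℤ) (j : ℤ) (c : ℤ → X.V) :
    X.shf j (X.wD I c) = X.wD (shS I j) (X.shf j c) := by
  funext p
  rw [shf_apply]
  by_cases hp : p + 2 * j ∈ I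
  · rw [X.wD_mem _ hp, X.wD_mem (I := shS I j) _ hp, X.shf_apply, X.shf_apply, X.col_add,
      show p + 2 * j + 1 = (p + 1) + 2 * j by ring, X.hor_add]
  · rw [X.wD_not_mem _ hp, X.wD_not_mem (I := shS I j) _ hp]

theorem shf_CP {I : Set ℤ} {m j : ℤ} {c : ℤ → X.V} (hc : c ∈ X.CP I m) :
    X.shf j c ∈ X.CP (shS I j) (m - 2 * j) := by
  obtain ⟨h1, h2, P, h3⟩ := hc
  refine ⟨fun p => ?_, fun p hp => h2 _ hp, P - 2 * j, fun p hp => h3 _ (by omega)⟩
  have := h1 (p + 2 * j)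
  rwa [show m - (p + 2 * j) = m - 2 * j - p by ring] at this

theorem shf_shf (i j : ℤ) (c : ℤ → X.V) : X.shf i (X.shf j c) = X.shf (i + j) c := by
  funext p
  simp only [shf_apply]
  congr 1
  ring

/-- the shift in homology; `I'` is `shS I j` and `n` is `m - 2 j` -/
def sh (I I' : Set ℤ) (m n j : ℤ) (hI : I' = shS I j) (hn : n = m - 2 * j) :
    X.H I m →ₗ[k] X.H I' n :=
  descend X X (X.shf j)
    (fun c hc => by
      subst hI hn
      refine ⟨?_, X.shf_CP hc.2⟩
      have h1 : X.wD I c = 0 := hc.1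
      change X.wD (shS I j) (X.shf j c) = 0
      rw [← X.shf_wD, h1, map_zero])
    (fun y hy => by
      subst hI hn
      refine ⟨X.shf j y, ?_, (X.shf_wD I j y).symm⟩
      have := X.shf_CP (j := j) hy
      rwa [show m + 1 - 2 * j = m - 2 * j + 1 by ring] at this)

theorem sh_bij (I I' : Set ℤ) (m n j : ℤ) (hI : I' = shS I j) (hn : n = m - 2 * j) :
    Function.Bijective (X.sh I I' m n j hI hn) := by
  have hI2 : I = shS I' (-j) := by
    subst hI
    ext p
    unfold shS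
    simp
  have hn2 : m = n - 2 * (-j) := by
    subst hn
    ring
  have key : ∀ x, X.sh I' I n m (-j) hI2 hn2 (X.sh I I' m n j hI hn x) = x := by
    intro x
    obtain ⟨c, hc, rfl⟩ := X.cls_surj x
    refine sub_eq_zero.1 ((X.cls_eq_zero (X.shf (-j) (X.shf j c) - c) ?_).2
      ⟨0, Submodule.zero_mem _, ?_⟩)
    · rw [X.shf_shf]
      have h1 : X.shf (-j + j) c = c := by
        funext p
        rw [X.shf_apply]
        simp
      rw [h1, sub_self]
      exact Submodule.zero_mem _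
    · rw [X.shf_shf]
      have h1 : X.shf (-j + j) c = c := by
        funext p
        rw [X.shf_apply]
        simp
      rw [h1, sub_self, map_zero]
  have key2 : ∀ x, X.sh I I' m n j hI hn (X.sh I' I n m (-j) hI2 hn2 x) = x := by
    intro x
    obtain ⟨c, hc, rfl⟩ := X.cls_surj x
    refine sub_eq_zero.1 ((X.cls_eq_zero (X.shf j (X.shf (-j) c) - c) ?_).2
      ⟨0, Submodule.zero_mem _, ?_⟩)
    · rw [X.shf_shf]
      have h1 : X.shf (j + -j) c = c := by
        funext p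
        rw [X.shf_apply]
        simp
      rw [h1, sub_self]
      exact Submodule.zero_mem _
    · rw [X.shf_shf]
      have h1 : X.shf (j + -j) c = c := by
        funext p
        rw [X.shf_apply]
        simp
      rw [h1, sub_self, map_zero]
  exact ⟨Function.LeftInverse.injective key, Function.RightInverse.surjective key2⟩

theorem sh_nat {X Y : CycMod k} (f : Hom X Y) (I I' : Set ℤ) (m n j : ℤ) (hI : I' = shS I j)
    (hn : n = m - 2 * j) (x : X.H I m) :
    f.H I' n (X.sh I I' m n j hI hn x) = Y.sh I I' m n j hI hn (f.H I m x) := by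
  obtain ⟨c, hc, rfl⟩ := X.cls_surj x
  rfl

end shift

end CycMod

end NC
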