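import Mathlib
import Pool.Agent.H94.NC.CycMap

/-!
# Acyclicity of windows made of acyclic blocks

The blocks are the pairs of columns `2 i, 2 i + 1`.
-/

set_option autoImplicit false

noncomputable section

namespace NC

namespace CycMod

variable {k : Type} [Field k] (X : CycMod k)

/-- the block `i`: the columns `2 i` and `2 i + 1` -/
def blk (i : ℤ) : Set ℤ := Set.Ico (2 * i) (2 * i + 2)

theorem mem_blk {i p : ℤ} : p ∈ blk i ↔ 2 * i ≤ p ∧ p < 2 * i + 2 := Iff.rfl

/-- a window which is a union of blocks -/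
def Sat (I : Set ℤ) : Prop := ∀ i p, p ∈ blk i → p ∈ I → blk i ⊆ I

/-- the state of the recursion: the partial solution `s` is supported in `[2 (i - n), 2 i)` and
solves the equation in the columns `≥ 2 (i - n)` -/
def Good (I : Set ℤ) (m : ℤ) (c : ℤ → X.V) (i n : ℤ) (s : ℤ → X.V) : Prop :=
  s ∈ X.CP I (m + 1) ∧ (∀ p, 2 * i ≤ p → s p = 0) ∧
    (∀ p, 2 * (i - n) ≤ p → (c - X.wD I s) p = 0)

theorem good_step {I : Set ℤ} (hI : Sat I) (hI2 : I.OrdConnected) {m : ℤ}
    (hb : ∀ i, blk i ⊆ I → ∀ c ∈ X.Z (blk i) m, ∃ y ∈ X.CP (blk i) (m + 1), X.wD (blk i) y = c)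
    {c : ℤ → X.V} (hc : c ∈ X.Z I m) (i : ℤ) (n : ℕ) (s : ℤ → X.V) (hs : X.Good I m c i n s) :
    ∃ s', X.Good I m c i ((n + 1 : ℕ) : ℤ) s' ∧ ∀ p, 2 * (i - n) ≤ p → s' p = s p := by
  obtain ⟨h1, h2, h3⟩ := hs
  set j : ℤ := i - n - 1 with hj
  set r := c - X.wD I s with hr
  have hrCP : r ∈ X.CP I m := by
    have := X.wD_CP I (m + 1) h1
    rw [add_sub_cancel_right] at this
    exact Submodule.sub_mem _ hc.2 this
  have hr0 : X.wD I r = 0 := by
    have h4 : X.wD I c = 0 := hc.1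
    rw [hr, map_sub, h4, X.wD_wD I hI2 s h1.2.1, sub_zero]
  have hr3 : ∀ p, 2 * (i - (n : ℤ)) ≤ p → r p = 0 := h3
  by_cases hblk : blk j ⊆ I
  · have hcut : X.cut (blk j) r ∈ X.Z (blk j) m := by
      refine ⟨?_, fun p => ?_, fun p hp => X.cut_not_mem _ hp, ?_⟩
      · change X.wD (blk j) (X.cut (blk j) r) = 0
        funext p
        by_cases hp : p ∈ blk j
        · rw [X.wD_mem _ hp, X.cut_mem _ hp]
          have h5 := congrFun hr0 p
          rw [X.wD_mem _ (hblk hp)] at h5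
          by_cases hp1 : p + 1 ∈ blk j
          · rw [X.cut_mem _ hp1]
            exact h5
          · rw [X.cut_not_mem _ hp1]
            have h6 : r (p + 1) = 0 := by
              apply hr3
              rw [mem_blk] at hp hp1
              omega
            rw [h6] at h5
            exact h5
        · exact X.wD_not_mem _ hp
      · by_cases hp : p ∈ blk j
        · rw [X.cut_mem _ hp]
          exact hrCP.1 p
        · rw [X.cut_not_mem _ hp]
          exact Submodule.zero_mem _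
      · refine ⟨2 * j + 2, fun p hp => X.cut_not_mem _ fun h => ?_⟩
        rw [mem_blk] at h
        omega
    obtain ⟨z, hz, hz1⟩ := hb j hblk _ hcut
    have hzI : z ∈ X.CP I (m + 1) := ⟨hz.1, fun p hp => hz.2.1 p fun h => hp (hblk h), hz.2.2⟩
    refine ⟨s + z, ⟨Submodule.add_mem _ h1 hzI, fun p hp => ?_, fun p hp => ?_⟩, fun p hp => ?_⟩
    · rw [Pi.add_apply, h2 p hp, hz.2.1 p, add_zero]
      rw [mem_blk]
      omega
    · have h7 : (c - X.wD I (s + z)) p = r p - X.wD I z p := by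
        rw [map_add, hr]
        simp only [Pi.sub_apply, Pi.add_apply]
        abel
      rw [h7]
      push_cast at hp
      by_cases hpb : p ∈ blk j
      · have h8 : X.wD I z p = X.wD (blk j) z p := by
          rw [X.wD_mem _ (hblk hpb), X.wD_mem _ hpb]
        rw [h8, hz1, X.cut_mem _ hpb, sub_self]
      · have h9 : 2 * (i - (n : ℤ)) ≤ p := by
          rw [mem_blk] at hpb
          omega
        rw [hr3 p h9, zero_sub, neg_eq_zero]
        by_cases hpI : p ∈ I
        · have h10 : z (p + 1) = 0 := hz.2.1 _ (by rw [mem_blk]; omega)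
          rw [X.wD_mem _ hpI, hz.2.1 p hpb, h10, map_zero, map_zero, add_zero]
        · exact X.wD_not_mem _ hpI
    · rw [Pi.add_apply, hz.2.1 p (by rw [mem_blk]; omega), add_zero]
  · refine ⟨s, ⟨h1, h2, fun p hp => ?_⟩, fun p _ => rfl⟩
    push_cast at hp
    by_cases hp1 : 2 * (i - (n : ℤ)) ≤ p
    · exact hr3 p hp1
    · have hpb : p ∈ blk j := by
        rw [mem_blk]
        omega
      exact hrCP.2.1 p fun hpI => hblk (hI j p hpb hpI)

/-- A window which is a union of blocks is acyclic in degree `m` if all its blocks are. -/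
theorem acyclic {I : Set ℤ} (hI : Sat I) (hI2 : I.OrdConnected) {m : ℤ}
    (hb : ∀ i, blk i ⊆ I → ∀ c ∈ X.Z (blk i) m, ∃ y ∈ X.CP (blk i) (m + 1), X.wD (blk i) y = c)
    {c : ℤ → X.V} (hc : c ∈ X.Z I m) : ∃ y ∈ X.CP I (m + 1), X.wD I y = c := by
  classical
  obtain ⟨P, hP⟩ := hc.2.2.2
  set i : ℤ := P / 2 + 1 with hi
  have h0 : X.Good I m c i 0 0 := by
    refine ⟨Submodule.zero_mem _, fun p _ => rfl, fun p hp => ?_⟩
    rw [map_zero, sub_zero]
    exact hP p (by omega)
  have hrec : ∃ s : ℕ → ℤ → X.V, (∀ n : ℕ, X.Good I m c i n (s n)) ∧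
      ∀ n : ℕ, ∀ p, 2 * (i - n) ≤ p → s (n + 1) p = s n p := by
    choose! F hF1 hF2 using fun (n : ℕ) (s : ℤ → X.V) (hs : X.Good I m c i n s) =>
      X.good_step hI hI2 hb hc i n s hs
    let s : ℕ → ℤ → X.V := fun n => Nat.rec (0 : ℤ → X.V) (fun n s => F n s) n
    have hs : ∀ n : ℕ, X.Good I m c i n (s n) := by
      intro n
      induction n with
      | zero => exact h0
      | succ n ih => exact hF1 n (s n) ih
    exact ⟨s, hs, fun n p hp => hF2 n (s n) (hs n) p hp⟩
  obtain ⟨s, hs, hs2⟩ := hrec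
  have hst : ∀ (n n' : ℕ), n ≤ n' → ∀ p, 2 * (i - n) ≤ p → s n' p = s n p := by
    intro n n' h
    induction h with
    | refl => intro p _; rfl
    | @step l hl ih =>
      intro p hp
      rw [hs2 l p (by have : (n : ℤ) ≤ l := by exact_mod_cast hl
                      omega), ih p hp]
  let N : ℤ → ℕ := fun p => (i - p / 2).toNat
  have hN : ∀ p, 2 * (i - (N p : ℤ)) ≤ p := by
    intro p
    have : i - p / 2 ≤ ((i - p / 2).toNat : ℤ) := Int.self_le_toNat _
    change 2 * (i - ((i - p / 2).toNat : ℤ)) ≤ p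
    omega
  have hN1 : ∀ p, N (p + 1) ≤ N p := by
    intro p
    apply Int.toNat_le_toNat
    omega
  refine ⟨fun p => s (N p) p, ⟨fun p => (hs (N p)).1.1 p, fun p hp => (hs (N p)).1.2.1 p hp,
    2 * i, fun p hp => (hs (N p)).2.1 p hp.le⟩, ?_⟩
  funext p
  by_cases hp : p ∈ I
  · rw [X.wD_mem _ hp]
    have h1 : s (N p) (p + 1) = s (N (p + 1)) (p + 1) := hst _ _ (hN1 p) _ (hN (p + 1))
    have h2 := (hs (N p)).2.2 p (hN p)
    rw [Pi.sub_apply, X.wD_mem _ hp, h1] at h2
    exact (sub_eq_zero.1 h2).symm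
  · rw [X.wD_not_mem _ hp, hc.2.2.1 p hp]

end CycMod

end NC
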