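import Mathlib
import Pool.Agent.H94.NC.CycAcy

/-!
# Isomorphism on the blocks implies isomorphism on all windows; Hochschild homology
-/

set_option autoImplicit false

noncomputable section

namespace NC

namespace CycMod

variable {k : Type} [Field k]

section cone

variable {X Y : CycMod k} (g : Hom X Y)

/-- the mapping cone -/
def cone : CycMod k where
  V := Y.V × X.V
  gr m := (Y.gr m).prod (X.gr (m - 1))
  b := (LinearMap.coprod Y.b g.f).prod (- X.b ∘ₗ LinearMap.snd k Y.V X.V)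
  b' := (LinearMap.coprod Y.b' g.f).prod (- X.b' ∘ₗ LinearMap.snd k Y.V X.V)
  T := Y.T.prodMap X.T
  N := Y.N.prodMap X.N
  bb v := by
    ext <;> simp [Y.bb, X.bb, g.b]
  b'b' v := by
    ext <;> simp [Y.b'b', X.b'b', g.b']
  bT v := by
    ext <;> simp [Y.bT, X.bT, g.T]
  b'N v := by
    ext <;> simp [Y.b'N, X.b'N, g.N]
  TN v := by
    ext <;> simp [Y.TN, X.TN]
  NT v := by
    ext <;> simp [Y.NT, X.NT]
  b_gr m v hv := by
    refine ⟨?_, ?_⟩
    · exact Submodule.add_mem _ (Y.b_gr m _ hv.1) (g.gr _ _ hv.2)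
    · exact Submodule.neg_mem _ (X.b_gr _ _ hv.2)
  b'_gr m v hv := by
    refine ⟨?_, ?_⟩
    · exact Submodule.add_mem _ (Y.b'_gr m _ hv.1) (g.gr _ _ hv.2)
    · exact Submodule.neg_mem _ (X.b'_gr _ _ hv.2)
  T_gr m v hv := ⟨Y.T_gr m _ hv.1, X.T_gr _ _ hv.2⟩
  N_gr m v hv := ⟨Y.N_gr m _ hv.1, X.N_gr _ _ hv.2⟩

/-- the sign of a column -/
def sn (k : Type) [Field k] (p : ℤ) : k := if Even p then 1 else -1

theorem sn_sn (p : ℤ) : sn k p * sn k p = 1 := by
  unfold sn
  split_ifs <;> simp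

theorem sn_succ (p : ℤ) : sn k (p + 1) = - sn k p := by
  unfold sn
  rcases Int.even_or_odd p with h | h
  · have h1 : ¬ Even (p + 1) := by
      rw [Int.not_even_iff_odd]
      exact h.add_one
    simp [h, h1]
  · have h0 : ¬ Even p := by
      rw [Int.not_even_iff_odd]
      exact h
    have h1 : Even (p + 1) := h.add_one
    simp [h0, h1]

/-- the elements of the cone complex, with signs -/
def mkc (y : ℤ → Y.V) (x : ℤ → X.V) : ℤ → (cone g).V := fun p => (y p, sn k p • x p)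

theorem cone_ext (c : ℤ → (cone g).V) :
    c = mkc g (fun p => (c p).1) (fun p => sn k p • (c p).2) := by
  funext p
  unfold mkc
  rw [smul_smul, sn_sn, one_smul]
  rfl

theorem mkc_zero : mkc g (0 : ℤ → Y.V) (0 : ℤ → X.V) = 0 := by
  funext p
  unfold mkc
  simp only [Pi.zero_apply, smul_zero]
  rfl

theorem mkc_inj {y y' : ℤ → Y.V} {x x' : ℤ → X.V} (h : mkc g y x = mkc g y' x') :
    y = y' ∧ x = x' := by
  refine ⟨?_, ?_⟩
  · funext p
    exact congrArg Prod.fst (congrFun h p)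
  · funext p
    have h1 : sn k p • x p = sn k p • x' p := congrArg Prod.snd (congrFun h p)
    have h2 := congrArg (fun z => sn k p • z) h1
    simpa only [smul_smul, sn_sn, one_smul] using h2

theorem mkc_wD (I : Set ℤ) (y : ℤ → Y.V) (x : ℤ → X.V) :
    (cone g).wD I (mkc g y x) = mkc g (Y.wD I y + Y.cut I (g.fm x)) (- X.wD I x) := by
  funext p
  by_cases hp : p ∈ I
  · rw [(cone g).wD_mem _ hp]
    have h1 : mkc g (Y.wD I y + Y.cut I (g.fm x)) (- X.wD I x) p
        = (Y.col p (y p) + Y.hor (p + 1) (y (p + 1)) + g.f (x p),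
          sn k p • -(X.col p (x p) + X.hor (p + 1) (x (p + 1)))) := by
      unfold mkc
      rw [Pi.add_apply, Y.wD_mem _ hp, Y.cut_mem _ hp, Pi.neg_apply, X.wD_mem _ hp, g.fm_apply]
    rw [h1]
    unfold mkc
    rw [sn_succ]
    rcases Int.even_or_odd p with h | h
    · have h2 : ¬ Even (p + 1) := by
        rw [Int.not_even_iff_odd]
        exact h.add_one
      have h3 : sn k p = 1 := by simp [sn, h]
      rw [h3]
      unfold CycMod.col CycMod.hor
      simp only [h, h2, if_true, if_false]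
      refine Prod.ext ?_ ?_
      · change Y.b (y p) + g.f ((1 : k) • x p) + Y.T (y (p + 1))
          = Y.b (y p) + Y.T (y (p + 1)) + g.f (x p)
        rw [one_smul]
        abel
      · change - X.b ((1 : k) • x p) + X.T ((-1 : k) • x (p + 1))
          = (1 : k) • -(X.b (x p) + X.T (x (p + 1)))
        rw [one_smul, one_smul, map_smul, neg_one_smul]
        abel
    · have h0 : ¬ Even p := by
        rw [Int.not_even_iff_odd]
        exact h
      have h2 : Even (p + 1) := h.add_one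
      have h3 : sn k p = -1 := by simp [sn, h0]
      rw [h3]
      unfold CycMod.col CycMod.hor
      simp only [h0, h2, if_true, if_false]
      refine Prod.ext ?_ ?_
      · change -(Y.b' (y p) + g.f ((-1 : k) • x p)) + Y.N (y (p + 1))
          = - Y.b' (y p) + Y.N (y (p + 1)) + g.f (x p)
        rw [map_smul, neg_one_smul]
        abel
      · change -(-(X.b' ((-1 : k) • x p))) + X.N ((- -1 : k) • x (p + 1))
          = (-1 : k) • -(- X.b' (x p) + X.N (x (p + 1)))
        rw [map_smul, neg_one_smul, neg_one_smul, neg_neg, neg_neg, one_smul, neg_neg]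
  · rw [(cone g).wD_not_mem _ hp]
    unfold mkc
    rw [Pi.add_apply, Y.wD_not_mem _ hp, Y.cut_not_mem _ hp, Pi.neg_apply, X.wD_not_mem _ hp,
      neg_zero, smul_zero, add_zero]
    rfl

theorem mkc_CP (I : Set ℤ) (m : ℤ) (y : ℤ → Y.V) (x : ℤ → X.V) (hy : y ∈ Y.CP I m)
    (hx : x ∈ X.CP I (m - 1)) : mkc g y x ∈ (cone g).CP I m := by
  obtain ⟨h1, h2, P, h3⟩ := hy
  obtain ⟨h1', h2', P', h3'⟩ := hx
  refine ⟨fun p => ⟨h1 p, ?_⟩, fun p hp => ?_, max P P', fun p hp => ?_⟩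
  · have := Submodule.smul_mem _ (sn k p) (h1' p)
    rwa [show m - 1 - p = m - p - 1 by ring] at this
  · unfold mkc
    rw [h2 p hp, h2' p hp, smul_zero]
    rfl
  · unfold mkc
    rw [h3 p (lt_of_le_of_lt (le_max_left _ _) hp),
      h3' p (lt_of_le_of_lt (le_max_right _ _) hp), smul_zero]
    rfl

theorem mkc_CP_inv (I : Set ℤ) (m : ℤ) (y : ℤ → Y.V) (x : ℤ → X.V)
    (h : mkc g y x ∈ (cone g).CP I m) : y ∈ Y.CP I m ∧ x ∈ X.CP I (m - 1) := by
  obtain ⟨h1, h2, P, h3⟩ := h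
  have hx : ∀ p, sn k p • (sn k p • x p) = x p := fun p => by rw [smul_smul, sn_sn, one_smul]
  refine ⟨⟨fun p => (h1 p).1, fun p hp => congrArg Prod.fst (h2 p hp), P,
    fun p hp => congrArg Prod.fst (h3 p hp)⟩, fun p => ?_, fun p hp => ?_, P, fun p hp => ?_⟩
  · have := Submodule.smul_mem _ (sn k p) (h1 p).2
    have h4 : sn k p • (sn k p • x p) ∈ X.gr (m - p - 1) := this
    rwa [hx, show m - p - 1 = m - 1 - p by ring] at h4
  · have h4 : sn k p • x p = 0 := congrArg Prod.snd (h2 p hp)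
    rw [← hx p, h4, smul_zero]
  · have h4 : sn k p • x p = 0 := congrArg Prod.snd (h3 p hp)
    rw [← hx p, h4, smul_zero]

theorem cut_self {I : Set ℤ} (c : ℤ → Y.V) (hc : ∀ p, p ∉ I → c p = 0) : Y.cut I c = c := by
  funext p
  by_cases hp : p ∈ I
  · rw [Y.cut_mem _ hp]
  · rw [Y.cut_not_mem _ hp, hc p hp]

/-- acyclic cone in degrees `m` and `m + 1` implies isomorphism in degree `m` -/
theorem bij_of_cone (I : Set ℤ) (m : ℤ)
    (h : ∀ n, ∀ c ∈ (cone g).Z I n, ∃ y ∈ (cone g).CP I (n + 1), (cone g).wD I y = c) :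
    Function.Bijective (g.H I m) := by
  constructor
  · rw [injective_iff_map_eq_zero]
    intro x hx
    obtain ⟨c, hc, rfl⟩ := X.cls_surj x
    obtain ⟨y, hy, hy1⟩ := (Y.cls_eq_zero _ _).1 hx
    have hy2 : Y.wD I y = g.fm c := hy1
    have hc0 : X.wD I c = 0 := hc.1
    have hZ : mkc g y (-c) ∈ (cone g).Z I (m + 1) := by
      refine ⟨?_, mkc_CP g I _ y _ hy ?_⟩
      · change (cone g).wD I _ = 0
        rw [mkc_wD, map_neg, map_neg, map_neg, hc0, hy2, cut_self _ (g.CP I m hc.2).2.1,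
          add_neg_cancel, neg_zero, neg_zero, mkc_zero]
      · rw [add_sub_cancel_right]
        exact Submodule.neg_mem _ hc.2
    obtain ⟨z, hz, hz1⟩ := h _ _ hZ
    rw [cone_ext g z] at hz hz1
    obtain ⟨-, hz2⟩ := mkc_CP_inv g I _ _ _ hz
    rw [mkc_wD] at hz1
    obtain ⟨-, hz3⟩ := mkc_inj g hz1
    refine (X.cls_eq_zero _ _).2 ⟨_, by rwa [add_sub_cancel_right] at hz2, neg_inj.1 hz3⟩
  · intro y
    obtain ⟨c, hc, rfl⟩ := Y.cls_surj y
    have hc0 : Y.wD I c = 0 := hc.1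
    have hZ : mkc g c 0 ∈ (cone g).Z I m := by
      refine ⟨?_, mkc_CP g I _ c _ hc.2 (Submodule.zero_mem _)⟩
      change (cone g).wD I _ = 0
      rw [mkc_wD, hc0, map_zero, map_zero, map_zero, neg_zero, add_zero, mkc_zero]
    obtain ⟨z, hz, hz1⟩ := h _ _ hZ
    rw [cone_ext g z] at hz hz1
    obtain ⟨hz4, hz2⟩ := mkc_CP_inv g I _ _ _ hz
    rw [mkc_wD] at hz1
    obtain ⟨hz5, hz3⟩ := mkc_inj g hz1
    rw [add_sub_cancel_right] at hz2
    have hxZ : (fun p => sn k p • (z p).2) ∈ X.Z I m := ⟨neg_eq_zero.1 hz3, hz2⟩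
    refine ⟨X.cls _ hxZ, ?_⟩
    rw [cut_self _ (g.CP I m hz2).2.1] at hz5
    refine sub_eq_zero.1 ((Y.cls_eq_zero (g.fm (fun p => sn k p • (z p).2) - c) ?_).2
      ⟨- fun p => (z p).1, Submodule.neg_mem _ hz4, ?_⟩)
    · exact Submodule.sub_mem _ (g.Z hxZ) hc
    · rw [map_neg, ← hz5]
      abel

/-- isomorphism implies acyclic cone -/
theorem cone_of_bij (I : Set ℤ) (h : ∀ m, Function.Bijective (g.H I m)) (n : ℤ)
    (c : ℤ → (cone g).V) (hc : c ∈ (cone g).Z I n) :
    ∃ y ∈ (cone g).CP I (n + 1), (cone g).wD I y = c := by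
  rw [cone_ext g c] at hc ⊢
  generalize (fun p => (c p).1) = y at *
  generalize (fun p => sn k p • (c p).2) = x at *
  obtain ⟨hy, hx⟩ := mkc_CP_inv g I _ _ _ hc.2
  have h0 : (cone g).wD I (mkc g y x) = 0 := hc.1
  rw [mkc_wD, ← mkc_zero] at h0
  obtain ⟨h1, h2⟩ := mkc_inj g h0
  rw [cut_self _ (g.CP I _ hx).2.1] at h1
  have hxZ : x ∈ X.Z I (n - 1) := ⟨neg_eq_zero.1 h2, hx⟩
  have h3 : g.H I (n - 1) (X.cls x hxZ) = 0 := by
    refine (Y.cls_eq_zero (g.fm x) _).2 ⟨-y, ?_, ?_⟩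
    · rw [sub_add_cancel]
      exact Submodule.neg_mem _ hy
    · rw [map_neg]
      exact neg_eq_of_add_eq_zero_right h1
  have h4 := (injective_iff_map_eq_zero _).1 (h (n - 1)).1 _ h3
  obtain ⟨x2, hx2, hx3⟩ := (X.cls_eq_zero _ _).1 h4
  rw [sub_add_cancel] at hx2
  have h5 : y + g.fm x2 ∈ Y.Z I n := by
    refine ⟨?_, Submodule.add_mem _ hy (g.CP I _ hx2)⟩
    change Y.wD I _ = 0
    rw [map_add, ← g.wD, hx3, h1]
  obtain ⟨x3, hx4⟩ := (h n).2 (Y.cls _ h5)
  obtain ⟨x4, hx5, rfl⟩ := X.cls_surj x3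
  have h6 : Y.cls (y + g.fm x2 - g.fm x4) (Submodule.sub_mem _ h5 (g.Z hx5)) = 0 := by
    have h7 : Y.cls (y + g.fm x2 - g.fm x4) (Submodule.sub_mem _ h5 (g.Z hx5))
      = Y.cls _ h5 - Y.cls _ (g.Z hx5) := rfl
    rw [h7, ← hx4]
    exact sub_self _
  obtain ⟨y3, hy3, hy4⟩ := (Y.cls_eq_zero _ _).1 h6
  refine ⟨mkc g y3 (x4 - x2), mkc_CP g I _ _ _ hy3 ?_, ?_⟩
  · rw [add_sub_cancel_right]
    exact Submodule.sub_mem _ hx5.2 hx2
  · have hx40 : X.wD I x4 = 0 := hx5.1
    have h8 : g.fm (x4 - x2) ∈ Y.CP I n := g.CP I n (Submodule.sub_mem _ hx5.2 hx2)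
    rw [mkc_wD, cut_self _ h8.2.1, hy4, map_sub, map_sub, hx40, hx3]
    congr 1
    · abel
    · abel

end cone

theorem blk_sat (i : ℤ) : Sat (blk i) := by
  intro j p hp hp'
  have : i = j := by
    rw [mem_blk] at hp hp'
    omega
  rw [this]

theorem blk_conn (i : ℤ) : (blk i).OrdConnected := Set.ordConnected_Ico

theorem univ_sat : Sat Set.univ := fun _ _ _ _ => Set.subset_univ _

theorem Ici_sat : Sat (Set.Ici 0) := by
  intro j p hp hp' q hq
  rw [mem_blk] at hp hq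
  rw [Set.mem_Ici] at hp' ⊢
  omega

theorem Iio_sat : Sat (Set.Iio 0) := by
  intro j p hp hp' q hq
  rw [mem_blk] at hp hq
  rw [Set.mem_Iio] at hp' ⊢
  omega

/-- Isomorphism on the block `0` in all degrees implies isomorphism on every window which is a
union of blocks. -/
theorem bij_window {X Y : CycMod k} (g : Hom X Y) (h : ∀ m, Function.Bijective (g.H (blk 0) m))
    {I : Set ℤ} (hI : Sat I) (hI2 : I.OrdConnected) (m : ℤ) : Function.Bijective (g.H I m) := by
  have hblk : ∀ i m, Function.Bijective (g.H (blk i) m) := by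
    intro i m
    have hS : blk 0 = shS (blk i) i := by
      ext p
      unfold shS
      rw [mem_blk, Set.mem_ofPred_eq, mem_blk]
      omega
    have h1 := X.sh_bij (blk i) (blk 0) m (m - 2 * i) i hS rfl
    have h2 := Y.sh_bij (blk i) (blk 0) m (m - 2 * i) i hS rfl
    have h3 : (g.H (blk 0) (m - 2 * i)) ∘ (X.sh (blk i) (blk 0) m (m - 2 * i) i hS rfl)
        = (Y.sh (blk i) (blk 0) m (m - 2 * i) i hS rfl) ∘ (g.H (blk i) m) := by
      funext x
      exact sh_nat g _ _ _ _ _ _ _ x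
    have h4 : Function.Bijective
        ((Y.sh (blk i) (blk 0) m (m - 2 * i) i hS rfl) ∘ (g.H (blk i) m)) := by
      rw [← h3]
      exact (h _).comp h1
    exact (Function.Bijective.of_comp_iff' h2 _).1 h4
  refine bij_of_cone g I m fun n c hc => ?_
  exact (cone g).acyclic hI hI2 (fun i _ c hc => cone_of_bij g (blk i) (hblk i) n c hc) hc

end CycMod

end NC
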