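import Mathlib

/-!
# Traces in exact sequences
-/

set_option autoImplicit false

noncomputable section

namespace NC

variable {k : Type} [Field k]

theorem trace_ses {A B C : Type} [AddCommGroup A] [Module k A] [AddCommGroup B] [Module k B]
    [AddCommGroup C] [Module k C] [FiniteDimensional k B]
    (α : A →ₗ[k] B) (β : B →ₗ[k] C) (hα : Function.Injective α) (hβ : Function.Surjective β)
    (h0 : ∀ a, β (α a) = 0) (hex : ∀ b, β b = 0 → ∃ a, α a = b)
    (a : A →ₗ[k] A) (b : B →ₗ[k] B) (c : C →ₗ[k] C)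
    (hab : ∀ x, α (a x) = b (α x)) (hbc : ∀ x, β (b x) = c (β x)) :
    LinearMap.trace k B b = LinearMap.trace k A a + LinearMap.trace k C c := by
  have hA : FiniteDimensional k A := FiniteDimensional.of_injective α hα
  have hC : FiniteDimensional k C := FiniteDimensional.of_surjective β hβ
  obtain ⟨s, hs⟩ := LinearMap.exists_rightInverse_of_surjective β (LinearMap.range_eq_top.2 hβ)
  have hs' : ∀ x, β (s x) = x := fun x => LinearMap.congr_fun hs x
  have hr : ∀ x : B, (LinearMap.id - s ∘ₗ β : B →ₗ[k] B) x ∈ LinearMap.range α := by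
    intro x
    obtain ⟨y, hy⟩ := hex (x - s (β x)) (by rw [map_sub, hs', sub_self])
    exact ⟨y, hy⟩
  let e : A ≃ₗ[k] LinearMap.range α := LinearEquiv.ofInjective α hα
  let p : B →ₗ[k] A := e.symm.toLinearMap ∘ₗ (LinearMap.id - s ∘ₗ β).codRestrict _ hr
  have hp : ∀ x, α (p x) = x - s (β x) := by
    intro x
    have h1 : (e (p x) : B) = x - s (β x) := by
      change ((e (e.symm _) : LinearMap.range α) : B) = _
      rw [e.apply_symm_apply]
      rfl
    exact h1
  have hpα : ∀ x, p (α x) = x := by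
    intro x
    apply hα
    rw [hp, h0, map_zero, sub_zero]
  have hb : b = (b ∘ₗ α) ∘ₗ p + (b ∘ₗ s) ∘ₗ β := by
    ext x
    simp only [LinearMap.add_apply, LinearMap.comp_apply]
    rw [← map_add, hp]
    congr 1
    abel
  conv_lhs => rw [hb]
  rw [map_add, LinearMap.trace_comp_comm' p (b ∘ₗ α), LinearMap.trace_comp_comm' β (b ∘ₗ s)]
  congr 2
  · ext x
    simp only [LinearMap.comp_apply]
    rw [← hab, hpα]
  · ext x
    simp only [LinearMap.comp_apply]
    rw [hbc, hs']

/-- the restriction of an endomorphism to the kernel of a map -/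
def kerEnd {V W : Type} [AddCommGroup V] [Module k V] [AddCommGroup W] [Module k W]
    (φ : V →ₗ[k] W) (a : V →ₗ[k] V) (b : W →ₗ[k] W) (h : ∀ x, φ (a x) = b (φ x)) :
    LinearMap.ker φ →ₗ[k] LinearMap.ker φ :=
  a.restrict (fun x hx => by rw [LinearMap.mem_ker] at hx ⊢; rw [h, hx, map_zero])

/-- the restriction of an endomorphism to the range of a map -/
def ranEnd {V W : Type} [AddCommGroup V] [Module k V] [AddCommGroup W] [Module k W]
    (φ : V →ₗ[k] W) (a : V →ₗ[k] V) (b : W →ₗ[k] W) (h : ∀ x, φ (a x) = b (φ x)) :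
    LinearMap.range φ →ₗ[k] LinearMap.range φ :=
  b.restrict (fun x hx => by
    obtain ⟨y, rfl⟩ := hx
    exact ⟨a y, h y⟩)

theorem trace_ker_ran {V W : Type} [AddCommGroup V] [Module k V] [AddCommGroup W] [Module k W]
    [FiniteDimensional k V]
    (φ : V →ₗ[k] W) (a : V →ₗ[k] V) (b : W →ₗ[k] W) (h : ∀ x, φ (a x) = b (φ x)) :
    LinearMap.trace k V a = LinearMap.trace k _ (kerEnd φ a b h)
      + LinearMap.trace k _ (ranEnd φ a b h) := by
  refine trace_ses (LinearMap.ker φ).subtype φ.rangeRestrict (Submodule.injective_subtype _)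
    (LinearMap.surjective_rangeRestrict φ) ?_ ?_ _ _ _ ?_ ?_
  · intro x
    exact Subtype.ext x.2
  · intro x hx
    refine ⟨⟨x, ?_⟩, rfl⟩
    exact congrArg Subtype.val hx
  · intro x
    rfl
  · intro x
    exact Subtype.ext (h x)

/-- traces on two submodules which are equal -/
theorem trace_restrict_congr {V : Type} [AddCommGroup V] [Module k V] (a : V →ₗ[k] V)
    (p q : Submodule k V) (h : p = q) (hp : ∀ x ∈ p, a x ∈ p) (hq : ∀ x ∈ q, a x ∈ q) :
    LinearMap.trace k p (a.restrict hp) = LinearMap.trace k q (a.restrict hq) := by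
  subst h
  rfl

/-- The trace identity of the exact sequence `P → Q → R → P' → Q'` (exact at `Q`, `R`, `P'`). -/
theorem trace_five {P Q R P' Q' : Type} [AddCommGroup P] [Module k P] [AddCommGroup Q] [Module k Q]
    [AddCommGroup R] [Module k R] [AddCommGroup P'] [Module k P'] [AddCommGroup Q'] [Module k Q']
    [FiniteDimensional k P] [FiniteDimensional k Q] [FiniteDimensional k R]
    (I : P →ₗ[k] Q) (S : Q →ₗ[k] R) (d : R →ₗ[k] P') (J : P' →ₗ[k] Q')
    (e1 : LinearMap.range I = LinearMap.ker S) (e2 : LinearMap.range S = LinearMap.ker d)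
    (e3 : LinearMap.range d = LinearMap.ker J)
    (p : P →ₗ[k] P) (q : Q →ₗ[k] Q) (r : R →ₗ[k] R) (p' : P' →ₗ[k] P') (q' : Q' →ₗ[k] Q')
    (h1 : ∀ x, I (p x) = q (I x)) (h2 : ∀ x, S (q x) = r (S x)) (h3 : ∀ x, d (r x) = p' (d x))
    (h4 : ∀ x, J (p' x) = q' (J x)) :
    LinearMap.trace k P p + LinearMap.trace k R r = LinearMap.trace k Q q
      + LinearMap.trace k _ (kerEnd I p q h1) + LinearMap.trace k _ (kerEnd J p' q' h4) := by
  rw [trace_ker_ran I p q h1, trace_ker_ran S q r h2, trace_ker_ran d r p' h3]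
  have hI : LinearMap.trace k _ (ranEnd I p q h1) = LinearMap.trace k _ (kerEnd S q r h2) :=
    trace_restrict_congr q _ _ e1 _ _
  have hS : LinearMap.trace k _ (ranEnd S q r h2) = LinearMap.trace k _ (kerEnd d r p' h3) :=
    trace_restrict_congr r _ _ e2 _ _
  have hd : LinearMap.trace k _ (ranEnd d r p' h3) = LinearMap.trace k _ (kerEnd J p' q' h4) :=
    trace_restrict_congr p' _ _ e3 _ _
  rw [hI, hS, hd]
  ring

end NC
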