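import Mathlib
import Pool.Agent.H94.NC.CycIso
import Pool.Agent.H94.NC.TrLin

/-!
# The supertrace on periodic cyclic homology is the supertrace on Hochschild homology
-/

set_option autoImplicit false

noncomputable section

namespace NC

variable {k : Type} [Field k]

/-- the endomorphism `g⁻¹ f` -/
def zz {V W : Type} [AddCommGroup V] [Module k V] [AddCommGroup W] [Module k W]
    (f g : V →ₗ[k] W) (hg : Function.Bijective g) : V →ₗ[k] V :=
  (LinearEquiv.ofBijective g hg).symm.toLinearMap ∘ₗ f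

theorem zz_spec {V W : Type} [AddCommGroup V] [Module k V] [AddCommGroup W] [Module k W]
    (f g : V →ₗ[k] W) (hg : Function.Bijective g) (x : V) : g (zz f g hg x) = f x :=
  (LinearEquiv.ofBijective g hg).apply_symm_apply (f x)

theorem zz_nat {V W V' W' : Type} [AddCommGroup V] [Module k V] [AddCommGroup W] [Module k W]
    [AddCommGroup V'] [Module k V'] [AddCommGroup W'] [Module k W']
    (f g : V →ₗ[k] W) (hg : Function.Bijective g) (f' g' : V' →ₗ[k] W')
    (hg' : Function.Bijective g') (φ : V →ₗ[k] V') (ψ : W →ₗ[k] W')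
    (hf : ∀ x, ψ (f x) = f' (φ x)) (hgg : ∀ x, ψ (g x) = g' (φ x)) (x : V) :
    φ (zz f g hg x) = zz f' g' hg' (φ x) := by
  apply hg'.1
  rw [zz_spec, ← hgg, zz_spec, hf]

theorem zz_eq {V W : Type} [AddCommGroup V] [Module k V] [AddCommGroup W] [Module k W]
    (f g : V →ₗ[k] W) (hg : Function.Bijective g) (T : V →ₗ[k] V) (hT : ∀ x, g (T x) = f x) :
    T = zz f g hg := by
  ext x
  apply hg.1
  rw [hT, zz_spec]

/-- conjugate endomorphisms have the same trace -/
theorem trace_eq_of_bij {V W : Type} [AddCommGroup V] [Module k V] [AddCommGroup W] [Module k W]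
    (φ : V →ₗ[k] W) (hφ : Function.Bijective φ) (a : V →ₗ[k] V) (b : W →ₗ[k] W)
    (h : ∀ x, φ (a x) = b (φ x)) : LinearMap.trace k V a = LinearMap.trace k W b := by
  rw [← LinearMap.trace_conj' a (LinearEquiv.ofBijective φ hφ)]
  congr 1
  ext x
  rw [LinearEquiv.conj_apply_apply]
  change φ (a ((LinearEquiv.ofBijective φ hφ).symm x)) = b x
  rw [h]
  congr 1
  exact (LinearEquiv.ofBijective φ hφ).apply_symm_apply x

/-- The combinatorial part: alternating sum. -/
theorem alt_sum (h t a : ℤ → k) (lo : ℤ) (hrel : ∀ m, h m + t (m - 2) = t m + a m + a (m - 1))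
    (ht : ∀ m, m < lo → t m = 0) (ha : ∀ m, m < lo → a m = 0) (n : ℕ) :
    ∑ i ∈ Finset.range n, CycMod.sn k (lo + i) * h (lo + i)
      = CycMod.sn k (lo + n - 1) * (t (lo + n - 1) - t (lo + n - 2) + a (lo + n - 1)) := by
  induction n with
  | zero =>
    rw [Finset.sum_range_zero, Nat.cast_zero, add_zero, ht _ (by omega), ht _ (by omega),
      ha _ (by omega)]
    simp
  | succ n ih =>
    rw [Finset.sum_range_succ, ih]
    have h1 := hrel (lo + n)
    have h2 : CycMod.sn k (lo + n) = - CycMod.sn k (lo + n - 1) := by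
      rw [← CycMod.sn_succ]
      congr 1
      ring
    have h3 : lo + ((n + 1 : ℕ) : ℤ) - 1 = lo + n := by push_cast; ring
    have h4 : lo + ((n + 1 : ℕ) : ℤ) - 2 = lo + n - 1 := by push_cast; ring
    rw [h3, h4, h2]
    have h5 : h (lo + n) = t (lo + n) + a (lo + n) + a (lo + n - 1) - t (lo + n - 2) := by
      rw [← h1]
      ring
    rw [h5]
    ring

namespace CycMod

section HH

variable (X : CycMod k)

/-- `b'` is exact -/
def Bex : Prop := ∀ m, ∀ v ∈ X.gr m, X.b' v = 0 → ∃ w ∈ X.gr (m + 1), X.b' w = v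

/-- Hochschild homology -/
def HH (m : ℤ) : Type :=
  ↥(LinearMap.ker X.b ⊓ X.gr m) ⧸ ((X.gr (m + 1)).map X.b).comap
    (LinearMap.ker X.b ⊓ X.gr m).subtype

instance (m : ℤ) : AddCommGroup (X.HH m) := inferInstanceAs (AddCommGroup (_ ⧸ _))
instance (m : ℤ) : Module k (X.HH m) := inferInstanceAs (Module k (_ ⧸ _))

/-- the class of a Hochschild cycle -/
def hcls {m : ℤ} (v : X.V) (hv : v ∈ LinearMap.ker X.b ⊓ X.gr m) : X.HH m :=
  Submodule.mkQ (((X.gr (m + 1)).map X.b).comap (LinearMap.ker X.b ⊓ X.gr m).subtype) ⟨v, hv⟩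

theorem hcls_surj {m : ℤ} (x : X.HH m) :
    ∃ (v : X.V) (hv : v ∈ LinearMap.ker X.b ⊓ X.gr m), X.hcls v hv = x := by
  obtain ⟨c, rfl⟩ := Submodule.mkQ_surjective _ x
  exact ⟨c.1, c.2, rfl⟩

theorem hcls_eq_zero {m : ℤ} (v : X.V) (hv : v ∈ LinearMap.ker X.b ⊓ X.gr m) :
    X.hcls v hv = 0 ↔ ∃ w ∈ X.gr (m + 1), X.b w = v :=
  Submodule.Quotient.mk_eq_zero _

/-- the family with one nonzero term, in column `p` -/
def sing (q : ℤ) : X.V →ₗ[k] (ℤ → X.V) := LinearMap.single k (fun _ => X.V) q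

theorem sing_same (q : ℤ) (v : X.V) : X.sing q v q = v := by
  unfold sing
  simp

theorem sing_ne (q p : ℤ) (h : p ≠ q) (v : X.V) : X.sing q v p = 0 := by
  unfold sing
  simp [h]

theorem sing_CP {q m : ℤ} {v : X.V} (hq : q ∈ blk 0) (hv : v ∈ X.gr (m - q)) :
    X.sing q v ∈ X.CP (blk 0) m := by
  refine ⟨fun p => ?_, fun p hp => X.sing_ne q p (fun h => hp (by rw [h]; exact hq)) v, q, fun p hp =>
    X.sing_ne _ _ (ne_of_gt hp) _⟩
  by_cases h : p = q
  · rw [h, X.sing_same]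
    exact hv
  · rw [X.sing_ne _ _ h]
    exact Submodule.zero_mem _

theorem zero_mem_blk : (0 : ℤ) ∈ blk 0 := by
  rw [mem_blk]
  omega

theorem one_mem_blk : (1 : ℤ) ∈ blk 0 := by
  rw [mem_blk]
  omega

theorem blk_cases {p : ℤ} (hp : p ∈ blk 0) : p = 0 ∨ p = 1 := by
  rw [mem_blk] at hp
  omega

theorem wD_blk (c : ℤ → X.V) (hc : c 2 = 0) :
    X.wD (blk 0) c = X.sing 0 (X.b (c 0) + X.T (c 1)) + X.sing 1 (- X.b' (c 1)) := by
  funext p
  rw [Pi.add_apply]
  by_cases hp : p ∈ blk 0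
  · rw [X.wD_mem _ hp]
    rcases blk_cases hp with rfl | rfl
    · rw [X.sing_same, X.sing_ne 1 0 (by norm_num), add_zero]
      simp [col, hor]
    · rw [X.sing_same, X.sing_ne 0 1 (by norm_num), zero_add]
      have h1 : (1 : ℤ) + 1 = 2 := rfl
      rw [h1, hc, map_zero, add_zero]
      simp [col]
  · rw [X.wD_not_mem _ hp, X.sing_ne, X.sing_ne, add_zero]
    · rintro rfl
      exact hp one_mem_blk
    · rintro rfl
      exact hp zero_mem_blk

/-- from Hochschild homology to the homology of the block `0` -/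
def toBlk (m : ℤ) : X.HH m →ₗ[k] X.H (blk 0) m :=
  Submodule.mapQ _ _ ((X.sing 0).restrict (fun v hv => by
      refine ⟨?_, X.sing_CP zero_mem_blk (by rw [sub_zero]; exact hv.2)⟩
      have h1 : X.b v = 0 := hv.1
      change X.wD (blk 0) (X.sing 0 v) = 0
      rw [X.wD_blk _ (X.sing_ne 0 2 (by norm_num) v), X.sing_same, X.sing_ne 0 1 (by norm_num), h1]
      simp)) (by
    rintro ⟨v, hv⟩ ⟨w, hw, hwv⟩
    refine ⟨X.sing 0 w, X.sing_CP zero_mem_blk (by rw [sub_zero]; exact hw), ?_⟩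
    have h1 : X.b w = v := hwv
    change X.wD (blk 0) (X.sing 0 w) = X.sing 0 v
    rw [X.wD_blk _ (X.sing_ne 0 2 (by norm_num) w), X.sing_same, X.sing_ne 0 1 (by norm_num), h1]
    simp)

theorem blk_form (c : ℤ → X.V) (hc : ∀ p, p ∉ blk 0 → c p = 0) :
    c = X.sing 0 (c 0) + X.sing 1 (c 1) := by
  funext p
  rw [Pi.add_apply]
  by_cases hp : p ∈ blk 0
  · rcases blk_cases hp with rfl | rfl
    · rw [X.sing_same, X.sing_ne 1 0 (by norm_num), add_zero]
    · rw [X.sing_same, X.sing_ne 0 1 (by norm_num), zero_add]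
  · rw [hc p hp, X.sing_ne, X.sing_ne, add_zero]
    · rintro rfl
      exact hp one_mem_blk
    · rintro rfl
      exact hp zero_mem_blk

theorem two_not_mem : (2 : ℤ) ∉ blk 0 := by
  rw [mem_blk]
  omega

theorem toBlk_bij (hX : X.Bex) (m : ℤ) : Function.Bijective (X.toBlk m) := by
  constructor
  · rw [injective_iff_map_eq_zero]
    intro x hx
    obtain ⟨v, hv, rfl⟩ := X.hcls_surj x
    obtain ⟨y, hy, hy1⟩ := (X.cls_eq_zero (X.sing 0 v) _).1 hx
    rw [X.wD_blk _ (hy.2.1 2 two_not_mem)] at hy1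
    have h1 := congrFun hy1 1
    rw [Pi.add_apply, X.sing_same, X.sing_ne 0 1 (by norm_num), X.sing_ne 0 1 (by norm_num),
      zero_add, neg_eq_zero] at h1
    have h0 := congrFun hy1 0
    rw [Pi.add_apply, X.sing_same, X.sing_ne 1 0 (by norm_num), X.sing_same, add_zero] at h0
    have hy11 : y 1 ∈ X.gr m := by
      have := hy.1 1
      rwa [add_sub_cancel_right] at this
    have hy10 : y 0 ∈ X.gr (m + 1) := by
      have := hy.1 0
      rwa [sub_zero] at this
    obtain ⟨w, hw, hw1⟩ := hX m (y 1) hy11 h1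
    refine (X.hcls_eq_zero _ _).2 ⟨y 0 + X.T w, Submodule.add_mem _ hy10 (X.T_gr _ _ hw), ?_⟩
    rw [map_add, X.bT, hw1, h0]
  · intro x
    obtain ⟨c, hc, rfl⟩ := X.cls_surj x
    have hc0 : X.wD (blk 0) c = 0 := hc.1
    have hc0' := hc0
    rw [X.wD_blk _ (hc.2.2.1 2 two_not_mem)] at hc0
    have h1 := congrFun hc0 1
    rw [Pi.add_apply, X.sing_same, X.sing_ne 0 1 (by norm_num), zero_add, Pi.zero_apply,
      neg_eq_zero] at h1
    have h0 := congrFun hc0 0
    rw [Pi.add_apply, X.sing_same, X.sing_ne 1 0 (by norm_num), Pi.zero_apply, add_zero] at h0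
    have hc1 : c 1 ∈ X.gr (m - 1) := hc.2.1 1
    have hcc0 : c 0 ∈ X.gr m := by
      have := hc.2.1 0
      rwa [sub_zero] at this
    obtain ⟨w, hw, hw1⟩ := hX (m - 1) (c 1) hc1 h1
    rw [sub_add_cancel] at hw
    have hv : c 0 + X.T w ∈ LinearMap.ker X.b ⊓ X.gr m := by
      refine ⟨?_, Submodule.add_mem _ hcc0 (X.T_gr _ _ hw)⟩
      change X.b _ = 0
      rw [map_add, X.bT, hw1, h0]
    refine ⟨X.hcls _ hv, ?_⟩
    refine sub_eq_zero.1 ((X.cls_eq_zero (X.sing 0 (c 0 + X.T w) - c) ?_).2 ⟨X.sing 1 w, ?_, ?_⟩)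
    · refine Submodule.sub_mem _ ⟨?_, X.sing_CP zero_mem_blk (by rw [sub_zero]; exact hv.2)⟩ hc
      have h2 : X.b (c 0 + X.T w) = 0 := hv.1
      change X.wD (blk 0) (X.sing 0 _) = 0
      rw [X.wD_blk _ (X.sing_ne 0 2 (by norm_num) _), X.sing_same, X.sing_ne 0 1 (by norm_num), h2]
      simp
    · refine X.sing_CP one_mem_blk ?_
      rwa [add_sub_cancel_right]
    · rw [X.wD_blk _ (X.sing_ne 1 2 (by norm_num) _), X.sing_same, X.sing_ne 1 0 (by norm_num), hw1,
        map_zero, zero_add, map_neg, map_add]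
      have h3 := X.blk_form c hc.2.2.1
      have h4 : X.sing 0 (c 0) + X.sing 0 (X.T w) - c
          = X.sing 0 (c 0) + X.sing 0 (X.T w) - (X.sing 0 (c 0) + X.sing 1 (c 1)) := by rw [← h3]
      rw [h4]
      abel

end HH

/-- the map on Hochschild homology -/
def Hom.HH {X Y : CycMod k} (f : Hom X Y) (m : ℤ) : X.HH m →ₗ[k] Y.HH m :=
  Submodule.mapQ _ _ (f.f.restrict (fun v hv => by
      have h1 : X.b v = 0 := hv.1
      refine ⟨?_, f.gr _ _ hv.2⟩
      change Y.b (f.f v) = 0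
      rw [← f.b, h1, map_zero])) (by
    rintro ⟨v, hv⟩ ⟨w, hw, hwv⟩
    have h1 : X.b w = v := hwv
    refine ⟨f.f w, f.gr _ _ hw, ?_⟩
    change Y.b (f.f w) = f.f v
    rw [← f.b, h1])

theorem Hom.HH_hcls {X Y : CycMod k} (f : Hom X Y) {m : ℤ} (v : X.V)
    (hv : v ∈ LinearMap.ker X.b ⊓ X.gr m) : ∃ h, f.HH m (X.hcls v hv) = Y.hcls (f.f v) h :=
  ⟨by
    have h1 : X.b v = 0 := hv.1
    refine ⟨?_, f.gr _ _ hv.2⟩
    change Y.b (f.f v) = 0
    rw [← f.b, h1, map_zero], rfl⟩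

theorem toBlk_nat {X Y : CycMod k} (f : Hom X Y) (m : ℤ) (x : X.HH m) :
    f.H (blk 0) m (X.toBlk m x) = Y.toBlk m (f.HH m x) := by
  obtain ⟨v, hv, rfl⟩ := X.hcls_surj x
  have h1 : f.fm (X.sing 0 v) = Y.sing 0 (f.f v) := by
    funext p
    rw [f.fm_apply]
    by_cases hp : p = 0
    · rw [hp, X.sing_same, Y.sing_same]
    · rw [X.sing_ne _ _ hp, Y.sing_ne _ _ hp, map_zero]
  refine sub_eq_zero.1 ((Y.cls_eq_zero (f.fm (X.sing 0 v) - Y.sing 0 (f.f v)) ?_).2
    ⟨0, Submodule.zero_mem _, ?_⟩)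
  · rw [h1, sub_self]
    exact Submodule.zero_mem _
  · rw [h1, sub_self, map_zero]

end CycMod

end NC
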