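import Mathlib
import Pool.Agent.H94.NC.CycTr

/-!
# The supertrace on periodic cyclic homology: the theorem
-/

set_option autoImplicit false

noncomputable section

namespace NC

namespace CycMod

variable {k : Type} [Field k]

/-- periodic cyclic homology -/
abbrev HP (X : CycMod k) (m : ℤ) : Type := X.H Set.univ m

/-- the map on periodic cyclic homology -/
abbrev Hom.HP {X Y : CycMod k} (f : Hom X Y) (m : ℤ) : X.HP m →ₗ[k] Y.HP m := f.H Set.univ m

theorem adjC : Adj (blk 0) (Set.Ici 2) (Set.Ici 0) where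
  union := by
    ext p
    rw [Set.mem_union, mem_blk, Set.mem_Ici, Set.mem_Ici]
    omega
  lt := by
    intro j hj p hp
    rw [mem_blk] at hj
    rw [Set.mem_Ici] at hp
    omega
  conn := Set.ordConnected_Ici

theorem adjP : Adj (Set.Iio 0) (Set.Ici 0) Set.univ where
  union := by
    ext p
    rw [Set.mem_union, Set.mem_Iio, Set.mem_Ici]
    simp only [Set.mem_univ, iff_true]
    omega
  lt := by
    intro j hj p hp
    rw [Set.mem_Iio] at hj
    rw [Set.mem_Ici] at hp
    omega
  conn := Set.ordConnected_univ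

theorem Ici2_sat : Sat (Set.Ici 2) := by
  intro j p hp hp' q hq
  rw [mem_blk] at hp hq
  rw [Set.mem_Ici] at hp' ⊢
  omega

theorem shS_Ici : Set.Ici (0 : ℤ) = shS (Set.Ici 2) 1 := by
  ext p
  unfold shS
  rw [Set.mem_Ici, Set.mem_ofPred_eq, Set.mem_Ici]
  omega

theorem shS_univ (j : ℤ) : (Set.univ : Set ℤ) = shS Set.univ j := by
  ext p
  simp [shS]

theorem shS_blk (i : ℤ) : blk 0 = shS (blk i) i := by
  ext p
  unfold shS
  rw [mem_blk, Set.mem_ofPred_eq, mem_blk]
  omega

section vanish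

variable (X : CycMod k) (hX : X.Bex)

include hX

/-- vanishing of a block -/
theorem blk_zero {m i : ℤ} (h : ∀ x : X.HH (m - 2 * i), x = 0) (c : ℤ → X.V)
    (hc : c ∈ X.Z (blk i) m) : ∃ y ∈ X.CP (blk i) (m + 1), X.wD (blk i) y = c := by
  rw [← X.cls_eq_zero c hc]
  apply (X.sh_bij (blk i) (blk 0) m (m - 2 * i) i (shS_blk i) rfl).1
  obtain ⟨x, hx⟩ := (X.toBlk_bij hX (m - 2 * i)).2
    (X.sh (blk i) (blk 0) m (m - 2 * i) i (shS_blk i) rfl (X.cls c hc))
  rw [← hx, h x, map_zero, map_zero]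

theorem HC_zero {lo m : ℤ} (h : ∀ n, n < lo → ∀ x : X.HH n, x = 0) (hm : m < lo)
    (x : X.H (Set.Ici 0) m) : x = 0 := by
  obtain ⟨c, hc, rfl⟩ := X.cls_surj x
  rw [X.cls_eq_zero]
  refine X.acyclic Ici_sat Set.ordConnected_Ici (fun i hi c hc => X.blk_zero hX (h _ ?_) c hc) hc
  have h1 : (2 * i : ℤ) ∈ Set.Ici (0 : ℤ) := hi (by rw [mem_blk]; omega)
  rw [Set.mem_Ici] at h1
  omega

theorem Iio_zero {hi m : ℤ} (h : ∀ n, hi < n → ∀ x : X.HH n, x = 0) (hm : hi ≤ m + 1)
    (x : X.H (Set.Iio 0) m) : x = 0 := by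
  obtain ⟨c, hc, rfl⟩ := X.cls_surj x
  rw [X.cls_eq_zero]
  refine X.acyclic Iio_sat Set.ordConnected_Iio (fun i hi c hc => X.blk_zero hX (h _ ?_) c hc) hc
  have h1 : (2 * i : ℤ) ∈ Set.Iio (0 : ℤ) := hi (by rw [mem_blk]; omega)
  rw [Set.mem_Iio] at h1
  omega

/-- periodic cyclic homology is cyclic homology in high degrees -/
theorem HP_HC {hi m : ℤ} (h : ∀ n, hi < n → ∀ x : X.HH n, x = 0) (hm : hi ≤ m) :
    Function.Bijective (adjP.pr X m) := by
  constructor
  · rw [injective_iff_map_eq_zero]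
    intro x hx
    obtain ⟨y, rfl⟩ := adjP.exact_mid X m x hx
    rw [X.Iio_zero hX h (by omega) y, map_zero]
  · intro x
    apply adjP.exact_right X m x
    exact X.Iio_zero hX h (by omega) _

end vanish

section main

variable {A E : CycMod k} (hA : A.Bex) (hE : E.Bex) (f g : Hom A E)
  (hg : ∀ m, Function.Bijective (g.HH m))

include hA hE hg

theorem blk_bij (m : ℤ) : Function.Bijective (g.H (blk 0) m) := by
  have h1 := A.toBlk_bij hA m
  have h2 := E.toBlk_bij hE m
  have h3 : (g.H (blk 0) m) ∘ (A.toBlk m) = (E.toBlk m) ∘ (g.HH m) := by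
    funext x
    exact toBlk_nat g m x
  have h4 : Function.Bijective ((g.H (blk 0) m) ∘ (A.toBlk m)) := by
    rw [h3]
    exact h2.comp (hg m)
  exact (Function.Bijective.of_comp_iff _ h1).1 h4

theorem win_bij {I : Set ℤ} (hI : Sat I) (hI2 : I.OrdConnected) (m : ℤ) :
    Function.Bijective (g.H I m) :=
  bij_window g (blk_bij hA hE g hg) hI hI2 m

/-- **The supertrace on periodic cyclic homology is the supertrace on Hochschild homology.** -/
theorem str_HP (lo : ℤ) (N : ℕ) (hlo : ∀ m, m < lo → ∀ x : A.HH m, x = 0)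
    (hhi : ∀ m, lo + N ≤ m → ∀ x : A.HH m, x = 0)
    (hfd : ∀ m, FiniteDimensional k (A.HH m))
    (T : ∀ m, A.HH m →ₗ[k] A.HH m) (hT : ∀ m x, g.HH m (T m x) = f.HH m x)
    (S : ∀ m, A.HP m →ₗ[k] A.HP m) (hS : ∀ m x, g.HP m (S m x) = f.HP m x) :
    (∀ m, FiniteDimensional k (A.HP m)) ∧
    LinearMap.trace k _ (S 0) - LinearMap.trace k _ (S 1)
      = ∑ i ∈ Finset.range N, sn k (lo + i) * LinearMap.trace k _ (T (lo + i)) := by
  have hB := fun m => blk_bij hA hE g hg m
  have hC := fun m => win_bij hA hE g hg Ici_sat Set.ordConnected_Ici m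
  have hR := fun m => win_bij hA hE g hg Ici2_sat Set.ordConnected_Ici m
  have hP := fun m => win_bij hA hE g hg univ_sat Set.ordConnected_univ m
  -- the endomorphisms
  let tB := fun m => zz (f.H (blk 0) m) (g.H (blk 0) m) (hB m)
  let tC := fun m => zz (f.H (Set.Ici 0) m) (g.H (Set.Ici 0) m) (hC m)
  let tR := fun m => zz (f.H (Set.Ici 2) m) (g.H (Set.Ici 2) m) (hR m)
  let tP := fun m => zz (f.H Set.univ m) (g.H Set.univ m) (hP m)
  have hinc : ∀ m x, adjC.inc A m (tB m x) = tC m (adjC.inc A m x) := fun m x =>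
    zz_nat _ _ _ _ _ _ (adjC.inc A m) (adjC.inc E m) (fun y => (adjC.inc_nat f m y).symm)
      (fun y => (adjC.inc_nat g m y).symm) x
  have hpr : ∀ m x, adjC.pr A m (tC m x) = tR m (adjC.pr A m x) := fun m x =>
    zz_nat _ _ _ _ _ _ (adjC.pr A m) (adjC.pr E m) (fun y => (adjC.pr_nat f m y).symm)
      (fun y => (adjC.pr_nat g m y).symm) x
  have hdel : ∀ m x, adjC.del A m (tR m x) = tB (m - 1) (adjC.del A m x) := fun m x =>
    zz_nat _ _ _ _ _ _ (adjC.del A m) (adjC.del E m) (fun y => (adjC.del_nat f m y).symm)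
      (fun y => (adjC.del_nat g m y).symm) x
  -- blocks
  have hBfd : ∀ m, FiniteDimensional k (A.H (blk 0) m) := fun m =>
    have := hfd m
    FiniteDimensional.of_surjective (A.toBlk m) (A.toBlk_bij hA m).2
  have hBtr : ∀ m, LinearMap.trace k _ (T m) = LinearMap.trace k _ (tB m) := fun m =>
    trace_eq_of_bij (A.toBlk m) (A.toBlk_bij hA m) _ _ (fun x => by
      rw [zz_eq _ _ (hg m) (T m) (hT m)]
      exact zz_nat _ _ _ _ _ _ (A.toBlk m) (E.toBlk m) (fun y => (toBlk_nat f m y).symm)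
        (fun y => (toBlk_nat g m y).symm) x)
  -- shift
  have hsh : ∀ m, Function.Bijective (A.sh (Set.Ici 2) (Set.Ici 0) m (m - 2) 1 shS_Ici (by ring)) :=
    fun m => A.sh_bij _ _ _ _ _ _ _
  have hRtr : ∀ m, LinearMap.trace k _ (tR m) = LinearMap.trace k _ (tC (m - 2)) := fun m =>
    trace_eq_of_bij _ (hsh m) _ _ (fun x =>
      zz_nat _ _ _ _ _ _ (A.sh (Set.Ici 2) (Set.Ici 0) m (m - 2) 1 shS_Ici (by ring))
        (E.sh (Set.Ici 2) (Set.Ici 0) m (m - 2) 1 shS_Ici (by ring))
        (fun y => (sh_nat f _ _ _ _ _ _ _ y).symm) (fun y => (sh_nat g _ _ _ _ _ _ _ y).symm) x)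
  -- finite dimension of HC
  have hCfd' : ∀ n : ℕ, ∀ m, m < lo + n → FiniteDimensional k (A.H (Set.Ici 0) m) := by
    intro n
    induction n with
    | zero =>
      intro m hm
      have : Subsingleton (A.H (Set.Ici 0) m) :=
        ⟨fun x y => by rw [A.HC_zero hA hlo (by simpa using hm) x,
          A.HC_zero hA hlo (by simpa using hm) y]⟩
      infer_instance
    | succ n ih =>
      intro m hm
      have h1 := ih (m - 2) (by push_cast at hm; omega)
      have h2 : FiniteDimensional k (A.H (Set.Ici 2) m) :=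
        FiniteDimensional.of_injective _ (hsh m).1
      have h3 := hBfd m
      have hI : FiniteDimensional k (LinearMap.range (adjC.inc A m)) := inferInstance
      have hQ : FiniteDimensional k (LinearMap.range (adjC.pr A m)) := inferInstance
      have hK : LinearMap.ker (adjC.pr A m) = LinearMap.range (adjC.inc A m) := by
        ext x
        constructor
        · intro hx
          exact adjC.exact_mid A m x hx
        · rintro ⟨y, rfl⟩
          exact adjC.pr_inc A m y
      have hKfd : FiniteDimensional k (LinearMap.ker (adjC.pr A m)) := by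
        rw [hK]
        exact hI
      have hq : Module.Finite k (A.H (Set.Ici 0) m ⧸ LinearMap.ker (adjC.pr A m)) :=
        Module.Finite.equiv (adjC.pr A m).quotKerEquivRange.symm
      exact Module.Finite.of_submodule_quotient (LinearMap.ker (adjC.pr A m))
  have hCfd : ∀ m, FiniteDimensional k (A.H (Set.Ici 0) m) := fun m =>
    hCfd' (m - lo + 1).toNat m (by have := Int.self_le_toNat (m - lo + 1); omega)
  have hRfd : ∀ m, FiniteDimensional k (A.H (Set.Ici 2) m) := fun m =>
    have := hCfd (m - 2)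
    FiniteDimensional.of_injective _ (hsh m).1
  -- the alternating sum
  let a : ℤ → k := fun m => LinearMap.trace k _ (kerEnd (adjC.inc A m) (tB m) (tC m) (hinc m))
  have hrel : ∀ m, LinearMap.trace k _ (T m) + LinearMap.trace k _ (tC (m - 2))
      = LinearMap.trace k _ (tC m) + a m + a (m - 1) := by
    intro m
    have := hBfd m
    have := hCfd m
    have := hRfd m
    rw [hBtr, ← hRtr]
    refine trace_five (adjC.inc A m) (adjC.pr A m) (adjC.del A m) (adjC.inc A (m - 1)) ?_ ?_ ?_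
      (tB m) (tC m) (tR m) (tB (m - 1)) (tC (m - 1)) (hinc m) (hpr m) (hdel m) (hinc (m - 1))
    · ext x
      constructor
      · rintro ⟨y, rfl⟩
        exact adjC.pr_inc A m y
      · intro hx
        exact adjC.exact_mid A m x hx
    · ext x
      constructor
      · rintro ⟨y, rfl⟩
        exact adjC.del_pr A m y
      · intro hx
        exact adjC.exact_right A m x hx
    · ext x
      constructor
      · rintro ⟨y, rfl⟩
        exact adjC.inc_del A m y
      · intro hx
        exact adjC.exact_left A m x hx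
  have htr0 : ∀ (V : Type) [AddCommGroup V] [Module k V] (b : V →ₗ[k] V), (∀ x : V, x = 0) →
      LinearMap.trace k V b = 0 := by
    intro V _ _ b hV
    have : b = 0 := by
      ext x
      rw [hV (b x)]
      rfl
    rw [this, map_zero]
  have ht : ∀ m, m < lo → LinearMap.trace k _ (tC m) = 0 := fun m hm =>
    htr0 _ _ (fun x => A.HC_zero hA hlo hm x)
  have hB0 : ∀ m, (∀ x : A.HH m, x = 0) → ∀ x : A.H (blk 0) m, x = 0 := fun m h x => by
    obtain ⟨y, rfl⟩ := (A.toBlk_bij hA m).2 x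
    rw [h y, map_zero]
  have ha : ∀ m, (∀ x : A.HH m, x = 0) → a m = 0 := fun m h =>
    htr0 _ _ (fun x => Subtype.ext (hB0 m h x.1))
  have hh0 : ∀ m, (∀ x : A.HH m, x = 0) → LinearMap.trace k _ (T m) = 0 := fun m h => htr0 _ _ h
  have hsum := alt_sum (fun m => LinearMap.trace k _ (T m)) (fun m => LinearMap.trace k _ (tC m))
    a lo hrel ht (fun m hm => ha m (hlo m hm))
  -- the periodic side
  have hPP : ∀ m j, LinearMap.trace k _ (tP m) = LinearMap.trace k _ (tP (m - 2 * j)) := fun m j =>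
    trace_eq_of_bij _ (A.sh_bij Set.univ Set.univ m (m - 2 * j) j (shS_univ j) rfl) _ _ (fun x =>
      zz_nat _ _ _ _ _ _ (A.sh Set.univ Set.univ m (m - 2 * j) j (shS_univ j) rfl)
        (E.sh Set.univ Set.univ m (m - 2 * j) j (shS_univ j) rfl)
        (fun y => (sh_nat f _ _ _ _ _ _ _ y).symm) (fun y => (sh_nat g _ _ _ _ _ _ _ y).symm) x)
  have hhi' : ∀ n, lo + N - 1 < n → ∀ x : A.HH n, x = 0 := fun n hn => hhi n (by omega)
  have hPC : ∀ m, lo + N - 1 ≤ m → LinearMap.trace k _ (tP m) = LinearMap.trace k _ (tC m) :=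
    fun m hm => trace_eq_of_bij _ (A.HP_HC hA hhi' hm) _ _ (fun x =>
      zz_nat _ _ _ _ _ _ (adjP.pr A m) (adjP.pr E m) (fun y => (adjP.pr_nat f m y).symm)
        (fun y => (adjP.pr_nat g m y).symm) x)
  have hPfd : ∀ m, FiniteDimensional k (A.HP m) := by
    intro m
    obtain ⟨j, hj⟩ : ∃ j : ℤ, lo + N - 1 ≤ m - 2 * j := ⟨-|lo + N - 1 - m|, by
      have := le_abs_self (lo + N - 1 - m)
      have := abs_nonneg (lo + N - 1 - m)
      omega⟩
    have h1 := hCfd (m - 2 * j)
    have h2 : FiniteDimensional k (A.HP (m - 2 * j)) :=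
      FiniteDimensional.of_injective _ (A.HP_HC hA hhi' hj).1
    exact FiniteDimensional.of_injective _
      (A.sh_bij Set.univ Set.univ m (m - 2 * j) j (shS_univ j) rfl).1
  refine ⟨hPfd, ?_⟩
  have hS' : ∀ m, S m = tP m := fun m => zz_eq _ _ (hP m) (S m) (hS m)
  rw [hS' 0, hS' 1]
  -- choose a large even degree `M = lo + n - 2`
  obtain ⟨n, hn1, hn2⟩ : ∃ n : ℕ, N + 2 ≤ n ∧ Even (lo + n) := by
    rcases Int.even_or_odd (lo + (N + 2 : ℕ)) with h | h
    · exact ⟨N + 2, le_refl _, h⟩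
    · refine ⟨N + 3, by omega, ?_⟩
      have := h.add_one
      rwa [show lo + ((N + 2 : ℕ) : ℤ) + 1 = lo + ((N + 3 : ℕ) : ℤ) by push_cast; ring] at this
  obtain ⟨q, hq⟩ := hn2
  have e0 : LinearMap.trace k _ (tP 0) = LinearMap.trace k _ (tC (lo + n - 2)) := by
    have h1 := hPP (lo + n - 2) (q - 1)
    rw [show lo + n - 2 - 2 * (q - 1) = 0 by omega] at h1
    rw [← h1, hPC _ (by omega)]
  have e1 : LinearMap.trace k _ (tP 1) = LinearMap.trace k _ (tC (lo + n - 1)) := by
    have h1 := hPP (lo + n - 1) (q - 1)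
    rw [show lo + n - 1 - 2 * (q - 1) = 1 by omega] at h1
    rw [← h1, hPC _ (by omega)]
  have hs := hsum n
  have hodd : ¬ Even (lo + n - 1) := by
    rw [hq, Int.not_even_iff_odd]
    exact ⟨q - 1, by ring⟩
  have hsn : sn k (lo + n - 1) = -1 := by simp [sn, hodd]
  rw [ha (lo + n - 1) (hhi _ (by omega)), hsn] at hs
  rw [e0, e1]
  have hsplit : ∑ i ∈ Finset.range n, sn k (lo + i) * LinearMap.trace k _ (T (lo + i))
      = ∑ i ∈ Finset.range N, sn k (lo + i) * LinearMap.trace k _ (T (lo + i)) := by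
    symm
    apply Finset.sum_subset
    · intro i hi
      rw [Finset.mem_range] at hi ⊢
      omega
    · intro i _ hi
      rw [Finset.mem_range, not_lt] at hi
      rw [hh0 _ (hhi _ (by omega)), mul_zero]
  rw [← hsplit, hs]
  ring

end main

end CycMod

end NC
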