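import Mathlib
import Pool.Agent.H94.NC.CycTr

/-!
# Total Hochschild homology and its graded pieces

`X : CycMod k` with `X.gr` an internal grading.  `X.HT` is the total homology of `(V, b)`,
`X.HH m` the homology in degree `m`.  `P` is the projection of `V` on the elements of even degree.

Proofs.  A cycle `z` decomposes in homogeneous components `z_m`, and `b z_m` is the component of
degree `m - 1` of `b z = 0`; if `z_m`, homogeneous of degree `m`, is `b y` then it is `b y_(m+1)`.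
Hence `X.HT` is the internal direct sum of the (injective) images of the `X.HH m`.
-/

set_option autoImplicit false

noncomputable section

namespace NC

namespace CycMod

variable {k : Type} [Field k]

/-! ### components -/

/-- the family of components of a vector -/
def cps {V : Type} [AddCommGroup V] [Module k V] {g : ℤ → Submodule k V}
    (h : DirectSum.IsInternal g) : V →ₗ[k] (ℤ → V) :=
  DirectSum.toModule k ℤ (ℤ → V) (fun i => LinearMap.single k (fun _ => V) i ∘ₗ (g i).subtype) ∘ₗ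
    (LinearEquiv.ofBijective (DirectSum.coeLinearMap g) h).symm.toLinearMap

theorem cps_apply {V : Type} [AddCommGroup V] [Module k V] {g : ℤ → Submodule k V}
    (h : DirectSum.IsInternal g) {i : ℤ} {v : V} (hv : v ∈ g i) :
    cps h v = LinearMap.single k (fun _ => V) i v := by
  have e : (LinearEquiv.ofBijective (DirectSum.coeLinearMap g) h).symm v
      = DirectSum.lof k ℤ (fun i => g i) i ⟨v, hv⟩ := by
    rw [LinearEquiv.symm_apply_eq]
    change v = DirectSum.coeLinearMap g (DirectSum.lof k ℤ (fun i => g i) i ⟨v, hv⟩)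
    rw [DirectSum.coeLinearMap_lof]
  unfold cps
  rw [LinearMap.comp_apply]
  change DirectSum.toModule k ℤ (ℤ → V) _
    ((LinearEquiv.ofBijective (DirectSum.coeLinearMap g) h).symm v) = _
  rw [e, DirectSum.toModule_lof]
  rfl

/-- the component of degree `m` -/
def pj {V : Type} [AddCommGroup V] [Module k V] {g : ℤ → Submodule k V}
    (h : DirectSum.IsInternal g) (m : ℤ) : V →ₗ[k] V := LinearMap.proj m ∘ₗ cps h

theorem pj_same {V : Type} [AddCommGroup V] [Module k V] {g : ℤ → Submodule k V}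
    (h : DirectSum.IsInternal g) {m : ℤ} {v : V} (hv : v ∈ g m) : pj h m v = v := by
  unfold pj
  rw [LinearMap.comp_apply, cps_apply h hv]
  simp

theorem pj_ne {V : Type} [AddCommGroup V] [Module k V] {g : ℤ → Submodule k V}
    (h : DirectSum.IsInternal g) {m i : ℤ} {v : V} (hv : v ∈ g i) (hi : i ≠ m) :
    pj h m v = 0 := by
  unfold pj
  rw [LinearMap.comp_apply, cps_apply h hv]
  simp [hi.symm]

theorem mem_int {V : Type} [AddCommGroup V] [Module k V]
    {g : ℤ → Submodule k V} (h : DirectSum.IsInternal g) (S : Submodule k V)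
    (hS : ∀ i, g i ≤ S) (v : V) : v ∈ S := by
  have h1 : iSup g = ⊤ := h.submodule_iSup_eq_top
  have h2 : iSup g ≤ S := iSup_le hS
  rw [h1] at h2
  exact h2 trivial

theorem eq_int {V W : Type} [AddCommGroup V] [Module k V] [AddCommGroup W] [Module k W]
    {g : ℤ → Submodule k V} (h : DirectSum.IsInternal g) (φ ψ : V →ₗ[k] W)
    (hS : ∀ i, ∀ v ∈ g i, φ v = ψ v) (v : V) : φ v = ψ v :=
  mem_int h (LinearMap.eqLocus φ ψ) hS v

theorem pj_mem {V : Type} [AddCommGroup V] [Module k V] {g : ℤ → Submodule k V}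
    (h : DirectSum.IsInternal g) (m : ℤ) (v : V) : pj h m v ∈ g m := by
  refine mem_int h ((g m).comap (pj h m)) (fun i v hv => ?_) v
  change pj h m v ∈ g m
  by_cases hi : i = m
  · subst hi
    rw [pj_same h hv]
    exact hv
  · rw [pj_ne h hv hi]
    exact Submodule.zero_mem _

theorem pj_comm {V W : Type} [AddCommGroup V] [Module k V] [AddCommGroup W] [Module k W]
    {g : ℤ → Submodule k V} (h : DirectSum.IsInternal g) {g' : ℤ → Submodule k W}
    (h' : DirectSum.IsInternal g') (f : V →ₗ[k] W) (c : ℤ)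
    (hf : ∀ m, ∀ v ∈ g m, f v ∈ g' (m - c)) (m : ℤ) (v : V) :
    pj h' (m - c) (f v) = f (pj h m v) := by
  refine eq_int h (pj h' (m - c) ∘ₗ f) (f ∘ₗ pj h m) (fun i v hv => ?_) v
  rw [LinearMap.comp_apply, LinearMap.comp_apply]
  by_cases hi : i = m
  · subst hi
    rw [pj_same h hv, pj_same h' (hf _ _ hv)]
  · rw [pj_ne h hv hi, pj_ne h' (hf _ _ hv) (fun h1 => hi (by omega)), map_zero]

theorem pj_sum {V : Type} [AddCommGroup V] [Module k V] {g : ℤ → Submodule k V}
    (h : DirectSum.IsInternal g) (v : V) :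
    ∃ s : Finset ℤ, ∀ t : Finset ℤ, s ⊆ t → v = ∑ m ∈ t, pj h m v := by
  classical
  let S : Submodule k V :=
    { carrier := {v | ∃ s : Finset ℤ, ∀ t : Finset ℤ, s ⊆ t → v = ∑ m ∈ t, pj h m v}
      add_mem' := by
        rintro a b ⟨s, hs⟩ ⟨s', hs'⟩
        refine ⟨s ∪ s', fun t ht => ?_⟩
        have h1 := hs t (Finset.union_subset_left ht)
        have h2 := hs' t (Finset.union_subset_right ht)
        simp only [map_add, Finset.sum_add_distrib]
        rw [← h1, ← h2]
      zero_mem' := ⟨∅, fun t _ => by simp⟩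
      smul_mem' := by
        rintro c a ⟨s, hs⟩
        refine ⟨s, fun t ht => ?_⟩
        have h1 := hs t ht
        simp only [map_smul, ← Finset.smul_sum]
        rw [← h1] }
  refine mem_int h S (fun i v hv => ⟨{i}, fun t ht => ?_⟩) v
  rw [Finset.sum_eq_single i]
  · rw [pj_same h hv]
  · intro j _ hj
    exact pj_ne h hv (Ne.symm hj)
  · intro hi
    exact absurd (ht (Finset.mem_singleton_self i)) hi

section

variable (X : CycMod k)

/-- the total homology of `(V, b)` -/
def HT : Type := ↥(LinearMap.ker X.b) ⧸ (LinearMap.range X.b).comap (LinearMap.ker X.b).subtype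

instance : AddCommGroup X.HT := inferInstanceAs (AddCommGroup (_ ⧸ _))
instance : Module k X.HT := inferInstanceAs (Module k (_ ⧸ _))

/-- the class of a cycle -/
def tcls (v : X.V) (hv : X.b v = 0) : X.HT :=
  Submodule.mkQ ((LinearMap.range X.b).comap (LinearMap.ker X.b).subtype) ⟨v, hv⟩

theorem tcls_surj (x : X.HT) : ∃ (v : X.V) (hv : X.b v = 0), X.tcls v hv = x := by
  obtain ⟨c, rfl⟩ := Submodule.mkQ_surjective _ x
  exact ⟨c.1, c.2, rfl⟩

theorem tcls_eq_zero (v : X.V) (hv : X.b v = 0) : X.tcls v hv = 0 ↔ ∃ w, X.b w = v :=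
  Submodule.Quotient.mk_eq_zero _

/-- the inclusion of the part of degree `m` -/
def hinc (m : ℤ) : X.HH m →ₗ[k] X.HT :=
  Submodule.mapQ _ _ (Submodule.inclusion inf_le_left) (by
    rintro ⟨v, hv⟩ ⟨w, _, hwv⟩
    exact ⟨w, hwv⟩)

theorem b_pj (hX : DirectSum.IsInternal X.gr) (m : ℤ) (v : X.V) :
    X.b (pj hX m v) = pj hX (m - 1) (X.b v) :=
  (pj_comm hX hX X.b 1 X.b_gr m v).symm

/-- the projection of the total homology on the part of degree `m` -/
def hprj (hX : DirectSum.IsInternal X.gr) (m : ℤ) : X.HT →ₗ[k] X.HH m :=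
  Submodule.mapQ _ _ ((pj hX m).restrict (fun v hv => by
      have h1 : X.b v = 0 := hv
      refine ⟨?_, pj_mem hX m v⟩
      change X.b (pj hX m v) = 0
      rw [X.b_pj hX, h1, map_zero])) (by
    rintro ⟨v, hv⟩ ⟨w, hwv⟩
    have h1 : X.b w = v := hwv
    refine ⟨pj hX (m + 1) w, pj_mem hX _ w, ?_⟩
    change X.b (pj hX (m + 1) w) = pj hX m v
    rw [X.b_pj hX, h1]
    congr 2
    ring)

theorem hprj_tcls (hX : DirectSum.IsInternal X.gr) (m : ℤ) (v : X.V) (hv : X.b v = 0) :
    ∃ h, X.hprj hX m (X.tcls v hv) = X.hcls (pj hX m v) h :=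
  ⟨⟨by
      change X.b (pj hX m v) = 0
      rw [X.b_pj hX, hv, map_zero], pj_mem hX m v⟩, rfl⟩

theorem hcls_congr {m : ℤ} {v w : X.V} (hv : v ∈ LinearMap.ker X.b ⊓ X.gr m)
    (hw : w ∈ LinearMap.ker X.b ⊓ X.gr m) (h : v = w) : X.hcls v hv = X.hcls w hw := by
  subst h
  rfl

theorem tcls_congr {v w : X.V} (hv : X.b v = 0)
    (hw : X.b w = 0) (h : v = w) : X.tcls v hv = X.tcls w hw := by
  subst h
  rfl

theorem hinc_hcls {m : ℤ} (v : X.V) (hv : v ∈ LinearMap.ker X.b ⊓ X.gr m) :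
    X.hinc m (X.hcls v hv) = X.tcls v hv.1 := rfl

theorem hprj_hinc (hX : DirectSum.IsInternal X.gr) (m : ℤ) (x : X.HH m) :
    X.hprj hX m (X.hinc m x) = x := by
  obtain ⟨v, hv, rfl⟩ := X.hcls_surj x
  rw [X.hinc_hcls]
  obtain ⟨h, hh⟩ := X.hprj_tcls hX m v hv.1
  rw [hh]
  exact X.hcls_congr _ _ (pj_same hX hv.2)

theorem hprj_hinc_ne (hX : DirectSum.IsInternal X.gr) {m i : ℤ} (hi : i ≠ m) (x : X.HH i) :
    X.hprj hX m (X.hinc i x) = 0 := by
  obtain ⟨v, hv, rfl⟩ := X.hcls_surj x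
  rw [X.hinc_hcls]
  obtain ⟨h, hh⟩ := X.hprj_tcls hX m v hv.1
  rw [hh]
  exact (X.hcls_eq_zero _ _).2 ⟨0, Submodule.zero_mem _, by rw [map_zero, pj_ne hX hv.2 hi]⟩

theorem hinc_inj (hX : DirectSum.IsInternal X.gr) (m : ℤ) : Function.Injective (X.hinc m) :=
  Function.LeftInverse.injective (X.hprj_hinc hX m)

theorem ht_sum (hX : DirectSum.IsInternal X.gr) (x : X.HT) :
    ∃ s : Finset ℤ, x = ∑ m ∈ s, X.hinc m (X.hprj hX m x) := by
  obtain ⟨v, hv, rfl⟩ := X.tcls_surj x
  obtain ⟨s, hs⟩ := pj_sum hX v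
  refine ⟨s, ?_⟩
  have h1 : ∀ m, X.b (pj hX m v) = 0 := fun m => by rw [X.b_pj hX, hv, map_zero]
  have h2 : ∀ m, X.hinc m (X.hprj hX m (X.tcls v hv)) = X.tcls (pj hX m v) (h1 m) := by
    intro m
    obtain ⟨h, hh⟩ := X.hprj_tcls hX m v hv
    rw [hh, X.hinc_hcls]
  have h3 : (⟨v, hv⟩ : ↥(LinearMap.ker X.b)) = ∑ m ∈ s, ⟨pj hX m v, h1 m⟩ := by
    apply Subtype.ext
    rw [AddSubmonoidClass.coe_finsetSum]
    exact hs s (Finset.Subset.refl s)
  simp only [h2]
  unfold tcls
  rw [h3, map_sum]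
  rfl

theorem hinc_internal (hX : DirectSum.IsInternal X.gr) :
    DirectSum.IsInternal (fun m => LinearMap.range (X.hinc m)) := by
  have key : ∀ (x : DirectSum ℤ (fun m => LinearMap.range (X.hinc m))) (m : ℤ),
      X.hinc m (X.hprj hX m (DirectSum.coeAddMonoidHom (fun m => LinearMap.range (X.hinc m)) x))
        = (x m : X.HT) := by
    intro x m
    induction x using DirectSum.induction_on with
    | zero => simp
    | of i y =>
      rw [DirectSum.coeAddMonoidHom_of]
      obtain ⟨y, z, rfl⟩ := y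
      by_cases h : i = m
      · subst h
        rw [X.hprj_hinc, DirectSum.of_eq_same]
      · rw [X.hprj_hinc_ne hX h, DirectSum.of_eq_of_ne _ _ _ (Ne.symm h), map_zero]
        rfl
    | add x y hx hy =>
      rw [map_add, map_add, map_add, hx, hy, DirectSum.add_apply]
      rfl
  constructor
  · rw [injective_iff_map_eq_zero]
    intro x hx
    ext m
    rw [← key x m, hx, map_zero, map_zero]
    rfl
  · intro x
    obtain ⟨s, hs⟩ := X.ht_sum hX x
    refine ⟨∑ m ∈ s, DirectSum.of (fun m => LinearMap.range (X.hinc m)) m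
      ⟨X.hinc m (X.hprj hX m x), ⟨_, rfl⟩⟩, ?_⟩
    rw [map_sum]
    conv_rhs => rw [hs]
    refine Finset.sum_congr rfl (fun m _ => ?_)
    rw [DirectSum.coeAddMonoidHom_of]

end

/-- the map on total homology -/
def Hom.HT {X Y : CycMod k} (f : Hom X Y) : X.HT →ₗ[k] Y.HT :=
  Submodule.mapQ _ _ (f.f.restrict (fun v hv => by
      have h1 : X.b v = 0 := hv
      change Y.b (f.f v) = 0
      rw [← f.b, h1, map_zero])) (by
    rintro ⟨v, hv⟩ ⟨w, hwv⟩
    have h1 : X.b w = v := hwv
    refine ⟨f.f w, ?_⟩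
    change Y.b (f.f w) = f.f v
    rw [← f.b, h1])

theorem hinc_nat {X Y : CycMod k} (f : Hom X Y) (m : ℤ) (x : X.HH m) :
    f.HT (X.hinc m x) = Y.hinc m (f.HH m x) := by
  obtain ⟨v, hv, rfl⟩ := X.hcls_surj x
  rfl

theorem hprj_nat {X Y : CycMod k} (hX : DirectSum.IsInternal X.gr)
    (hY : DirectSum.IsInternal Y.gr) (f : Hom X Y) (m : ℤ) (x : X.HT) :
    Y.hprj hY m (f.HT x) = f.HH m (X.hprj hX m x) := by
  obtain ⟨v, hv, rfl⟩ := X.tcls_surj x
  have h1 : Y.b (f.f v) = 0 := by rw [← f.b, hv, map_zero]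
  have h2 : f.HT (X.tcls v hv) = Y.tcls (f.f v) h1 := rfl
  obtain ⟨h, hh⟩ := X.hprj_tcls hX m v hv
  obtain ⟨h', hh'⟩ := Y.hprj_tcls hY m (f.f v) h1
  obtain ⟨h3, hh3⟩ := f.HH_hcls (pj hX m v) h
  rw [h2, hh, hh', hh3]
  refine Y.hcls_congr _ _ ?_
  have := pj_comm hX hY f.f 0 (fun m v hv => by rw [sub_zero]; exact f.gr m v hv) m v
  rwa [sub_zero] at this

/-- isomorphism on the total homology implies isomorphism in every degree -/
theorem HH_bij {X Y : CycMod k} (hX : DirectSum.IsInternal X.gr) (hY : DirectSum.IsInternal Y.gr)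
    (f : Hom X Y) (h : Function.Bijective f.HT) (m : ℤ) : Function.Bijective (f.HH m) := by
  constructor
  · intro x y hxy
    apply X.hinc_inj hX m
    apply h.1
    rw [hinc_nat, hinc_nat, hxy]
  · intro y
    obtain ⟨z, hz⟩ := h.2 (Y.hinc m y)
    refine ⟨X.hprj hX m z, ?_⟩
    rw [← hprj_nat hX hY, hz, Y.hprj_hinc hY]

/-- finite dimensional total homology -/
theorem HH_fin {X : CycMod k} (hX : DirectSum.IsInternal X.gr) [FiniteDimensional k X.HT] :
    (∀ m, FiniteDimensional k (X.HH m)) ∧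
      ∃ (lo : ℤ) (N : ℕ), (∀ m, m < lo → ∀ x : X.HH m, x = 0) ∧
        (∀ m, lo + N ≤ m → ∀ x : X.HH m, x = 0) := by
  refine ⟨fun m => FiniteDimensional.of_injective (X.hinc m) (X.hinc_inj hX m), ?_⟩
  have hfin : {m : ℤ | LinearMap.range (X.hinc m) ≠ ⊥}.Finite :=
    WellFoundedGT.finite_ne_bot_of_iSupIndep (X.hinc_internal hX).submodule_iSupIndep
  obtain ⟨lo, hlo⟩ := hfin.bddBelow
  obtain ⟨hi, hhi⟩ := hfin.bddAbove
  have hz : ∀ m, m ∉ {m : ℤ | LinearMap.range (X.hinc m) ≠ ⊥} → ∀ x : X.HH m, x = 0 := by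
    intro m hm x
    have h1 : LinearMap.range (X.hinc m) = ⊥ := by
      by_contra h
      exact hm h
    have h2 : X.hinc m x ∈ LinearMap.range (X.hinc m) := ⟨x, rfl⟩
    rw [h1, Submodule.mem_bot] at h2
    exact X.hinc_inj hX m (by rw [h2, map_zero])
  refine ⟨lo, (hi - lo + 1).toNat, fun m hm => hz m (fun h => ?_), fun m hm => hz m (fun h => ?_)⟩
  · have := hlo h
    omega
  · have := hhi h
    omega

/-- The supertrace on the total homology; `E` is the parity automorphism of the total homology. -/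
theorem str_HT {A Y : CycMod k} (hA : DirectSum.IsInternal A.gr) (f g : Hom A Y)
    (hg : Function.Bijective g.HT) [FiniteDimensional k A.HT]
    (E : A.HT →ₗ[k] A.HT) (hE : ∀ m x, E (A.hinc m x) = sn k m • A.hinc m x)
    (lo : ℤ) (N : ℕ) (hlo : ∀ m, m < lo → ∀ x : A.HH m, x = 0)
    (hhi : ∀ m, lo + N ≤ m → ∀ x : A.HH m, x = 0)
    (T : ∀ m, A.HH m →ₗ[k] A.HH m) (hT : ∀ m x, g.HH m (T m x) = f.HH m x)
    (t : A.HT →ₗ[k] A.HT) (ht : ∀ x, g.HT (t x) = f.HT x) :
    LinearMap.trace k _ (E ∘ₗ t)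
      = ∑ i ∈ Finset.range N, sn k (lo + i) * LinearMap.trace k _ (T (lo + i)) := by
  classical
  have ht1 : ∀ m x, t (A.hinc m x) = A.hinc m (T m x) := by
    intro m x
    apply hg.1
    rw [ht, hinc_nat, hinc_nat, hT]
  have hEt : ∀ m x, (E ∘ₗ t) (A.hinc m x) = A.hinc m (sn k m • T m x) := by
    intro m x
    rw [LinearMap.comp_apply, ht1, hE, map_smul]
  have hint := A.hinc_internal hA
  have hfin : {m : ℤ | LinearMap.range (A.hinc m) ≠ ⊥}.Finite :=
    WellFoundedGT.finite_ne_bot_of_iSupIndep hint.submodule_iSupIndep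
  have hmaps : ∀ m, Set.MapsTo (E ∘ₗ t) (LinearMap.range (A.hinc m))
      (LinearMap.range (A.hinc m)) := by
    rintro m _ ⟨x, rfl⟩
    rw [hEt]
    exact ⟨_, rfl⟩
  rw [LinearMap.trace_eq_sum_trace_restrict' hint hfin hmaps]
  have htr : ∀ m, LinearMap.trace k (LinearMap.range (A.hinc m)) ((E ∘ₗ t).restrict (hmaps m))
      = sn k m * LinearMap.trace k _ (T m) := by
    intro m
    rw [← smul_eq_mul, ← map_smul]
    symm
    refine trace_eq_of_bij (A.hinc m).rangeRestrict ⟨?_, LinearMap.surjective_rangeRestrict _⟩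
      (sn k m • T m) _ (fun x => ?_)
    · intro x y hxy
      apply A.hinc_inj hA m
      exact congrArg Subtype.val hxy
    · apply Subtype.ext
      change A.hinc m ((sn k m • T m) x) = (E ∘ₗ t) (A.hinc m x)
      rw [hEt]
      rfl
  rw [Finset.sum_congr rfl (fun m _ => htr m)]
  have hinj : Function.Injective (fun i : ℕ => lo + (i : ℤ)) := by
    intro i j hij
    have : lo + (i : ℤ) = lo + (j : ℤ) := hij
    omega
  rw [← Finset.sum_image (f := fun m => sn k m * LinearMap.trace k _ (T m))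
    (g := fun i : ℕ => lo + (i : ℤ)) (fun i _ j _ hij => hinj hij)]
  have hzero : ∀ m, (∀ x : A.HH m, x = 0) → sn k m * LinearMap.trace k _ (T m) = 0 := by
    intro m hm
    have : T m = 0 := by
      ext x
      rw [hm (T m x), LinearMap.zero_apply]
    rw [this, map_zero, mul_zero]
  have hrange : ∀ m, (∀ x : A.HH m, x = 0) → LinearMap.range (A.hinc m) = ⊥ := by
    intro m hm
    rw [eq_bot_iff]
    rintro _ ⟨x, rfl⟩
    rw [hm x, map_zero]
    exact Submodule.zero_mem _
  refine Finset.sum_subset ?_ ?_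
  · intro m hm
    rw [Set.Finite.mem_toFinset] at hm
    have h1 : lo ≤ m := by
      by_contra h
      exact hm (hrange m (hlo m (not_le.1 h)))
    have h2 : m < lo + N := by
      by_contra h
      exact hm (hrange m (hhi m (not_lt.1 h)))
    rw [Finset.mem_image]
    exact ⟨(m - lo).toNat, Finset.mem_range.2 (by omega), by omega⟩
  · intro m _ hm
    rw [Set.Finite.mem_toFinset] at hm
    refine hzero m (fun x => ?_)
    have h1 : LinearMap.range (A.hinc m) = ⊥ := by
      by_contra h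
      exact hm h
    have h2 : A.hinc m x ∈ LinearMap.range (A.hinc m) := ⟨x, rfl⟩
    rw [h1, Submodule.mem_bot] at h2
    exact A.hinc_inj hA m (by rw [h2, map_zero])

end CycMod

end NC
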