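import Mathlib
import Pool.Agent.H94.NC.CycStr
import Pool.Agent.H94.NC.GrTot

/-!
# Bounds for the dimension of periodic cyclic homology
-/

set_option autoImplicit false

noncomputable section

namespace NC

namespace CycMod

variable {k : Type} [Field k] (X : CycMod k) (hX : X.Bex)
include hX

/-- the basic inequality -/
theorem HC_step (m : ℤ) [FiniteDimensional k (X.HH m)]
    [FiniteDimensional k (X.H (Set.Ici 0) (m - 2))] :
    FiniteDimensional k (X.H (Set.Ici 0) m) ∧
    Module.finrank k (X.H (Set.Ici 0) m)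
      ≤ Module.finrank k (X.HH m) + Module.finrank k (X.H (Set.Ici 0) (m - 2)) := by
  have hB : FiniteDimensional k (X.H (blk 0) m) :=
    FiniteDimensional.of_surjective (X.toBlk m) (X.toBlk_bij hX m).2
  have hBr : Module.finrank k (X.H (blk 0) m) = Module.finrank k (X.HH m) :=
    (LinearEquiv.ofBijective (X.toBlk m) (X.toBlk_bij hX m)).finrank_eq.symm
  have hsh : Function.Bijective (X.sh (Set.Ici 2) (Set.Ici 0) m (m - 2) 1 shS_Ici (by ring)) :=
    X.sh_bij _ _ _ _ _ _ _
  have hR : FiniteDimensional k (X.H (Set.Ici 2) m) := FiniteDimensional.of_injective _ hsh.1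
  have hRr : Module.finrank k (X.H (Set.Ici 2) m)
      = Module.finrank k (X.H (Set.Ici 0) (m - 2)) :=
    (LinearEquiv.ofBijective _ hsh).finrank_eq
  have hK : LinearMap.ker (adjC.pr X m) = LinearMap.range (adjC.inc X m) := by
    ext x
    constructor
    · intro hx
      exact adjC.exact_mid X m x hx
    · rintro ⟨y, rfl⟩
      exact adjC.pr_inc X m y
  have hI : FiniteDimensional k (LinearMap.range (adjC.inc X m)) := inferInstance
  have hKfd : FiniteDimensional k (LinearMap.ker (adjC.pr X m)) := by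
    rw [hK]
    exact hI
  have hq : Module.Finite k (X.H (Set.Ici 0) m ⧸ LinearMap.ker (adjC.pr X m)) :=
    Module.Finite.equiv (adjC.pr X m).quotKerEquivRange.symm
  have hfd : FiniteDimensional k (X.H (Set.Ici 0) m) :=
    Module.Finite.of_submodule_quotient (LinearMap.ker (adjC.pr X m))
  refine ⟨hfd, ?_⟩
  have h1 := LinearMap.finrank_range_add_finrank_ker (adjC.pr X m)
  have h2 : Module.finrank k (LinearMap.ker (adjC.pr X m)) ≤ Module.finrank k (X.HH m) := by
    rw [hK, ← hBr]
    exact LinearMap.finrank_range_le _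
  have h3 : Module.finrank k (LinearMap.range (adjC.pr X m))
      ≤ Module.finrank k (X.H (Set.Ici 0) (m - 2)) := by
    rw [← hRr]
    exact Submodule.finrank_le _
  omega

variable (lo : ℤ) (hlo : ∀ m, m < lo → ∀ x : X.HH m, x = 0)
  (hfd : ∀ m, FiniteDimensional k (X.HH m))
include hlo hfd

theorem HC_dim (n : ℕ) : FiniteDimensional k (X.H (Set.Ici 0) (lo + n - 1)) ∧
    FiniteDimensional k (X.H (Set.Ici 0) (lo + n)) ∧
    Module.finrank k (X.H (Set.Ici 0) (lo + n))
      ≤ ∑ i ∈ (Finset.range (n + 1)).filter (fun i => (i + n) % 2 = 0),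
          Module.finrank k (X.HH (lo + i)) ∧
    Module.finrank k (X.H (Set.Ici 0) (lo + n - 1))
      ≤ ∑ i ∈ (Finset.range (n + 1)).filter (fun i => (i + n) % 2 = 1),
          Module.finrank k (X.HH (lo + i)) := by
  have hz : ∀ m, m < lo → Subsingleton (X.H (Set.Ici 0) m) := fun m hm =>
    ⟨fun x y => by rw [X.HC_zero hX hlo hm x, X.HC_zero hX hlo hm y]⟩
  induction n with
  | zero =>
    have s1 := hz (lo + (0 : ℕ) - 1) (by push_cast; omega)
    have s2 := hz (lo + (0 : ℕ) - 2) (by push_cast; omega)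
    have i1 : FiniteDimensional k (X.H (Set.Ici 0) (lo + (0 : ℕ) - 2)) := inferInstance
    have i2 := hfd (lo + (0 : ℕ))
    have h := X.HC_step hX (lo + (0 : ℕ))
    refine ⟨inferInstance, h.1, ?_, ?_⟩
    · refine h.2.trans ?_
      rw [Module.finrank_zero_of_subsingleton (M := X.H (Set.Ici 0) (lo + (0 : ℕ) - 2)),
        add_zero]
      have e : (Finset.range (0 + 1)).filter (fun i => (i + 0) % 2 = 0) = {0} := by decide
      rw [e, Finset.sum_singleton]
    · rw [Module.finrank_zero_of_subsingleton]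
      exact Nat.zero_le _
  | succ n ih =>
    obtain ⟨i1, i2, h1, h2⟩ := ih
    have e1 : lo + ((n + 1 : ℕ) : ℤ) - 2 = lo + n - 1 := by push_cast; ring
    have e2 : lo + ((n + 1 : ℕ) : ℤ) - 1 = lo + n := by push_cast; ring
    have i3 : FiniteDimensional k (X.H (Set.Ici 0) (lo + ((n + 1 : ℕ) : ℤ) - 2)) := by
      rw [e1]
      exact i1
    have i4 := hfd (lo + ((n + 1 : ℕ) : ℤ))
    have h := X.HC_step hX (lo + ((n + 1 : ℕ) : ℤ))
    rw [e2]
    refine ⟨i2, h.1, ?_, ?_⟩
    · refine h.2.trans ?_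
      rw [e1, Finset.range_add_one, Finset.filter_insert, if_pos (by omega),
        Finset.sum_insert (by simp)]
      refine Nat.add_le_add_left (h2.trans (le_of_eq ?_)) _
      refine Finset.sum_congr ?_ (fun _ _ => rfl)
      ext i
      simp only [Finset.mem_filter, Finset.mem_range]
      omega
    · refine h1.trans ?_
      refine Finset.sum_le_sum_of_subset ?_
      intro i
      simp only [Finset.mem_filter, Finset.mem_range]
      omega

theorem HP_dim (N : ℕ) (hhi : ∀ m, lo + N ≤ m → ∀ x : X.HH m, x = 0) :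
    FiniteDimensional k (X.HP 0) ∧ Module.finrank k (X.HP 0)
      ≤ ∑ i ∈ (Finset.range N).filter (fun i : ℕ => Even (lo + i)),
          Module.finrank k (X.HH (lo + i)) := by
  obtain ⟨n, hn1, q, hq⟩ : ∃ n : ℕ, N ≤ n ∧ Even (lo + n) := by
    rcases Int.even_or_odd (lo + (N : ℕ)) with h | h
    · exact ⟨N, le_refl _, h⟩
    · refine ⟨N + 1, by omega, ?_⟩
      have := h.add_one
      rwa [show lo + (N : ℤ) + 1 = lo + ((N + 1 : ℕ) : ℤ) by push_cast; ring] at this
  obtain ⟨-, i1, h1, -⟩ := X.HC_dim hX lo hlo hfd n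
  have hhi' : ∀ m, lo + N - 1 < m → ∀ x : X.HH m, x = 0 := fun m hm => hhi m (by omega)
  have hb := X.HP_HC hX hhi' (m := lo + n) (by omega)
  have hs := X.sh_bij Set.univ Set.univ (lo + n) 0 q (shS_univ q) (by omega)
  let e : X.HP 0 ≃ₗ[k] X.H (Set.Ici 0) (lo + n) :=
    (LinearEquiv.ofBijective _ hs).symm.trans (LinearEquiv.ofBijective _ hb)
  refine ⟨FiniteDimensional.of_injective e.toLinearMap e.injective, ?_⟩
  rw [e.finrank_eq]
  refine h1.trans ?_
  have hz : ∀ i : ℕ, N ≤ i → Module.finrank k (X.HH (lo + i)) = 0 := fun i hi => by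
    have : Subsingleton (X.HH (lo + i)) := ⟨fun x y => by
      rw [hhi _ (by omega) x, hhi _ (by omega) y]⟩
    exact Module.finrank_zero_of_subsingleton
  rw [← Finset.sum_filter_add_sum_filter_not _ (fun i => i < N)]
  have h2 : ∑ i ∈ ((Finset.range (n + 1)).filter (fun i => (i + n) % 2 = 0)).filter
      (fun i => ¬ i < N), Module.finrank k (X.HH (lo + i)) = 0 := by
    refine Finset.sum_eq_zero (fun i hi => hz i ?_)
    rw [Finset.mem_filter] at hi
    omega
  rw [h2, add_zero]
  refine Finset.sum_le_sum_of_subset ?_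
  intro i
  simp only [Finset.mem_filter, Finset.mem_range]
  rintro ⟨⟨-, h3⟩, h4⟩
  refine ⟨h4, ?_⟩
  rw [Int.even_iff]
  omega

/-- The even part of the total Hochschild homology bounds the even part of periodic cyclic
homology. -/
theorem HP_dim_le (hgr : DirectSum.IsInternal X.gr) (N : ℕ)
    (hhi : ∀ m, lo + N ≤ m → ∀ x : X.HH m, x = 0)
    (Z : Submodule k X.HT) [FiniteDimensional k Z]
    (hZ : ∀ m, Even m → ∀ x : X.HH m, X.hinc m x ∈ Z) :
    FiniteDimensional k (X.HP 0) ∧ Module.finrank k (X.HP 0) ≤ Module.finrank k Z := by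
  obtain ⟨h1, h2⟩ := X.HP_dim hX lo hlo hfd N hhi
  refine ⟨h1, h2.trans ?_⟩
  let s := (Finset.range N).filter (fun i : ℕ => Even (lo + i))
  have hs : ∀ i : s, Even (lo + (i : ℕ)) := fun i => (Finset.mem_filter.1 i.2).2
  let Φ : ((i : s) → X.HH (lo + (i : ℕ))) →ₗ[k] Z :=
    ∑ i : s, (X.hinc (lo + (i : ℕ))).codRestrict Z (hZ _ (hs i)) ∘ₗ
      LinearMap.proj (φ := fun i : s => X.HH (lo + (i : ℕ))) i
  have hΦ : ∀ x, (Φ x : X.HT) = ∑ i : s, X.hinc (lo + (i : ℕ)) (x i) := by
    intro x
    simp only [Φ, LinearMap.sum_apply, LinearMap.comp_apply, LinearMap.proj_apply]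
    rw [AddSubmonoidClass.coe_finsetSum]
    rfl
  have hinj : Function.Injective Φ := by
    rw [injective_iff_map_eq_zero]
    intro x hx
    funext j
    have h3 := hΦ x
    rw [hx] at h3
    have h4 := congrArg (X.hprj hgr (lo + (j : ℕ))) h3
    rw [ZeroMemClass.coe_zero, map_zero, map_sum, Finset.sum_eq_single j, hprj_hinc] at h4
    · exact h4.symm
    · intro i _ hij
      refine X.hprj_hinc_ne hgr ?_ _
      intro h5
      apply hij
      apply Subtype.ext
      exact_mod_cast add_left_cancel h5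
    · intro h5
      exact absurd (Finset.mem_univ j) h5
  have hle := LinearMap.finrank_le_finrank_of_injective hinj
  rw [Module.finrank_pi_fintype] at hle
  rwa [Finset.sum_coe_sort s (fun i : ℕ => Module.finrank k (X.HH (lo + i)))] at hle

end CycMod

end NC
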