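import Mathlib
import Pool.Agent.H16.NC.Wd

/-!
# Concatenation and deconcatenation of words
-/

set_option autoImplicit false

open scoped TensorProduct

noncomputable section

namespace NC

namespace Wd

variable {k : Type} [Field k] {N R : Type} [AddCommGroup N] [Module k N]
  [AddCommGroup R] [Module k R]

theorem lt_rt {A B C D : Type} [AddCommGroup A] [Module k A] [AddCommGroup B] [Module k B]
    [AddCommGroup C] [Module k C] [AddCommGroup D] [Module k D] (f : A →ₗ[k] C) (g : B →ₗ[k] D)
    (z : A ⊗[k] B) : g.lTensor C (f.rTensor B z) = f.rTensor D (g.lTensor A z) := by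
  induction z using TensorProduct.induction_on with
  | zero => simp
  | tmul a b => simp
  | add a b ha hb => simp only [map_add, ha, hb]

theorem lt_lt {A B C D : Type} [AddCommGroup A] [Module k A] [AddCommGroup B] [Module k B]
    [AddCommGroup C] [Module k C] [AddCommGroup D] [Module k D] (f : B →ₗ[k] C) (g : C →ₗ[k] D)
    (h : B →ₗ[k] D) (hh : ∀ x, g (f x) = h x)
    (z : A ⊗[k] B) : g.lTensor A (f.lTensor A z) = h.lTensor A z := by
  induction z using TensorProduct.induction_on with
  | zero => simp
  | tmul a b => simp [hh]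
  | add a b ha hb => simp only [map_add, ha, hb]

/-- (internal) post-composition with appending a letter -/
def catS : (Wd k N R →ₗ[k] Wd k N R) →ₗ[k] R →ₗ[k] (Wd k N R →ₗ[k] Wd k N R) :=
  LinearMap.mk₂ k (fun z r => (snoc.flip r) ∘ₗ z)
    (fun a b c => by ext; simp) (fun a b c => by ext; simp)
    (fun a b c => by ext; simp) (fun a b c => by ext; simp)

/-- concatenation, as a function of the second word -/
def catR : Wd k R R →ₗ[k] (Wd k N R →ₗ[k] Wd k N R) := recW snoc.flip 0 catS

/-- concatenation of a word with head in `N` and a word with head in `R` -/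
def cat : Wd k N R →ₗ[k] Wd k R R →ₗ[k] Wd k N R := catR.flip

@[simp] theorem cat_nil (u : Wd k N R) (a : R) : cat u (nil a) = snoc u a := by
  simp [cat, catR]

@[simp] theorem cat_snoc (u : Wd k N R) (v : Wd k R R) (r : R) :
    cat u (snoc v r) = snoc (cat u v) r := by
  unfold cat catR
  rw [LinearMap.flip_apply, LinearMap.flip_apply, recW_snoc]
  simp [catS]

theorem cat_assoc (u : Wd k N R) (v w : Wd k R R) : cat (cat u v) w = cat u (cat v w) := by
  induction w using induction with
  | hadd a b ha hb => simp only [map_add, ha, hb]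
  | hnil a => simp
  | hsnoc w ih r => simp only [cat_snoc, ih]

/-- cutting a word into two nonempty words -/
def dec : Wd k N R →ₗ[k] (Wd k N R ⊗[k] Wd k R R) :=
  recW 0 (LinearMap.mk₂ k (fun w r => w ⊗ₜ[k] (nil r : Wd k R R))
      (fun a b c => by rw [TensorProduct.add_tmul]) (fun a b c => rfl)
      (fun a b c => by rw [map_add, TensorProduct.tmul_add])
      (fun a b c => by rw [map_smul, TensorProduct.tmul_smul]))
    (LinearMap.mk₂ k (fun z r => (snoc.flip r).lTensor (Wd k N R) z)
      (fun a b c => by simp) (fun a b c => by simp)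
      (fun a b c => by simp [LinearMap.lTensor_add]) (fun a b c => by simp [LinearMap.lTensor_smul]))

@[simp] theorem dec_nil (a : N) : dec (nil a : Wd k N R) = 0 := by
  simp [dec]

@[simp] theorem dec_snoc (w : Wd k N R) (r : R) :
    dec (snoc w r) = w ⊗ₜ[k] (nil r : Wd k R R) + (snoc.flip r).lTensor (Wd k N R) (dec w) := by
  unfold dec
  rw [recW_snoc]
  rfl

/-- the coproduct of a concatenation -/
theorem dec_cat (u : Wd k N R) (w : Wd k R R) : dec (cat u w) = u ⊗ₜ[k] w
    + (cat.flip w).lTensor (Wd k N R) (dec u) + (cat u).rTensor (Wd k R R) (dec w) := by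
  induction w using induction with
  | hadd a b ha hb =>
    simp only [map_add, ha, hb, TensorProduct.tmul_add, LinearMap.lTensor_add,
      LinearMap.add_apply]
    abel
  | hnil a =>
    rw [cat_nil, dec_snoc, dec_nil, map_zero, add_zero]
    congr 2
    congr 1
    ext v
    simp
  | hsnoc w ih r =>
    rw [cat_snoc, dec_snoc, dec_snoc, ih, map_add, map_add, map_add, LinearMap.rTensor_tmul,
      LinearMap.lTensor_tmul]
    have h1 : (snoc.flip r).lTensor (Wd k N R) ((cat.flip w).lTensor (Wd k N R) (dec u))
        = (cat.flip (snoc w r)).lTensor (Wd k N R) (dec u) := lt_lt _ _ _ (by intro x; simp) _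
    have h2 : (snoc.flip r).lTensor (Wd k N R) ((cat u).rTensor (Wd k R R) (dec w))
        = (cat u).rTensor (Wd k R R) ((snoc.flip r).lTensor (Wd k R R) (dec w)) := lt_rt _ _ _
    rw [h1, h2]
    simp only [LinearMap.flip_apply]
    abel

section mul

/- a bilinear right action of `R` on `N` and a bilinear multiplication on `R` -/
variable (ν : N →ₗ[k] R →ₗ[k] N) (μ : R →ₗ[k] R →ₗ[k] R)

/-- multiplication of the last letter on the right -/
def tl : Wd k N R →ₗ[k] R →ₗ[k] Wd k N R :=
  recW (ν.compr₂ nil) (LinearMap.mk₂ k (fun w s => (snoc w) ∘ₗ (μ s))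
    (fun a b c => by ext; simp) (fun a b c => by ext; simp)
    (fun a b c => by ext; simp) (fun a b c => by ext; simp)) 0

@[simp] theorem tl_nil (a : N) (r : R) : tl ν μ (nil a) r = nil (ν a r) := by
  simp [tl]

@[simp] theorem tl_snoc (w : Wd k N R) (s r : R) : tl ν μ (snoc w s) r = snoc w (μ s r) := by
  unfold tl
  rw [recW_snoc]
  simp

theorem tl_cat (v : Wd k N R) (u : Wd k R R) (r : R) :
    tl ν μ (cat v u) r = cat v (tl μ μ u r) := by
  induction u using induction with
  | hadd a b ha hb => simp only [map_add, LinearMap.add_apply, ha, hb]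
  | hnil a => simp
  | hsnoc w ih s => simp

theorem dec_tl (w : Wd k N R) (r : R) :
    dec (tl ν μ w r) = ((tl μ μ).flip r).lTensor (Wd k N R) (dec w) := by
  induction w using induction with
  | hadd a b ha hb => simp only [map_add, LinearMap.add_apply, ha, hb]
  | hnil a => simp
  | hsnoc w ih s =>
    rw [tl_snoc, dec_snoc, dec_snoc, map_add, LinearMap.lTensor_tmul]
    congr 1
    · simp
    · exact (lt_lt _ _ _ (by intro x; simp) _).symm

end mul

section hd

variable (lam : R →ₗ[k] N →ₗ[k] N) (μ : R →ₗ[k] R →ₗ[k] R)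

/-- apply a linear map to the head -/
def onHd (f : N →ₗ[k] N) : Wd k N R →ₗ[k] Wd k N R := Wd.map f LinearMap.id

theorem onHd_cat (f : N →ₗ[k] N) (u : Wd k N R) (v : Wd k R R) :
    onHd f (cat u v) = cat (onHd f u) v := by
  unfold onHd
  induction v using induction with
  | hadd a b ha hb => simp only [map_add, ha, hb]
  | hnil a => simp
  | hsnoc w ih s => simp only [cat_snoc, map_snoc, ih, LinearMap.id_apply]

theorem dec_onHd (f : N →ₗ[k] N) (w : Wd k N R) :
    dec (onHd f w) = (onHd f).rTensor (Wd k R R) (dec w) := by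
  unfold onHd
  induction w using induction with
  | hadd a b ha hb => simp only [map_add, ha, hb]
  | hnil a => simp
  | hsnoc w ih s =>
    rw [map_snoc, dec_snoc, dec_snoc, map_add, LinearMap.rTensor_tmul, LinearMap.id_apply, ih]
    congr 1
    exact lt_rt _ _ _

end hd

section circ

variable (μ : R →ₗ[k] R →ₗ[k] R)

/-- (internal) -/
def circR : Wd k R R →ₗ[k] (Wd k R R →ₗ[k] Wd k R R) := recW (tl μ μ).flip 0 catS

/-- `v ∘ u`: concatenation with the last letter of `v` multiplied with the first letter of `u` -/
def circ : Wd k R R →ₗ[k] Wd k R R →ₗ[k] Wd k R R := (circR μ).flip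

@[simp] theorem circ_nil (v : Wd k R R) (a : R) : circ μ v (nil a) = tl μ μ v a := by
  simp [circ, circR]

@[simp] theorem circ_snoc (v u : Wd k R R) (r : R) :
    circ μ v (snoc u r) = snoc (circ μ v u) r := by
  unfold circ circR
  rw [LinearMap.flip_apply, LinearMap.flip_apply, recW_snoc]
  simp [catS]

theorem nil_circ (r : R) (u : Wd k R R) : circ μ (nil r) u = onHd (μ r) u := by
  unfold onHd
  induction u using induction with
  | hadd a b ha hb => simp only [map_add, ha, hb]
  | hnil a => simp
  | hsnoc w ih s => rw [circ_snoc, map_snoc, ih, LinearMap.id_apply]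

theorem snoc_circ (v u : Wd k R R) (r : R) : circ μ (snoc v r) u = cat v (onHd (μ r) u) := by
  unfold onHd
  induction u using induction with
  | hadd a b ha hb => simp only [map_add, ha, hb]
  | hnil a => simp
  | hsnoc w ih s => rw [circ_snoc, map_snoc, ih, LinearMap.id_apply, cat_snoc]

end circ

end Wd

end NC
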