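import Mathlib
import Pool.Agent.H16.NC.SD
import Pool.Agent.H94.NC.CWord

/-!
# Parity on words, the operators `S`, `F`, `rot`, `nrm`

Letters are suspended: the suspended parity `s` of a word is the sum of the `|a| + 1` over all its
letters, the head included.  `wS w = (-1)^s w`.
-/

set_option autoImplicit false

open scoped TensorProduct

noncomputable section

namespace NC

variable {k : Type} [Field k]

/-- the sign of a Boolean parity (`true` is odd) -/
def sg (k : Type) [Field k] (b : Bool) : k := if b then -1 else 1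

@[simp] theorem sg_true : sg k true = -1 := rfl
@[simp] theorem sg_false : sg k false = 1 := rfl

namespace SD

/-- homogeneous elements: `true` is odd -/
def Hm (X : SD k) (v : X.V) (b : Bool) : Prop := X.P v = if b then 0 else v

theorem Hm.E {X : SD k} {v : X.V} {b : Bool} (h : X.Hm v b) : X.E v = sg k b • v := by
  unfold Hm at h
  rw [E_apply, h]
  cases b <;> simp

theorem hm_P (X : SD k) (v : X.V) : X.Hm (X.P v) false := X.PP v

theorem hm_Q (X : SD k) (v : X.V) : X.Hm (v - X.P v) true := by
  unfold Hm
  rw [map_sub, X.PP, sub_self]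
  rfl

/-- reduction to homogeneous elements -/
theorem hm_ind (X : SD k) {p : X.V → Prop} (hadd : ∀ a b, p a → p b → p (a + b))
    (h : ∀ v b, X.Hm v b → p v) (v : X.V) : p v := by
  have h1 := hadd _ _ (h _ _ (X.hm_P v)) (h _ _ (X.hm_Q v))
  rwa [add_sub_cancel] at h1

end SD

namespace Wd

variable (N R : SD k)

/-- projection on the words of odd suspended parity (`|n| + Σ (|r_i| + 1)` even) -/
def wP : Wd k N.V R.V →ₗ[k] Wd k N.V R.V :=
  recW (nil ∘ₗ N.P) (snoc.compl₂ R.P)
    (LinearMap.mk₂ k (fun z r => snoc z r - snoc z (R.P r) - snoc z (R.P r))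
      (fun a b c => by simp; abel) (fun a b c => by simp [smul_sub])
      (fun a b c => by simp; abel) (fun a b c => by simp [smul_sub]))

@[simp] theorem wP_nil (a : N.V) : wP N R (nil a) = nil (N.P a) := by
  simp [wP]

theorem wP_snoc (w : Wd k N.V R.V) (r : R.V) : wP N R (snoc w r)
    = snoc w (R.P r) + (snoc (wP N R w) r - snoc (wP N R w) (R.P r) - snoc (wP N R w) (R.P r)) := by
  unfold wP
  rw [recW_snoc]
  rfl

/-- the sign of the suspended parity -/
def wS : Wd k N.V R.V →ₗ[k] Wd k N.V R.V := LinearMap.id - wP N R - wP N R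

theorem wS_apply (w : Wd k N.V R.V) : wS N R w = w - wP N R w - wP N R w := rfl

/-- words of suspended parity `a` (`true` is odd) -/
def Hs (w : Wd k N.V R.V) (a : Bool) : Prop := wP N R w = if a then w else 0

variable {N R}

theorem Hs.S {w : Wd k N.V R.V} {a : Bool} (h : Hs N R w a) : wS N R w = sg k a • w := by
  unfold Hs at h
  rw [wS_apply, h]
  cases a <;> simp

theorem Hs.nil {r : N.V} {q : Bool} (h : N.Hm r q) : Hs N R (nil r) (!q) := by
  unfold Hs
  unfold SD.Hm at h
  rw [wP_nil, h]
  cases q <;> simp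

theorem Hs.snoc {w : Wd k N.V R.V} {a : Bool} (hw : Hs N R w a) {r : R.V} {q : Bool}
    (hr : R.Hm r q) : Hs N R (snoc w r) (xor a (!q)) := by
  unfold Hs at hw ⊢
  unfold SD.Hm at hr
  rw [wP_snoc, hr, hw]
  cases a <;> cases q <;> simp

theorem hs_add {v w : Wd k N.V R.V} {a : Bool} (hv : Hs N R v a) (hw : Hs N R w a) :
    Hs N R (v + w) a := by
  unfold Hs at hv hw ⊢
  rw [map_add, hv, hw]
  cases a <;> simp

theorem hs_zero (a : Bool) : Hs N R (0 : Wd k N.V R.V) a := by
  unfold Hs
  rw [map_zero]
  cases a <;> simp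

theorem hs_smul {w : Wd k N.V R.V} {a : Bool} (c : k) (hw : Hs N R w a) : Hs N R (c • w) a := by
  unfold Hs at hw ⊢
  rw [map_smul, hw]
  cases a <;> simp

theorem hs_neg {w : Wd k N.V R.V} {a : Bool} (hw : Hs N R w a) : Hs N R (-w) a := by
  unfold Hs at hw ⊢
  rw [map_neg, hw]
  cases a <;> simp

theorem hs_sub {v w : Wd k N.V R.V} {a : Bool} (hv : Hs N R v a) (hw : Hs N R w a) :
    Hs N R (v - w) a := by
  rw [sub_eq_add_neg]
  exact hs_add hv (hs_neg hw)

/-- `wP` is idempotent -/
theorem wP_wP (w : Wd k N.V R.V) : wP N R (wP N R w) = wP N R w := by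
  induction w using induction with
  | hadd a b ha hb => simp only [map_add, ha, hb]
  | hnil a => simp [N.PP]
  | hsnoc w ih r =>
    simp only [wP_snoc, map_add, map_sub, R.PP, ih]
    abel

theorem hs_P (w : Wd k N.V R.V) : Hs N R (wP N R w) true := wP_wP w

theorem hs_Q (w : Wd k N.V R.V) : Hs N R (w - wP N R w) false := by
  unfold Hs
  rw [map_sub, wP_wP, sub_self]
  rfl

/-- reduction to homogeneous words -/
theorem hs_ind {p : Wd k N.V R.V → Prop} (hadd : ∀ a b, p a → p b → p (a + b))
    (h : ∀ w a, Hs N R w a → p w) (w : Wd k N.V R.V) : p w := by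
  have h1 := hadd _ _ (h _ _ (hs_P w)) (h _ _ (hs_Q w))
  rwa [add_sub_cancel] at h1

/-- homogeneous words are sums of `nil`s and `snoc`s of homogeneous words -/
theorem hs_induction {p : Wd k N.V R.V → Prop} (hadd : ∀ a b, p a → p b → p (a + b))
    (hnil : ∀ a q, N.Hm a q → p (nil a))
    (hsnoc : ∀ w a, Hs N R w a → p w → ∀ r q, R.Hm r q → p (snoc w r)) (w : Wd k N.V R.V) :
    p w := by
  have key : ∀ w : Wd k N.V R.V, p w ∧ p (wP N R w) ∧ p (w - wP N R w) := by
    intro w
    induction w using induction with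
    | hadd a b ha hb =>
      refine ⟨hadd _ _ ha.1 hb.1, ?_, ?_⟩
      · rw [map_add]
        exact hadd _ _ ha.2.1 hb.2.1
      · rw [map_add, add_sub_add_comm]
        exact hadd _ _ ha.2.2 hb.2.2
    | hnil a =>
      have hP : p (nil (N.P a)) := hnil _ _ (N.hm_P a)
      have hQ : p (nil (a - N.P a)) := hnil _ _ (N.hm_Q a)
      refine ⟨?_, ?_, ?_⟩
      · have := hadd _ _ hP hQ
        rwa [← map_add, add_sub_cancel] at this
      · rw [wP_nil]
        exact hP
      · rw [wP_nil, ← map_sub]
        exact hQ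
    | hsnoc w ih r =>
      have h1 : p (snoc (wP N R w) (R.P r)) := hsnoc _ _ (hs_P w) ih.2.1 _ _ (R.hm_P r)
      have h2 : p (snoc (wP N R w) (r - R.P r)) := hsnoc _ _ (hs_P w) ih.2.1 _ _ (R.hm_Q r)
      have h3 : p (snoc (w - wP N R w) (R.P r)) := hsnoc _ _ (hs_Q w) ih.2.2 _ _ (R.hm_P r)
      have h4 : p (snoc (w - wP N R w) (r - R.P r)) := hsnoc _ _ (hs_Q w) ih.2.2 _ _ (R.hm_Q r)
      refine ⟨?_, ?_, ?_⟩
      · have h5 : snoc w r = snoc (wP N R w) (R.P r) + snoc (wP N R w) (r - R.P r)
            + (snoc (w - wP N R w) (R.P r) + snoc (w - wP N R w) (r - R.P r)) := by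
          simp only [map_sub, LinearMap.sub_apply]
          abel
        rw [h5]
        exact hadd _ _ (hadd _ _ h1 h2) (hadd _ _ h3 h4)
      · have h5 : wP N R (snoc w r) = snoc (wP N R w) (r - R.P r)
            + snoc (w - wP N R w) (R.P r) := by
          rw [wP_snoc]
          simp only [map_sub, LinearMap.sub_apply]
          abel
        rw [h5]
        exact hadd _ _ h2 h3
      · have h5 : snoc w r - wP N R (snoc w r) = snoc (wP N R w) (R.P r)
            + snoc (w - wP N R w) (r - R.P r) := by
          rw [wP_snoc]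
          simp only [map_sub, LinearMap.sub_apply]
          abel
        rw [h5]
        exact hadd _ _ h1 h4
  exact (key w).1

theorem wS_nil (a : N.V) : wS N R (nil a) = - nil (N.E a) := by
  rw [wS_apply, wP_nil, SD.E_apply]
  simp only [map_sub, map_add]
  abel

theorem wS_snoc (w : Wd k N.V R.V) (r : R.V) :
    wS N R (snoc w r) = - snoc (wS N R w) (R.E r) := by
  rw [wS_apply, wS_apply, wP_snoc, SD.E_apply]
  simp only [map_sub, map_add, LinearMap.sub_apply]
  abel

theorem wS_wS (w : Wd k N.V R.V) : wS N R (wS N R w) = w := by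
  simp only [wS_apply, map_sub, wP_wP]
  abel

theorem wS_cat (u : Wd k N.V R.V) (v : Wd k R.V R.V) :
    wS N R (cat u v) = cat (wS N R u) (wS R R v) := by
  induction v using induction with
  | hadd a b ha hb => simp only [map_add, ha, hb]
  | hnil a => simp [wS_snoc, wS_nil]
  | hsnoc w ih r => simp [wS_snoc, ih]

/-- the parity of a concatenation -/
theorem hs_cat {u : Wd k N.V R.V} {v : Wd k R.V R.V} {a b : Bool} (hu : Hs N R u a)
    (hv : Hs R R v b) : Hs N R (cat u v) (xor a b) := by
  -- the projection is determined by recursion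
  have key : ∀ v : Wd k R.V R.V, wP N R (cat u v)
      = if a then cat u (v - wP R R v) else cat u (wP R R v) := by
    intro v
    unfold Hs at hu
    induction v using induction with
    | hadd x y hx hy =>
      cases a
      · simp only [Bool.false_eq_true, if_false] at hx hy ⊢
        simp only [map_add, hx, hy]
      · simp only [if_true] at hx hy ⊢
        rw [map_add, map_add, hx, hy, map_add, ← map_add]
        congr 1
        abel
    | hnil x =>
      cases a
      · simp only [Bool.false_eq_true, if_false] at hu ⊢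
        rw [cat_nil, wP_snoc, hu, wP_nil, cat_nil]
        simp
      · simp only [if_true] at hu ⊢
        rw [cat_nil, wP_snoc, hu, wP_nil, map_sub, cat_nil, cat_nil]
        abel
    | hsnoc w ih r =>
      cases a
      · simp only [Bool.false_eq_true, if_false] at ih ⊢
        rw [cat_snoc, wP_snoc, ih, wP_snoc]
        simp only [map_add, map_sub, cat_snoc]
      · simp only [if_true] at ih ⊢
        rw [cat_snoc, wP_snoc, ih, wP_snoc]
        simp only [map_add, map_sub, cat_snoc, LinearMap.sub_apply]
        abel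
  unfold Hs
  rw [key v]
  unfold Hs at hv
  rw [hv]
  cases a <;> cases b <;> simp

end Wd

end NC
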