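import Mathlib
import Pool.Agent.H94.NC.COp

/-!
# The flip `F`, the cyclic rotation and the norm on the words of a super vector space
-/

set_option autoImplicit false

open scoped TensorProduct

noncomputable section

namespace NC

variable {k : Type} [Field k]

theorem sg_mul_self (a : Bool) : sg k a * sg k a = 1 := by
  cases a <;> simp [sg]

theorem sg_xor (a b : Bool) : sg k (xor a b) = sg k a * sg k b := by
  cases a <;> cases b <;> simp [sg]

theorem sg_not (a : Bool) : sg k (!a) = - sg k a := by
  cases a <;> simp [sg]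

namespace Wd

variable (R : SD k)

/-- `u ⊗ v ↦ (-1)^(|u| |v|) v u` (suspended parities) -/
def cfl : Wd k R.V R.V →ₗ[k] Wd k R.V R.V →ₗ[k] Wd k R.V R.V :=
  cat.flip.comp (LinearMap.id - wP R R) + (cat ∘ₗ wS R R).flip ∘ₗ (wP R R)

theorem cfl_apply (u v : Wd k R.V R.V) :
    cfl R u v = cat v (u - wP R R u) + cat (wS R R v) (wP R R u) := rfl

variable {R}

theorem cfl_h {u v : Wd k R.V R.V} {a b : Bool} (hu : Hs R R u a) (hv : Hs R R v b) :
    cfl R u v = sg k (a && b) • cat v u := by
  rw [cfl_apply, hv.S]
  unfold Hs at hu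
  rw [hu]
  cases a <;> simp

/-- words of suspended parity `b`: apply `wS` if `b` is odd -/
def gS (b : Bool) : Wd k R.V R.V →ₗ[k] Wd k R.V R.V := if b then wS R R else LinearMap.id

theorem gS_h (b : Bool) {w : Wd k R.V R.V} {a : Bool} (hw : Hs R R w a) :
    gS (R := R) b w = sg k (b && a) • w := by
  unfold gS
  cases b
  · simp
  · rw [if_pos rfl, hw.S]
    simp

theorem Hs.g {w : Wd k R.V R.V} {a : Bool} (hw : Hs R R w a) (b : Bool) :
    Hs R R (gS b w) a := by
  rw [gS_h b hw]
  exact hs_smul _ hw

/-- `F u (nil r)` -/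
theorem cfl_nil (w : Wd k R.V R.V) {r : R.V} {q : Bool} (hr : R.Hm r q) :
    cfl R w (nil r) = cat (nil r) (gS (!q) w) := by
  induction w using hs_ind with
  | hadd a b ha hb => simp only [map_add, LinearMap.add_apply, ha, hb]
  | h w a hw =>
    rw [cfl_h hw (Hs.nil hr), gS_h _ hw, map_smul, Bool.and_comm]

variable (R)

/-- the map `F : W ⊗ W → W` -/
def cflT : Wd k R.V R.V ⊗[k] Wd k R.V R.V →ₗ[k] Wd k R.V R.V := TensorProduct.lift (cfl R)

@[simp] theorem cflT_tmul (u v : Wd k R.V R.V) : cflT R (u ⊗ₜ[k] v) = cfl R u v := by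
  simp [cflT]

/-- the rotation: the last letter becomes the head -/
def rot : Wd k R.V R.V →ₗ[k] Wd k R.V R.V :=
  recW nil ((cfl R).compl₂ nil) 0

@[simp] theorem rot_nil (a : R.V) : rot R (nil a) = nil a := by
  simp [rot]

theorem rot_snoc (w : Wd k R.V R.V) (r : R.V) : rot R (snoc w r) = cfl R w (nil r) := by
  unfold rot
  rw [recW_snoc]
  simp

/-- the norm -/
def nrm : Wd k R.V R.V →ₗ[k] Wd k R.V R.V := LinearMap.id + cflT R ∘ₗ dec

theorem nrm_apply (w : Wd k R.V R.V) : nrm R w = w + cflT R (dec w) := rfl

variable {R}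

/-- two bilinear maps that agree on homogeneous elements -/
theorem tmul_hs {Z : Type} [AddCommGroup Z] [Module k Z]
    {f g : Wd k R.V R.V ⊗[k] Wd k R.V R.V →ₗ[k] Z}
    (h : ∀ u v a b, Hs R R u a → Hs R R v b → f (u ⊗ₜ v) = g (u ⊗ₜ v))
    (z : Wd k R.V R.V ⊗[k] Wd k R.V R.V) : f z = g z := by
  induction z using TensorProduct.induction_on with
  | zero => simp
  | add a b ha hb => rw [map_add, map_add, ha, hb]
  | tmul u v =>
    induction u using hs_ind with
    | hadd a b ha hb => rw [TensorProduct.add_tmul, map_add, map_add, ha, hb]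
    | h u a hu =>
      induction v using hs_ind with
      | hadd a b ha hb => rw [TensorProduct.tmul_add, map_add, map_add, ha, hb]
      | h v b hv => exact h u v a b hu hv

/-- `dec` and the sign -/
theorem dec_wS (w : Wd k R.V R.V) :
    dec (wS R R w) = TensorProduct.map (wS R R) (wS R R) (dec w) := by
  induction w using induction with
  | hadd a b ha hb => simp only [map_add, ha, hb]
  | hnil a => simp [wS_nil]
  | hsnoc w ih r =>
    rw [wS_snoc, map_neg, dec_snoc, dec_snoc, ih, map_add, TensorProduct.map_tmul, wS_nil,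
      TensorProduct.tmul_neg, neg_add]
    congr 1
    have h : ∀ z : Wd k R.V R.V ⊗[k] Wd k R.V R.V,
        -(snoc.flip (R.E r)).lTensor (Wd k R.V R.V) (TensorProduct.map (wS R R) (wS R R) z)
        = TensorProduct.map (wS R R) (wS R R) ((snoc.flip r).lTensor (Wd k R.V R.V) z) := by
      intro z
      induction z using TensorProduct.induction_on with
      | zero => simp
      | tmul u v => simp [wS_snoc, TensorProduct.tmul_neg]
      | add a b ha hb => rw [map_add, map_add, neg_add, ha, hb, map_add, map_add]
    exact h _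

theorem dec_gS (b : Bool) (w : Wd k R.V R.V) :
    dec (gS (R := R) b w) = TensorProduct.map (gS b) (gS b) (dec w) := by
  unfold gS
  cases b
  · simp
  · simp [dec_wS]

/-- the parity is preserved by the rotation and the norm -/
theorem Hs.cfl {u v : Wd k R.V R.V} {a b : Bool} (hu : Hs R R u a) (hv : Hs R R v b) :
    Hs R R (cfl R u v) (xor a b) := by
  rw [cfl_h hu hv, Bool.xor_comm]
  exact hs_smul _ (hs_cat hv hu)

/-- **norm and rotation, one side** -/
theorem nrm_rot (w : Wd k R.V R.V) : nrm R (rot R w) = nrm R w := by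
  induction w using hs_induction with
  | hadd a b ha hb => simp only [map_add, ha, hb]
  | hnil a q _ => rw [rot_nil]
  | hsnoc w a hw _ r q hr =>
    rw [rot_snoc, cfl_nil w hr, nrm_apply, dec_cat, dec_nil, map_zero, add_zero, map_add,
      nrm_apply, dec_snoc, map_add, cflT_tmul, cflT_tmul, cfl_nil w hr, dec_gS]
    have h1 : cfl R (nil r) (gS (!q) w) = snoc w r := by
      rw [gS_h _ hw, map_smul, cfl_h (Hs.nil hr) hw, smul_smul, cat_nil, sg_mul_self, one_smul]
    have h2 : ∀ z : Wd k R.V R.V ⊗[k] Wd k R.V R.V,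
        cflT R ((cat (nil r)).rTensor (Wd k R.V R.V) (TensorProduct.map (gS !q) (gS !q) z))
        = cflT R ((snoc.flip r).lTensor (Wd k R.V R.V) z) := by
      intro z
      refine tmul_hs (f := cflT R ∘ₗ (cat (nil r)).rTensor (Wd k R.V R.V) ∘ₗ
        TensorProduct.map (gS !q) (gS !q)) (g := cflT R ∘ₗ (snoc.flip r).lTensor (Wd k R.V R.V))
        ?_ z
      intro u v a b hu hv
      simp only [LinearMap.comp_apply, TensorProduct.map_tmul, LinearMap.rTensor_tmul,
        LinearMap.lTensor_tmul, cflT_tmul, LinearMap.flip_apply]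
      rw [gS_h _ hu, gS_h _ hv, map_smul, map_smul, map_smul, LinearMap.smul_apply,
        cfl_h (hs_cat (Hs.nil hr) hu) hv, cfl_h hu (Hs.snoc hv hr), smul_smul, smul_smul]
      have h3 : cat v (cat (nil r) u) = cat (snoc v r) u := by
        rw [← cat_assoc, cat_nil]
      rw [h3]
      congr 1
      cases q <;> cases a <;> cases b <;> simp
    rw [h1, h2]
    abel

/-- the recursion for the second identity -/
theorem rot_cflT (w z : Wd k R.V R.V) :
    rot R (cfl R w z) + rot R (cflT R ((cat.flip z).lTensor (Wd k R.V R.V) (dec w)))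
      = cat w z + cflT R ((cat.flip z).lTensor (Wd k R.V R.V) (dec w)) := by
  induction w using hs_induction generalizing z with
  | hadd a b ha hb =>
    simp only [map_add, LinearMap.add_apply]
    linear_combination (norm := module) (ha z) + (hb z)
  | hnil x q hx =>
    rw [dec_nil, map_zero, map_zero, map_zero, add_zero, add_zero]
    induction z using hs_ind with
    | hadd a b ha hb => rw [map_add, map_add, ha, hb, map_add]
    | h z b hz =>
      rw [cfl_h (Hs.nil hx) hz, cat_nil, map_smul, rot_snoc, cfl_nil z hx, gS_h _ hz, map_smul,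
        smul_smul, sg_mul_self, one_smul]
  | hsnoc w a hw ih x q hx =>
    have h1 : (cat.flip z).lTensor (Wd k R.V R.V) (dec (snoc w x))
        = w ⊗ₜ cat (nil x) z + (cat.flip (cat (nil x) z)).lTensor (Wd k R.V R.V) (dec w) := by
      rw [dec_snoc, map_add, LinearMap.lTensor_tmul]
      congr 1
      refine lt_lt _ _ _ ?_ _
      intro v
      simp only [LinearMap.flip_apply]
      rw [← cat_assoc, cat_nil]
    have h2 : ∀ z, rot R (cfl R (snoc w x) z) = cfl R w (cat (nil x) z) := by
      intro z
      induction z using hs_ind with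
      | hadd a b ha hb => simp only [map_add, ha, hb]
      | h z b hz =>
        rw [cfl_h (Hs.snoc hw hx) hz, cat_snoc, map_smul, rot_snoc, cfl_nil _ hx,
          gS_h _ (hs_cat hz hw), map_smul, smul_smul, cfl_h hw (hs_cat (Hs.nil hx) hz), cat_assoc]
        congr 1
        cases q <;> cases a <;> cases b <;> simp
    have h3 : cat w (cat (nil x) z) = cat (snoc w x) z := by
      rw [← cat_assoc, cat_nil]
    have h4 := ih (cat (nil x) z)
    rw [h1, h2, map_add, cflT_tmul, map_add, ← h3]
    linear_combination (norm := module) h4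

theorem rot_nrm (w : Wd k R.V R.V) : rot R (nrm R w) = nrm R w := by
  induction w using induction with
  | hadd a b ha hb => simp only [map_add, ha, hb]
  | hnil a => rw [nrm_apply, dec_nil, map_zero, add_zero, rot_nil]
  | hsnoc w _ x =>
    rw [nrm_apply, dec_snoc, map_add, rot_snoc, map_add (cflT R), cflT_tmul, map_add]
    have h := rot_cflT w (nil x)
    have h1 : (cat.flip (nil x) : Wd k R.V R.V →ₗ[k] Wd k R.V R.V) = snoc.flip x :=
      LinearMap.ext (fun v => by simp)
    rw [h1, cat_nil] at h
    linear_combination (norm := module) h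

end Wd

end NC
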