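import Mathlib
import Pool.Agent.H94.NC.CFl
import Pool.Agent.H16.NC.SD

/-!
# The operators `b'` and `b = b' + c` of a dg algebra, and their relations with rotation and norm
-/

set_option autoImplicit false

open scoped TensorProduct

noncomputable section

namespace NC

variable {k : Type} [Field k]

namespace DGA

theorem hm_mul (A : DGA k) {a b : A.V} {p q : Bool} (ha : A.Hm a p) (hb : A.Hm b q) :
    A.Hm (A.mul a b) (xor p q) := by
  unfold SD.Hm at *
  rw [A.P_mul, ha, hb]
  cases p <;> cases q <;> simp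

theorem hm_D (A : DGA k) {a : A.V} {p : Bool} (ha : A.Hm a p) : A.Hm (A.D a) (!p) := by
  unfold SD.Hm at *
  have h := A.DP a
  rw [ha] at h
  cases p
  · simp only [Bool.false_eq_true, if_false, Bool.not_false, if_true] at h ⊢
    have : A.P (A.D a) = A.D a - A.D a := by
      rw [eq_sub_iff_add_eq, ← eq_sub_iff_add_eq']
      exact h
    rw [this, sub_self]
  · simp only [if_true, Bool.not_true, Bool.false_eq_true, if_false, map_zero] at h ⊢
    exact (sub_eq_zero.1 h.symm).symm

end DGA

namespace Wd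

theorem onHd_add {N R : Type} [AddCommGroup N] [Module k N]
    [AddCommGroup R] [Module k R] (f g : N →ₗ[k] N) (w : Wd k N R) :
    onHd (f + g) w = onHd f w + onHd g w := by
  unfold onHd
  induction w using induction with
  | hadd a b ha hb => rw [map_add, map_add, map_add, ha, hb]; abel
  | hnil a => simp
  | hsnoc w ih s => simp [ih]

theorem onHd_smul {N R : Type} [AddCommGroup N] [Module k N]
    [AddCommGroup R] [Module k R] (c : k) (f : N →ₗ[k] N) (w : Wd k N R) :
    onHd (c • f) w = c • onHd f w := by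
  unfold onHd
  induction w using induction with
  | hadd a b ha hb => rw [map_add, map_add, ha, hb, smul_add]
  | hnil a => simp
  | hsnoc w ih s => simp [ih]

variable (A : DGA k)

/-- multiplication of the head on the left -/
def hd : A.V →ₗ[k] Wd k A.V A.V →ₗ[k] Wd k A.V A.V :=
  LinearMap.mk₂ k (fun r w => onHd (A.mul r) w)
    (fun a b w => by rw [map_add, onHd_add]) (fun c a w => by rw [map_smul, onHd_smul])
    (fun a w w' => by rw [map_add]) (fun a c w => by rw [map_smul])

theorem hd_apply (r : A.V) (w : Wd k A.V A.V) : hd A r w = onHd (A.mul r) w := rfl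

@[simp] theorem hd_nil (r a : A.V) : hd A r (nil a) = nil (A.mul r a) := by
  rw [hd_apply]
  unfold onHd
  simp

@[simp] theorem hd_snoc (r : A.V) (w : Wd k A.V A.V) (s : A.V) :
    hd A r (snoc w s) = snoc (hd A r w) s := by
  rw [hd_apply, hd_apply]
  unfold onHd
  simp

theorem hd_hd (r s : A.V) (w : Wd k A.V A.V) : hd A r (hd A s w) = hd A (A.mul r s) w := by
  induction w using induction with
  | hadd a b ha hb => simp only [map_add, ha, hb]
  | hnil a => simp [A.mul_assoc']
  | hsnoc w ih s => simp [ih]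

theorem hd_cat (r : A.V) (u v : Wd k A.V A.V) : hd A r (cat u v) = cat (hd A r u) v :=
  onHd_cat _ _ _

theorem hd_one (w : Wd k A.V A.V) : hd A A.one w = w := by
  induction w using induction with
  | hadd a b ha hb => simp only [map_add, ha, hb]
  | hnil a => simp [A.one_mul']
  | hsnoc w ih s => simp [ih]

/-- multiplication of the last letter on the right -/
abbrev tlA : Wd k A.V A.V →ₗ[k] A.V →ₗ[k] Wd k A.V A.V := tl A.mul A.mul

theorem tl_tl (w : Wd k A.V A.V) (r s : A.V) :
    tlA A (tlA A w r) s = tlA A w (A.mul r s) := by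
  induction w using induction with
  | hadd a b ha hb => simp only [map_add, LinearMap.add_apply, ha, hb]
  | hnil a => simp [A.mul_assoc']
  | hsnoc w ih t => simp [A.mul_assoc']

theorem tl_one (w : Wd k A.V A.V) : tlA A w A.one = w := by
  induction w using induction with
  | hadd a b ha hb => simp only [map_add, LinearMap.add_apply, ha, hb]
  | hnil a => simp [A.mul_one']
  | hsnoc w ih s => simp [A.mul_one']

theorem hd_tl (r s : A.V) (w : Wd k A.V A.V) :
    hd A r (tlA A w s) = tlA A (hd A r w) s := by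
  induction w using induction with
  | hadd a b ha hb => simp only [map_add, LinearMap.add_apply, ha, hb]
  | hnil a => simp [A.mul_assoc']
  | hsnoc w ih t => simp

variable {A}

theorem wP_hd {r : A.V} {q : Bool} (hr : A.Hm r q) (w : Wd k A.V A.V) :
    wP A.toSD A.toSD (hd A r w)
      = if q then hd A r (w - wP A.toSD A.toSD w) else hd A r (wP A.toSD A.toSD w) := by
  unfold SD.Hm at hr
  induction w using induction with
  | hadd a b ha hb =>
    cases q
    · simp only [Bool.false_eq_true, if_false] at ha hb ⊢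
      simp only [map_add, ha, hb]
    · simp only [if_true] at ha hb ⊢
      rw [map_add, map_add, ha, hb, map_add]
      simp only [map_add, map_sub]
      abel
  | hnil a =>
    rw [hd_nil, wP_nil, A.P_mul, hr, wP_nil]
    cases q <;> simp
  | hsnoc w ih s =>
    cases q
    · simp only [Bool.false_eq_true, if_false] at ih ⊢
      rw [hd_snoc, wP_snoc, ih, wP_snoc]
      simp only [map_add, map_sub, hd_snoc]
    · simp only [if_true] at ih ⊢
      rw [hd_snoc, wP_snoc, ih, wP_snoc]
      simp only [map_add, map_sub, hd_snoc, LinearMap.sub_apply]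
      abel

theorem Hs.hd {w : Wd k A.V A.V} {a : Bool} (hw : Hs A.toSD A.toSD w a) {r : A.V} {q : Bool}
    (hr : A.Hm r q) : Hs A.toSD A.toSD (hd A r w) (xor q a) := by
  unfold Hs at hw ⊢
  rw [wP_hd hr, hw]
  cases a <;> cases q <;> simp

theorem wP_tl {r : A.V} {q : Bool} (hr : A.Hm r q) (w : Wd k A.V A.V) :
    wP A.toSD A.toSD (tlA A w r)
      = if q then tlA A (w - wP A.toSD A.toSD w) r else tlA A (wP A.toSD A.toSD w) r := by
  unfold SD.Hm at hr
  induction w using induction with
  | hadd a b ha hb =>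
    cases q
    · simp only [Bool.false_eq_true, if_false] at ha hb ⊢
      simp only [map_add, LinearMap.add_apply, ha, hb]
    · simp only [if_true] at ha hb ⊢
      simp only [map_add, LinearMap.add_apply, ha, hb, map_sub, LinearMap.sub_apply]
      abel
  | hnil a =>
    rw [tl_nil, wP_nil, A.P_mul, hr, wP_nil]
    cases q <;> simp
  | hsnoc w ih s =>
    rw [tl_snoc, wP_snoc, A.P_mul, hr, wP_snoc]
    cases q
    · simp
    · simp only [if_true, map_zero, zero_add, sub_zero, map_sub, map_add, LinearMap.sub_apply,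
        LinearMap.add_apply, tl_snoc]
      abel

theorem Hs.tl {w : Wd k A.V A.V} {a : Bool} (hw : Hs A.toSD A.toSD w a) {r : A.V} {q : Bool}
    (hr : A.Hm r q) : Hs A.toSD A.toSD (tlA A w r) (xor a q) := by
  unfold Hs at hw ⊢
  rw [wP_tl hr, hw]
  cases a <;> cases q <;> simp

variable (A)

/-- the bar differential `b'` -/
def bp : Wd k A.V A.V →ₗ[k] Wd k A.V A.V :=
  recW (nil ∘ₗ A.D) ((snoc ∘ₗ wS A.toSD A.toSD).compl₂ A.D - tlA A ∘ₗ wS A.toSD A.toSD) snoc

/-- the term of `b` that moves the last letter to the front -/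
def cc : Wd k A.V A.V →ₗ[k] Wd k A.V A.V :=
  recW 0 (((hd A).flip ∘ₗ wS A.toSD A.toSD).compl₂ A.P
    - ((hd A).flip).compl₂ (LinearMap.id - A.P)) 0

@[simp] theorem bp_nil (a : A.V) : bp A (nil a) = nil (A.D a) := by
  simp [bp]

theorem bp_snoc (w : Wd k A.V A.V) (r : A.V) : bp A (snoc w r)
    = snoc (bp A w) r + snoc (wS A.toSD A.toSD w) (A.D r) - tlA A (wS A.toSD A.toSD w) r := by
  unfold bp
  rw [recW_snoc]
  simp only [LinearMap.sub_apply, LinearMap.compl₂_apply, LinearMap.comp_apply]
  abel

@[simp] theorem cc_nil (a : A.V) : cc A (nil a) = 0 := by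
  simp [cc]

theorem cc_snoc (w : Wd k A.V A.V) (r : A.V) : cc A (snoc w r)
    = hd A (A.P r) (wS A.toSD A.toSD w) - hd A (r - A.P r) w := by
  unfold cc
  rw [recW_snoc]
  simp [LinearMap.compl₂_apply]

/-- the Hochschild differential -/
def bb : Wd k A.V A.V →ₗ[k] Wd k A.V A.V := bp A + cc A

theorem bb_apply (w : Wd k A.V A.V) : bb A w = bp A w + cc A w := rfl

variable {A}

theorem cc_snoc_h {w : Wd k A.V A.V} {a : Bool} (hw : Hs A.toSD A.toSD w a) {r : A.V} {q : Bool}
    (hr : A.Hm r q) : cc A (snoc w r) = - sg k (!q && !a) • hd A r w := by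
  rw [cc_snoc, hw.S]
  unfold SD.Hm at hr
  rw [hr]
  cases a <;> cases q <;> simp

theorem bp_snoc_h {w : Wd k A.V A.V} {a : Bool} (hw : Hs A.toSD A.toSD w a) (r : A.V) :
    bp A (snoc w r) = snoc (bp A w) r + sg k a • snoc w (A.D r) - sg k a • tlA A w r := by
  rw [bp_snoc, hw.S]
  simp

/-- `b'` is odd -/
theorem hs_bp {w : Wd k A.V A.V} {a : Bool} (hw : Hs A.toSD A.toSD w a) :
    Hs A.toSD A.toSD (bp A w) (!a) := by
  have key : ∀ w : Wd k A.V A.V, wP A.toSD A.toSD (bp A w)
      = bp A w - bp A (wP A.toSD A.toSD w) := by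
    intro w
    induction w using hs_induction with
    | hadd a b ha hb => simp only [map_add, ha, hb]; abel
    | hnil a q ha =>
      rw [bp_nil, wP_nil, wP_nil, bp_nil, A.DP]
      simp
    | hsnoc w a hw ih r q hr =>
      have h1 : Hs A.toSD A.toSD (bp A w) (!a) := by
        unfold Hs at hw ⊢
        rw [ih, hw]
        cases a <;> simp
      have h2 : Hs A.toSD A.toSD (bp A (snoc w r)) (!(xor a (!q))) := by
        rw [bp_snoc_h hw]
        refine hs_sub (hs_add ?_ (hs_smul _ ?_)) (hs_smul _ ?_)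
        · have := h1.snoc hr
          cases a <;> cases q <;> exact this
        · have := hw.snoc (A.hm_D hr)
          cases a <;> cases q <;> exact this
        · have := hw.tl hr
          cases a <;> cases q <;> exact this
      have h3 := hw.snoc hr
      unfold Hs at h2 h3
      rw [h2, h3]
      cases a <;> cases q <;> simp
  unfold Hs at hw ⊢
  rw [key, hw]
  cases a <;> simp

theorem bp_wS (w : Wd k A.V A.V) : bp A (wS A.toSD A.toSD w) = - wS A.toSD A.toSD (bp A w) := by
  induction w using hs_ind with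
  | hadd a b ha hb => simp only [map_add, ha, hb]; abel
  | h w a hw => rw [hw.S, (hs_bp hw).S, map_smul, sg_not, neg_smul, neg_neg]

theorem bp_tl (w : Wd k A.V A.V) (r : A.V) : bp A (tlA A w r)
    = tlA A (bp A w) r - tlA A (wS A.toSD A.toSD w) (A.D r) := by
  induction w using induction with
  | hadd a b ha hb => simp only [map_add, LinearMap.add_apply, ha, hb]; abel
  | hnil a =>
    rw [tl_nil, bp_nil, bp_nil, tl_nil, wS_nil, map_neg, LinearMap.neg_apply, tl_nil, A.D_mul,
      map_add, sub_neg_eq_add]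
  | hsnoc w ih s =>
    rw [tl_snoc, bp_snoc, bp_snoc, wS_snoc, map_neg, LinearMap.neg_apply, tl_snoc, A.D_mul]
    simp only [map_add, map_sub, LinearMap.add_apply, LinearMap.sub_apply, tl_snoc, tl_tl]
    abel

theorem bp_bp (w : Wd k A.V A.V) : bp A (bp A w) = 0 := by
  induction w using induction with
  | hadd a b ha hb => rw [map_add, map_add, ha, hb, add_zero]
  | hnil a => simp [A.DD]
  | hsnoc w ih r =>
    rw [bp_snoc, map_sub, map_add, bp_snoc, bp_snoc, bp_tl, ih, A.DD, wS_wS, bp_wS]
    simp only [map_zero, LinearMap.zero_apply, map_neg, LinearMap.neg_apply]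
    abel

theorem bp_hd {r : A.V} {q : Bool} (hr : A.Hm r q) (w : Wd k A.V A.V) : bp A (hd A r w)
    = hd A (A.D r) w + sg k q • hd A r (bp A w) := by
  induction w using hs_induction with
  | hadd a b ha hb => simp only [map_add, ha, hb, smul_add]; abel
  | hnil a q' _ =>
    rw [hd_nil, bp_nil, bp_nil, hd_nil, hd_nil, A.D_mul, hr.E, map_add]
    simp
  | hsnoc w a hw ih s q' hs =>
    rw [hd_snoc, bp_snoc_h (hw.hd hr), bp_snoc_h hw, ih, hd_snoc, sg_xor]
    simp only [map_add, map_sub, map_smul, LinearMap.add_apply, LinearMap.smul_apply, hd_snoc,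
      hd_tl]
    module

theorem bp_cc_snoc {w : Wd k A.V A.V} {a : Bool} (hw : Hs A.toSD A.toSD w a) {r : A.V} {q : Bool}
    (hr : A.Hm r q) : bp A (cc A (snoc w r)) + cc A (bp A (snoc w r))
      = - sg k a • cc A (tlA A w r) := by
  rw [cc_snoc_h hw hr, map_smul, bp_hd hr, bp_snoc_h hw, map_sub, map_add, map_smul, map_smul,
    cc_snoc_h (hs_bp hw) hr, cc_snoc_h hw (A.hm_D hr)]
  cases a <;> cases q <;> simp <;> abel

theorem cc_cc_snoc {w : Wd k A.V A.V} {a : Bool} (hw : Hs A.toSD A.toSD w a) {r : A.V} {q : Bool}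
    (hr : A.Hm r q) : cc A (cc A (snoc w r)) = sg k a • cc A (tlA A w r) := by
  have key : ∀ w : Wd k A.V A.V, cc A (cc A (snoc w r))
      = cc A (tlA A (wS A.toSD A.toSD w) r) := by
    intro w
    induction w using hs_induction with
    | hadd a b ha hb => simp only [map_add, LinearMap.add_apply, ha, hb]
    | hnil x p hx =>
      rw [cc_snoc_h (Hs.nil hx) hr, map_smul, hd_nil, cc_nil, smul_zero, wS_nil, map_neg,
        LinearMap.neg_apply, tl_nil, map_neg, cc_nil, neg_zero]
    | hsnoc w a hw _ x p hx =>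
      rw [cc_snoc_h (hw.snoc hx) hr, map_smul, hd_snoc, cc_snoc_h (hw.hd hr) hx, (hw.snoc hx).S,
        map_smul, LinearMap.smul_apply, tl_snoc, map_smul, cc_snoc_h hw (A.hm_mul hx hr), hd_hd,
        smul_smul, smul_smul]
      congr 1
      cases a <;> cases q <;> cases p <;> simp
  rw [key, hw.S, map_smul, LinearMap.smul_apply, map_smul]

/-- `b b = 0` -/
theorem bb_bb (w : Wd k A.V A.V) : bb A (bb A w) = 0 := by
  induction w using hs_induction with
  | hadd a b ha hb => rw [map_add, map_add, ha, hb, add_zero]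
  | hnil a q _ => simp [bb_apply, A.DD]
  | hsnoc w a hw _ r q hr =>
    have h1 := bp_cc_snoc hw hr
    have h2 := cc_cc_snoc hw hr
    rw [bb_apply, bb_apply, map_add, map_add, bp_bp]
    linear_combination (norm := module) h1 + h2

/-! ### Rotation -/

theorem circ_nil_left (r : A.V) (w : Wd k A.V A.V) : circ A.mul (nil r) w = hd A r w :=
  nil_circ _ _ _

theorem bp_cat (v u : Wd k A.V A.V) : bp A (cat v u) = cat (bp A v) u
    + cat (wS A.toSD A.toSD v) (bp A u) - circ A.mul (wS A.toSD A.toSD v) u := by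
  induction u using induction with
  | hadd a b ha hb => simp only [map_add, ha, hb]; abel
  | hnil a => rw [cat_nil, bp_snoc, cat_nil, bp_nil, cat_nil, circ_nil]
  | hsnoc w ih r =>
    rw [cat_snoc, bp_snoc, ih, bp_snoc, wS_cat, cat_snoc, circ_snoc, tl_cat]
    simp only [map_add, map_sub, LinearMap.add_apply, LinearMap.sub_apply, cat_snoc]
    abel

/-- the key identity for the rotation -/
theorem cc_rot {w : Wd k A.V A.V} {a : Bool} (hw : Hs A.toSD A.toSD w a) {r : A.V} {q : Bool}
    (hr : A.Hm r q) : cc A (rot A.toSD (snoc w r)) = - sg k a • rot A.toSD (tlA A w r) := by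
  have key : ∀ w : Wd k A.V A.V, cc A (rot A.toSD (snoc w r))
      = - rot A.toSD (tlA A (wS A.toSD A.toSD w) r) := by
    intro w
    induction w using hs_induction with
    | hadd a b ha hb => simp only [map_add, LinearMap.add_apply, ha, hb, neg_add]
    | hnil x p hx =>
      rw [rot_snoc, cfl_nil _ hr, gS_h _ (Hs.nil hx), map_smul, cat_nil, map_smul,
        cc_snoc_h (Hs.nil hr) hx, hd_nil, (Hs.nil hx).S, map_smul, LinearMap.smul_apply, tl_nil,
        map_smul, rot_nil, smul_smul, ← neg_smul]
      congr 1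
      cases p <;> cases q <;> simp
    | hsnoc w a hw _ x p hx =>
      rw [rot_snoc, cfl_nil _ hr, gS_h _ (hw.snoc hx), map_smul, cat_snoc, map_smul,
        cc_snoc_h (hs_cat (Hs.nil hr) hw) hx, (hw.snoc hx).S, map_smul, LinearMap.smul_apply,
        tl_snoc, map_smul, rot_snoc, cfl_nil _ (A.hm_mul hx hr), gS_h _ hw, map_smul, hd_cat,
        hd_nil, smul_smul, smul_smul, ← neg_smul]
      congr 1
      cases a <;> cases q <;> cases p <;> simp
  rw [key, hw.S, map_smul, LinearMap.smul_apply, map_smul, neg_smul]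

/-- `b t = c + t b'` -/
theorem bb_rot (w : Wd k A.V A.V) :
    bb A (rot A.toSD w) = cc A w + rot A.toSD (bp A w) := by
  induction w using hs_induction with
  | hadd a b ha hb => simp only [map_add, ha, hb]; abel
  | hnil a q _ => simp [bb_apply]
  | hsnoc w a hw _ r q hr =>
    have h1 := cc_rot hw hr
    have h2 : bp A (rot A.toSD (snoc w r)) = cc A (snoc w r) + rot A.toSD (bp A (snoc w r))
        + sg k a • rot A.toSD (tlA A w r) := by
      rw [rot_snoc, cfl_nil _ hr, gS_h _ hw, map_smul, map_smul, bp_cat, (Hs.nil hr).S, bp_nil,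
        map_smul, LinearMap.smul_apply, map_smul, LinearMap.smul_apply, circ_nil_left,
        bp_snoc_h hw, map_sub, map_add, map_smul, map_smul, rot_snoc, rot_snoc, cfl_nil _ hr,
        cfl_nil _ (A.hm_D hr), gS_h _ hw, gS_h _ (hs_bp hw), map_smul, map_smul, cc_snoc_h hw hr]
      cases a <;> cases q <;> simp <;> abel
    rw [bb_apply, h1, h2]
    module

/-! ### Norm -/

theorem dec_bp (w : Wd k A.V A.V) : dec (bp A w)
    = (bp A).rTensor (Wd k A.V A.V) (dec w)
      + TensorProduct.map (wS A.toSD A.toSD) (bp A) (dec w) := by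
  induction w using induction with
  | hadd a b ha hb => simp only [map_add, ha, hb]; abel
  | hnil a => simp
  | hsnoc w ih r =>
    have h1 : ∀ z : Wd k A.V A.V ⊗[k] Wd k A.V A.V,
        (snoc.flip r).lTensor (Wd k A.V A.V) ((bp A).rTensor (Wd k A.V A.V) z
          + TensorProduct.map (wS A.toSD A.toSD) (bp A) z)
        + (snoc.flip (A.D r)).lTensor (Wd k A.V A.V)
            (TensorProduct.map (wS A.toSD A.toSD) (wS A.toSD A.toSD) z)
        - ((tlA A).flip r).lTensor (Wd k A.V A.V)
            (TensorProduct.map (wS A.toSD A.toSD) (wS A.toSD A.toSD) z)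
        = (bp A).rTensor (Wd k A.V A.V) ((snoc.flip r).lTensor (Wd k A.V A.V) z)
          + TensorProduct.map (wS A.toSD A.toSD) (bp A)
              ((snoc.flip r).lTensor (Wd k A.V A.V) z) := by
      intro z
      induction z using TensorProduct.induction_on with
      | zero => simp
      | tmul u v =>
        simp only [map_add, LinearMap.rTensor_tmul, TensorProduct.map_tmul,
          LinearMap.lTensor_tmul, LinearMap.flip_apply, bp_snoc, TensorProduct.tmul_add,
          TensorProduct.tmul_sub]
        abel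
      | add a b ha hb =>
        simp only [map_add] at ha hb ⊢
        linear_combination (norm := module) ha + hb
    have h2 := h1 (dec w)
    rw [bp_snoc, map_sub, map_add, dec_snoc, dec_snoc, dec_tl, dec_snoc, ih, dec_wS]
    simp only [map_add, LinearMap.rTensor_tmul, TensorProduct.map_tmul, bp_nil] at h2 ⊢
    linear_combination (norm := module) h2

theorem dec_hd (r : A.V) (w : Wd k A.V A.V) :
    dec (hd A r w) = (hd A r).rTensor (Wd k A.V A.V) (dec w) := by
  have h : hd A r = onHd (A.mul r) := rfl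
  rw [h, dec_onHd]

variable (A)

/-- the bilinear map `C` -/
def fc : Wd k A.V A.V →ₗ[k] Wd k A.V A.V →ₗ[k] Wd k A.V A.V :=
  (circ A.mul ∘ₗ wS A.toSD A.toSD).flip.comp (LinearMap.id - wP A.toSD A.toSD)
    + (circ A.mul).flip ∘ₗ (wP A.toSD A.toSD)

theorem fc_apply (u v : Wd k A.V A.V) : fc A u v
    = circ A.mul (wS A.toSD A.toSD v) (u - wP A.toSD A.toSD u)
      + circ A.mul v (wP A.toSD A.toSD u) := rfl

/-- `C` on tensors -/
def fcT : Wd k A.V A.V ⊗[k] Wd k A.V A.V →ₗ[k] Wd k A.V A.V := TensorProduct.lift (fc A)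

@[simp] theorem fcT_tmul (u v : Wd k A.V A.V) : fcT A (u ⊗ₜ[k] v) = fc A u v := by
  simp [fcT]

variable {A}

theorem fc_h {u v : Wd k A.V A.V} {a b : Bool} (hu : Hs A.toSD A.toSD u a)
    (hv : Hs A.toSD A.toSD v b) : fc A u v = sg k (!a && b) • circ A.mul v u := by
  rw [fc_apply, hv.S]
  unfold Hs at hu
  rw [hu]
  cases a <;> simp

theorem bp_cflT (z : Wd k A.V A.V ⊗[k] Wd k A.V A.V) : bp A (cflT A.toSD z)
    = cflT A.toSD ((bp A).rTensor (Wd k A.V A.V) z)
      + cflT A.toSD (TensorProduct.map (wS A.toSD A.toSD) (bp A) z) - fcT A z := by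
  refine tmul_hs (f := bp A ∘ₗ cflT A.toSD) (g := cflT A.toSD ∘ₗ (bp A).rTensor (Wd k A.V A.V)
    + cflT A.toSD ∘ₗ TensorProduct.map (wS A.toSD A.toSD) (bp A) - fcT A) ?_ z
  intro u v a b hu hv
  simp only [LinearMap.comp_apply, LinearMap.add_apply, LinearMap.sub_apply, cflT_tmul,
    LinearMap.rTensor_tmul, TensorProduct.map_tmul, fcT_tmul]
  rw [cfl_h hu hv, map_smul, bp_cat, hv.S, hu.S, cfl_h (hs_bp hu) hv, fc_h hu hv]
  simp only [map_smul, LinearMap.smul_apply]
  rw [cfl_h hu (hs_bp hv)]
  cases a <;> cases b <;> simp <;> abel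

theorem fcT_dec (w : Wd k A.V A.V) : fcT A (dec w) = - nrm A.toSD (cc A w) := by
  induction w using hs_induction with
  | hadd a b ha hb => simp only [map_add, ha, hb]; abel
  | hnil a q _ => simp
  | hsnoc w a hw _ r q hr =>
    have h1 : fc A w (nil r) = sg k (!q && !a) • hd A r w := by
      rw [fc_h hw (Hs.nil hr), circ_nil_left, Bool.and_comm]
    have h2 : ∀ z : Wd k A.V A.V ⊗[k] Wd k A.V A.V,
        fcT A ((snoc.flip r).lTensor (Wd k A.V A.V) z)
        = sg k (!q) • cflT A.toSD ((hd A r).rTensor (Wd k A.V A.V)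
          (TensorProduct.map (gS !q) (gS !q) z)) := by
      intro z
      refine tmul_hs (f := fcT A ∘ₗ (snoc.flip r).lTensor (Wd k A.V A.V)) (g := sg k (!q) •
        (cflT A.toSD ∘ₗ (hd A r).rTensor (Wd k A.V A.V) ∘ₗ
          TensorProduct.map (gS !q) (gS !q))) ?_ z
      intro u v a b hu hv
      simp only [LinearMap.comp_apply, LinearMap.smul_apply, TensorProduct.map_tmul,
        LinearMap.rTensor_tmul, LinearMap.lTensor_tmul, cflT_tmul, fcT_tmul, LinearMap.flip_apply]
      rw [gS_h _ hu, gS_h _ hv, map_smul, map_smul, map_smul, LinearMap.smul_apply,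
        cfl_h (hu.hd hr) hv, fc_h hu (hv.snoc hr), snoc_circ, ← hd_apply, smul_smul, smul_smul,
        smul_smul]
      congr 1
      cases q <;> cases a <;> cases b <;> simp
    rw [dec_snoc, map_add, fcT_tmul, h1, h2, ← dec_gS, ← dec_hd, gS_h _ hw, cc_snoc_h hw hr,
      map_smul, nrm_apply]
    simp only [map_smul]
    cases q <;> cases a <;> simp <;> abel

/-- `b' N = N b` -/
theorem bp_nrm (w : Wd k A.V A.V) : bp A (nrm A.toSD w) = nrm A.toSD (bb A w) := by
  have h1 := bp_cflT (dec w)
  have h2 := dec_bp w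
  have h3 := fcT_dec w
  have h4 : nrm A.toSD (bp A w) = bp A w + cflT A.toSD (dec (bp A w)) := nrm_apply _ _
  rw [bb_apply, map_add, nrm_apply, map_add, h4, h2, map_add]
  linear_combination (norm := module) h1 - h3

/-- `b'` is contractible -/
theorem bp_homotopy (w : Wd k A.V A.V) :
    bp A (- snoc (wS A.toSD A.toSD w) A.one) = w + snoc (wS A.toSD A.toSD (bp A w)) A.one := by
  have h : A.D A.one = 0 := A.D_one
  rw [map_neg, bp_snoc, wS_wS, h, map_zero, tl_one, bp_wS, map_neg, LinearMap.neg_apply]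
  abel

theorem bp_exact (w : Wd k A.V A.V) (hw : bp A w = 0) :
    bp A (- snoc (wS A.toSD A.toSD w) A.one) = w := by
  rw [bp_homotopy, hw]
  simp

end Wd

end NC
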