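import Mathlib
import Pool.Agent.H94.NC.CBp

/-!
# Functoriality of the operators
-/

set_option autoImplicit false

open scoped TensorProduct

noncomputable section

namespace NC

variable {k : Type} [Field k]

namespace Wd

/-- apply a map to all letters -/
def wm {A B : SD k} (f : A.V →ₗ[k] B.V) : Wd k A.V A.V →ₗ[k] Wd k B.V B.V := map f f

@[simp] theorem wm_nil {A B : SD k} (f : A.V →ₗ[k] B.V) (a : A.V) : wm f (nil a) = nil (f a) :=
  map_nil _ _ _

@[simp] theorem wm_snoc {A B : SD k} (f : A.V →ₗ[k] B.V) (w : Wd k A.V A.V) (a : A.V) :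
    wm f (snoc w a) = snoc (wm f w) (f a) := map_snoc _ _ _ _

theorem wm_cat {A B : SD k} (f : A.V →ₗ[k] B.V) (u v : Wd k A.V A.V) :
    wm f (cat u v) = cat (wm f u) (wm f v) := by
  induction v using induction with
  | hadd a b ha hb => simp only [map_add, ha, hb]
  | hnil a => simp
  | hsnoc w ih r => simp [ih]

theorem wm_dec {A B : SD k} (f : A.V →ₗ[k] B.V) (w : Wd k A.V A.V) :
    dec (wm f w) = TensorProduct.map (wm f) (wm f) (dec w) := by
  induction w using induction with
  | hadd a b ha hb => simp only [map_add, ha, hb]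
  | hnil a => simp
  | hsnoc w ih r =>
    have h1 : ∀ z : Wd k A.V A.V ⊗[k] Wd k A.V A.V,
        (snoc.flip (f r)).lTensor (Wd k B.V B.V) (TensorProduct.map (wm f) (wm f) z)
        = TensorProduct.map (wm f) (wm f) ((snoc.flip r).lTensor (Wd k A.V A.V) z) := by
      intro z
      induction z using TensorProduct.induction_on with
      | zero => simp
      | tmul u v => simp
      | add a b ha hb => simp only [map_add, ha, hb]
    rw [wm_snoc, dec_snoc, dec_snoc, ih, h1, map_add, TensorProduct.map_tmul, wm_nil]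

section P

variable {A B : SD k} {f : A.V →ₗ[k] B.V} (hP : ∀ a, f (A.P a) = B.P (f a))
include hP

theorem wm_P (w : Wd k A.V A.V) : wm f (wP A A w) = wP B B (wm f w) := by
  induction w using induction with
  | hadd a b ha hb => simp only [map_add, ha, hb]
  | hnil a => simp [hP]
  | hsnoc w ih r => simp only [wP_snoc, map_add, map_sub, wm_snoc, ih, hP]

theorem wm_S (w : Wd k A.V A.V) : wm f (wS A A w) = wS B B (wm f w) := by
  simp only [wS_apply, map_sub, wm_P hP]

theorem wm_cfl (u v : Wd k A.V A.V) : wm f (cfl A u v) = cfl B (wm f u) (wm f v) := by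
  rw [cfl_apply, cfl_apply, map_add, wm_cat, wm_cat, map_sub, wm_P hP, wm_S hP]

theorem wm_cflT (z : Wd k A.V A.V ⊗[k] Wd k A.V A.V) :
    wm f (cflT A z) = cflT B (TensorProduct.map (wm f) (wm f) z) := by
  induction z using TensorProduct.induction_on with
  | zero => simp
  | tmul u v => simp [wm_cfl hP]
  | add a b ha hb => simp only [map_add, ha, hb]

theorem wm_rot (w : Wd k A.V A.V) : wm f (rot A w) = rot B (wm f w) := by
  induction w using induction with
  | hadd a b ha hb => simp only [map_add, ha, hb]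
  | hnil a => simp
  | hsnoc w ih r => rw [rot_snoc, wm_snoc, rot_snoc, wm_cfl hP, wm_nil]

theorem wm_nrm (w : Wd k A.V A.V) : wm f (nrm A w) = nrm B (wm f w) := by
  rw [nrm_apply, nrm_apply, map_add, wm_cflT hP, wm_dec]

end P

section mul

variable {A B : DGA k} {f : A.V →ₗ[k] B.V} (hm : ∀ a b, f (A.mul a b) = B.mul (f a) (f b))
include hm

theorem wm_tl (w : Wd k A.V A.V) (r : A.V) :
    wm (A := A.toSD) (B := B.toSD) f (tlA A w r)
      = tlA B (wm (A := A.toSD) (B := B.toSD) f w) (f r) := by
  induction w using induction with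
  | hadd a b ha hb => simp only [map_add, LinearMap.add_apply, ha, hb]
  | hnil a => simp [hm]
  | hsnoc w ih s => simp [hm]

theorem wm_hd (r : A.V) (w : Wd k A.V A.V) :
    wm (A := A.toSD) (B := B.toSD) f (hd A r w)
      = hd B (f r) (wm (A := A.toSD) (B := B.toSD) f w) := by
  induction w using induction with
  | hadd a b ha hb => simp only [map_add, ha, hb]
  | hnil a => simp [hm]
  | hsnoc w ih s => simp [ih]

variable (hP : ∀ a, f (A.P a) = B.P (f a)) (hD : ∀ a, f (A.D a) = B.D (f a))
include hP

theorem wm_cc (w : Wd k A.V A.V) :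
    wm (A := A.toSD) (B := B.toSD) f (cc A w)
      = cc B (wm (A := A.toSD) (B := B.toSD) f w) := by
  induction w using induction with
  | hadd a b ha hb => simp only [map_add, ha, hb]
  | hnil a => simp
  | hsnoc w ih r =>
    rw [cc_snoc, wm_snoc, cc_snoc, map_sub, wm_hd hm, wm_hd hm, wm_S hP, hP, map_sub, hP]

include hD

theorem wm_bp (w : Wd k A.V A.V) :
    wm (A := A.toSD) (B := B.toSD) f (bp A w)
      = bp B (wm (A := A.toSD) (B := B.toSD) f w) := by
  induction w using induction with
  | hadd a b ha hb => simp only [map_add, ha, hb]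
  | hnil a => simp [hD]
  | hsnoc w ih r =>
    rw [bp_snoc, wm_snoc, bp_snoc, map_sub, map_add, wm_snoc, wm_snoc, ih, wm_tl hm, wm_S hP, hD]

theorem wm_bb (w : Wd k A.V A.V) :
    wm (A := A.toSD) (B := B.toSD) f (bb A w)
      = bb B (wm (A := A.toSD) (B := B.toSD) f w) := by
  rw [bb_apply, bb_apply, map_add, wm_bp hm hP hD, wm_cc hm hP]

end mul

end Wd

end NC
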