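import Mathlib
import Pool.Agent.H16.NC.Wd

/-!
# The grading on words

`N` and `R` are graded vector spaces (cohomological gradings `gN`, `gR`).  The homological degree
of the word `nil a` with `a ∈ gN i` is `- i`, the degree of `snoc w r` is
`(degree of w) + 1 - j` for `r ∈ gR j`.

Proof of `wgr_internal`.  Spanning: word induction, decomposing head and letters (use
`DirectSum.IsInternal` of `gN`, `gR`, e.g. through `DirectSum.Decomposition` obtained with
`IsInternal.chooseDecomposition`).  Independence: the linear map `F : Wd k N R → (ℤ →₀ Wd k N R)`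
with `F (nil a) = ∑ i, single (-i) (nil (a_i))` and
`F (snoc w r) = ∑ j, (snoc · r_j applied to the values of F w, indices shifted by 1 - j)` (one
`recW`) satisfies `F w = single m w` for `w ∈ wgr m`.
-/

set_option autoImplicit false

open scoped TensorProduct

noncomputable section

namespace NC

namespace Wd

variable {k : Type} [Field k] {N R : Type} [AddCommGroup N] [Module k N]
  [AddCommGroup R] [Module k R]

/-- homogeneous words of degree `m` -/
inductive HomW (gN : ℤ → Submodule k N) (gR : ℤ → Submodule k R) : ℤ → Wd k N R → Prop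
  | nil {i : ℤ} {a : N} (ha : a ∈ gN i) : HomW gN gR (-i) (Wd.nil a)
  | snoc {m j : ℤ} {w : Wd k N R} {r : R} (hw : HomW gN gR m w) (hr : r ∈ gR j) :
      HomW gN gR (m + 1 - j) (Wd.snoc w r)

/-- the words of degree `m` -/
def wgr (gN : ℤ → Submodule k N) (gR : ℤ → Submodule k R) (m : ℤ) : Submodule k (Wd k N R) :=
  Submodule.span k {w | HomW gN gR m w}

variable (gN : ℤ → Submodule k N) (gR : ℤ → Submodule k R)

theorem nil_mem_wgr {i : ℤ} {a : N} (ha : a ∈ gN i) : nil a ∈ wgr gN gR (-i) :=
  Submodule.subset_span (HomW.nil ha)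

theorem snoc_mem_wgr {m j : ℤ} {w : Wd k N R} {r : R} (hw : w ∈ wgr gN gR m) (hr : r ∈ gR j) :
    snoc w r ∈ wgr gN gR (m + 1 - j) := by
  unfold wgr at hw
  induction hw using Submodule.span_induction with
  | mem x hx => exact Submodule.subset_span (HomW.snoc hx hr)
  | zero =>
    rw [map_zero, LinearMap.zero_apply]
    exact Submodule.zero_mem _
  | add x y _ _ hx hy =>
    rw [map_add, LinearMap.add_apply]
    exact Submodule.add_mem _ hx hy
  | smul c x _ hx =>
    rw [map_smul, LinearMap.smul_apply]
    exact Submodule.smul_mem _ _ hx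

/-- induction on homogeneous words -/
theorem wgr_induction {p : ∀ m, Wd k N R → Prop}
    (h0 : ∀ m, p m 0) (hadd : ∀ m a b, p m a → p m b → p m (a + b))
    (hsmul : ∀ m (c : k) a, p m a → p m (c • a))
    (hnil : ∀ i a, a ∈ gN i → p (-i) (nil a))
    (hsnoc : ∀ m j w r, w ∈ wgr gN gR m → p m w → r ∈ gR j → p (m + 1 - j) (snoc w r))
    {m : ℤ} {w : Wd k N R} (hw : w ∈ wgr gN gR m) : p m w := by
  unfold wgr at hw
  induction hw using Submodule.span_induction with
  | mem x hx =>
    induction hx with
    | nil ha => exact hnil _ _ ha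
    | snoc hw hr ih => exact hsnoc _ _ _ _ (Submodule.subset_span hw) ih hr
  | zero => exact h0 m
  | add x y _ _ hx hy => exact hadd m x y hx hy
  | smul c x _ hx => exact hsmul m c x hx

theorem map_mem_wgr {N' R' : Type} [AddCommGroup N'] [Module k N'] [AddCommGroup R'] [Module k R']
    (gN' : ℤ → Submodule k N') (gR' : ℤ → Submodule k R') (f : N →ₗ[k] N') (g : R →ₗ[k] R')
    (hf : ∀ i, ∀ a ∈ gN i, f a ∈ gN' i) (hg : ∀ i, ∀ a ∈ gR i, g a ∈ gR' i)
    {m : ℤ} {w : Wd k N R} (hw : w ∈ wgr gN gR m) : map f g w ∈ wgr gN' gR' m := by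
  refine wgr_induction gN gR (p := fun m w => map f g w ∈ wgr gN' gR' m) ?_ ?_ ?_ ?_ ?_ hw
  · intro m
    rw [map_zero]
    exact Submodule.zero_mem _
  · intro m a b ha hb
    rw [map_add]
    exact Submodule.add_mem _ ha hb
  · intro m c a ha
    rw [map_smul]
    exact Submodule.smul_mem _ _ ha
  · intro i a ha
    rw [map_nil]
    exact nil_mem_wgr gN' gR' (hf i a ha)
  · intro m j w r _ hw hr
    rw [map_snoc]
    exact snoc_mem_wgr gN' gR' hw (hg j r hr)

/-- the shifted application of `snoc` to a family of words -/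
def shSnoc (j : ℤ) : R →ₗ[k] (ℤ → Wd k N R) →ₗ[k] (ℤ → Wd k N R) :=
  LinearMap.mk₂ k (fun r φ m => snoc (φ (m - 1 + j)) r)
    (by intro r r' φ; funext m; simp)
    (by intro c r φ; funext m; simp)
    (by intro r φ φ'; funext m; simp)
    (by intro c r φ; funext m; simp)

theorem shSnoc_apply (j : ℤ) (r : R) (φ : ℤ → Wd k N R) (m : ℤ) :
    shSnoc (k := k) j r φ m = snoc (φ (m - 1 + j)) r := rfl

/-- a linear map out of the total space from linear maps out of the pieces -/
def ofInt {V Z : Type} [AddCommGroup V] [Module k V] [AddCommGroup Z] [Module k Z]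
    {g : ℤ → Submodule k V} (h : DirectSum.IsInternal g) (φ : ℤ → (V →ₗ[k] Z)) : V →ₗ[k] Z :=
  DirectSum.toModule k ℤ Z (fun i => φ i ∘ₗ (g i).subtype) ∘ₗ
    (LinearEquiv.ofBijective (DirectSum.coeLinearMap g) h).symm.toLinearMap

theorem ofInt_apply {V Z : Type} [AddCommGroup V] [Module k V] [AddCommGroup Z] [Module k Z]
    {g : ℤ → Submodule k V} (h : DirectSum.IsInternal g) (φ : ℤ → (V →ₗ[k] Z)) {i : ℤ} {v : V}
    (hv : v ∈ g i) : ofInt h φ v = φ i v := by
  have e : (LinearEquiv.ofBijective (DirectSum.coeLinearMap g) h).symm v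
      = DirectSum.lof k ℤ (fun i => g i) i ⟨v, hv⟩ := by
    rw [LinearEquiv.symm_apply_eq]
    change v = DirectSum.coeLinearMap g (DirectSum.lof k ℤ (fun i => g i) i ⟨v, hv⟩)
    rw [DirectSum.coeLinearMap_lof]
  unfold ofInt
  rw [LinearMap.comp_apply]
  change DirectSum.toModule k ℤ Z _ ((LinearEquiv.ofBijective (DirectSum.coeLinearMap g) h).symm v) = _
  rw [e, DirectSum.toModule_lof]
  rfl

theorem mem_of_int {V : Type} [AddCommGroup V] [Module k V]
    {g : ℤ → Submodule k V} (h : DirectSum.IsInternal g) (S : Submodule k V)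
    (hS : ∀ i, g i ≤ S) (v : V) : v ∈ S := by
  have h1 : iSup g = ⊤ := h.submodule_iSup_eq_top
  have h2 : iSup g ≤ S := iSup_le hS
  rw [h1] at h2
  exact h2 trivial

/-- all components of a word -/
def comps (hN : DirectSum.IsInternal gN) (hR : DirectSum.IsInternal gR) :
    Wd k N R →ₗ[k] (ℤ → Wd k N R) :=
  recW (ofInt hN (fun i => LinearMap.single k (fun _ => Wd k N R) (-i) ∘ₗ nil)) 0
    (ofInt hR (fun j => shSnoc j)).flip

theorem comps_eq (hN : DirectSum.IsInternal gN) (hR : DirectSum.IsInternal gR) {m : ℤ}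
    {w : Wd k N R} (hw : w ∈ wgr gN gR m) :
    comps gN gR hN hR w = LinearMap.single k (fun _ => Wd k N R) m w := by
  refine wgr_induction gN gR
    (p := fun m w => comps gN gR hN hR w = LinearMap.single k (fun _ => Wd k N R) m w)
    ?_ ?_ ?_ ?_ ?_ hw
  · intro m
    rw [map_zero, map_zero]
  · intro m a b ha hb
    rw [map_add, map_add, ha, hb]
  · intro m c a ha
    rw [map_smul, map_smul, ha]
  · intro i a ha
    unfold comps
    rw [recW_nil, ofInt_apply hN _ ha]
    rfl
  · intro m j w r _ hw hr
    unfold comps at hw ⊢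
    rw [recW_snoc, LinearMap.zero_apply, LinearMap.zero_apply, zero_add, LinearMap.flip_apply,
      ofInt_apply hR _ hr, hw]
    funext m'
    rw [shSnoc_apply]
    by_cases h : m' = m + 1 - j
    · subst h
      have h1 : m + 1 - j - 1 + j = m := by ring
      rw [h1]
      simp
    · have h1 : m' - 1 + j ≠ m := fun h2 => h (by omega)
      simp [h, h1]

theorem wgr_internal (hN : DirectSum.IsInternal gN) (hR : DirectSum.IsInternal gR) :
    DirectSum.IsInternal (wgr gN gR) := by
  have key : ∀ (x : DirectSum ℤ (fun m => wgr gN gR m)) (m : ℤ),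
      comps gN gR hN hR (DirectSum.coeAddMonoidHom (wgr gN gR) x) m = (x m : Wd k N R) := by
    intro x m
    induction x using DirectSum.induction_on with
    | zero => simp
    | of i y =>
      rw [DirectSum.coeAddMonoidHom_of, comps_eq gN gR hN hR y.2]
      by_cases h : m = i
      · subst h
        simp
      · rw [DirectSum.of_eq_of_ne _ _ _ h]
        simp [h]
    | add x y hx hy =>
      rw [map_add, map_add, Pi.add_apply, hx, hy, DirectSum.add_apply]
      rfl
  constructor
  · rw [injective_iff_map_eq_zero]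
    intro x hx
    ext m
    rw [← key x m, hx, map_zero]
    rfl
  · have hS : ∀ w : Wd k N R, w ∈ LinearMap.range (DirectSum.coeLinearMap (wgr gN gR)) := by
      have hle : ∀ m, wgr gN gR m ≤ LinearMap.range (DirectSum.coeLinearMap (wgr gN gR)) := by
        intro m w hw
        exact ⟨DirectSum.lof k ℤ (fun m => wgr gN gR m) m ⟨w, hw⟩, by
          rw [DirectSum.coeLinearMap_lof]⟩
      have hle2 : LinearMap.range (DirectSum.coeLinearMap (wgr gN gR)) ≤ iSup (wgr gN gR) := by
        rw [← DirectSum.range_coeLinearMap]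
      intro w
      induction w using induction with
      | hadd a b ha hb => exact Submodule.add_mem _ ha hb
      | hnil n =>
        refine mem_of_int hN ((LinearMap.range (DirectSum.coeLinearMap (wgr gN gR))).comap nil)
          (fun i a ha => ?_) n
        exact hle _ (nil_mem_wgr gN gR ha)
      | hsnoc w hw r =>
        refine mem_of_int hR
          ((LinearMap.range (DirectSum.coeLinearMap (wgr gN gR))).comap (snoc w)) (fun j r hr => ?_) r
        have h2 : iSup (wgr gN gR) ≤
            (LinearMap.range (DirectSum.coeLinearMap (wgr gN gR))).comap (snoc.flip r) :=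
          iSup_le (fun m v hv => hle _ (snoc_mem_wgr gN gR hv hr))
        exact h2 (hle2 hw)
    intro w
    obtain ⟨x, hx⟩ := hS w
    exact ⟨x, hx⟩

/-- If `gN` and `gR` are concentrated in degrees `≤ 1` then words have degree `≥ -1`. -/
theorem wgr_bounded (hN : ∀ i, 1 < i → gN i = ⊥) (hR : ∀ i, 1 < i → gR i = ⊥) (m : ℤ)
    (hm : m < -1) : wgr gN gR m = ⊥ := by
  rw [eq_bot_iff]
  intro w hw
  rw [Submodule.mem_bot]
  refine wgr_induction gN gR (p := fun m w => m < -1 → w = 0) ?_ ?_ ?_ ?_ ?_ hw hm
  · intro m _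
    rfl
  · intro m a b ha hb h
    rw [ha h, hb h, add_zero]
  · intro m c a ha h
    rw [ha h, smul_zero]
  · intro i a ha h
    rw [hN i (by omega), Submodule.mem_bot] at ha
    rw [ha, map_zero]
  · intro m j w r _ hw hr h
    by_cases hj : 1 < j
    · rw [hR j hj, Submodule.mem_bot] at hr
      rw [hr, map_zero]
    · rw [hw (by omega), map_zero, LinearMap.zero_apply]

end Wd

end NC
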