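import Mathlib
import Pool.Agent.H94.NC.CFun
import Pool.Agent.H94.NC.WGr
import Pool.Agent.H94.NC.GDefs
import Pool.Agent.H94.NC.CycStr

/-!
# The graded cyclic module of a dg algebra; periodic cyclic homology
-/

set_option autoImplicit false

open scoped TensorProduct

noncomputable section

namespace NC

variable {k : Type} [Field k]

theorem ZD.hm_gr (X : ZD k) {i : ℤ} {v : X.V} (hv : v ∈ X.gr i) : X.Hm v (!decide (Even i)) := by
  unfold SD.Hm
  rw [X.P_gr i v hv]
  by_cases h : Even i <;> simp [h]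

/-- a degree preserving map commutes with the parity projection -/
theorem ZD.map_P (X Y : ZD k) (f : X.V →ₗ[k] Y.V) (hf : ∀ i, ∀ v ∈ X.gr i, f v ∈ Y.gr i)
    (v : X.V) : f (X.P v) = Y.P (f v) := by
  have h : v ∈ ⨆ i, X.gr i := by
    rw [X.internal.submodule_iSup_eq_top]
    trivial
  induction h using Submodule.iSup_induction' with
  | mem i v hv =>
    rw [X.P_gr i v hv, Y.P_gr i _ (hf i v hv)]
    split_ifs <;> simp
  | zero => simp
  | add a b _ _ ha hb => rw [map_add, map_add, ha, hb, map_add, map_add]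

namespace Wd

variable (A : ZDGA k)

/-- the degree of words -/
abbrev wg (m : ℤ) : Submodule k (Wd k A.V A.V) := wgr A.gr A.gr m

variable {A}

theorem dec_even (m j : ℤ) :
    decide (Even (m + 1 - j)) = xor (decide (Even m)) (!(!decide (Even j))) := by
  have h : Even (m + 1 - j) ↔ ¬ (Even m ↔ Even j) := by
    rw [Int.even_sub, Int.even_add_one]
    tauto
  by_cases h1 : Even m <;> by_cases h2 : Even j <;> simp only [h, h1, h2] <;> decide

theorem hs_wg {m : ℤ} {w : Wd k A.V A.V} (hw : w ∈ wg A m) :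
    Hs A.toSD A.toSD w (decide (Even m)) := by
  refine wgr_induction A.gr A.gr (p := fun m w => Hs A.toSD A.toSD w (decide (Even m)))
    (fun m => hs_zero _) (fun m a b => hs_add) (fun m c a => hs_smul c) ?_ ?_ hw
  · intro i a ha
    have h := Hs.nil (R := A.toSD) (A.toZD.hm_gr ha)
    by_cases hi : Even i <;> simpa [hi] using h
  · intro m j w r _ hw hr
    rw [dec_even]
    exact hw.snoc (A.toZD.hm_gr hr)

theorem wS_wg {m : ℤ} {w : Wd k A.V A.V} (hw : w ∈ wg A m) :
    wS A.toSD A.toSD w ∈ wg A m := by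
  rw [(hs_wg hw).S]
  exact Submodule.smul_mem _ _ hw

theorem cat_wg {m n : ℤ} {u v : Wd k A.V A.V} (hu : u ∈ wg A m) (hv : v ∈ wg A n) :
    cat u v ∈ wg A (m + n + 1) := by
  refine wgr_induction A.gr A.gr (p := fun n v => cat u v ∈ wg A (m + n + 1))
    (fun n => by simp) (fun n a b ha hb => ?_) (fun n c a ha => ?_) ?_ ?_ hv
  · rw [map_add]
    exact Submodule.add_mem _ ha hb
  · rw [map_smul]
    exact Submodule.smul_mem _ _ ha
  · intro i a ha
    rw [cat_nil]
    have h := snoc_mem_wgr A.gr A.gr hu ha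
    have e : m + 1 - i = m + -i + 1 := by ring
    rwa [e] at h
  · intro n j w r _ hw hr
    rw [cat_snoc]
    have h := snoc_mem_wgr A.gr A.gr hw hr
    have e : m + n + 1 + 1 - j = m + (n + 1 - j) + 1 := by ring
    rwa [e] at h

theorem cfl_wg {m n : ℤ} {u v : Wd k A.V A.V} (hu : u ∈ wg A m) (hv : v ∈ wg A n) :
    cfl A.toSD u v ∈ wg A (m + n + 1) := by
  rw [cfl_h (hs_wg hu) (hs_wg hv)]
  have h := cat_wg hv hu
  have e : n + m + 1 = m + n + 1 := by ring
  rw [e] at h
  exact Submodule.smul_mem _ _ h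

theorem rot_wg {m : ℤ} {w : Wd k A.V A.V} (hw : w ∈ wg A m) : rot A.toSD w ∈ wg A m := by
  refine wgr_induction A.gr A.gr (p := fun m w => rot A.toSD w ∈ wg A m)
    (fun n => by simp) (fun n a b ha hb => ?_) (fun n c a ha => ?_) ?_ ?_ hw
  · rw [map_add]
    exact Submodule.add_mem _ ha hb
  · rw [map_smul]
    exact Submodule.smul_mem _ _ ha
  · intro i a ha
    rw [rot_nil]
    exact nil_mem_wgr _ _ ha
  · intro n j w r hw _ hr
    rw [rot_snoc]
    have h := cfl_wg hw (nil_mem_wgr A.gr A.gr hr)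
    have e : n + -j + 1 = n + 1 - j := by ring
    rwa [e] at h

/-- the graded pieces of the square -/
def tgr (A : ZDGA k) (d : ℤ) : Submodule k (Wd k A.V A.V ⊗[k] Wd k A.V A.V) :=
  Submodule.span k {z | ∃ m n u v, m + n + 1 = d ∧ u ∈ wg A m ∧ v ∈ wg A n ∧ z = u ⊗ₜ v}

theorem dec_tgr {m : ℤ} {w : Wd k A.V A.V} (hw : w ∈ wg A m) : dec w ∈ tgr A m := by
  refine wgr_induction A.gr A.gr (p := fun m w => dec w ∈ tgr A m)
    (fun n => by simp) (fun n a b ha hb => ?_) (fun n c a ha => ?_) ?_ ?_ hw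
  · rw [map_add]
    exact Submodule.add_mem _ ha hb
  · rw [map_smul]
    exact Submodule.smul_mem _ _ ha
  · intro i a ha
    rw [dec_nil]
    exact Submodule.zero_mem _
  · intro n j w r hw hd hr
    rw [dec_snoc]
    refine Submodule.add_mem _ ?_ ?_
    · exact Submodule.subset_span ⟨n, -j, w, nil r, by ring, hw, nil_mem_wgr _ _ hr, rfl⟩
    · have key : tgr A n ≤ (tgr A (n + 1 - j)).comap
          ((snoc.flip r).lTensor (Wd k A.V A.V)) := by
        refine Submodule.span_le.2 ?_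
        rintro _ ⟨m, n', u, v, h, hu, hv, rfl⟩
        refine Submodule.subset_span ⟨m, n' + 1 - j, u, snoc v r, by rw [← h]; ring, hu,
          snoc_mem_wgr _ _ hv hr, ?_⟩
        simp
      exact key hd

theorem nrm_wg {m : ℤ} {w : Wd k A.V A.V} (hw : w ∈ wg A m) : nrm A.toSD w ∈ wg A m := by
  rw [nrm_apply]
  refine Submodule.add_mem _ hw ?_
  have key : tgr A m ≤ (wg A m).comap (cflT A.toSD) := by
    refine Submodule.span_le.2 ?_
    rintro _ ⟨p, q, u, v, h, hu, hv, rfl⟩
    change cflT A.toSD (u ⊗ₜ v) ∈ wg A m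
    rw [cflT_tmul, ← h]
    exact cfl_wg hu hv
  exact key (dec_tgr hw)

theorem tl_wg {m j : ℤ} {w : Wd k A.V A.V} (hw : w ∈ wg A m) {r : A.V} (hr : r ∈ A.gr j) :
    tlA A.toDGA w r ∈ wg A (m - j) := by
  refine wgr_induction A.gr A.gr (p := fun m w => tlA A.toDGA w r ∈ wg A (m - j))
    (fun n => by simp) (fun n a b ha hb => ?_) (fun n c a ha => ?_) ?_ ?_ hw
  · rw [map_add]
    exact Submodule.add_mem _ ha hb
  · rw [map_smul]
    exact Submodule.smul_mem _ _ ha
  · intro i a ha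
    rw [tl_nil]
    have h := nil_mem_wgr A.gr A.gr (A.mul_gr _ _ a ha r hr)
    have e : -(i + j) = -i - j := by ring
    rwa [e] at h
  · intro n i w s hw _ hs
    rw [tl_snoc]
    have h := snoc_mem_wgr A.gr A.gr hw (A.mul_gr _ _ s hs r hr)
    have e : n + 1 - (i + j) = n + 1 - i - j := by ring
    rwa [e] at h

theorem hd_wg {m j : ℤ} {w : Wd k A.V A.V} (hw : w ∈ wg A m) {r : A.V} (hr : r ∈ A.gr j) :
    hd A.toDGA r w ∈ wg A (m - j) := by
  refine wgr_induction A.gr A.gr (p := fun m w => hd A.toDGA r w ∈ wg A (m - j))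
    (fun n => by simp) (fun n a b ha hb => ?_) (fun n c a ha => ?_) ?_ ?_ hw
  · rw [map_add]
    exact Submodule.add_mem _ ha hb
  · rw [map_smul]
    exact Submodule.smul_mem _ _ ha
  · intro i a ha
    rw [hd_nil]
    have h := nil_mem_wgr A.gr A.gr (A.mul_gr _ _ r hr a ha)
    have e : -(j + i) = -i - j := by ring
    rwa [e] at h
  · intro n i w s _ hw hs
    rw [hd_snoc]
    have h := snoc_mem_wgr A.gr A.gr hw hs
    have e : n - j + 1 - i = n + 1 - i - j := by ring
    rwa [e] at h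

theorem bp_wg {m : ℤ} {w : Wd k A.V A.V} (hw : w ∈ wg A m) : bp A.toDGA w ∈ wg A (m - 1) := by
  refine wgr_induction A.gr A.gr (p := fun m w => bp A.toDGA w ∈ wg A (m - 1))
    (fun n => by simp) (fun n a b ha hb => ?_) (fun n c a ha => ?_) ?_ ?_ hw
  · rw [map_add]
    exact Submodule.add_mem _ ha hb
  · rw [map_smul]
    exact Submodule.smul_mem _ _ ha
  · intro i a ha
    rw [bp_nil]
    have h := nil_mem_wgr A.gr A.gr (A.D_gr _ a ha)
    have e : -(i + 1) = -i - 1 := by ring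
    rwa [e] at h
  · intro n j w r hw hb hr
    rw [bp_snoc]
    refine Submodule.sub_mem _ (Submodule.add_mem _ ?_ ?_) ?_
    · have h := snoc_mem_wgr A.gr A.gr hb hr
      have e : n - 1 + 1 - j = n + 1 - j - 1 := by ring
      rwa [e] at h
    · have h := snoc_mem_wgr A.gr A.gr (wS_wg hw) (A.D_gr _ r hr)
      have e : n + 1 - (j + 1) = n + 1 - j - 1 := by ring
      rwa [e] at h
    · have h := tl_wg (wS_wg hw) hr
      have e : n - j = n + 1 - j - 1 := by ring
      rwa [e] at h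

theorem cc_wg {m : ℤ} {w : Wd k A.V A.V} (hw : w ∈ wg A m) : cc A.toDGA w ∈ wg A (m - 1) := by
  refine wgr_induction A.gr A.gr (p := fun m w => cc A.toDGA w ∈ wg A (m - 1))
    (fun n => by simp) (fun n a b ha hb => ?_) (fun n c a ha => ?_) ?_ ?_ hw
  · rw [map_add]
    exact Submodule.add_mem _ ha hb
  · rw [map_smul]
    exact Submodule.smul_mem _ _ ha
  · intro i a ha
    rw [cc_nil]
    exact Submodule.zero_mem _
  · intro n j w r hw _ hr
    rw [cc_snoc_h (hs_wg hw) (A.toZD.hm_gr hr)]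
    have h := hd_wg hw hr
    have e : n - j = n + 1 - j - 1 := by ring
    rw [e] at h
    exact Submodule.smul_mem _ _ h

theorem bb_wg {m : ℤ} {w : Wd k A.V A.V} (hw : w ∈ wg A m) : bb A.toDGA w ∈ wg A (m - 1) := by
  rw [bb_apply]
  exact Submodule.add_mem _ (bp_wg hw) (cc_wg hw)

end Wd

open Wd

/-- The graded cyclic module of a dg algebra: words `a₀ ⊗ a₁ ⊗ ⋯ ⊗ aₙ` of homological degree
`n - Σ |aᵢ|`. -/
def ZDGA.cyc (A : ZDGA k) : CycMod k where
  V := Wd k A.V A.V
  gr := wgr A.gr A.gr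
  b := bb A.toDGA
  b' := bp A.toDGA
  T := LinearMap.id - rot A.toSD
  N := nrm A.toSD
  bb := bb_bb
  b'b' := bp_bp
  bT := fun v => by
    simp only [LinearMap.sub_apply, LinearMap.id_apply, map_sub]
    rw [bb_rot, bb_apply]
    abel
  b'N := bp_nrm
  TN := fun v => by
    simp only [LinearMap.sub_apply, LinearMap.id_apply]
    rw [rot_nrm, sub_self]
  NT := fun v => by
    simp only [LinearMap.sub_apply, LinearMap.id_apply, map_sub]
    rw [nrm_rot, sub_self]
  b_gr := fun _ _ hv => bb_wg hv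
  b'_gr := fun _ _ hv => bp_wg hv
  T_gr := fun _ _ hv => Submodule.sub_mem _ hv (rot_wg hv)
  N_gr := fun _ _ hv => nrm_wg hv

theorem ZDGA.cyc_internal (A : ZDGA k) : DirectSum.IsInternal A.cyc.gr :=
  wgr_internal A.gr A.gr A.internal A.internal

theorem ZDGA.cyc_Bex (A : ZDGA k) : A.cyc.Bex := by
  intro m v hv h
  refine ⟨- snoc (wS A.toSD A.toSD v) A.one, ?_, bp_exact v h⟩
  refine Submodule.neg_mem _ ?_
  have h1 := snoc_mem_wgr A.gr A.gr (wS_wg hv) A.one_gr
  have e : m + 1 - 0 = m + 1 := by ring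
  rwa [e] at h1

theorem ZHom.P {A B : ZDGA k} (f : ZHom A B) (a : A.V) : f.f (A.P a) = B.P (f.f a) :=
  ZD.map_P A.toZD B.toZD f.f f.gr a

/-- the map on cyclic modules induced by a morphism of dg algebras, not necessarily unital -/
def ZHom.cyc {A B : ZDGA k} (f : ZHom A B) : CycMod.Hom A.cyc B.cyc where
  f := wm (A := A.toSD) (B := B.toSD) f.f
  gr := fun _ _ hv => map_mem_wgr A.gr A.gr B.gr B.gr f.f f.f f.gr f.gr hv
  b := wm_bb f.mul f.P f.D
  b' := wm_bp f.mul f.P f.D
  T := fun (v : Wd k A.V A.V) => by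
    change wm f.f (v - rot A.toSD v) = wm f.f v - rot B.toSD (wm f.f v)
    rw [map_sub, wm_rot f.P]
  N := wm_nrm f.P

/-- Periodic cyclic homology of the dg algebra `A` in degree `m`. -/
abbrev ZDGA.HP (A : ZDGA k) (m : ℤ) : Type := A.cyc.H Set.univ m

/-- the map on periodic cyclic homology -/
abbrev ZHom.HP {A B : ZDGA k} (f : ZHom A B) (m : ℤ) : A.HP m →ₗ[k] B.HP m :=
  f.cyc.H Set.univ m

end NC
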