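import Mathlib
import Pool.Agent.H94.NC.GCyc
import Pool.Agent.H16.NC.Act

/-!
# A criterion for the nonvanishing of `HP₀`

A trace functional `τ` on the dg algebra `A` and a closed idempotent `e` of degree `0` with
`τ e ≠ 0` imply `HP₀(A) ≠ 0`.
-/

set_option autoImplicit false

open scoped TensorProduct

noncomputable section

namespace NC

open Wd

variable {k : Type} [Field k]

/-! ### The trace functional -/

/-- trace functionals on a dg algebra -/
structure TrF (A : DGA k) {S : Type} [AddCommGroup S] [Module k S] (τ : A.V →ₗ[k] S) : Prop where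
  D : ∀ a, τ (A.D a) = 0
  P : ∀ a, τ (A.P a) = τ a
  even : ∀ a b, A.Hm a false → A.Hm b false → τ (A.mul a b) = τ (A.mul b a)
  odd : ∀ a b, A.Hm a true → A.Hm b true → τ (A.mul a b) = - τ (A.mul b a)

section

variable {A : DGA k} {S : Type} [AddCommGroup S] [Module k S] {τ : A.V →ₗ[k] S}

/-- the functional on words: `τ` on words of length zero -/
def tw (τ : A.V →ₗ[k] S) : Wd k A.V A.V →ₗ[k] S := recW τ 0 0

@[simp] theorem tw_nil (a : A.V) : tw τ (nil a) = τ a := by
  simp [tw]

@[simp] theorem tw_snoc (w : Wd k A.V A.V) (a : A.V) : tw τ (snoc w a) = 0 := by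
  simp [tw]

theorem tw_cat (u v : Wd k A.V A.V) : tw τ (cat u v) = 0 := by
  induction v using Wd.induction with
  | hadd a b ha hb => rw [map_add, map_add, ha, hb, add_zero]
  | hnil a => simp
  | hsnoc w ih r => simp

theorem TrF.mixed (h : TrF A τ) (a : A.V) (ha : A.Hm a true) : τ a = 0 := by
  rw [← h.P]
  unfold SD.Hm at ha
  rw [ha]
  simp

theorem tw_rot (w : Wd k A.V A.V) : tw τ (rot A.toSD w) = tw τ w := by
  induction w using Wd.induction with
  | hadd a b ha hb => simp only [map_add, ha, hb]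
  | hnil a => simp
  | hsnoc w ih r => rw [rot_snoc, cfl_apply, map_add, tw_cat, tw_cat, add_zero, tw_snoc]

theorem TrF.key (h : TrF A τ) {r : A.V} {q : Bool} (hr : A.Hm r q) (w : Wd k A.V A.V) :
    - tw τ (tlA A (wS A.toSD A.toSD w) r) + tw τ (Wd.hd A (A.P r) (wS A.toSD A.toSD w))
      - tw τ (Wd.hd A (r - A.P r) w) = 0 := by
  induction w using hs_induction with
  | hadd x y hx hy =>
    simp only [map_add, LinearMap.add_apply]
    linear_combination (norm := module) hx + hy
  | hnil x p hx =>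
    rw [(Hs.nil hx).S, map_smul, LinearMap.smul_apply, Wd.tl_nil, map_smul, Wd.hd_nil,
      map_smul, map_smul, Wd.hd_nil, tw_nil, tw_nil, tw_nil]
    have hr' := hr
    unfold SD.Hm at hr'
    rw [hr']
    cases q <;> cases p
    · simp [h.even x r hx hr]
    · have h1 := h.mixed _ (A.hm_mul hx hr)
      have h2 := h.mixed _ (A.hm_mul hr hx)
      simp [h1, h2]
    · have h1 := h.mixed _ (A.hm_mul hx hr)
      have h2 := h.mixed _ (A.hm_mul hr hx)
      simp [h1, h2]
    · simp [h.odd x r hx hr]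
  | hsnoc w b _ _ x p _ =>
    simp only [wS_snoc, map_neg, LinearMap.neg_apply, Wd.tl_snoc, Wd.hd_snoc, tw_snoc]
    simp

theorem TrF.bb (h : TrF A τ) (w : Wd k A.V A.V) : tw τ (Wd.bb A w) = 0 := by
  induction w using hs_induction with
  | hadd a b ha hb => rw [map_add, map_add, ha, hb, add_zero]
  | hnil a q _ => rw [bb_apply, bp_nil, cc_nil, add_zero, tw_nil, h.D]
  | hsnoc w a hw _ r q hr =>
    have h1 := h.key hr w
    rw [bb_apply, bp_snoc, cc_snoc, map_add, map_sub, map_add, map_sub, tw_snoc, tw_snoc]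
    linear_combination (norm := module) h1

end

/-- the functional on the homology of the columns in `I` (`0 ∈ I`) -/
def tH (A : ZDGA k) {S : Type} [AddCommGroup S] [Module k S] (τ : A.V →ₗ[k] S)
    (h : TrF A.toDGA τ) (m : ℤ) : A.HP m →ₗ[k] S :=
  Submodule.liftQ _ (tw (A := A.toDGA) τ ∘ₗ LinearMap.proj 0 ∘ₗ (A.cyc.Z Set.univ m).subtype) (by
    rintro ⟨c, hc⟩ ⟨y, hy, hyc⟩
    have h1 : A.cyc.wD Set.univ y = c := hyc
    change tw (A := A.toDGA) τ (c 0) = 0
    rw [← h1, A.cyc.wD_mem _ (Set.mem_univ _)]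
    have h2 : A.cyc.col 0 = A.cyc.b := if_pos (by decide)
    have h3 : A.cyc.hor (0 + 1) = A.cyc.T := if_neg (by decide)
    rw [h2, h3]
    have h4 : ∀ u v : Wd k A.V A.V,
        tw (A := A.toDGA) τ (Wd.bb A.toDGA u + (v - rot A.toSD v)) = 0 := by
      intro u v
      rw [map_add, h.bb, map_sub, tw_rot, sub_self, add_zero]
    exact h4 _ _)

theorem tH_cls (A : ZDGA k) {S : Type} [AddCommGroup S] [Module k S] (τ : A.V →ₗ[k] S)
    (h : TrF A.toDGA τ) (m : ℤ) (c : ℤ → A.cyc.V) (hc : c ∈ A.cyc.Z Set.univ m) :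
    tH A τ h m (A.cyc.cls c hc) = tw (A := A.toDGA) τ (c 0) := rfl

/-! ### The base field -/

/-- the base field as a dg algebra -/
def trivZ (k : Type) [Field k] : ZDGA k where
  __ := DGA.triv k
  gr := fun i => if i = 0 then ⊤ else ⊥
  internal := by
    rw [DirectSum.isInternal_submodule_iff_iSupIndep_and_iSup_eq_top]
    constructor
    · intro i
      by_cases h : i = 0
      · have h1 : (⨆ (j : ℤ) (_ : j ≠ i), (if j = 0 then (⊤ : Submodule k k) else ⊥)) = ⊥ := by
          rw [iSup_eq_bot]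
          intro j
          rw [iSup_eq_bot]
          intro hj
          rw [if_neg (by rw [← h]; exact hj)]
        rw [h1]
        exact disjoint_bot_right
      · simp only [if_neg h]
        exact disjoint_bot_left
    · refine eq_top_iff.2 (le_trans ?_ (le_iSup _ 0))
      simp
  P_gr := fun i v hv => by
    by_cases h : i = 0
    · subst h
      simp
    · rw [if_neg h] at hv
      have h1 : v = 0 := hv
      subst h1
      simp
  D_gr := fun i v _ => by
    change (0 : k) ∈ _
    exact Submodule.zero_mem _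
  mul_gr := fun i j a ha b hb => by
    by_cases h : i = 0
    · by_cases h' : j = 0
      · subst h
        subst h'
        simp
      · rw [if_neg h'] at hb
        have h1 : b = 0 := hb
        subst h1
        simp
    · rw [if_neg h] at ha
      have h1 : a = 0 := ha
      subst h1
      simp
  one_gr := by
    simp

/-- dg algebras isomorphic to the base field -/
structure IsTriv (K : ZDGA k) : Prop where
  span : ∀ a : K.V, ∃ c : k, a = c • K.one
  gr : ∀ i, i ≠ 0 → ∀ a ∈ K.gr i, a = 0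
  ne : K.one ≠ 0

theorem isTriv_triv : IsTriv (trivZ k) where
  span := fun a => ⟨a, (mul_one (a : k)).symm⟩
  gr := fun i hi a ha => by
    have h : a ∈ (if i = 0 then (⊤ : Submodule k k) else ⊥) := ha
    rw [if_neg hi] at h
    exact h
  ne := one_ne_zero (α := k)

section triv

variable {K : ZDGA k} (hK : IsTriv K)

/-- the words `1 ⊗ 1 ⊗ ⋯ ⊗ 1` -/
def eps (K : ZDGA k) : ℕ → Wd k K.V K.V
  | 0 => nil K.one
  | n + 1 => snoc (eps K n) K.one

theorem eps_mem (n : ℕ) : eps K n ∈ wg K n := by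
  induction n with
  | zero =>
    have h := nil_mem_wgr K.gr K.gr K.one_gr
    rwa [neg_zero] at h
  | succ n ih =>
    have h := snoc_mem_wgr K.gr K.gr ih K.one_gr
    rw [sub_zero] at h
    push_cast
    exact h

include hK in
theorem eps_wg {m : ℤ} {w : Wd k K.V K.V} (hw : w ∈ wg K m) :
    ∃ c : k, w = c • eps K m.toNat ∧ (m < 0 → c = 0) := by
  refine wgr_induction K.gr K.gr
    (p := fun m w => ∃ c : k, w = c • eps K m.toNat ∧ (m < 0 → c = 0))
    (fun n => ⟨0, by simp, fun _ => rfl⟩) (fun n a b ha hb => ?_) (fun n c a ha => ?_) ?_ ?_ hw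
  · obtain ⟨c, h1, h2⟩ := ha
    obtain ⟨d, h3, h4⟩ := hb
    exact ⟨c + d, by rw [h1, h3, add_smul], fun h => by rw [h2 h, h4 h, add_zero]⟩
  · obtain ⟨d, h1, h2⟩ := ha
    exact ⟨c * d, by rw [h1, smul_smul], fun h => by rw [h2 h, mul_zero]⟩
  · intro i a ha
    by_cases h : i = 0
    · subst h
      obtain ⟨c, rfl⟩ := hK.span a
      refine ⟨c, ?_, fun h => absurd h (by norm_num)⟩
      change nil (c • K.one) = c • nil K.one
      rw [map_smul]
    · exact ⟨0, by rw [hK.gr i h a ha, map_zero, zero_smul], fun _ => rfl⟩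
  · intro n j w r _ hw hr
    obtain ⟨c, h1, h2⟩ := hw
    by_cases h : j = 0
    · subst h
      by_cases hn : n < 0
      · refine ⟨0, ?_, fun _ => rfl⟩
        rw [h1, h2 hn, zero_smul, zero_smul, map_zero, LinearMap.zero_apply]
      · obtain ⟨d, rfl⟩ := hK.span r
        refine ⟨c * d, ?_, fun h => absurd h (by omega)⟩
        have e : (n + 1 - 0).toNat = n.toNat + 1 := by omega
        rw [e, h1]
        change snoc (c • eps K n.toNat) (d • K.one) = (c * d) • snoc (eps K n.toNat) K.one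
        rw [map_smul, map_smul, LinearMap.smul_apply, smul_smul, mul_comm]
    · exact ⟨0, by rw [hK.gr j h r hr, map_zero, zero_smul], fun _ => rfl⟩

theorem eps_S (n : ℕ) : wS K.toSD K.toSD (eps K n) = (-1 : k) ^ (n + 1) • eps K n := by
  have hE : K.E K.one = K.one := K.toDGA.E_one
  induction n with
  | zero =>
    unfold eps
    rw [wS_nil, hE]
    simp
  | succ n ih =>
    unfold eps
    rw [wS_snoc, hE, ih, map_smul, LinearMap.smul_apply, pow_succ _ (n + 1)]
    simp

theorem eps_bp (n : ℕ) : bp K.toDGA (eps K (n + 1)) = if Even n then eps K n else 0 := by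
  have hD : K.D K.one = 0 := K.toDGA.D_one
  induction n with
  | zero =>
    have h := eps_S (K := K) 0
    unfold eps at h
    unfold eps eps
    rw [bp_snoc, bp_nil, hD, map_zero, map_zero, map_zero, LinearMap.zero_apply, h, map_smul,
      LinearMap.smul_apply, tl_one]
    simp
  | succ n ih =>
    have h1 : eps K (n + 1 + 1) = snoc (eps K (n + 1)) K.one := rfl
    rw [h1, bp_snoc, hD, map_zero, add_zero, ih, eps_S, map_smul, LinearMap.smul_apply, tl_one]
    by_cases h : Even n
    · have h2 : ¬ Even (n + 1) := by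
        rw [Nat.even_add_one]
        simpa using h
      rw [if_pos h, if_neg h2]
      have h3 : (-1 : k) ^ (n + 1 + 1) = 1 := (by
        obtain ⟨j, hj⟩ := h
        exact ⟨j + 1, by omega⟩ : Even (n + 1 + 1)).neg_one_pow
      rw [h3, one_smul]
      have h4 : eps K (n + 1) = snoc (eps K n) K.one := rfl
      rw [h4, sub_self]
    · have h2 : Even (n + 1) := by
        rw [Nat.even_add_one]
        exact h
      rw [if_neg h, if_pos h2]
      have h3 : (-1 : k) ^ (n + 1 + 1) = -1 := (h2.add_one).neg_one_pow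
      rw [h3, map_zero, LinearMap.zero_apply]
      simp

theorem eps_cc (n : ℕ) : cc K.toDGA (eps K (n + 1)) = (-1 : k) ^ (n + 1) • eps K n := by
  have h1 : eps K (n + 1) = snoc (eps K n) K.one := rfl
  rw [h1, cc_snoc, K.P_one, sub_self, map_zero, LinearMap.zero_apply, sub_zero, eps_S, map_smul,
    hd_one]

theorem eps_bb (n : ℕ) : bb K.toDGA (eps K (n + 1)) = if Even n then 0 else eps K n := by
  rw [bb_apply, eps_bp, eps_cc]
  by_cases h : Even n
  · rw [if_pos h, if_pos h, (h.add_one).neg_one_pow]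
    simp
  · rw [if_neg h, if_neg h]
    have h2 : Even (n + 1) := by
      rw [Nat.even_add_one]
      exact h
    rw [h2.neg_one_pow]
    simp

include hK

theorem eps_ne (n : ℕ) : eps K n ≠ 0 := by
  obtain ⟨lam, hlam⟩ : ∃ lam : K.V →ₗ[k] k, lam K.one ≠ 0 := by
    by_contra hcon
    push Not at hcon
    exact hK.ne ((Module.forall_dual_apply_eq_zero_iff k K.one).1 hcon)
  let φ : Wd k K.V K.V →ₗ[k] k := recW lam 0 (LinearMap.mk₂ k (fun z r => lam r * z)
    (fun a b c => by ring) (fun a b c => by simp; ring) (fun a b c => by simp; ring)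
    (fun a b c => by simp; ring))
  have hφ : ∀ n, φ (eps K n) = lam K.one ^ (n + 1) := by
    intro n
    induction n with
    | zero =>
      change recW _ _ _ (nil K.one) = _
      rw [recW_nil]
      simp
    | succ n ih =>
      have h1 : φ (snoc (eps K n) K.one) = lam K.one * φ (eps K n) := by
        change recW _ _ _ (snoc (eps K n) K.one) = _
        rw [recW_snoc]
        simp [φ]
      change φ (snoc (eps K n) K.one) = _
      rw [h1, ih]
      ring
  intro h
  have h1 := hφ n
  rw [h, map_zero] at h1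
  exact pow_ne_zero _ hlam h1.symm

/-- the Hochschild homology of the base field vanishes in positive degrees -/
theorem HH_triv (m : ℤ) (hm : 0 < m) (x : K.cyc.HH m) : x = 0 := by
  obtain ⟨v, hv, rfl⟩ := K.cyc.hcls_surj x
  rw [CycMod.hcls_eq_zero]
  obtain ⟨c, hc, -⟩ := eps_wg hK hv.2
  obtain ⟨n, hn⟩ : ∃ n : ℕ, m.toNat = n + 1 := ⟨m.toNat - 1, by omega⟩
  have hbv : bb K.toDGA v = 0 := hv.1
  rw [hn] at hc
  by_cases h : Even n
  · -- `v = c ε_(n+1)`, a boundary
    refine ⟨c • eps K (n + 1 + 1), ?_, ?_⟩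
    · refine Submodule.smul_mem _ _ ?_
      have h3 := eps_mem (K := K) (n + 1 + 1)
      have e : ((n + 1 + 1 : ℕ) : ℤ) = m + 1 := by omega
      rwa [e] at h3
    · change bb K.toDGA (c • eps K (n + 1 + 1)) = v
      have h2 : ¬ Even (n + 1) := by
        rw [Nat.even_add_one]
        simpa using h
      rw [map_smul, eps_bb, if_neg h2, hc]
  · refine ⟨0, Submodule.zero_mem _, ?_⟩
    rw [hc, map_smul, eps_bb, if_neg h, smul_eq_zero] at hbv
    rcases hbv with h3 | h3
    · rw [hc, h3, map_zero]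
      exact (zero_smul k (eps K (n + 1))).symm
    · exact absurd h3 (eps_ne hK n)

/-- the class of `1` lifts to `HP₀` -/
theorem HP_triv {S : Type} [AddCommGroup S] [Module k S] (τ : K.V →ₗ[k] S)
    (h : TrF K.toDGA τ) : ∃ x : K.HP 0, tH K τ h 0 x = τ K.one := by
  let c0 : ℤ → K.cyc.V := K.cyc.sing 0 (nil K.one : Wd k K.V K.V)
  have hg : (nil K.one : Wd k K.V K.V) ∈ wg K 0 := by
    have h := nil_mem_wgr K.gr K.gr K.one_gr
    rwa [neg_zero] at h
  have hb : K.cyc.b (nil K.one : Wd k K.V K.V) = (0 : Wd k K.V K.V) := by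
    change bb K.toDGA (nil K.one) = 0
    rw [bb_apply, bp_nil, cc_nil, add_zero]
    have hD : K.D K.one = 0 := K.toDGA.D_one
    rw [hD, map_zero]
  have hc0 : c0 ∈ K.cyc.Z (Set.Ici 0) 0 := by
    refine ⟨?_, fun p => ?_, fun p hp => ?_, 0, fun p hp => K.cyc.sing_ne _ _ (ne_of_gt hp) _⟩
    · change K.cyc.wD (Set.Ici 0) c0 = 0
      funext p
      by_cases hp : p ∈ Set.Ici (0 : ℤ)
      · rw [K.cyc.wD_mem _ hp]
        rw [Set.mem_Ici] at hp
        have h1 : c0 (p + 1) = 0 := K.cyc.sing_ne _ _ (by omega) _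
        rw [h1, map_zero, add_zero]
        by_cases hp0 : p = 0
        · subst hp0
          have h2 : c0 0 = (nil K.one : Wd k K.V K.V) := K.cyc.sing_same _ _
          have h3 : K.cyc.col 0 = K.cyc.b := if_pos (by decide)
          rw [h2, h3]
          exact hb
        · have h2 : c0 p = 0 := K.cyc.sing_ne _ _ hp0 _
          rw [h2, map_zero]
          rfl
      · rw [K.cyc.wD_not_mem _ hp]
        rfl
    · by_cases hp : p = 0
      · subst hp
        have h2 : c0 0 = (nil K.one : Wd k K.V K.V) := K.cyc.sing_same _ _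
        rw [h2, sub_zero]
        exact hg
      · have h2 : c0 p = 0 := K.cyc.sing_ne _ _ hp _
        rw [h2]
        exact Submodule.zero_mem _
    · refine K.cyc.sing_ne _ _ ?_ _
      rintro rfl
      exact hp (by simp)
  have hHP := K.cyc.HP_HC K.cyc_Bex (hi := 0) (m := 0) (fun n hn x => HH_triv hK n hn x) le_rfl
  obtain ⟨x, hx⟩ := hHP.2 (K.cyc.cls c0 hc0)
  refine ⟨x, ?_⟩
  obtain ⟨c, hc, rfl⟩ := K.cyc.cls_surj x
  rw [tH_cls]
  have hcut : K.cyc.cut (Set.Ici 0) c ∈ K.cyc.Z (Set.Ici 0) 0 := by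
    refine ⟨?_, CycMod.Adj.cut_CP K.cyc c hc.2⟩
    change K.cyc.wD (Set.Ici 0) (K.cyc.cut (Set.Ici 0) c) = 0
    have h1 : K.cyc.wD Set.univ c = 0 := hc.1
    rw [← CycMod.adjP.cut_wD K.cyc c hc.2.2.1, h1, map_zero]
  have h1 : K.cyc.cls (K.cyc.cut (Set.Ici 0) c) hcut = K.cyc.cls c0 hc0 := hx
  have h2 : K.cyc.cls (K.cyc.cut (Set.Ici 0) c - c0) (Submodule.sub_mem _ hcut hc0) = 0 :=
    sub_eq_zero.2 h1
  obtain ⟨y, hy, hy1⟩ := (K.cyc.cls_eq_zero _ _).1 h2
  have h3 := congrFun hy1 0
  rw [K.cyc.wD_mem _ (by simp), Pi.sub_apply, K.cyc.cut_mem _ (by simp)] at h3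
  have h4 : c0 0 = (nil K.one : Wd k K.V K.V) := K.cyc.sing_same _ _
  have h5 : K.cyc.col 0 = K.cyc.b := if_pos (by decide)
  have h6 : K.cyc.hor (0 + 1) = K.cyc.T := if_neg (by decide)
  rw [h4, h5, h6] at h3
  have h7 : ∀ u v w z : Wd k K.V K.V, bb K.toDGA u + (v - rot K.toSD v) = w - z →
      tw (A := K.toDGA) τ w = tw (A := K.toDGA) τ z := by
    intro u v w z h8
    have h9 := congrArg (tw (A := K.toDGA) τ) h8
    rw [map_add, h.bb, map_sub, tw_rot, sub_self, add_zero, map_sub] at h9
    exact (sub_eq_zero.1 h9.symm)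
  rw [h7 _ _ _ _ h3, tw_nil]

end triv

/-- the morphism from the base field given by an idempotent -/
def idemHom (A : ZDGA k) (e : A.V) (he : e ∈ A.gr 0) (hee : A.mul e e = e) (hD : A.D e = 0) :
    ZHom (trivZ k) A where
  f := LinearMap.toSpanSingleton k A.V e
  mul := fun (a b : k) => by
    change (a * b : k) • e = A.mul (a • e) (b • e)
    rw [map_smul, LinearMap.map_smul, LinearMap.smul_apply, hee, smul_smul, mul_comm]
  D := fun (a : k) => by
    change (0 : k) • e = A.D (a • e)
    rw [map_smul, hD, zero_smul, smul_zero]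
  gr := fun i (a : k) ha => by
    by_cases h : i = 0
    · subst h
      exact Submodule.smul_mem _ _ he
    · have h0 : a = (0 : k) := isTriv_triv.gr i h a ha
      subst h0
      change (0 : k) • e ∈ A.gr i
      rw [zero_smul]
      exact Submodule.zero_mem _

/-- **Criterion for `HP₀(A) ≠ 0`.** -/
theorem HP_ne_zero (A : ZDGA k) {S : Type} [AddCommGroup S] [Module k S] (τ : A.V →ₗ[k] S)
    (h : TrF A.toDGA τ) (e : A.V) (he : e ∈ A.gr 0) (hee : A.mul e e = e) (hD : A.D e = 0)
    (hτ : τ e ≠ 0) : ∃ x : A.HP 0, x ≠ 0 := by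
  let φ := idemHom A e he hee hD
  have hE : ∀ a : (trivZ k).V, (trivZ k).P a = a := fun _ => rfl
  have h' : TrF (trivZ k).toDGA (τ ∘ₗ φ.f) := by
    refine ⟨fun a => ?_, fun a => ?_, fun a b _ _ => ?_, fun a b ha _ => ?_⟩
    · rw [LinearMap.comp_apply, φ.D, h.D]
    · rw [hE]
    · have h1 : ∀ a b : k, (trivZ k).mul a b = (trivZ k).mul b a := fun a b => mul_comm a b
      rw [h1 a b]
    · have h1 : a = 0 := by
        have h2 : (trivZ k).P a = (if true then 0 else a) := ha
        rw [hE] at h2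
        simpa using h2
      rw [h1]
      simp
  obtain ⟨x, hx⟩ := HP_triv isTriv_triv (τ ∘ₗ φ.f) h'
  refine ⟨φ.HP 0 x, ?_⟩
  intro h0
  apply hτ
  have h1 : tH A τ h 0 (φ.HP 0 x) = tH (trivZ k) (τ ∘ₗ φ.f) h' 0 x := by
    obtain ⟨c, hc, rfl⟩ := (trivZ k).cyc.cls_surj x
    rw [tH_cls]
    change tw (A := A.toDGA) τ (wm (A := (trivZ k).toSD) (B := A.toSD) φ.f (c 0))
      = tw (A := (trivZ k).toDGA) (τ ∘ₗ φ.f) (c 0)
    generalize c 0 = w
    induction w using Wd.induction with
    | hadd a b ha hb => rw [map_add, map_add, ha, hb, map_add]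
    | hnil a => simp
    | hsnoc w _ a => simp
  rw [h0, map_zero, hx] at h1
  have h2 : φ.f (trivZ k).one = e := by
    change (1 : k) • e = e
    rw [one_smul]
  rw [LinearMap.comp_apply, h2] at h1
  exact h1.symm

end NC
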