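import Mathlib
import Pool.Agent.H16.NC.HL
import Pool.Agent.H15.NC.Cone

/-!
# Morita contexts with a split unit

`X` is an `E`-`C`-bimodule, `Y` a `C`-`E`-bimodule, `co : X ⊗ Y → E`, `ev : Y ⊗ X → C` are balanced
bimodule maps with the two associativity laws, and `ev (η ⊗ ξ) = 1` for even cycles `ξ`, `η`.
Then `c ↦ co (ξ c ⊗ η)` is a homomorphism `C → E` of dg algebras.
-/

set_option autoImplicit false

open scoped TensorProduct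

noncomputable section

namespace NC

variable {k : Type} [Field k]

/-- Morita contexts with a split unit -/
structure MCtx (C E : DGA k) where
  X : SD k
  Y : SD k
  bX : Bi E C X
  bY : Bi C E Y
  co : SD.Hom (X.tens Y) E.toSD
  ev : SD.Hom (Y.tens X) C.toSD
  co_l : ∀ e x y, co.f (bX.l.act e x ⊗ₜ y) = e * co.f (x ⊗ₜ y)
  co_r : ∀ x y e, co.f (x ⊗ₜ bY.r.act y e) = co.f (x ⊗ₜ y) * e
  co_b : ∀ x c y, co.f (bX.r.act x c ⊗ₜ y) = co.f (x ⊗ₜ bY.l.act c y)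
  ev_l : ∀ c y x, ev.f (bY.l.act c y ⊗ₜ x) = c * ev.f (y ⊗ₜ x)
  ev_r : ∀ y x c, ev.f (y ⊗ₜ bX.r.act x c) = ev.f (y ⊗ₜ x) * c
  ev_b : ∀ y e x, ev.f (bY.r.act y e ⊗ₜ x) = ev.f (y ⊗ₜ bX.l.act e x)
  cx : ∀ x y x', bX.l.act (co.f (x ⊗ₜ y)) x' = bX.r.act x (ev.f (y ⊗ₜ x'))
  yc : ∀ y x y', bY.r.act y (co.f (x ⊗ₜ y')) = bY.l.act (ev.f (y ⊗ₜ x)) y'
  X1 : ∀ x, bX.r.act x 1 = x
  Y1 : ∀ y, bY.l.act 1 y = y
  ξ : X.V
  η : Y.V
  P_ξ : X.P ξ = ξ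
  P_η : Y.P η = η
  D_ξ : X.D ξ = 0
  D_η : Y.D η = 0
  ev1 : ev.f (η ⊗ₜ ξ) = 1

namespace MCtx

variable {C E : DGA k} (M : MCtx C E)

theorem E_ξ : M.X.E M.ξ = M.ξ := by rw [SD.E_apply, M.P_ξ]; abel
theorem E_η : M.Y.E M.η = M.η := by rw [SD.E_apply, M.P_η]; abel

theorem co_D (x : M.X.V) (y : M.Y.V) : E.D (M.co.f (x ⊗ₜ y)) =
    M.co.f (M.X.D x ⊗ₜ y) + M.co.f (M.X.E x ⊗ₜ M.Y.D y) := by
  rw [← M.co.D]
  change M.co.f (M.X.D x ⊗ₜ y + M.X.E x ⊗ₜ M.Y.D y) = _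
  rw [map_add]

theorem co_P (x : M.X.V) (y : M.Y.V) : E.P (M.co.f (x ⊗ₜ y)) =
    M.co.f (M.X.P x ⊗ₜ M.Y.P y) + M.co.f ((x - M.X.P x) ⊗ₜ (y - M.Y.P y)) := by
  rw [← M.co.P]
  change M.co.f (M.X.P x ⊗ₜ M.Y.P y + (x - M.X.P x) ⊗ₜ (y - M.Y.P y)) = _
  rw [map_add]

theorem co_E (x : M.X.V) (y : M.Y.V) : E.E (M.co.f (x ⊗ₜ y)) =
    M.co.f (M.X.E x ⊗ₜ M.Y.E y) := by
  rw [← M.co.E, SD.tens_E]

theorem ev_D (y : M.Y.V) (x : M.X.V) : C.D (M.ev.f (y ⊗ₜ x)) =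
    M.ev.f (M.Y.D y ⊗ₜ x) + M.ev.f (M.Y.E y ⊗ₜ M.X.D x) := by
  rw [← M.ev.D]
  change M.ev.f (M.Y.D y ⊗ₜ x + M.Y.E y ⊗ₜ M.X.D x) = _
  rw [map_add]

theorem ev_E (y : M.Y.V) (x : M.X.V) : C.E (M.ev.f (y ⊗ₜ x)) =
    M.ev.f (M.Y.E y ⊗ₜ M.X.E x) := by
  rw [← M.ev.E, SD.tens_E]

/-- the linear map `x ↦ co (x ⊗ η)` -/
def pX : SD.Hom M.X E.toSD where
  f := M.co.f ∘ₗ (TensorProduct.mk k M.X.V M.Y.V).flip M.η
  D := fun v => by
    change M.co.f (M.X.D v ⊗ₜ M.η) = E.D (M.co.f (v ⊗ₜ M.η))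
    rw [M.co_D, M.D_η, TensorProduct.tmul_zero, map_zero, add_zero]
  P := fun v => by
    change M.co.f (M.X.P v ⊗ₜ M.η) = E.P (M.co.f (v ⊗ₜ M.η))
    rw [M.co_P, M.P_η, sub_self, TensorProduct.tmul_zero, map_zero, add_zero]

theorem pX_apply (x : M.X.V) : M.pX.f x = M.co.f (x ⊗ₜ M.η) := rfl

/-- the linear map `y ↦ co (ξ ⊗ y)` -/
def pY : SD.Hom M.Y E.toSD where
  f := M.co.f ∘ₗ (TensorProduct.mk k M.X.V M.Y.V) M.ξ
  D := fun v => by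
    change M.co.f (M.ξ ⊗ₜ M.Y.D v) = E.D (M.co.f (M.ξ ⊗ₜ v))
    rw [M.co_D, M.D_ξ, TensorProduct.zero_tmul, map_zero, zero_add, M.E_ξ]
  P := fun v => by
    change M.co.f (M.ξ ⊗ₜ M.Y.P v) = E.P (M.co.f (M.ξ ⊗ₜ v))
    rw [M.co_P, M.P_ξ, sub_self, TensorProduct.zero_tmul, map_zero, add_zero]

theorem pY_apply (y : M.Y.V) : M.pY.f y = M.co.f (M.ξ ⊗ₜ y) := rfl

/-- `co (x ⊗ η) co (ξ ⊗ y) = co (x ⊗ y)` -/
theorem pX_mul_pY (x : M.X.V) (y : M.Y.V) : M.pX.f x * M.pY.f y = M.co.f (x ⊗ₜ y) := by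
  rw [pX_apply, pY_apply, ← M.co_l, M.cx, M.ev1, M.X1]

/-- the homomorphism `C → E` -/
def i : DGA.NHom C E where
  f := M.pX.f ∘ₗ M.bX.r.act M.ξ
  D := fun c => by
    change M.pX.f (M.bX.r.act M.ξ (C.D c)) = E.D (M.pX.f (M.bX.r.act M.ξ c))
    rw [← M.pX.D, M.bX.r.D_act, M.D_ξ, map_zero, LinearMap.zero_apply, zero_add, M.E_ξ]
  P := fun c => by
    change M.pX.f (M.bX.r.act M.ξ (C.P c)) = E.P (M.pX.f (M.bX.r.act M.ξ c))
    rw [← M.pX.P, M.bX.r.P_act, M.P_ξ, sub_self, map_zero, LinearMap.zero_apply, add_zero]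
  mul := fun a b => by
    change M.co.f (M.bX.r.act M.ξ (a * b) ⊗ₜ M.η) =
      M.co.f (M.bX.r.act M.ξ a ⊗ₜ M.η) * M.co.f (M.bX.r.act M.ξ b ⊗ₜ M.η)
    rw [← M.co_l, M.cx, M.ev_r, M.ev1, one_mul, M.bX.r.act_mul]

theorem i_apply (c : C.V) : M.i.f c = M.co.f (M.bX.r.act M.ξ c ⊗ₜ M.η) := rfl

theorem pY_mul_pX (y : M.Y.V) (x : M.X.V) : M.pY.f y * M.pX.f x = M.i.f (M.ev.f (y ⊗ₜ x)) := by
  rw [pX_apply, pY_apply, i_apply, ← M.co_l, M.cx]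

theorem hdata : HData M.bX M.bY M.i (DGA.NHom.id E) M.pX M.pY where
  sx := fun s x => M.co_l s x M.η
  xr := fun x r => by
    rw [pX_apply, pX_apply, i_apply, ← M.co_l, M.cx, M.ev_r, M.ev1, one_mul]
  ry := fun r y => by
    rw [pY_apply, pY_apply, i_apply, ← M.co_l, M.cx, M.ev1, M.X1, M.co_b]
  ys := fun y s => M.co_r M.ξ y s

end MCtx

/-! ### the augmentation of the bar complex -/

section aug

variable {R : DGA k} {X Y Z : SD k} (ρ : RA R X) (l : LA R Y)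

/-- the linear map of the augmentation -/
def augX (R : DGA k) {X Y Z : SD k} (μ : SD.Hom (X.tens Y) Z) :
    Wd k X.V R.V ⊗[k] Y.V →ₗ[k] Z.V :=
  TensorProduct.lift (Wd.recW (TensorProduct.curry μ.f) 0 0)

@[simp] theorem augX_nil (μ : SD.Hom (X.tens Y) Z) (x : X.V) (y : Y.V) :
    augX R μ (Wd.nil x ⊗ₜ y) = μ.f (x ⊗ₜ y) := by
  simp [augX]

@[simp] theorem augX_snoc (μ : SD.Hom (X.tens Y) Z) (w : Wd k X.V R.V) (r : R.V) (y : Y.V) :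
    augX R μ (Wd.snoc w r ⊗ₜ y) = 0 := by
  simp [augX]

theorem augX_tl (μ : SD.Hom (X.tens Y) Z)
    (h : ∀ x r y, μ.f (ρ.act x r ⊗ₜ y) = μ.f (x ⊗ₜ l.act r y))
    (w : Wd k X.V R.V) (r : R.V) (y : Y.V) :
    augX R μ (tl R ρ.act w r ⊗ₜ y) = augX R μ (w ⊗ₜ l.act r y) := by
  induction w using Wd.induction with
  | hadd a b ha hb =>
    simp only [map_add, LinearMap.add_apply, TensorProduct.add_tmul, ha, hb]
  | hnil n => simp [h]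
  | hsnoc w _ s => simp

/-- the augmentation `Bar(X, R, Y) → Z` of a balanced pairing -/
def aug (μ : SD.Hom (X.tens Y) Z) (h : ∀ x r y, μ.f (ρ.act x r ⊗ₜ y) = μ.f (x ⊗ₜ l.act r y)) :
    SD.Hom (Bar ρ l) Z where
  f := augX R μ
  D := fun v => by
    refine tens_ext (f := augX R μ ∘ₗ barD ρ l) (g := Z.D ∘ₗ augX R μ) (fun w y => ?_) v
    simp only [LinearMap.comp_apply]
    induction w using Wd.induction with
    | hadd a b ha hb => rw [TensorProduct.add_tmul, map_add, map_add, ha, hb, map_add, map_add]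
    | hnil n =>
      rw [barD_nil, map_add, augX_nil, augX_nil, augX_nil, ← μ.D]
      change _ = μ.f (X.D n ⊗ₜ y + X.E n ⊗ₜ Y.D y)
      rw [map_add]
    | hsnoc w _ s =>
      rw [barD_snoc, map_sub, map_sub, map_add, map_sub, augX_tl ρ l μ h]
      simp
  P := fun v => by
    refine tens_ext (f := augX R μ ∘ₗ barP X Y R) (g := Z.P ∘ₗ augX R μ) (fun w y => ?_) v
    simp only [LinearMap.comp_apply]
    induction w using Wd.induction with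
    | hadd a b ha hb => rw [TensorProduct.add_tmul, map_add, map_add, ha, hb, map_add, map_add]
    | hnil n =>
      rw [barP_tmul, PW_nil, ← map_sub, map_add, augX_nil, augX_nil, augX_nil, ← μ.P]
      change _ = μ.f (X.P n ⊗ₜ Y.P y + (n - X.P n) ⊗ₜ (y - Y.P y))
      rw [map_add]
    | hsnoc w _ s =>
      rw [barP_tmul, PW_snoc]
      simp [TensorProduct.sub_tmul]

@[simp] theorem aug_f (μ : SD.Hom (X.tens Y) Z) (h) : (aug ρ l μ h).f = augX R μ := rfl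

end aug

/-- the map of Hochschild complexes induced by a homomorphism of dg algebras -/
def hcA {R R' : DGA k} (g : DGA.NHom R R') : SD.Hom (HC R.diag) (HC R'.diag) where
  f := Wd.map g.f g.f
  D := fun w => by
    change Wd.map g.f g.f (hcD R.diag w) = hcD R'.diag (Wd.map g.f g.f w)
    rw [hcD_apply, hcD_apply, map_sub]
    have h1 := map_Db g.toHom g R.diag.r R'.diag.r g.mul w
    have h2 := map_om g.toHom g R.diag.l R'.diag.l g.mul w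
    exact congrArg₂ (· - ·) h1 h2
  P := fun w => map_PW g.toHom g w

theorem hcA_f {R R' : DGA k} (g : DGA.NHom R R') : (hcA g).f = Wd.map g.f g.f := rfl

end NC
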