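import Mathlib
import Pool.Agent.H94.NC.MCtx

/-!
# The rotation `HC(E; Bar(X, C, Y)) → HC(C; C)` is a quasi-isomorphism

Homotopy `s (w ⊗ y ; e₁ ...) = (E w ⊗ η ; co(ξ,y), e₁ ...)`.
-/

set_option autoImplicit false

open scoped TensorProduct

noncomputable section

namespace NC

variable {k : Type} [Field k]

/-- a surjection `f` with a homotopy `s`, `f s = 0`, `D s + s D = 1 + err` on the kernel of `f`
and `err` locally nilpotent, is a quasi-isomorphism -/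
theorem QI_of_contr {N N' : SD k} (f : SD.Hom N N') (s err : N.V →ₗ[k] N.V)
    (hsurj : Function.Surjective f.f) (hfs : ∀ z, f.f (s z) = 0)
    (h : ∀ z, f.f z = 0 → N.D (s z) + s (N.D z) = z + err z)
    (hn : ∀ z, ∃ n : ℕ, (err ^ n) z = 0) : f.QI := by
  have key : ∀ n : ℕ, ∀ z, (err ^ n) z = 0 → f.f z = 0 → N.D z = 0 →
      ∃ y, f.f y = 0 ∧ N.D y = z := by
    intro n
    induction n with
    | zero =>
      intro z hz _ _
      have hz' : z = 0 := by simpa using hz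
      exact ⟨0, by rw [map_zero], by rw [map_zero, hz']⟩
    | succ n ih =>
      intro z hz hf hD
      have h1 := h z hf
      rw [hD, map_zero, add_zero] at h1
      have hf1 : f.f (err z) = 0 := by
        have h2 := congrArg f.f h1
        rw [f.D, hfs, map_zero, map_add, hf, zero_add] at h2
        exact h2.symm
      have hD1 : N.D (err z) = 0 := by
        have h2 := congrArg N.D h1
        rw [N.DD, map_add, hD, zero_add] at h2
        exact h2.symm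
      obtain ⟨y, hy1, hy2⟩ := ih (err z) (by rw [pow_succ] at hz; exact hz) hf1 hD1
      refine ⟨s z - y, by rw [map_sub, hfs, hy1, sub_zero], ?_⟩
      rw [map_sub, h1, hy2, add_sub_cancel_right]
  have key' : ∀ z, f.f z = 0 → N.D z = 0 → ∃ y, f.f y = 0 ∧ N.D y = z := by
    intro z hf hD
    obtain ⟨n, hn⟩ := hn z
    exact key n z hn hf hD
  refine ⟨fun x y hx hxy => ?_, fun y hy => ?_⟩
  · obtain ⟨u, hu⟩ := hsurj y
    have h1 : f.f (x - N.D u) = 0 := by rw [map_sub, f.D, hu, hxy, sub_self]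
    have h2 : N.D (x - N.D u) = 0 := by rw [map_sub, N.DD, hx, sub_zero]
    obtain ⟨z, -, hz⟩ := key' _ h1 h2
    exact ⟨z + u, by rw [map_add, hz]; abel⟩
  · obtain ⟨u, hu⟩ := hsurj y
    have h1 : f.f (N.D u) = 0 := by rw [f.D, hu, hy]
    obtain ⟨z, hz1, hz2⟩ := key' _ h1 (N.DD u)
    refine ⟨u - z, 0, by rw [map_sub, hz2, sub_self], ?_⟩
    rw [map_sub, hu, hz1, map_zero]
    abel

/-- if `c` is homotopic to `g f` and `c`, `f` are quasi-isomorphisms, then so is `g` -/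
theorem QI_right {N N' N'' : SD k} {f : SD.Hom N N'} {g : SD.Hom N' N''} {c : SD.Hom N N''}
    (hf : f.QI) (hc : c.QI) (s : N.V →ₗ[k] N''.V)
    (h : ∀ z, N''.D (s z) + s (N.D z) = c.f z - g.f (f.f z)) : g.QI := by
  constructor
  · intro x y hx hxy
    obtain ⟨u, v, hu, hx'⟩ := hf.surj x hx
    have h1 := h u
    rw [hu, map_zero, add_zero] at h1
    have h2 : c.f u = N''.D (y - g.f v + s u) := by
      rw [map_add, map_sub, h1, ← g.D, ← hxy, hx', map_add]; abel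
    obtain ⟨w, hw⟩ := hc.inj u _ hu h2
    refine ⟨f.f w + v, ?_⟩
    rw [map_add, ← f.D, hw, hx']
  · intro y hy
    obtain ⟨u, z, hu, hy'⟩ := hc.surj y hy
    have h1 := h u
    rw [hu, map_zero, add_zero] at h1
    refine ⟨f.f u, z + s u, by rw [← f.D, hu, map_zero], ?_⟩
    rw [map_add, h1, hy']; abel

namespace MCtx

variable {C E : DGA k} (M : MCtx C E)

/-- words of the bar complex -/
abbrev BV : Type := Wd k M.X.V C.V ⊗[k] M.Y.V

/-- Hochschild words with coefficients in the bar complex -/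
abbrev HV : Type := Wd k M.BV E.V

/-- the bimodule structure of the bar complex -/
abbrev bb : Bi E E (Bar M.bX.r M.bY.l) := M.bX.bar M.bY

/-- the homotopy -/
def s : M.HV →ₗ[k] M.HV :=
  Wd.recW (TensorProduct.lift ((Wd.snoc ∘ₗ Wd.nil ∘ₗ
    (TensorProduct.mk k (Wd k M.X.V C.V) M.Y.V).flip M.η ∘ₗ EW M.X C.toSD).compl₂ M.pY.f)) 0
    Wd.snoc

theorem s_nil (w : Wd k M.X.V C.V) (y : M.Y.V) :
    M.s (Wd.nil (w ⊗ₜ y)) = Wd.snoc (Wd.nil (EW M.X C.toSD w ⊗ₜ M.η)) (M.pY.f y) := by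
  simp [s]

@[simp] theorem s_snoc (z : M.HV) (r : E.V) : M.s (Wd.snoc z r) = Wd.snoc (M.s z) r := by
  simp [s]

/-- the error term on words of length zero -/
def err0 : M.BV →ₗ[k] M.HV :=
  - TensorProduct.lift ((Wd.snoc ∘ₗ Wd.nil ∘ₗ lam (X := M.X) M.bY.l ∘ₗ
    (TensorProduct.mk k (Wd k M.X.V C.V) M.Y.V).flip M.η ∘ₗ EW M.X C.toSD).compl₂ M.pY.f)
  - M.s ∘ₗ Wd.nil ∘ₗ lam (X := M.X) M.bY.l

theorem err0_tmul (w : Wd k M.X.V C.V) (y : M.Y.V) : M.err0 (w ⊗ₜ y) =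
    - Wd.snoc (Wd.nil (lam (X := M.X) M.bY.l (EW M.X C.toSD w ⊗ₜ M.η))) (M.pY.f y)
      - M.s (Wd.nil (lam (X := M.X) M.bY.l (w ⊗ₜ y))) := by
  simp [err0]

/-- the error term -/
def err : M.HV →ₗ[k] M.HV := Wd.recW M.err0 0 Wd.snoc

@[simp] theorem err_nil (v : M.BV) : M.err (Wd.nil v) = M.err0 v := by simp [err]
@[simp] theorem err_snoc (z : M.HV) (r : E.V) : M.err (Wd.snoc z r) = Wd.snoc (M.err z) r := by
  simp [err]

/-- the section `(c ; u) ↦ ((ξ c ; u) ⊗ η)` -/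
def jj : Wd k C.V C.V →ₗ[k] M.HV :=
  Wd.nil ∘ₗ (TensorProduct.mk k (Wd k M.X.V C.V) M.Y.V).flip M.η ∘ₗ
    Wd.map (M.bX.r.act M.ξ) LinearMap.id

theorem jj_apply (u : Wd k C.V C.V) :
    M.jj u = Wd.nil (Wd.map (M.bX.r.act M.ξ) LinearMap.id u ⊗ₜ M.η) := rfl

theorem EW_nil_tmul (w : Wd k M.X.V C.V) (y : M.Y.V) :
    EW (Bar M.bX.r M.bY.l) E.toSD (Wd.nil (w ⊗ₜ y)) =
      Wd.nil (EW M.X C.toSD w ⊗ₜ M.Y.E y) := by
  refine (EW_nil (Bar M.bX.r M.bY.l) E.toSD (w ⊗ₜ y)).trans ?_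
  rw [Bar_E]; rfl

theorem s_EW (z : M.HV) : EW (Bar M.bX.r M.bY.l) E.toSD (M.s z) =
    - M.s (EW (Bar M.bX.r M.bY.l) E.toSD z) := by
  induction z using Wd.induction with
  | hadd a b ha hb => simp only [map_add, ha, hb]; abel
  | hnil v =>
    refine tens_ext (f := EW (Bar M.bX.r M.bY.l) E.toSD ∘ₗ M.s ∘ₗ Wd.nil)
      (g := -(M.s ∘ₗ EW (Bar M.bX.r M.bY.l) E.toSD ∘ₗ Wd.nil)) (fun w y => ?_) v
    simp only [LinearMap.comp_apply, LinearMap.neg_apply]
    rw [EW_nil_tmul, s_nil, s_nil, M.pY.E]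
    refine (EW_snoc (Bar M.bX.r M.bY.l) E.toSD _ _).trans ?_
    rw [EW_nil_tmul, M.E_η]
  | hsnoc z hz r =>
    have h1 : EW (Bar M.bX.r M.bY.l) E.toSD (Wd.snoc z r) =
        - Wd.snoc (EW (Bar M.bX.r M.bY.l) E.toSD z) (E.E r) := EW_snoc _ _ _ _
    rw [s_snoc, h1, map_neg, s_snoc, EW_snoc, hz]
    simp

theorem s_tl (z : M.HV) (r : E.V) :
    M.s (tl E M.bb.r.act z r) = tl E M.bb.r.act (M.s z) r := by
  induction z using Wd.induction with
  | hadd a b ha hb => simp only [map_add, LinearMap.add_apply, ha, hb]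
  | hnil v =>
    refine tens_ext (f := M.s ∘ₗ (tl E M.bb.r.act).flip r ∘ₗ Wd.nil)
      (g := (tl E M.bb.r.act).flip r ∘ₗ M.s ∘ₗ Wd.nil) (fun w y => ?_) v
    simp only [LinearMap.comp_apply, LinearMap.flip_apply, tl_nil]
    change M.s (Wd.nil (w ⊗ₜ M.bY.r.act y r)) = _
    rw [s_nil, s_nil, tl_snoc]
    exact congrArg _ (M.co_r _ _ _)
  | hsnoc z _ t => simp

theorem hd_nil_tmul (a : E.V) (w : Wd k M.X.V C.V) (y : M.Y.V) :
    hd E M.bb.l a (Wd.nil (w ⊗ₜ y)) = Wd.nil (hd C M.bX.l a w ⊗ₜ y) :=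
  hd_nil M.bb.l a (w ⊗ₜ y)

theorem s_hd (a : E.V) (z : M.HV) :
    M.s (hd E M.bb.l a z) = hd E M.bb.l (E.E a) (M.s z) := by
  induction z using Wd.induction with
  | hadd a b ha hb => simp only [map_add, ha, hb]
  | hnil v =>
    refine tens_ext (f := M.s ∘ₗ hd E M.bb.l a ∘ₗ Wd.nil)
      (g := hd E M.bb.l (E.E a) ∘ₗ M.s ∘ₗ Wd.nil) (fun w y => ?_) v
    simp only [LinearMap.comp_apply]
    rw [hd_nil_tmul, s_nil, s_nil, hd_EW]
    refine Eq.trans ?_ (hd_snoc M.bb.l (E.E a) _ _).symm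
    rw [hd_nil_tmul]
  | hsnoc z hz t =>
    have h1 : hd E M.bb.l a (Wd.snoc z t) = Wd.snoc (hd E M.bb.l a z) t := hd_snoc _ _ _ _
    have h2 : hd E M.bb.l (E.E a) (Wd.snoc (M.s z) t) =
        Wd.snoc (hd E M.bb.l (E.E a) (M.s z)) t := hd_snoc _ _ _ _
    rw [h1, s_snoc, s_snoc, h2, hz]

theorem Db_nil_tmul (w : Wd k M.X.V C.V) (y : M.Y.V) :
    Db M.bb.r (Wd.nil (w ⊗ₜ y)) = Wd.nil (barD M.bX.r M.bY.l (w ⊗ₜ y)) := Db_nil _ _

theorem s_Db (z : M.HV) : Db M.bb.r (M.s z) + M.s (Db M.bb.r z) = z + M.err z := by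
  induction z using Wd.induction with
  | hadd a b ha hb =>
    simp only [map_add]
    have e : a + b + (M.err a + M.err b) = (a + M.err a) + (b + M.err b) := by abel
    rw [e, ← ha, ← hb]; abel
  | hnil v =>
    refine tens_ext (f := Db M.bb.r ∘ₗ M.s ∘ₗ Wd.nil + M.s ∘ₗ Db M.bb.r ∘ₗ Wd.nil)
      (g := Wd.nil + M.err ∘ₗ Wd.nil) (fun w y => ?_) v
    simp only [LinearMap.comp_apply, LinearMap.add_apply]
    have h1 : Db M.bb.r (Wd.snoc (Wd.nil (EW M.X C.toSD w ⊗ₜ M.η)) (M.pY.f y)) =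
        Wd.snoc (Db M.bb.r (Wd.nil (EW M.X C.toSD w ⊗ₜ M.η))) (M.pY.f y)
        - Wd.snoc (EW (Bar M.bX.r M.bY.l) E.toSD (Wd.nil (EW M.X C.toSD w ⊗ₜ M.η)))
          (E.D (M.pY.f y))
        + tl E M.bb.r.act (EW (Bar M.bX.r M.bY.l) E.toSD (Wd.nil (EW M.X C.toSD w ⊗ₜ M.η)))
          (M.pY.f y) := Db_snoc _ _ _
    have h2 : tl E M.bb.r.act (Wd.nil (w ⊗ₜ M.η)) (M.pY.f y) = Wd.nil (w ⊗ₜ y) := by
      rw [tl_nil]
      change Wd.nil (w ⊗ₜ M.bY.r.act M.η (M.pY.f y)) = _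
      rw [pY_apply, M.yc, M.ev1, M.Y1]
    rw [s_nil, h1, EW_nil_tmul, EW_EW, M.E_η, h2, Db_nil_tmul, Db_nil_tmul, barD_tmul, barD_tmul,
      M.D_η, TensorProduct.tmul_zero, add_zero, err_nil, err0_tmul, ← M.pY.D, Db_EW]
    simp only [map_sub, map_add, LinearMap.sub_apply, s_nil, EW_EW, TensorProduct.neg_tmul,
      map_neg, LinearMap.neg_apply]
    abel
  | hsnoc z hz r =>
    have h1 : Db M.bb.r (Wd.snoc z r) = Wd.snoc (Db M.bb.r z) r -
        Wd.snoc (EW (Bar M.bX.r M.bY.l) E.toSD z) (E.D r) +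
        tl E M.bb.r.act (EW (Bar M.bX.r M.bY.l) E.toSD z) r := Db_snoc _ _ _
    have h2 : Db M.bb.r (Wd.snoc (M.s z) r) = Wd.snoc (Db M.bb.r (M.s z)) r -
        Wd.snoc (EW (Bar M.bX.r M.bY.l) E.toSD (M.s z)) (E.D r) +
        tl E M.bb.r.act (EW (Bar M.bX.r M.bY.l) E.toSD (M.s z)) r := Db_snoc _ _ _
    have h3 : Wd.snoc z r + M.err (Wd.snoc z r) = Wd.snoc (z + M.err z) r := by
      rw [err_snoc, map_add, LinearMap.add_apply]
    have h4 : M.s (Wd.snoc (Db M.bb.r z) r -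
        Wd.snoc (EW (Bar M.bX.r M.bY.l) E.toSD z) (E.D r) +
        tl E M.bb.r.act (EW (Bar M.bX.r M.bY.l) E.toSD z) r) =
        Wd.snoc (M.s (Db M.bb.r z)) r -
        Wd.snoc (M.s (EW (Bar M.bX.r M.bY.l) E.toSD z)) (E.D r) +
        tl E M.bb.r.act (M.s (EW (Bar M.bX.r M.bY.l) E.toSD z)) r := by
      rw [map_add, map_sub, s_snoc, s_snoc, s_tl]
    have h5 : EW (Bar M.bX.r M.bY.l) E.toSD (M.s z) =
      - M.s (EW (Bar M.bX.r M.bY.l) E.toSD z) := M.s_EW z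
    rw [s_snoc, h1, h2, h3, h4, h5, ← hz]
    simp only [map_add, map_neg, LinearMap.neg_apply, LinearMap.add_apply]
    abel

theorem ev_l' (c : C.V) (y : M.Y.V) (x : M.X.V) :
    M.ev.f (M.bY.l.act c y ⊗ₜ x) = C.diag.l.act c (M.ev.f (y ⊗ₜ x)) := M.ev_l c y x

theorem ev_r' (y : M.Y.V) (x : M.X.V) (c : C.V) :
    M.ev.f (y ⊗ₜ M.bX.r.act x c) = C.diag.r.act (M.ev.f (y ⊗ₜ x)) c := M.ev_r y x c

/-- the rotation -/
def rot : SD.Hom (HC M.bb) (HC C.diag) :=
  evH M.bX M.bY C.diag M.ev M.ev_l' M.ev_r' M.ev_b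

theorem rot_nil (w : Wd k M.X.V C.V) (y : M.Y.V) :
    M.rot.f (Wd.nil (w ⊗ₜ y)) = hn C M.ev (M.Y.P y) w + hn C M.ev (y - M.Y.P y)
      (EW M.X C.toSD w) := by
  unfold rot evH
  refine (tr0_nil _ _ _ _).trans ?_
  exact evB0_tmul _ _ _

theorem rot_snoc (z : M.HV) (r : E.V) : M.rot.f (Wd.snoc z r) = 0 := by
  unfold rot evH
  exact tr0_snoc _ _ _ _ _

theorem map_hn (y : M.Y.V) (w : Wd k M.X.V C.V) :
    Wd.map (M.bX.r.act M.ξ) LinearMap.id (hn C M.ev y w) = hd C M.bX.l (M.pY.f y) w := by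
  induction w using Wd.induction with
  | hadd a b ha hb => simp only [map_add, ha, hb]
  | hnil x =>
    rw [hn_nil, Wd.map_nil, hd_nil, bl_apply, pY_apply, M.cx]
  | hsnoc u hu r => simp [hu]

theorem s_om (z : M.HV) : om M.bb.l (M.s z) + M.s (om M.bb.l z) = M.jj (M.rot.f z) := by
  induction z using Wd.induction with
  | hadd a b ha hb =>
    simp only [map_add, ← ha, ← hb]; abel
  | hnil v =>
    have h1 : om M.bb.l (Wd.nil v) = 0 := om_nil _ _
    rw [h1, map_zero, add_zero]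
    refine tens_ext (f := om M.bb.l ∘ₗ M.s ∘ₗ Wd.nil)
      (g := M.jj ∘ₗ M.rot.f ∘ₗ Wd.nil) (fun w y => ?_) v
    simp only [LinearMap.comp_apply]
    have h2 : om M.bb.l (Wd.snoc (Wd.nil (EW M.X C.toSD w ⊗ₜ M.η)) (M.pY.f y)) =
        hd E M.bb.l (E.P (M.pY.f y)) (EW (Bar M.bX.r M.bY.l) E.toSD
          (Wd.nil (EW M.X C.toSD w ⊗ₜ M.η))) +
        hd E M.bb.l (M.pY.f y - E.P (M.pY.f y)) (Wd.nil (EW M.X C.toSD w ⊗ₜ M.η)) :=
      om_snoc _ _ _
    rw [s_nil, h2, EW_nil_tmul, EW_EW, M.E_η, hd_nil_tmul, hd_nil_tmul, rot_nil, map_add,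
      jj_apply, jj_apply, map_hn, map_hn, ← M.pY.P, ← map_sub M.pY.f]
  | hsnoc z hz r =>
    have h1 : om M.bb.l (Wd.snoc z r) = hd E M.bb.l (E.P r) (EW (Bar M.bX.r M.bY.l) E.toSD z) +
        hd E M.bb.l (r - E.P r) z := om_snoc _ _ _
    have h2 : om M.bb.l (Wd.snoc (M.s z) r) =
        hd E M.bb.l (E.P r) (EW (Bar M.bX.r M.bY.l) E.toSD (M.s z)) +
        hd E M.bb.l (r - E.P r) (M.s z) := om_snoc _ _ _
    have h4 : E.E (r - E.P r) = - (r - E.P r) := by
      simp only [SD.E_apply, map_sub, E.PP]; abel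
    rw [rot_snoc, map_zero, s_snoc, h1, h2, map_add, s_hd, s_hd, s_EW, E.EP, h4, map_neg,
      map_neg, LinearMap.neg_apply]
    abel

theorem rot_s (z : M.HV) : M.rot.f (M.s z) = 0 := by
  induction z using Wd.induction with
  | hadd a b ha hb => rw [map_add, map_add, ha, hb, add_zero]
  | hnil v =>
    refine tens_ext (f := M.rot.f ∘ₗ M.s ∘ₗ Wd.nil) (g := 0) (fun w y => ?_) v
    simp only [LinearMap.comp_apply, LinearMap.zero_apply]
    rw [s_nil]
    exact M.rot_snoc _ _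
  | hsnoc z _ r =>
    rw [s_snoc]
    exact M.rot_snoc _ _

theorem rot_jj (u : Wd k C.V C.V) : M.rot.f (M.jj u) = u := by
  rw [jj_apply, rot_nil, M.P_η, sub_self, map_zero, LinearMap.zero_apply, add_zero]
  induction u using Wd.induction with
  | hadd a b ha hb => rw [map_add, map_add, ha, hb]
  | hnil c => rw [Wd.map_nil, hn_nil, bl_apply, M.ev_r, M.ev1, one_mul]
  | hsnoc u hu r => rw [Wd.map_snoc, hn_snoc, hu]; rfl

theorem err_pow_snoc (n : ℕ) (z : M.HV) (r : E.V) :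
    (M.err ^ n) (Wd.snoc z r) = Wd.snoc ((M.err ^ n) z) r := by
  induction n generalizing z with
  | zero => rfl
  | succ n ih =>
    rw [pow_succ]
    change (M.err ^ n) (M.err (Wd.snoc z r)) = Wd.snoc ((M.err ^ n) (M.err z)) r
    rw [err_snoc, ih]

theorem err_pow_mono {n m : ℕ} (h : n ≤ m) {z : M.HV} (hz : (M.err ^ n) z = 0) :
    (M.err ^ m) z = 0 := by
  obtain ⟨d, rfl⟩ := Nat.exists_eq_add_of_le h
  rw [add_comm, pow_add]
  change (M.err ^ d) ((M.err ^ n) z) = 0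
  rw [hz, map_zero]

theorem err_nilp (z : M.HV) : ∃ n : ℕ, (M.err ^ n) z = 0 := by
  have h0 : ∀ (w : Wd k M.X.V C.V), ∀ y : M.Y.V, ∃ n : ℕ, (M.err ^ n) (Wd.nil (w ⊗ₜ y)) = 0 := by
    intro w
    induction w using Wd.induction with
    | hadd a b ha hb =>
      intro y
      obtain ⟨n, hn⟩ := ha y
      obtain ⟨m, hm⟩ := hb y
      refine ⟨max n m, ?_⟩
      rw [TensorProduct.add_tmul, map_add, map_add, M.err_pow_mono (le_max_left n m) hn,
        M.err_pow_mono (le_max_right n m) hm, add_zero]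
    | hnil x =>
      intro y
      refine ⟨1, ?_⟩
      rw [pow_one, err_nil, err0_tmul, EW_nil, lam_nil, lam_nil, map_zero, map_zero,
        map_zero, LinearMap.zero_apply]
      simp
    | hsnoc u hu c =>
      intro y
      -- the two terms
      have hE : ∀ y : M.Y.V, ∃ n : ℕ, (M.err ^ n) (Wd.nil (u ⊗ₜ y)) = 0 := hu
      obtain ⟨n, hn⟩ := hu (M.bY.l.act (C.E c) M.η)
      obtain ⟨m, hm⟩ := hu M.η
      refine ⟨max n m + 1, ?_⟩
      rw [pow_succ]
      change (M.err ^ max n m) (M.err (Wd.nil (Wd.snoc u c ⊗ₜ y))) = 0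
      rw [err_nil, err0_tmul, EW_snoc, TensorProduct.neg_tmul, map_neg, lam_snoc, lam_snoc,
        EW_EW, s_nil, EW_EW, map_sub, map_neg, map_neg, map_neg, LinearMap.neg_apply, map_neg,
        err_pow_snoc, err_pow_snoc, M.err_pow_mono (le_max_left n m) hn,
        M.err_pow_mono (le_max_right n m) hm]
      simp
  induction z using Wd.induction with
  | hadd a b ha hb =>
    obtain ⟨n, hn⟩ := ha
    obtain ⟨m, hm⟩ := hb
    refine ⟨max n m, ?_⟩
    rw [map_add, M.err_pow_mono (le_max_left n m) hn,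
      M.err_pow_mono (le_max_right n m) hm, add_zero]
  | hnil v =>
    induction v using TensorProduct.induction_on with
    | zero => exact ⟨0, by rw [map_zero, map_zero]⟩
    | tmul w y => exact h0 w y
    | add a b ha hb =>
      obtain ⟨n, hn⟩ := ha
      obtain ⟨m, hm⟩ := hb
      refine ⟨max n m, ?_⟩
      rw [map_add, map_add, M.err_pow_mono (le_max_left n m) hn,
        M.err_pow_mono (le_max_right n m) hm, add_zero]
  | hsnoc z hz r =>
    obtain ⟨n, hn⟩ := hz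
    refine ⟨n, ?_⟩
    rw [err_pow_snoc, hn, map_zero, LinearMap.zero_apply]

theorem rot_QI : M.rot.QI := by
  refine QI_of_contr M.rot M.s M.err (fun u => ⟨M.jj u, M.rot_jj u⟩) M.rot_s
    (fun z hz => ?_) M.err_nilp
  change hcD M.bb (M.s z) + M.s (hcD M.bb z) = z + M.err z
  have h1 := M.s_Db z
  have h2 := M.s_om z
  rw [hz, map_zero] at h2
  rw [hcD_apply, hcD_apply, map_sub, ← h1]
  have e : Db M.bb.r (M.s z) - om M.bb.l (M.s z) + (M.s (Db M.bb.r z) - M.s (om M.bb.l z)) =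
    Db M.bb.r (M.s z) + M.s (Db M.bb.r z) - (om M.bb.l (M.s z) + M.s (om M.bb.l z)) := by abel
  rw [e, h2, sub_zero]

/-- the augmentation of the context -/
def aug : SD.Hom (Bar M.bX.r M.bY.l) E.toSD := NC.aug M.bX.r M.bY.l M.co M.co_b

@[simp] theorem aug_f : M.aug.f = augX C M.co := rfl

theorem aug_isHom : M.bb.IsHom E.diag M.aug := by
  constructor
  · intro e v
    refine tens_ext (f := augX C M.co ∘ₗ M.bb.l.act e) (g := E.mul e ∘ₗ augX C M.co)
      (fun w y => ?_) v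
    change augX C M.co (hd C M.bX.l e w ⊗ₜ y) = E.mul e (augX C M.co (w ⊗ₜ y))
    induction w using Wd.induction with
    | hadd a b ha hb => simp only [map_add, TensorProduct.add_tmul, ha, hb]
    | hnil x => rw [hd_nil, augX_nil, augX_nil, M.co_l]; rfl
    | hsnoc w _ c => rw [hd_snoc, augX_snoc, augX_snoc, map_zero]
  · intro v e
    refine tens_ext (f := augX C M.co ∘ₗ M.bb.r.act.flip e) (g := E.mul.flip e ∘ₗ augX C M.co)
      (fun w y => ?_) v
    change augX C M.co (w ⊗ₜ M.bY.r.act y e) = E.mul (augX C M.co (w ⊗ₜ y)) e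
    induction w using Wd.induction with
    | hadd a b ha hb =>
      simp only [map_add, TensorProduct.add_tmul, ha, hb, LinearMap.add_apply]
    | hnil x => rw [augX_nil, augX_nil, M.co_r]; rfl
    | hsnoc w _ c => rw [augX_snoc, augX_snoc, map_zero, LinearMap.zero_apply]

/-- **Morita invariance (A4).** -/
theorem QI (h : M.aug.QI) : (hcA M.i).QI := by
  have h1 : (hcN M.bb E.diag M.aug M.aug_isHom).QI :=
    QI_hc M.bb E.diag M.aug M.aug_isHom h
  refine QI_right M.rot_QI h1 (hh M.i (DGA.NHom.id E) M.pX M.pY) (fun z => ?_)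
  have h3 := hh_D M.hdata z
  have h4 : contrL (DGA.NHom.id E) M.pX M.pY z = Wd.mh E.V (augX C M.co) z := by
    have e : (TensorProduct.lift (Wd.recW (E.mul.compl₁₂ M.pX.f M.pY.f) 0 0) :
        M.BV →ₗ[k] E.V) = augX C M.co := by
      refine TensorProduct.ext' (fun w y => ?_)
      rw [TensorProduct.lift.tmul]
      induction w using Wd.induction with
      | hadd a b ha hb => rw [map_add, LinearMap.add_apply, ha, hb, TensorProduct.add_tmul,
          map_add]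
      | hnil x =>
        rw [Wd.recW_nil, augX_nil, ← M.pX_mul_pY]
        rfl
      | hsnoc w _ c =>
        rw [Wd.recW_snoc, augX_snoc]
        simp
    unfold contrL
    rw [e]
    rfl
  have h5 : evL (S := E) M.i M.pX M.pY z = Wd.map M.i.f M.i.f (M.rot.f z) := by
    have hk : ∀ (y : M.Y.V) (w : Wd k M.X.V C.V),
        Wd.map LinearMap.id M.i.f (hn C (mulHom M.pY M.pX) y w) =
          Wd.map M.i.f M.i.f (hn C M.ev y w) := by
      intro y w
      induction w using Wd.induction with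
      | hadd a b ha hb => rw [map_add, map_add, map_add, map_add, ha, hb]
      | hnil x =>
        rw [hn_nil, hn_nil, Wd.map_nil, Wd.map_nil, bl_apply, bl_apply, mulHom_tmul,
          M.pY_mul_pX]
        rfl
      | hsnoc w hw c => rw [hn_snoc, hn_snoc, Wd.map_snoc, Wd.map_snoc, hw]
    refine Wd.ext_apply (f := evL (S := E) M.i M.pX M.pY)
      (g := Wd.map M.i.f M.i.f ∘ₗ M.rot.f) (fun v => ?_) (fun z _ r => ?_) z
    · refine tens_ext (f := evL (S := E) M.i M.pX M.pY ∘ₗ Wd.nil)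
        (g := Wd.map M.i.f M.i.f ∘ₗ M.rot.f ∘ₗ Wd.nil) (fun w y => ?_) v
      simp only [LinearMap.comp_apply]
      rw [rot_nil, map_add, ← hk, ← hk, evL, Wd.recW_nil, LinearMap.comp_apply, evB0_tmul,
        map_add]
    · rw [LinearMap.comp_apply, rot_snoc, map_zero, evL, Wd.recW_snoc]
      simp
  rw [h4, h5] at h3
  exact h3

end MCtx

end NC
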