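import Mathlib
import Pool.Agent.H16.NC.HSt
import Pool.Agent.H94.NC.MorA

/-!
# The pairing `Z ⊗ Hom_A(X, A) → Hom_A(X, Z)` and the Morita context of a right module
-/

set_option autoImplicit false

open scoped TensorProduct

noncomputable section

namespace NC

variable {k : Type} [Field k] {A : DGA k} {X Z : SD k}

/-- `z, φ ↦ (v ↦ z φ(v))` -/
def coR0 (rX : RA A X) (rZ : RA A Z) :
    Z.V →ₗ[k] (HomR rX A.diag.r).V →ₗ[k] (HomR rX rZ).V :=
  LinearMap.mk₂ k (fun z φ => (⟨rZ.act z ∘ₗ φ.1, by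
      intro x b
      have h := φ.2 x b
      change rZ.act z (φ.1 (rX.act x b)) = rZ.act (rZ.act z (φ.1 x)) b
      rw [rZ.act_mul]
      exact congrArg (rZ.act z) h⟩ : rLin rX rZ))
    (fun z z' φ => Subtype.ext (LinearMap.ext fun v => by simp))
    (fun c z φ => Subtype.ext (LinearMap.ext fun v => by simp))
    (fun z φ φ' => Subtype.ext (LinearMap.ext fun v => by simp))
    (fun c z φ => Subtype.ext (LinearMap.ext fun v => by simp))

theorem coR0_apply (rX : RA A X) (rZ : RA A Z) (z : Z.V) (φ : (HomR rX A.diag.r).V) (v : X.V) :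
    (coR0 rX rZ z φ).1 v = rZ.act z (φ.1 v) := rfl

theorem homR_D (rX : RA A X) (rZ : RA A Z) (φ : (HomR rX rZ).V) (v : X.V) :
    ((HomR rX rZ).D φ).1 v = Z.D (φ.1 v) - Z.E (φ.1 (X.E (X.D v))) := SD.hD_apply X Z φ.1 v

theorem homR_P (rX : RA A X) (rZ : RA A Z) (φ : (HomR rX rZ).V) (v : X.V) :
    ((HomR rX rZ).P φ).1 v = Z.P (φ.1 (X.P v)) + (φ.1 (v - X.P v) - Z.P (φ.1 (v - X.P v))) :=
  SD.hP_apply X Z φ.1 v

theorem homR_E (rX : RA A X) (rZ : RA A Z) (φ : (HomR rX rZ).V) (v : X.V) :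
    ((HomR rX rZ).E φ).1 v = Z.E (φ.1 (X.E v)) := SD.hE_apply X Z φ.1 v

/-- the pairing `z ⊗ φ ↦ (v ↦ z φ(v))` -/
def coR (rX : RA A X) (rZ : RA A Z) : SD.Hom (Z.tens (HomR rX A.diag.r)) (HomR rX rZ) where
  f := TensorProduct.lift (coR0 rX rZ)
  D := fun w => by
    refine tens_ext (f := TensorProduct.lift (coR0 rX rZ) ∘ₗ SD.tD Z (HomR rX A.diag.r))
      (g := (HomR rX rZ).D ∘ₗ TensorProduct.lift (coR0 rX rZ)) (fun z φ => ?_) w
    refine Subtype.ext (LinearMap.ext (fun v => ?_))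
    have h1 : SD.tD Z (HomR rX A.diag.r) (z ⊗ₜ φ) = Z.D z ⊗ₜ φ +
      Z.E z ⊗ₜ (HomR rX A.diag.r).D φ := rfl
    rw [LinearMap.comp_apply, h1, map_add, LinearMap.comp_apply, homR_D]
    have h2 := homR_D rX A.diag.r φ v
    change rZ.act (Z.D z) (φ.1 v) + rZ.act (Z.E z) (((HomR rX A.diag.r).D φ).1 v) =
      Z.D (rZ.act z (φ.1 v)) - Z.E (rZ.act z (φ.1 (X.E (X.D v))))
    rw [h2, rZ.D_act, rZ.E_act, map_sub]
    change rZ.act (Z.D z) (φ.1 v) + (rZ.act (Z.E z) (A.D (φ.1 v)) -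
      rZ.act (Z.E z) (A.E (φ.1 (X.E (X.D v))))) = _
    abel
  P := fun w => by
    refine tens_ext (f := TensorProduct.lift (coR0 rX rZ) ∘ₗ SD.tP Z (HomR rX A.diag.r))
      (g := (HomR rX rZ).P ∘ₗ TensorProduct.lift (coR0 rX rZ)) (fun z φ => ?_) w
    refine Subtype.ext (LinearMap.ext (fun v => ?_))
    have h1 : SD.tP Z (HomR rX A.diag.r) (z ⊗ₜ φ) = Z.P z ⊗ₜ (HomR rX A.diag.r).P φ +
      (z - Z.P z) ⊗ₜ (φ - (HomR rX A.diag.r).P φ) := rfl
    rw [LinearMap.comp_apply, h1, map_add, LinearMap.comp_apply, homR_P]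
    have h2 := homR_P rX A.diag.r φ v
    change rZ.act (Z.P z) (((HomR rX A.diag.r).P φ).1 v) +
      rZ.act (z - Z.P z) (φ.1 v - ((HomR rX A.diag.r).P φ).1 v) =
      Z.P (rZ.act z (φ.1 (X.P v))) + (rZ.act z (φ.1 (v - X.P v)) -
        Z.P (rZ.act z (φ.1 (v - X.P v))))
    rw [h2, rZ.P_act, rZ.P_act]
    change rZ.act (Z.P z) (A.P (φ.1 (X.P v)) + (φ.1 (v - X.P v) - A.P (φ.1 (v - X.P v)))) +
      rZ.act (z - Z.P z) (φ.1 v - (A.P (φ.1 (X.P v)) + (φ.1 (v - X.P v) -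
        A.P (φ.1 (v - X.P v))))) = _
    simp only [map_sub, map_add, LinearMap.sub_apply]
    abel

@[simp] theorem coR_tmul (rX : RA A X) (rZ : RA A Z) (z : Z.V) (φ : (HomR rX A.diag.r).V)
    (v : X.V) : ((coR rX rZ).f (z ⊗ₜ φ)).1 v = rZ.act z (φ.1 v) := rfl

/-- evaluation `Hom_A(X, A) ⊗ X → A` -/
def evR (rX : RA A X) : SD.Hom ((HomR rX A.diag.r).tens X) A.toSD where
  f := TensorProduct.lift (rLin rX A.diag.r).subtype
  D := fun w => by
    refine tens_ext (f := TensorProduct.lift (rLin rX A.diag.r).subtype ∘ₗ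
      SD.tD (HomR rX A.diag.r) X) (g := A.D ∘ₗ TensorProduct.lift (rLin rX A.diag.r).subtype)
      (fun φ x => ?_) w
    have h1 : SD.tD (HomR rX A.diag.r) X (φ ⊗ₜ x) = (HomR rX A.diag.r).D φ ⊗ₜ x +
      (HomR rX A.diag.r).E φ ⊗ₜ X.D x := rfl
    rw [LinearMap.comp_apply, h1, map_add, LinearMap.comp_apply]
    change ((HomR rX A.diag.r).D φ).1 x + ((HomR rX A.diag.r).E φ).1 (X.D x) = A.D (φ.1 x)
    rw [homR_D, homR_E]
    exact sub_add_cancel _ _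
  P := fun w => by
    refine tens_ext (f := TensorProduct.lift (rLin rX A.diag.r).subtype ∘ₗ
      SD.tP (HomR rX A.diag.r) X) (g := A.P ∘ₗ TensorProduct.lift (rLin rX A.diag.r).subtype)
      (fun φ x => ?_) w
    have h1 : SD.tP (HomR rX A.diag.r) X (φ ⊗ₜ x) = (HomR rX A.diag.r).P φ ⊗ₜ X.P x +
      (φ - (HomR rX A.diag.r).P φ) ⊗ₜ (x - X.P x) := rfl
    rw [LinearMap.comp_apply, h1, map_add, LinearMap.comp_apply]
    change ((HomR rX A.diag.r).P φ).1 (X.P x) + (φ.1 (x - X.P x) -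
      ((HomR rX A.diag.r).P φ).1 (x - X.P x)) = A.P (φ.1 x)
    rw [homR_P, homR_P]
    simp only [X.PP, map_sub, sub_self, map_zero]
    abel

@[simp] theorem evR_tmul (rX : RA A X) (φ : (HomR rX A.diag.r).V) (x : X.V) :
    (evR rX).f (φ ⊗ₜ x) = φ.1 x := rfl

/-- composition with endomorphisms of the source -/
def compR (rX : RA A X) (rZ : RA A Z) : RA (EndR rX) (HomR rX rZ) where
  act := LinearMap.mk₂ k (fun φ e => (⟨φ.1 ∘ₗ e.1, rLin_comp φ.2 e.2⟩ : rLin rX rZ))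
    (fun _ _ _ => Subtype.ext (LinearMap.add_comp _ _ _))
    (fun _ _ _ => Subtype.ext (LinearMap.smul_comp _ _ _))
    (fun _ _ _ => Subtype.ext (LinearMap.comp_add _ _ _))
    (fun _ _ _ => Subtype.ext (LinearMap.comp_smul _ _ _))
  act_mul := fun _ _ _ => rfl
  P_act := fun φ e => Subtype.ext (hP_comp φ.1 e.1)
  D_act := fun φ e => Subtype.ext (hD_comp φ.1 e.1)

@[simp] theorem compR_act (rX : RA A X) (rZ : RA A Z) (φ : (HomR rX rZ).V) (e : (EndR rX).V)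
    (v : X.V) : ((compR rX rZ).act φ e).1 v = φ.1 (e.1 v) := rfl

/-- `Hom_A(X, A)` as an `A`-`End_A(X)`-bimodule -/
def bYR (rX : RA A X) : Bi A (EndR rX) (HomR rX A.diag.r) where
  l := LA.postR A.diag.l rX A.diag.lr
  r := compR rX A.diag.r
  lr := fun _ _ _ => rfl

/-- the Morita context of a unital right module `X` with a split unit -/
def MCtx.ofR (rX : RA A X) (h1 : ∀ x, rX.act x 1 = x) (ξ : X.V) (η : (HomR rX A.diag.r).V)
    (P_ξ : X.P ξ = ξ) (D_ξ : X.D ξ = 0) (P_η : (HomR rX A.diag.r).P η = η)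
    (D_η : (HomR rX A.diag.r).D η = 0) (ev1 : η.1 ξ = 1) : MCtx A (EndR rX) where
  X := X
  Y := HomR rX A.diag.r
  bX := EndR.bi rX
  bY := bYR rX
  co := coR rX rX
  ev := evR rX
  co_l := fun e x y => Subtype.ext (LinearMap.ext fun v => (e.2 x (y.1 v)).symm)
  co_r := fun _ _ _ => rfl
  co_b := fun x c y => Subtype.ext (LinearMap.ext fun v => rX.act_mul x c (y.1 v))
  ev_l := fun _ _ _ => rfl
  ev_r := fun y x c => y.2 x c
  ev_b := fun _ _ _ => rfl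
  cx := fun _ _ _ => rfl
  yc := fun y x y' => Subtype.ext (LinearMap.ext fun v => y.2 x (y'.1 v))
  X1 := h1
  Y1 := fun y => Subtype.ext (LinearMap.ext fun v => A.one_mul' (y.1 v))
  ξ := ξ
  η := η
  P_ξ := P_ξ
  P_η := P_η
  D_ξ := D_ξ
  D_η := D_η
  ev1 := ev1

end NC
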