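import Mathlib
import Pool.Agent.H94.NC.CoR
import Pool.Agent.H36.NX.RCb
import Pool.Agent.H16.NC.A5S

/-!
# The relation between the contraction and the rotation (block TR)

`M` a bimodule, `Mˣ = Hom_A(M, A)`.  If a cycle `γ` of `HC(A; Bar(M, A, Mˣ))` contracts to the
image of `w` in `HC(A; End_A(M))` and `i_* w' ~ rho_* w` then the rotation of `γ` is homologous
to `w'`.
-/

set_option autoImplicit false

open scoped TensorProduct

noncomputable section

namespace NC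

variable {k : Type} [Field k] {A : DGA k}

theorem NHom_ext {R S : DGA k} (g g' : DGA.NHom R S) (h : g.f = g'.f) : g = g' := by
  obtain ⟨⟨f, _, _⟩, _⟩ := g
  obtain ⟨⟨f', _, _⟩, _⟩ := g'
  have h' : f = f' := h
  subst h'
  rfl

/-! ### the Morita context of `A ⊕ M` -/

section ctx

variable (M : BMod A A)

theorem A_D_one : A.D 1 = 0 := by
  have h := A.D_mul 1 1
  have h1 : A.mul (A.D 1) 1 = A.D 1 := A.mul_one' _
  have h2 : A.E 1 = 1 := by
    rw [SD.E_apply]
    have h3 : A.P 1 = 1 := A.P_one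
    rw [h3]; abel
  have h4 : A.mul 1 (A.D 1) = A.D 1 := A.one_mul' _
  have h5 : A.mul 1 1 = (1 : A.V) := A.mul_one' _
  rw [h2, h5, h1, h4] at h
  have h6 : A.D 1 + A.D 1 = A.D 1 + 0 := by rw [add_zero]; exact h.symm
  exact add_left_cancel h6

/-- the projection of `A ⊕ M` to `A` -/
def etaM : (HomR (AM M).b.r A.diag.r).V :=
  ⟨LinearMap.fst k A.V M.N.V, fun _ _ => rfl⟩

/-- the generator of the summand `A` -/
def xiM : (AM M).N.V := ((1 : A.V), (0 : M.N.V))

theorem P_xiM : (AM M).N.P (xiM M) = xiM M :=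
  Prod.ext A.P_one (map_zero M.N.P)

theorem D_xiM : (AM M).N.D (xiM M) = 0 :=
  Prod.ext A_D_one (map_zero M.N.D)

theorem P_etaM : (HomR (AM M).b.r A.diag.r).P (etaM M) = etaM M := by
  refine Subtype.ext (LinearMap.ext (fun v => ?_))
  refine (homR_P (AM M).b.r A.diag.r (etaM M) v).trans ?_
  obtain ⟨(x : A.V), m⟩ := v
  change A.P (A.P x) + ((x - A.P x) - A.P (x - A.P x)) = x
  rw [map_sub, A.PP]
  abel

theorem D_etaM : (HomR (AM M).b.r A.diag.r).D (etaM M) = 0 := by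
  refine Subtype.ext (LinearMap.ext (fun v => ?_))
  refine (homR_D (AM M).b.r A.diag.r (etaM M) v).trans ?_
  obtain ⟨(x : A.V), m⟩ := v
  change A.D x - A.E (A.E (A.D x)) = 0
  rw [A.EE, sub_self]

/-- the Morita context between `A` and `End_A(A ⊕ M)` -/
def ctxM : MCtx A (EndR (AM M).b.r) :=
  MCtx.ofR (AM M).b.r (AM M).r_one (xiM M) (etaM M) (P_xiM M) (D_xiM M) (P_etaM M) (D_etaM M) rfl

theorem ctxM_i (a : A.V) : (ctxM M).i.f a = (iE M).f a := by
  refine Subtype.ext (LinearMap.ext (fun v => ?_))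
  obtain ⟨(x : A.V), m⟩ := v
  refine Prod.ext ?_ ?_
  · change ((1 : A.V) * a) * x = a * x
    rw [one_mul]
  · change M.b.r.act (M.b.r.act 0 a) x = 0
    rw [map_zero, LinearMap.zero_apply, map_zero, LinearMap.zero_apply]

theorem iE_QI (h : (contrR (AM M).b.r (AM M).b.r).QI) : (hcA (iE M)).QI := by
  have h1 : (hcA (ctxM M).i).QI := (ctxM M).QI h
  rw [NHom_ext (ctxM M).i (iE M) (LinearMap.ext (ctxM_i M))] at h1
  exact h1

end ctx

/-! ### the comparison inside `End_A(A ⊕ M)` -/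

section cmp

variable (M : BMod A A)

/-- `m ↦ ((x, m') ↦ (0, m x))` -/
def phiX0 : M.N.V →ₗ[k] ((A.V × M.N.V) →ₗ[k] (A.V × M.N.V)) where
  toFun m := LinearMap.inr k A.V M.N.V ∘ₗ M.b.r.act m ∘ₗ LinearMap.fst k A.V M.N.V
  map_add' a b := by ext m <;> simp
  map_smul' c a := by ext m <;> simp

/-- `φ ↦ ((x, m') ↦ (φ m', 0))` -/
def phiY0 : (HomR M.b.r A.diag.r).V →ₗ[k] ((A.V × M.N.V) →ₗ[k] (A.V × M.N.V)) where
  toFun φ := LinearMap.inl k A.V M.N.V ∘ₗ φ.1 ∘ₗ LinearMap.snd k A.V M.N.V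
  map_add' a b := by ext m <;> simp
  map_smul' c a := by ext m <;> simp

/-- `f ↦ ((x, m') ↦ (0, f m'))` -/
def kapM0 : (HomR M.b.r M.b.r).V →ₗ[k] ((A.V × M.N.V) →ₗ[k] (A.V × M.N.V)) where
  toFun φ := LinearMap.inr k A.V M.N.V ∘ₗ φ.1 ∘ₗ LinearMap.snd k A.V M.N.V
  map_add' a b := by ext m <;> simp
  map_smul' c a := by ext m <;> simp

/-- `m ↦ ((x, m') ↦ (0, m x))` -/
def phiX : SD.Hom M.N (EndR (AM M).b.r).toSD where
  f := (phiX0 M).codRestrict _ (fun m => by
    rintro ⟨x, m'⟩ b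
    refine Prod.ext ?_ ?_
    · exact (zero_mul b).symm
    · exact (M.b.r.act_mul m x b).symm)
  D := fun m => by
    refine Subtype.ext (LinearMap.ext (fun v => ?_))
    refine Eq.trans ?_ (SD.hD_apply (AM M).N (AM M).N _ v).symm
    obtain ⟨(x : A.V), m'⟩ := v
    refine Prod.ext ?_ ?_
    · change (0 : A.V) = A.D 0 - A.E 0
      simp
    · change M.b.r.act (M.N.D m) x = M.N.D (M.b.r.act m x) - M.N.E (M.b.r.act m (A.E (A.D x)))
      rw [M.b.r.D_act, M.b.r.E_act, A.EE]; abel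
  P := fun m => by
    refine Subtype.ext (LinearMap.ext (fun v => ?_))
    refine Eq.trans ?_ (SD.hP_apply (AM M).N (AM M).N _ v).symm
    obtain ⟨(x : A.V), m'⟩ := v
    refine Prod.ext ?_ ?_
    · change (0 : A.V) = A.P 0 + (0 - A.P 0)
      simp
    · change M.b.r.act (M.N.P m) x = M.N.P (M.b.r.act m (A.P x)) +
        (M.b.r.act m (x - A.P x) - M.N.P (M.b.r.act m (x - A.P x)))
      simp only [M.b.r.P_act, map_sub, A.PP, LinearMap.sub_apply, sub_self, map_zero]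
      abel

/-- `φ ↦ ((x, m') ↦ (φ m', 0))` -/
def phiY : SD.Hom (HomR M.b.r A.diag.r) (EndR (AM M).b.r).toSD where
  f := (phiY0 M).codRestrict _ (fun φ => by
    rintro ⟨x, m'⟩ b
    refine Prod.ext ?_ ?_
    · exact φ.2 m' b
    · change (0 : M.N.V) = M.b.r.act 0 b
      rw [map_zero, LinearMap.zero_apply])
  D := fun φ => by
    refine Subtype.ext (LinearMap.ext (fun v => ?_))
    refine Eq.trans ?_ (SD.hD_apply (AM M).N (AM M).N _ v).symm
    obtain ⟨(x : A.V), m'⟩ := v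
    refine Prod.ext ?_ ?_
    · exact homR_D M.b.r A.diag.r φ m'
    · change (0 : M.N.V) = M.N.D 0 - M.N.E 0
      simp
  P := fun φ => by
    refine Subtype.ext (LinearMap.ext (fun v => ?_))
    refine Eq.trans ?_ (SD.hP_apply (AM M).N (AM M).N _ v).symm
    obtain ⟨(x : A.V), m'⟩ := v
    refine Prod.ext ?_ ?_
    · exact homR_P M.b.r A.diag.r φ m'
    · change (0 : M.N.V) = M.N.P 0 + (0 - M.N.P 0)
      simp

/-- the corner `End_A(M)` of `End_A(A ⊕ M)` -/
def kapM : SD.Hom (HomR M.b.r M.b.r) (EndR (AM M).b.r).toSD where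
  f := (kapM0 M).codRestrict _ (fun φ => by
    rintro ⟨x, m'⟩ b
    refine Prod.ext ?_ ?_
    · exact (zero_mul b).symm
    · exact φ.2 m' b)
  D := fun φ => by
    refine Subtype.ext (LinearMap.ext (fun v => ?_))
    refine Eq.trans ?_ (SD.hD_apply (AM M).N (AM M).N _ v).symm
    obtain ⟨(x : A.V), m'⟩ := v
    refine Prod.ext ?_ ?_
    · change (0 : A.V) = A.D 0 - A.E 0
      simp
    · exact homR_D M.b.r M.b.r φ m'
  P := fun φ => by
    refine Subtype.ext (LinearMap.ext (fun v => ?_))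
    refine Eq.trans ?_ (SD.hP_apply (AM M).N (AM M).N _ v).symm
    obtain ⟨(x : A.V), m'⟩ := v
    refine Prod.ext ?_ ?_
    · change (0 : A.V) = A.P 0 + (0 - A.P 0)
      simp
    · exact homR_P M.b.r M.b.r φ m'

/-- `Hom_A(M, A)` as a bimodule -/
def bMst : Bi A A (HomR M.b.r A.diag.r) where
  l := LA.postR A.diag.l M.b.r A.diag.lr
  r := LA.preR A.diag.r M.b.l M.b.lr
  lr := fun _ _ _ => rfl

/-- `End_A(M)` as a bimodule -/
def bEnd : Bi A A (HomR M.b.r M.b.r) where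
  l := LA.postR M.b.l M.b.r M.b.lr
  r := LA.preR M.b.r M.b.l M.b.lr
  lr := fun _ _ _ => rfl

/-- the left action `A → End_A(M)` -/
def lamM : SD.Hom A.toSD (HomR M.b.r M.b.r) where
  f :=
    { toFun := fun a => ⟨M.b.l.act a, fun m b => (M.b.lr a m b).symm⟩
      map_add' := fun a b => Subtype.ext (map_add _ _ _)
      map_smul' := fun c a => Subtype.ext (map_smul _ _ _) }
  D := fun a => by
    refine Subtype.ext (LinearMap.ext (fun m => ?_))
    refine Eq.trans ?_ (SD.hD_apply M.N M.N _ m).symm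
    change M.b.l.act (A.D a) m = M.N.D (M.b.l.act a m) - M.N.E (M.b.l.act a (M.N.E (M.N.D m)))
    rw [M.b.l.D_act, M.b.l.E_act, M.N.EE]; abel
  P := fun a => by
    refine Subtype.ext (LinearMap.ext (fun m => ?_))
    refine Eq.trans ?_ (SD.hP_apply M.N M.N _ m).symm
    change M.b.l.act (A.P a) m = M.N.P (M.b.l.act a (M.N.P m)) +
      (M.b.l.act a (m - M.N.P m) - M.N.P (M.b.l.act a (m - M.N.P m)))
    simp only [M.b.l.P_act, map_sub, M.N.PP, LinearMap.sub_apply, sub_self, map_zero]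
    abel

theorem lamM_isHom : A.diag.IsHom (bEnd M) (lamM M) where
  l := fun a b => Subtype.ext (LinearMap.ext fun m => M.b.l.mul_act a b m)
  r := fun a b => Subtype.ext (LinearMap.ext fun m => M.b.l.mul_act a b m)

theorem contrR_isHom : (M.b.bar (bMst M)).IsHom (bEnd M) (contrR M.b.r M.b.r) := by
  refine augB_isHom (bX := M.b) (bY := bMst M) (bZ := bEnd M) (μ := coR M.b.r M.b.r) _ ?_
  constructor
  · intro a v
    refine tens_ext (f := (coR M.b.r M.b.r).f ∘ₗ (Bi.tensLR M.b.l (bMst M).r).l.act a)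
      (g := (bEnd M).l.act a ∘ₗ (coR M.b.r M.b.r).f) (fun m φ => ?_) v
    refine Subtype.ext (LinearMap.ext fun m' => ?_)
    exact M.b.lr a m (φ.1 m')
  · intro v a
    refine tens_ext (f := (coR M.b.r M.b.r).f ∘ₗ (Bi.tensLR M.b.l (bMst M).r).r.act.flip a)
      (g := (bEnd M).r.act.flip a ∘ₗ (coR M.b.r M.b.r).f) (fun m φ => ?_) v
    rfl

theorem hdataM : HData M.b (bMst M) (iE M) (rhoE M) (phiX M) (phiY M) where
  sx := fun s x => Subtype.ext (LinearMap.ext fun v => Prod.ext rfl (M.b.lr s x v.1))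
  xr := fun x r => Subtype.ext (LinearMap.ext fun v => Prod.ext rfl (M.b.r.act_mul x r v.1))
  ry := fun _ _ => rfl
  ys := fun _ _ => rfl

/-- the corner map on words -/
def KM : Wd k (HomR M.b.r M.b.r).V A.V →ₗ[k] Wd k (EndR (AM M).b.r).V (EndR (AM M).b.r).V :=
  Wd.map (kapM M).f (rhoE M).f

theorem KM_D (z : Wd k (HomR M.b.r M.b.r).V A.V) :
    KM M (hcD (bEnd M) z) = hcD (EndR (AM M).b.r).diag (KM M z) := by
  have h1 := map_Db (kapM M) (rhoE M) (bEnd M).r (EndR (AM M).b.r).diag.r (fun _ _ => rfl) z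
  have h2 := map_om (kapM M) (rhoE M) (bEnd M).l (EndR (AM M).b.r).diag.l (fun _ _ => rfl) z
  have h3 : KM M (hcD (bEnd M) z) = Wd.map (kapM M).f (rhoE M).f (Db (bEnd M).r z) -
    Wd.map (kapM M).f (rhoE M).f (om (bEnd M).l z) := map_sub (KM M) _ _
  rw [h3, h1, h2]
  rfl

theorem KM_nil (f : (HomR M.b.r M.b.r).V) : KM M (Wd.nil f) = Wd.nil ((kapM M).f f) :=
  Wd.map_nil _ _ _

theorem KM_snoc (w : Wd k (HomR M.b.r M.b.r).V A.V) (r : A.V) :
    KM M (Wd.snoc w r) = Wd.snoc (KM M w) ((rhoE M).f r) := Wd.map_snoc _ _ _ _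

theorem KM_lam (w : Wd k A.V A.V) :
    KM M ((hcN A.diag (bEnd M) (lamM M) (lamM_isHom M)).f w) = (hcA (rhoE M)).f w := by
  induction w using Wd.induction with
  | hadd a b ha hb =>
    have h1 := map_add (KM M ∘ₗ (hcN A.diag (bEnd M) (lamM M) (lamM_isHom M)).f) a b
    have h2 := map_add (hcA (rhoE M)).f a b
    exact h1.trans ((congrArg₂ (· + ·) ha hb).trans h2.symm)
  | hnil a =>
    have h2 := hcN_nil A.diag (bEnd M) (lamM M) (lamM_isHom M) a
    refine (congrArg (KM M) h2).trans ((KM_nil M _).trans ?_)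
    exact (Wd.map_nil (rhoE M).f (rhoE M).f a).symm
  | hsnoc w hw r =>
    have h2 := hcN_snoc A.diag (bEnd M) (lamM M) (lamM_isHom M) w r
    refine (congrArg (KM M) h2).trans ((KM_snoc M _ _).trans ?_)
    rw [hw]
    exact (Wd.map_snoc (rhoE M).f (rhoE M).f w r).symm

/-- the contraction on the Hochschild complex -/
def contrH : SD.Hom (HC (M.b.bar (bMst M))) (HC (bEnd M)) :=
  hcN (M.b.bar (bMst M)) (bEnd M) (contrR M.b.r M.b.r) (contrR_isHom M)

theorem KM_contr0 (v : Wd k M.N.V A.V ⊗[k] (HomR M.b.r A.diag.r).V) :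
    (kapM M).f ((contrR M.b.r M.b.r).f v) = TensorProduct.lift (Wd.recW
      ((EndR (AM M).b.r).mul.compl₁₂ (phiX M).f (phiY M).f) 0 0) v := by
  refine tens_ext (f := (kapM M).f ∘ₗ (contrR M.b.r M.b.r).f) (g := TensorProduct.lift (Wd.recW
      ((EndR (AM M).b.r).mul.compl₁₂ (phiX M).f (phiY M).f) 0 0)) (fun w φ => ?_) v
  rw [LinearMap.comp_apply, TensorProduct.lift.tmul]
  induction w using Wd.induction with
  | hadd a b ha hb =>
    rw [TensorProduct.add_tmul, map_add, map_add, map_add, LinearMap.add_apply, ha, hb]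
  | hnil m =>
    rw [Wd.recW_nil]
    have h1 : (contrR M.b.r M.b.r).f (Wd.nil m ⊗ₜ φ) = (coR M.b.r M.b.r).f (m ⊗ₜ φ) :=
      augB_nil _ _ _ _ m φ
    rw [h1]
    exact Subtype.ext (LinearMap.ext fun v => Prod.ext rfl rfl)
  | hsnoc w _ r =>
    have h1 : (contrR M.b.r M.b.r).f (Wd.snoc w r ⊗ₜ φ) = 0 := augB_snoc _ _ _ _ w r φ
    rw [h1, map_zero, Wd.recW_snoc]
    simp

theorem KM_contr (z : Wd k (Wd k M.N.V A.V ⊗[k] (HomR M.b.r A.diag.r).V) A.V) :
    KM M ((contrH M).f z) = contrL (rhoE M) (phiX M) (phiY M) z := by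
  induction z using Wd.induction with
  | hadd a b ha hb =>
    have h1 := map_add (KM M ∘ₗ (contrH M).f) a b
    have h2 := map_add (contrL (R := A) (rhoE M) (phiX M) (phiY M)) a b
    exact h1.trans ((congrArg₂ (· + ·) ha hb).trans h2.symm)
  | hnil v =>
    have h2 := hcN_nil (M.b.bar (bMst M)) (bEnd M) (contrR M.b.r M.b.r) (contrR_isHom M) v
    refine (congrArg (KM M) h2).trans ((KM_nil M _).trans ?_)
    rw [KM_contr0]
    exact (Wd.map_nil _ _ _).symm
  | hsnoc z hz r =>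
    have h2 := hcN_snoc (M.b.bar (bMst M)) (bEnd M) (contrR M.b.r M.b.r) (contrR_isHom M) z r
    refine (congrArg (KM M) h2).trans ((KM_snoc M _ _).trans ?_)
    have h3 : KM M ((hcN (M.b.bar (bMst M)) (bEnd M) (contrR M.b.r M.b.r)
      (contrR_isHom M)).f z) = contrL (rhoE M) (phiX M) (phiY M) z := hz
    rw [h3]
    exact (Wd.map_snoc _ _ _ _).symm

/-- the rotation of `HC(A; Bar(M, A, Hom_A(M, A)))` -/
def evM : SD.Hom (HC (M.b.bar (bMst M))) (HC A.diag) :=
  evH M.b (bMst M) A.diag (evR M.b.r) (fun _ _ _ => rfl) (fun φ x a => φ.2 x a)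
    (fun _ _ _ => rfl)

theorem map_hnM (y : (HomR M.b.r A.diag.r).V) (w : Wd k M.N.V A.V) :
    Wd.map LinearMap.id (iE M).f (hn A (mulHom (phiY M) (phiX M)) y w) =
      Wd.map (iE M).f (iE M).f (hn A (evR M.b.r) y w) := by
  induction w using Wd.induction with
  | hadd a b ha hb => rw [map_add, map_add, map_add, map_add, ha, hb]
  | hnil x =>
    rw [hn_nil, hn_nil, Wd.map_nil, Wd.map_nil, bl_apply, bl_apply, mulHom_tmul]
    refine congrArg Wd.nil (Subtype.ext (LinearMap.ext fun v => Prod.ext ?_ rfl))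
    exact y.2 x v.1
  | hsnoc w hw c => rw [hn_snoc, hn_snoc, Wd.map_snoc, Wd.map_snoc, hw]

theorem evL_evM (z : Wd k (Wd k M.N.V A.V ⊗[k] (HomR M.b.r A.diag.r).V) A.V) :
    evL (S := A) (iE M) (phiX M) (phiY M) z = Wd.map (iE M).f (iE M).f ((evM M).f z) := by
  refine Wd.ext_apply (f := evL (S := A) (iE M) (phiX M) (phiY M))
    (g := Wd.map (iE M).f (iE M).f ∘ₗ (evM M).f) (fun v => ?_) (fun z _ r => ?_) z
  · refine tens_ext (f := evL (S := A) (iE M) (phiX M) (phiY M) ∘ₗ Wd.nil)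
      (g := Wd.map (iE M).f (iE M).f ∘ₗ (evM M).f ∘ₗ Wd.nil) (fun w y => ?_) v
    simp only [LinearMap.comp_apply]
    have h1 : (evM M).f (Wd.nil (w ⊗ₜ y)) = evB0 A (evR M.b.r) (w ⊗ₜ y) := by
      unfold evM evH
      exact (tr0_nil _ _ _ _).trans rfl
    rw [h1, evB0_tmul, map_add, ← map_hnM, ← map_hnM, evL, Wd.recW_nil, LinearMap.comp_apply,
      evB0_tmul, map_add]
  · have h1 : (evM M).f (Wd.snoc z r) = 0 := by
      unfold evM evH
      exact tr0_snoc _ _ _ _ _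
    rw [LinearMap.comp_apply, h1, map_zero, evL, Wd.recW_snoc]
    simp

/-- **Block TR.** -/
theorem TR_rel (hQ : (contrR (AM M).b.r (AM M).b.r).QI)
    (γ : (HC (M.b.bar (bMst M))).V) (hγ : (HC (M.b.bar (bMst M))).D γ = 0)
    (w w' : (HC A.diag).V) (hw' : (HC A.diag).D w' = 0)
    (h1 : (HC (EndR (AM M).b.r).diag).Hml ((hcA (iE M)).f w') ((hcA (rhoE M)).f w))
    (h2 : (HC (bEnd M)).Hml ((contrH M).f γ)
      ((hcN A.diag (bEnd M) (lamM M) (lamM_isHom M)).f w)) :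
    (HC A.diag).Hml ((evM M).f γ) w' := by
  obtain ⟨u, hu⟩ := h1
  obtain ⟨z, hz⟩ := h2
  have h3 := hh_D (hdataM M) γ
  have h4 : hcD (M.b.bar (bMst M)) γ = 0 := hγ
  rw [h4, map_zero, add_zero, evL_evM, ← KM_contr] at h3
  have h5 := KM_D M z
  have h6 : hcD (bEnd M) z = (contrH M).f γ -
      (hcN A.diag (bEnd M) (lamM M) (lamM_isHom M)).f w := hz
  have h7 : KM M (hcD (bEnd M) z) = KM M ((contrH M).f γ) - (hcA (rhoE M)).f w := by
    rw [h6, ← KM_lam]
    exact map_sub (KM M) _ _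
  rw [h7] at h5
  have hD : (HC A.diag).D ((evM M).f γ - w') = 0 := by
    rw [map_sub, hw', sub_zero, ← (evM M).D, hγ, map_zero]
  obtain ⟨y, hy⟩ := (iE_QI M hQ).inj ((evM M).f γ - w')
    (KM M z - hh (iE M) (rhoE M) (phiX M) (phiY M) γ - u) hD (by
      have h8 : (hcA (iE M)).f ((evM M).f γ - w') =
        (hcA (iE M)).f ((evM M).f γ) - (hcA (iE M)).f w' := map_sub _ _ _
      have h9 : (HC (EndR (AM M).b.r).diag).D
          (KM M z - hh (iE M) (rhoE M) (phiX M) (phiY M) γ - u) =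
        hcD (EndR (AM M).b.r).diag (KM M z) -
          hcD (EndR (AM M).b.r).diag (hh (iE M) (rhoE M) (phiX M) (phiY M) γ) -
          (HC (EndR (AM M).b.r).diag).D u := by
        rw [map_sub, map_sub]
      rw [h8, h9, ← h5, h3, hu]
      change Wd.map (iE M).f (iE M).f ((evM M).f γ) - (hcA (iE M)).f w' = _
      abel)
  exact ⟨y, hy⟩

end cmp

end NC
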