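import Mathlib
import Pool.Agent.H94.NC.TR
import Pool.Agent.H36.NX.RCc
import Pool.Agent.H36.NX.RCg

/-!
# Block TR for bimodules which are perfect as right modules
-/

set_option autoImplicit false

noncomputable section

namespace NC

variable {k : Type} [Field k] {A : DGA k} (M : BMod A A)

/-- the inclusion of the corner is a quasi-isomorphism of Hochschild complexes -/
theorem iE_qi (hR : RPf M.b.r) : (hcA (iE M)).QI :=
  iE_QI M (contrR_qi (RPf.AM M hR) (AM M).b.r (AM M).r_one)

/-- **Block TR.** -/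
theorem TR_rpf (hR : RPf M.b.r)
    (γ : (HC (M.b.bar (bMst M))).V) (hγ : (HC (M.b.bar (bMst M))).D γ = 0)
    (w w' : (HC A.diag).V) (hw' : (HC A.diag).D w' = 0)
    (h1 : (HC (EndR (AM M).b.r).diag).Hml ((hcA (iE M)).f w') ((hcA (rhoE M)).f w))
    (h2 : (HC (bEnd M)).Hml ((contrH M).f γ)
      ((hcN A.diag (bEnd M) (lamM M) (lamM_isHom M)).f w)) :
    (HC A.diag).Hml ((evM M).f γ) w' :=
  TR_rel M (contrR_qi (RPf.AM M hR) (AM M).b.r (AM M).r_one) γ hγ w w' hw' h1 h2

end NC
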