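import Pool.Agent.H94.NC.TwoBa
import Pool.Agent.H16.NC.Du

/-!
# Two-B, part b: the multiplication map and further structures
-/

set_option autoImplicit false

open scoped TensorProduct

noncomputable section

namespace NC

variable {k : Type} [Field k] {A S T : DGA k} {M Z : SD k}

/-- `kap` is compatible with structures which commute with the given one -/
theorem kap_comm (bZ : Bi A A Z) (c : Bi S T Z) (h : Comm bZ c) :
    (c.tensL (QQ A)).IsHom c (kap bZ) := by
  constructor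
  · intro s v
    refine tens_ext (f := (kap bZ).f ∘ₗ (c.tensL (QQ A)).l.act s)
      (g := c.l.act s ∘ₗ (kap bZ).f) (fun z q => ?_) v
    refine tens_ext (f := (kap bZ).f ∘ₗ (c.tensL (QQ A)).l.act s ∘ₗ
        TensorProduct.mk k Z.V (A.V ⊗[k] A.V) z)
      (g := c.l.act s ∘ₗ (kap bZ).f ∘ₗ TensorProduct.mk k Z.V (A.V ⊗[k] A.V) z)
      (fun b a => ?_) q
    change (kap bZ).f (c.l.act s z ⊗ₜ (b ⊗ₜ a)) = c.l.act s ((kap bZ).f (z ⊗ₜ (b ⊗ₜ a)))
    have h1 : bZ.r.act (c.l.act s z) b = c.l.act s (bZ.r.act z b) := h.rl s z b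
    have h2 := h.ll (A.P a) s (bZ.r.act z b)
    have h3 := h.ll (a - A.P a) (S.E s) (Z.E (bZ.r.act z b))
    rw [A.PP, sub_self, map_zero, LinearMap.zero_apply, map_zero, add_zero] at h2
    have h4 : A.P (a - A.P a) = 0 := by rw [map_sub, A.PP, sub_self]
    rw [h4, map_zero, LinearMap.zero_apply, map_zero, zero_add, sub_zero, S.EE] at h3
    rw [kap_tmul, kap_tmul, h1, h2, c.l.E_act, h3, map_add]
  · intro v t
    refine tens_ext (f := (kap bZ).f ∘ₗ (c.tensL (QQ A)).r.act.flip t)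
      (g := c.r.act.flip t ∘ₗ (kap bZ).f) (fun z q => ?_) v
    refine tens_ext (f := (kap bZ).f ∘ₗ (c.tensL (QQ A)).r.act.flip t ∘ₗ
        TensorProduct.mk k Z.V (A.V ⊗[k] A.V) z)
      (g := c.r.act.flip t ∘ₗ (kap bZ).f ∘ₗ TensorProduct.mk k Z.V (A.V ⊗[k] A.V) z)
      (fun b a => ?_) q
    have e : (c.tensL (QQ A)).r.act (z ⊗ₜ (b ⊗ₜ a)) t = c.r.act z (T.P t) ⊗ₜ (b ⊗ₜ[k] a) +
      c.r.act z (t - T.P t) ⊗ₜ (A.E b ⊗ₜ[k] A.E a) := by
      have e1 : (c.tensL (QQ A)).r.act (z ⊗ₜ (b ⊗ₜ a)) t =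
        c.r.act z (T.P t) ⊗ₜ (b ⊗ₜ[k] a) +
        c.r.act z (t - T.P t) ⊗ₜ (QQ A).E (b ⊗ₜ a) := rfl
      rw [e1, SD.tens_E A.toSD A.toSD b a]
    change (kap bZ).f ((c.tensL (QQ A)).r.act (z ⊗ₜ (b ⊗ₜ a)) t) =
      c.r.act ((kap bZ).f (z ⊗ₜ (b ⊗ₜ a))) t
    have hE : A.E a - A.P a = -(a - A.P a) := by rw [A.E_apply]; abel
    have hEb : A.E b - A.P b = -(b - A.P b) := by rw [A.E_apply]; abel
    have h1 : bZ.r.act (c.r.act z (T.P t)) b = c.r.act (bZ.r.act z b) (T.P t) := by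
      have h2 := h.rr z b (T.P t)
      rw [T.EP, ← LinearMap.add_apply, ← map_add, ← map_add, add_sub_cancel] at h2
      exact h2
    have h2 : bZ.r.act (c.r.act z (t - T.P t)) (A.E b) =
        c.r.act (bZ.r.act z b) (t - T.P t) := by
      have h3 := h.rr z (A.E b) (t - T.P t)
      rw [T.E_odd, A.PE, hEb] at h3
      simp only [map_neg, LinearMap.neg_apply, neg_neg] at h3
      rw [← LinearMap.add_apply, ← map_add, ← map_add, add_sub_cancel] at h3
      exact h3
    rw [e, map_add, kap_tmul, kap_tmul, kap_tmul, A.PE, hE, h1, h2, c.r.E_act, c.r.E_act,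
      T.EP, T.E_odd, map_add, LinearMap.add_apply, h.lr, h.lr]
    simp only [map_neg, LinearMap.neg_apply, map_sub, LinearMap.sub_apply]
    abel

section hatM

variable (A)

/-- the remaining bimodule structure on `HC(Q)` -/
abbrev bVQ : Bi A A (HC (bOut A)) := (bOut A).hc (bIn A) (out_in A)

variable {A}

/-- the pairing `Z ⊗ HC(Q) → HC(Z)` -/
def hatP (bZ : Bi A A Z) : SD.Hom (Z.tens (HC (bOut A))) (HC bZ) :=
  hnT (bOut A) bZ (kap bZ) (kap_isHom bZ)

theorem hatP_tmul (bZ : Bi A A Z) (z : Z.V) (w : Wd k (QQ A).V A.V) :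
    (hatP bZ).f (z ⊗ₜ w) = hn A (kap bZ) z w := hnT_tmul _ _ _ (kap_isHom bZ) _ _

theorem hat_eq (bZ : Bi A A Z) : hat bZ = (hatP bZ).curry := rfl

theorem hatP_muD (bZ : Bi A A Z) : MuD bZ (bVQ A) (hatP bZ) where
  m1 := fun x r w => by
    refine (hatP_tmul bZ _ _).trans (Eq.trans ?_ (hatP_tmul bZ _ _).symm)
    exact hn_m1 (kap bZ) bZ.r (iL A) (fun y r x => kap_m1 bZ y r x) x r w
  m2 := fun x w t => by
    have h1 := hn_m2 (kap bZ) bZ.l (iR A) (fun y x t => kap_m2 bZ y x t) x t w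
    have e1 := hatP_tmul bZ x (hr A (iR A) w t)
    have e2 := hatP_tmul bZ (bZ.l.act (A.P t) x) w
    have e3 := hatP_tmul bZ (bZ.l.act (t - A.P t) (Z.E x)) (EW (QQ A) A.toSD w)
    exact e1.trans (h1.trans (congrArg₂ (fun a b => a + b) e2.symm e3.symm))

theorem hat_Q1 (A : DGA k) : (bQ1 A).IsHom (E1 (bVQ A)) (hat (bOut A)) := by
  constructor
  · intro s q
    refine LinearMap.ext (fun w => ?_)
    have h := kap_comm (bOut A) (bIn A) (out_in A)
    refine (hat_apply (bOut A) _ w).trans ?_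
    refine Eq.trans ?_ (congrArg (hd A (iL A) s) (hat_apply (bOut A) q w)).symm
    exact hn_hdS (kap (bOut A)) (iL A) (iL A) (fun r y x => h.l r (y ⊗ₜ x)) s q w
  · intro q t
    refine LinearMap.ext (fun w => ?_)
    exact (hatP_muD (bOut A)).m1 q t w

theorem hat_Q2 (A : DGA k) : (bQ2 A).IsHom (E2 (bVQ A)) (hat (bOut A)) := by
  constructor
  · intro s q
    refine LinearMap.ext (fun w => ?_)
    have e1 : (E2 (bVQ A)).l.act s ((hat (bOut A)).f q) w =
      (hat (bOut A)).f q (hr A (iR A) w (A.P s)) -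
        EW (QQ A) A.toSD ((hat (bOut A)).f q (hr A (iR A) w (s - A.P s))) := rfl
    have hA : hn A (kap (bOut A)) q (hr A (iR A) w (A.P s)) =
        hn A (kap (bOut A)) ((oL A).act (A.P s) q) w := by
      rw [hn_m2 (kap (bOut A)) (oL A) (iR A) (fun y x t => kap_m2 (bOut A) y x t), A.PP,
        sub_self, map_zero, LinearMap.zero_apply, map_zero, LinearMap.zero_apply, add_zero]
    have hB : EW (QQ A) A.toSD (hn A (kap (bOut A)) q (hr A (iR A) w (s - A.P s))) =
        - hn A (kap (bOut A)) ((oL A).act (s - A.P s) q) w := by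
      have h1 : A.P (s - A.P s) = 0 := by rw [map_sub, A.PP, sub_self]
      rw [hn_m2 (kap (bOut A)) (oL A) (iR A) (fun y x t => kap_m2 (bOut A) y x t), h1, map_zero,
        LinearMap.zero_apply, map_zero, LinearMap.zero_apply, zero_add, sub_zero, hn_EW, EW_EW,
        (oL A).E_act, (QQ A).EE, A.E_odd, map_neg, LinearMap.neg_apply, map_neg,
        LinearMap.neg_apply]
    rw [e1, hat_apply, hat_apply, hat_apply, hA, hB, sub_neg_eq_add, ← LinearMap.add_apply,
      ← map_add, ← LinearMap.add_apply, ← map_add, add_sub_cancel]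
    rfl
  · intro q t
    refine LinearMap.ext (fun w => ?_)
    have h := kap_comm (bOut A) (bIn A) (out_in A)
    have e1 : (E2 (bVQ A)).r.act ((hat (bOut A)).f q) t w =
      hr A (iR A) ((hat (bOut A)).f q w) (A.P t) +
        hr A (iR A) ((hat (bOut A)).f q (EW (QQ A) A.toSD w)) (t - A.P t) := rfl
    rw [e1, hat_apply, hat_apply, hat_apply]
    exact hn_rY (kap (bOut A)) (iR A) (iR A)
      (fun y x s => RA.tensL_isHom_iff (iR A) (iR A) (kap (bOut A)) h.r y x s) q t w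

end hatM

end NC
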