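import Pool.Agent.H94.NC.TwoBe

/-!
# Two-B, part f: the trace of the identity and the theorem
-/

set_option autoImplicit false

open scoped TensorProduct

noncomputable section

namespace NC

variable {k : Type} [Field k] {A : DGA k} {M V : SD k}

theorem tauV_id (V : SD k) (hV : V.FinH) :
    tauV V hV (SD.Coh.mk (N := SD.hom V V) LinearMap.id (hD_id V)) = SD.chi V := by
  obtain ⟨H⟩ := V.hodge
  have hfd : FiniteDimensional k (LinearMap.range H.pi) := H.finite hV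
  let b := Module.finBasis k (LinearMap.range H.pi)
  let c : Fin (Module.finrank k (LinearMap.range H.pi)) → V.V →ₗ[k] k := fun i =>
    (b.coord i) ∘ₗ H.pi.rangeRestrict
  have hpi : ∀ v, H.pi v = ∑ i, c i v • (b i).1 := fun v => by
    have h1 := b.sum_repr (H.pi.rangeRestrict v)
    have h2 := congrArg Subtype.val h1
    rw [AddSubmonoidClass.coe_finsetSum] at h2
    exact h2.symm
  have hcD : ∀ i v, c i (V.D v) = 0 := fun i v => by
    have h1 : H.pi.rangeRestrict (V.D v) = 0 := Subtype.ext (H.pi_D v)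
    change b.coord i (H.pi.rangeRestrict (V.D v)) = 0
    rw [h1, map_zero]
  have hbD : ∀ i, V.D (b i).1 = 0 := fun i => by
    obtain ⟨v, hv⟩ := (b i).2
    rw [← hv, H.D_pi]
  let u : V.dual.V ⊗[k] V.V := ∑ i, (c i ∘ₗ V.E) ⊗ₜ[k] (b i).1
  have hu : (V.dual.tens V).D u = 0 := by
    rw [map_sum]
    refine Finset.sum_eq_zero (fun i _ => ?_)
    have e1 : (V.dual.tens V).D ((c i ∘ₗ V.E) ⊗ₜ (b i).1) =
      V.dual.D (c i ∘ₗ V.E) ⊗ₜ (b i).1 + V.dual.E (c i ∘ₗ V.E) ⊗ₜ V.D (b i).1 := rfl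
    have e2 : V.dual.D (c i ∘ₗ V.E) = 0 := by
      refine LinearMap.ext (fun x => ?_)
      refine (SD.hD_apply V (SD.unit k) (c i ∘ₗ V.E) x).trans ?_
      change (0 : k) - (SD.unit k).E (c i (V.E (V.E (V.D x)))) = 0
      rw [V.EE, hcD, map_zero, sub_zero]
    rw [e1, e2, hbD, TensorProduct.zero_tmul, TensorProduct.tmul_zero, add_zero]
  have hml : (SD.hom V V).Hml ((dualTens V V).f u) (LinearMap.id : V.V →ₗ[k] V.V) := by
    have e1 : (dualTens V V).f u = H.pi := by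
      refine LinearMap.ext (fun v => ?_)
      rw [map_sum, LinearMap.sum_apply]
      have e3 : ∀ i, (dualTens V V).f ((c i ∘ₗ V.E) ⊗ₜ (b i).1) v =
          c i (V.P v) • (b i).1 - c i (v - V.P v) • V.E (b i).1 := fun i => by
        rw [dualTens_tmul]
        change c i (V.E (V.P v)) • (b i).1 + c i (V.E (v - V.P v)) • V.E (b i).1 = _
        rw [V.EP, V.E_odd, map_neg, neg_smul]
        exact (sub_eq_add_neg _ _).symm
      simp only [e3]
      rw [Finset.sum_sub_distrib, ← hpi]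
      have e4 : ∑ i, c i (v - V.P v) • V.E (b i).1 = V.E (H.pi (v - V.P v)) := by
        rw [hpi, map_sum]
        simp only [map_smul]
      have e5 : V.E (H.pi (v - V.P v)) = -H.pi (v - V.P v) := by
        rw [← H.pi_P.E, V.E_odd, map_neg]
      rw [e4, e5, sub_neg_eq_add, ← map_add, add_sub_cancel]
    rw [e1]
    refine ⟨-H.h, LinearMap.ext (fun x => ?_)⟩
    refine (SD.hD_apply V V (-H.h) x).trans ?_
    have e6 : H.h (V.E (V.D x)) = - V.E (H.h (V.D x)) := H.h_P.E _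
    rw [LinearMap.neg_apply, LinearMap.neg_apply, e6, map_neg, map_neg, map_neg, V.EE,
      LinearMap.sub_apply, LinearMap.id_apply, neg_neg]
    have h7 := H.eq x
    rw [← neg_add', h7, neg_sub]
  refine (tauG_mk (dualTens V V) (dualTens_qi V V hV) (trD V) hu _ hml).trans ?_
  have e7 : (trD V).f u = ∑ i, c i (V.E (b i).1) := by
    rw [map_sum]; rfl
  rw [e7, ← SD.chi_qi H.incl_qi, ← SD.str_id, SD.str_zeroD H.harm_D]
  refine Eq.symm ((LinearMap.trace_eq_matrix_trace k b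
    (H.harm.E ∘ₗ (SD.Hom.id H.harm).f : LinearMap.range H.pi →ₗ[k] LinearMap.range H.pi)).trans
    (Finset.sum_congr rfl (fun i _ => ?_)))
  rw [Matrix.diag_apply, LinearMap.toMatrix_apply]
  change b.coord i (H.harm.E (b i)) = b.coord i (H.pi.rangeRestrict (V.E (b i).1))
  refine congrArg (b.coord i) (Subtype.ext ?_)
  obtain ⟨v, hv⟩ := (b i).2
  change V.E (b i).1 = H.pi (V.E (b i).1)
  rw [← hv, H.pi_P.E, H.pi_pi]

/-! ### the theorem -/

/-- the bimodule maps `M → Q` act on Hochschild complexes -/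
theorem iota_isHom (bM : Bi A A M) :
    (bMv bM).IsHom (Nb (bVQ A) (HC bM)) (HCf bM (bOut A)) := by
  constructor
  · intro s ξ
    refine LinearMap.ext (fun w => ?_)
    refine (HCf_apply bM (bOut A) _ w).trans ?_
    refine Eq.trans ?_ (congrArg (hd A (iL A) s) (HCf_apply bM (bOut A) ξ w)).symm
    exact hn_hdS (evBi bM (bOut A)) (bMv bM).l (iL A) (fun r y x => rfl) s ξ w
  · intro ξ t
    refine LinearMap.ext (fun w => ?_)
    have e1 : (Nb (bVQ A) (HC bM)).r.act ((HCf bM (bOut A)).f ξ) t w =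
      hr A (iR A) ((HCf bM (bOut A)).f ξ w) (A.P t) +
        hr A (iR A) ((HCf bM (bOut A)).f ξ (EW M A.toSD w)) (t - A.P t) := rfl
    rw [e1, HCf_apply, HCf_apply, HCf_apply]
    exact hn_rY (evBi bM (bOut A)) (bMv bM).r (iR A) (fun y x s => rfl) ξ t w

theorem HCf_muE (bM : Bi A A M) (x : M.V) (ξ : (Mv bM).V) :
    (HCf bM bM).f ((muE bM bM).f (x ⊗ₜ ξ)) =
      (muN (hatP bM)).f (x ⊗ₜ (HCf bM (bOut A)).f ξ) := by
  refine LinearMap.ext (fun w => ?_)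
  change _ = (hatP bM).f (x ⊗ₜ (HCf bM (bOut A)).f ξ w)
  refine (HCf_apply bM bM _ w).trans ?_
  refine Eq.trans ?_ (hatP_tmul bM x ((HCf bM (bOut A)).f ξ w)).symm
  rw [HCf_apply]
  exact (hn_hn (kap bM) (evBi bM (bOut A)) (evBi bM bM) x ξ ((muE bM bM).f (x ⊗ₜ ξ))
    (fun y => (muE_apply bM bM x ξ y).symm) w).symm

theorem hat_nuE (bM : Bi A A M) (ξ : (Mv bM).V) (x : M.V) :
    (hat (bOut A)).f ((nuE bM).f (ξ ⊗ₜ x)) =
      (nuN (hatP bM)).f ((HCf bM (bOut A)).f ξ ⊗ₜ x) := by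
  refine LinearMap.ext (fun w => ?_)
  change _ = (HCf bM (bOut A)).f ξ ((hatP bM).f (x ⊗ₜ w))
  rw [hat_apply]
  have e1 : (hatP bM).f (x ⊗ₜ w) = hn A (kap bM) x w := hatP_tmul bM x w
  rw [e1, HCf_apply]
  exact (hn_hn (evBi bM (bOut A)) (kap bM) (kap (bOut A)) ξ x ((nuE bM).f (ξ ⊗ₜ x))
    (fun q => kap_nat bM (bOut A) ξ x q) w).symm

theorem HCf_id (bM : Bi A A M) : (HCf bM bM).f (EndBi bM).one = LinearMap.id := by
  refine LinearMap.ext (fun w => ?_)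
  rw [HCf_apply]
  change hn A (evBi bM bM) (EndBi bM).one w = w
  induction w using Wd.induction with
  | hadd a b ha hb => rw [map_add, ha, hb]
  | hnil x => rw [hn_nil]; rfl
  | hsnoc w hw r => rw [hn_snoc, hw]

/-- **Two-B** -/
theorem twoB (bM : Bi A A M) (hQ : (HC (bOut A)).FinH) (hM : (HC bM).FinH)
    (z : (GG bM (bMv bM)).V) (hz : (GG bM (bMv bM)).D z = 0) (h : (HomBi bM bM).V)
    (hc : (contrE bM bM).f z = (EndBi bM).one + (HomBi bM bM).D h) :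
    SD.chi (HC bM) = tau (bVQ A) hQ (SD.Coh.map (hc2 (Q1_Q2 A) (E1_E2 (bVQ A))
      (hat (bOut A)) (hat_Q1 A) (hat_Q2 A)) (SD.Coh.map (rotE bM) (SD.Coh.mk z hz))) := by
  have hd := hatP_muD bM
  let g := gMap (bX := bM) (bX' := bM) (SD.Hom.id M) (Bi.isHom_id bM) (HCf bM (bOut A))
    (iota_isHom bM)
  have h1 := contrG_gMap (SD.Hom.id M) (Bi.isHom_id bM) (HCf bM (bOut A)) (iota_isHom bM)
    (muD_E bM bM) (muN_D bM (bVQ A) (hatP bM) hd) (HCf bM bM) (fun x ξ => HCf_muE bM x ξ) z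
  have h2 := bG_gMap (SD.Hom.id M) (Bi.isHom_id bM) (HCf bM (bOut A)) (iota_isHom bM)
    (Q1_Q2 A) (E1_E2 (bVQ A)) (nuD_E bM) (nuN_D bM (bVQ A) (hatP bM) hd) (hat (bOut A))
    (hat_Q1 A) (hat_Q2 A) (fun ξ x => hat_nuE bM ξ x) z
  have h3 := pair_tr bM (bVQ A) (hatP bM) hd hM hQ (SD.Coh.map g (SD.Coh.mk z hz))
  rw [SD.Coh.map_mk, SD.Coh.map_mk, SD.Coh.map_mk] at h3
  rw [SD.Coh.map_mk, SD.Coh.map_mk]
  have h4 : SD.Coh.mk (N := HC2 (E1 (bVQ A)) (E2 (bVQ A)) (E1_E2 (bVQ A)))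
      ((bG bM (Nb (bVQ A) (HC bM)) (E1 (bVQ A)) (E2 (bVQ A)) (E1_E2 (bVQ A)) (nuN (hatP bM))
        (nuN_D bM (bVQ A) (hatP bM) hd)).f (g.f z)) (by
          rw [← SD.Hom.D, ← SD.Hom.D, hz, map_zero, map_zero]) =
      SD.Coh.mk ((hc2 (Q1_Q2 A) (E1_E2 (bVQ A)) (hat (bOut A)) (hat_Q1 A) (hat_Q2 A)).f
        ((rotE bM).f z)) (by rw [← SD.Hom.D, ← SD.Hom.D, hz, map_zero, map_zero]) :=
    SD.Coh.mk_congr _ _ h2.symm
  rw [← h4]
  refine Eq.trans ?_ h3
  rw [← tauV_id (HC bM) hM]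
  refine congrArg (tauV (HC bM) hM) ?_
  refine (SD.Coh.mk_eq_mk _ _).2 ?_
  have h5 : (contrG bM (Nb (bVQ A) (HC bM)) (muN (hatP bM)) (muN_D bM (bVQ A) (hatP bM) hd)).f
      (g.f z) = LinearMap.id + (SD.hom (HC bM) (HC bM)).D ((HCf bM bM).f h) := by
    rw [← h1]
    have h6 : (HCf bM bM).f ((contrE bM bM).f z) =
      (HCf bM bM).f (EndBi bM).one + (HCf bM bM).f ((HomBi bM bM).D h) := by
      rw [hc, map_add]
    rw [HCf_id, (HCf bM bM).D] at h6
    exact h6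
  rw [h5]
  exact ⟨-(HCf bM bM).f h, by rw [map_neg]; abel⟩

end NC
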