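import Mathlib
import Pool.Agent.H94.NC.MorA

/-!
# A criterion: the augmentation `Bar(X, C, Y) → E` is a quasi-isomorphism

If `z` is a cycle of `Bar(X, C, Y)` with `aug z = 1 + D h` then `aug` is a quasi-isomorphism: there
is an operator `H` with `D H(b;ζ) + H(D b;ζ) + H(E b;D ζ) = aug(b) ζ - b aug(ζ)`.
-/

set_option autoImplicit false

open scoped TensorProduct

noncomputable section

namespace NC

variable {k : Type} [Field k]

namespace MCtx

variable {C E : DGA k} (M : MCtx C E)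

/-- `x, w ⊗ y ↦ (w, ev(y, x))` -/
def gf0 : M.X.V →ₗ[k] M.BV →ₗ[k] Wd k M.X.V C.V :=
  (TensorProduct.lift (LinearMap.mk₂ k
    (fun (w : Wd k M.X.V C.V) (y : M.Y.V) => Wd.snoc w ∘ₗ TensorProduct.curry M.ev.f y)
    (fun w w' y => by ext; simp) (fun c w y => by ext; simp)
    (fun w y y' => by ext; simp) (fun c w y => by ext; simp))).flip

@[simp] theorem gf0_tmul (x : M.X.V) (w : Wd k M.X.V C.V) (y : M.Y.V) :
    M.gf0 x (w ⊗ₜ y) = Wd.snoc w (M.ev.f (y ⊗ₜ x)) := by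
  simp [gf0]

/-- grafting: the head `x` of `v` is replaced by `(w, ev(y, x))` -/
def gf : Wd k M.X.V C.V →ₗ[k] M.BV →ₗ[k] Wd k M.X.V C.V :=
  Wd.recW M.gf0 0 (LinearMap.mk₂ k
    (fun (φ : M.BV →ₗ[k] Wd k M.X.V C.V) (c : C.V) => Wd.snoc.flip c ∘ₗ φ)
    (fun φ φ' c => by
      refine LinearMap.ext (fun b => ?_)
      simp)
    (fun a φ c => by
      refine LinearMap.ext (fun b => ?_)
      simp)
    (fun φ c c' => by
      refine LinearMap.ext (fun b => ?_)
      simp)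
    (fun a φ c => by
      refine LinearMap.ext (fun b => ?_)
      simp))

@[simp] theorem gf_nil (x : M.X.V) (w : Wd k M.X.V C.V) (y : M.Y.V) :
    M.gf (Wd.nil x) (w ⊗ₜ y) = Wd.snoc w (M.ev.f (y ⊗ₜ x)) := by
  simp [gf]

@[simp] theorem gf_snoc (v : Wd k M.X.V C.V) (c : C.V) (b : M.BV) :
    M.gf (Wd.snoc v c) b = Wd.snoc (M.gf v b) c := by
  simp [gf]

/-- the sign twist -/
def tw : M.BV →ₗ[k] M.BV := TensorProduct.map (EW M.X C.toSD) LinearMap.id

@[simp] theorem tw_tmul (w : Wd k M.X.V C.V) (y : M.Y.V) :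
    M.tw (w ⊗ₜ y) = EW M.X C.toSD w ⊗ₜ y := rfl

/-- parity on the bar complex -/
def eb : M.BV →ₗ[k] M.BV := TensorProduct.map (EW M.X C.toSD) M.Y.E

@[simp] theorem eb_tmul (w : Wd k M.X.V C.V) (y : M.Y.V) :
    M.eb (w ⊗ₜ y) = EW M.X C.toSD w ⊗ₜ M.Y.E y := rfl

theorem eb_eq (b : M.BV) : (Bar M.bX.r M.bY.l).E b = M.eb b := by
  rw [Bar_E]; rfl

theorem gf_EW (v : Wd k M.X.V C.V) (b : M.BV) :
    EW M.X C.toSD (M.gf v (M.tw b)) = - M.gf (EW M.X C.toSD v) (M.tw (M.eb b)) := by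
  induction v using Wd.induction with
  | hadd a c ha hc => simp only [map_add, LinearMap.add_apply, ha, hc]; abel
  | hnil x =>
    refine tens_ext (f := EW M.X C.toSD ∘ₗ M.gf (Wd.nil x) ∘ₗ M.tw)
      (g := - (M.gf (EW M.X C.toSD (Wd.nil x)) ∘ₗ M.tw ∘ₗ M.eb)) (fun w y => ?_) b
    simp only [LinearMap.comp_apply, LinearMap.neg_apply]
    rw [tw_tmul, eb_tmul, tw_tmul, EW_nil, gf_nil, gf_nil, EW_snoc, M.ev_E]
  | hsnoc v hv c =>
    rw [gf_snoc, EW_snoc, EW_snoc, map_neg, LinearMap.neg_apply, gf_snoc, hv]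
    simp

theorem gf_tl (v : Wd k M.X.V C.V) (c : C.V) (b : M.BV) :
    tl C M.bX.r.act (M.gf v b) c = M.gf (tl C M.bX.r.act v c) b := by
  induction v using Wd.induction with
  | hadd a d ha hd => simp only [map_add, LinearMap.add_apply, ha, hd]
  | hnil x =>
    refine tens_ext (f := (tl C M.bX.r.act).flip c ∘ₗ M.gf (Wd.nil x))
      (g := M.gf (tl C M.bX.r.act (Wd.nil x) c)) (fun w y => ?_) b
    simp only [LinearMap.comp_apply, LinearMap.flip_apply]
    rw [tl_nil, gf_nil, gf_nil, tl_snoc, M.ev_r]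
  | hsnoc v _ d => rw [gf_snoc, tl_snoc, tl_snoc, gf_snoc]

/-- the last letter of `w` acts: `w ⊗ y ; x ↦ w ev(y,x)` -/
theorem gf_lam (w : Wd k M.X.V C.V) (y : M.Y.V) (x : M.X.V) :
    tl C M.bX.r.act w (M.ev.f (y ⊗ₜ x)) =
      M.gf (Wd.nil x) (M.tw (lam (X := M.X) M.bY.l (w ⊗ₜ y))) +
        hd C M.bX.l (augX C M.co (w ⊗ₜ y)) (Wd.nil x) := by
  induction w using Wd.induction with
  | hadd a b ha hb =>
    simp only [map_add, LinearMap.add_apply, TensorProduct.add_tmul, ha, hb]; abel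
  | hnil x' =>
    rw [tl_nil, lam_nil, map_zero, map_zero, zero_add, augX_nil, hd_nil, M.cx]
  | hsnoc w _ c =>
    rw [tl_snoc, lam_snoc, tw_tmul, EW_EW, gf_nil, augX_snoc, map_zero, LinearMap.zero_apply,
      add_zero, M.ev_l]

theorem gf_Db (v : Wd k M.X.V C.V) (b : M.BV) :
    Db M.bX.r (M.gf v (M.tw b)) + M.gf v (M.tw (barD M.bX.r M.bY.l b)) +
      M.gf (Db M.bX.r v) (M.tw (M.eb b)) = hd C M.bX.l (augX C M.co b) v := by
  induction v using Wd.induction with
  | hadd a c ha hc =>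
    simp only [map_add, LinearMap.add_apply, ← ha, ← hc]; abel
  | hnil x =>
    refine tens_ext (f := Db M.bX.r ∘ₗ M.gf (Wd.nil x) ∘ₗ M.tw +
        M.gf (Wd.nil x) ∘ₗ M.tw ∘ₗ barD M.bX.r M.bY.l +
        M.gf (Db M.bX.r (Wd.nil x)) ∘ₗ M.tw ∘ₗ M.eb)
      (g := (hd C M.bX.l).flip (Wd.nil x) ∘ₗ augX C M.co) (fun w y => ?_) b
    simp only [LinearMap.comp_apply, LinearMap.flip_apply, LinearMap.add_apply]
    rw [tw_tmul, gf_nil, Db_snoc, EW_EW, gf_lam, eb_tmul, tw_tmul, EW_EW, Db_nil, gf_nil,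
      barD_tmul, map_sub, map_add, tw_tmul, tw_tmul, EW_EW, map_sub, map_add, gf_nil, gf_nil,
      M.ev_D, Db_EW, map_add]
    simp only [map_neg, LinearMap.neg_apply]
    abel
  | hsnoc v hv c =>
    rw [gf_snoc, gf_snoc, Db_snoc, Db_snoc, map_add, map_sub, LinearMap.add_apply,
      LinearMap.sub_apply, gf_snoc, gf_snoc, hd_snoc, ← hv, gf_EW, ← gf_tl]
    simp only [map_add, map_neg, LinearMap.neg_apply, LinearMap.add_apply]
    abel

/-- the operator `H` -/
def gH (b : M.BV) : M.BV →ₗ[k] M.BV :=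
  TensorProduct.map (M.gf.flip (M.tw b)) LinearMap.id

@[simp] theorem gH_tmul (b : M.BV) (v : Wd k M.X.V C.V) (y : M.Y.V) :
    M.gH b (v ⊗ₜ y) = M.gf v (M.tw b) ⊗ₜ y := rfl

theorem gH_lam (w v : Wd k M.X.V C.V) (y y' : M.Y.V) :
    lam (X := M.X) M.bY.l (M.gf v (M.tw (w ⊗ₜ y)) ⊗ₜ y') +
      M.gH (M.eb (w ⊗ₜ y)) (lam (X := M.X) M.bY.l (v ⊗ₜ y')) =
        w ⊗ₜ M.bY.r.act y (augX C M.co (v ⊗ₜ y')) := by
  induction v using Wd.induction with
  | hadd a c ha hc =>
    simp only [map_add, LinearMap.add_apply, TensorProduct.add_tmul, TensorProduct.tmul_add,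
      ← ha, ← hc]
    abel
  | hnil x =>
    rw [tw_tmul, gf_nil, lam_snoc, EW_EW, lam_nil, map_zero, add_zero, augX_nil, M.yc]
  | hsnoc v _ c =>
    rw [gf_snoc, lam_snoc, lam_snoc, gH_tmul, augX_snoc, map_zero, TensorProduct.tmul_zero,
      gf_EW, TensorProduct.neg_tmul]
    abel

theorem gH_D (b ζ : M.BV) :
    barD M.bX.r M.bY.l (M.gH b ζ) + M.gH (barD M.bX.r M.bY.l b) ζ +
      M.gH (M.eb b) (barD M.bX.r M.bY.l ζ) =
        M.bb.l.act (augX C M.co b) ζ - M.bb.r.act b (augX C M.co ζ) := by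
  -- reduce to pure tensors
  have key : ∀ (w : Wd k M.X.V C.V) (y : M.Y.V) (v : Wd k M.X.V C.V) (y' : M.Y.V),
      barD M.bX.r M.bY.l (M.gH (w ⊗ₜ y) (v ⊗ₜ y')) +
        M.gH (barD M.bX.r M.bY.l (w ⊗ₜ y)) (v ⊗ₜ y') +
        M.gH (M.eb (w ⊗ₜ y)) (barD M.bX.r M.bY.l (v ⊗ₜ y')) =
      hd C M.bX.l (augX C M.co (w ⊗ₜ y)) v ⊗ₜ y' -
        w ⊗ₜ M.bY.r.act y (augX C M.co (v ⊗ₜ y')) := by
    intro w y v y'
    have h1 := M.gf_Db v (w ⊗ₜ y)
    have h2 := M.gH_lam w v y y'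
    rw [gH_tmul, gH_tmul, barD_tmul _ _ (M.gf v (M.tw (w ⊗ₜ y))), barD_tmul _ _ v, map_sub,
      map_add, gH_tmul, gH_tmul, gf_EW, ← h1, ← h2]
    simp only [TensorProduct.add_tmul, TensorProduct.neg_tmul]
    abel
  induction ζ using TensorProduct.induction_on with
  | zero => simp
  | tmul v y' =>
    induction b using TensorProduct.induction_on with
    | zero =>
      have h0 : M.gH 0 = 0 := by
        refine TensorProduct.ext' (fun v y => ?_)
        rw [gH_tmul, map_zero, map_zero, TensorProduct.zero_tmul]; rfl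
      rw [map_zero, map_zero, map_zero, h0, map_zero, map_zero]
      simp
    | tmul w y => exact key w y v y'
    | add a c ha hc =>
      have h0 : ∀ a c : M.BV, M.gH (a + c) = M.gH a + M.gH c := by
        intro a c
        refine TensorProduct.ext' (fun v y => ?_)
        rw [gH_tmul, map_add, map_add, TensorProduct.add_tmul]; rfl
      rw [map_add (barD M.bX.r M.bY.l) a c, map_add M.eb, map_add (augX C M.co), h0, h0, h0,
        map_add, map_add, LinearMap.add_apply, LinearMap.add_apply, LinearMap.add_apply,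
        LinearMap.add_apply, LinearMap.add_apply, map_add]
      have e : M.bb.l.act (augX C M.co a) (v ⊗ₜ y') + M.bb.l.act (augX C M.co c) (v ⊗ₜ y') -
          (M.bb.r.act a (augX C M.co (v ⊗ₜ y')) + M.bb.r.act c (augX C M.co (v ⊗ₜ y'))) =
          (M.bb.l.act (augX C M.co a) (v ⊗ₜ y') - M.bb.r.act a (augX C M.co (v ⊗ₜ y'))) +
          (M.bb.l.act (augX C M.co c) (v ⊗ₜ y') - M.bb.r.act c (augX C M.co (v ⊗ₜ y'))) := by
        abel
      refine Eq.trans ?_ e.symm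
      rw [← ha, ← hc]
      abel
  | add a c ha hc =>
    simp only [map_add]
    have e : M.bb.l.act (augX C M.co b) a + M.bb.l.act (augX C M.co b) c -
          (M.bb.r.act b (augX C M.co a) + M.bb.r.act b (augX C M.co c)) =
          (M.bb.l.act (augX C M.co b) a - M.bb.r.act b (augX C M.co a)) +
          (M.bb.l.act (augX C M.co b) c - M.bb.r.act b (augX C M.co c)) := by
        abel
    refine Eq.trans ?_ e.symm
    rw [← ha, ← hc]
    abel

/-- **Criterion.** -/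
theorem aug_QI (hY : ∀ y, M.bY.r.act y 1 = y) (z : M.BV) (hz : barD M.bX.r M.bY.l z = 0) (h : E.V)
    (hz1 : augX C M.co z = 1 + E.D h) : M.aug.QI := by
  have hl : ∀ (e : E.V) (v : M.BV), augX C M.co (M.bb.l.act e v) = e * augX C M.co v :=
    fun e v => M.aug_isHom.l e v
  have hD : ∀ b : M.BV, barD M.bX.r M.bY.l b = (Bar M.bX.r M.bY.l).D b := fun _ => rfl
  constructor
  · intro b u hb hu
    have hb' : barD M.bX.r M.bY.l b = 0 := hb
    have hu' : augX C M.co b = E.D u := hu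
    have h1 := M.gH_D b z
    have h0 : M.gH 0 = 0 := by
      refine TensorProduct.ext' (fun v y => ?_)
      rw [gH_tmul, map_zero, map_zero, TensorProduct.zero_tmul]; rfl
    rw [hb', hz, h0, map_zero, LinearMap.zero_apply, add_zero, add_zero, hu', hz1] at h1
    have h2 : barD M.bX.r M.bY.l (M.bb.l.act u z) = M.bb.l.act (E.D u) z := by
      have h3 := M.bb.l.D_act u z
      rw [← hD, ← hD, hz, map_zero, add_zero] at h3
      exact h3
    have h4 : barD M.bX.r M.bY.l (M.bb.r.act (M.eb b) h) = M.bb.r.act b (E.D h) := by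
      have h3 := M.bb.r.D_act (M.eb b) h
      rw [← eb_eq, (Bar M.bX.r M.bY.l).DE, hb, map_zero, neg_zero, map_zero,
        LinearMap.zero_apply, zero_add, (Bar M.bX.r M.bY.l).EE] at h3
      rw [← eb_eq]
      exact h3
    have h5 : M.bb.r.act b 1 = b := by
      refine tens_ext (f := M.bb.r.act.flip 1) (g := LinearMap.id) (fun w y => ?_) b
      change w ⊗ₜ M.bY.r.act y 1 = w ⊗ₜ y
      rw [hY]
    refine ⟨M.bb.l.act u z - M.gH b z - M.bb.r.act (M.eb b) h, ?_⟩
    rw [← hD, map_sub, map_sub, h1, h2, h4, map_add, h5]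
    abel
  · intro y hy
    refine ⟨M.bb.l.act y z, - (E.E y * h), ?_, ?_⟩
    · have h3 := M.bb.l.D_act y z
      rw [← hD, ← hD, hz, map_zero, add_zero, hy, map_zero, LinearMap.zero_apply] at h3
      exact h3
    · change y = augX C M.co (M.bb.l.act y z) + E.D (-(E.E y * h))
      rw [hl, hz1, map_neg, E.D_mul', E.DE, hy, E.EE, map_zero, neg_zero, zero_mul, zero_add,
        mul_add, mul_one]
      abel

end MCtx

end NC
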