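import Mathlib
import Pool.Agent.H94.NC.MorB
import Pool.Agent.H16.NC.Hom

/-!
# Corners

`MCtx.ofCorner` : the Morita context of an idempotent `e = i 1` for `i : C → E` injective with
image `e E e`.  `MCtx.exists_cycle` : the cycle of `Bar(X, C, Y)` from finite triangular data.
-/

set_option autoImplicit false

open scoped TensorProduct

noncomputable section

namespace NC

variable {k : Type} [Field k]

/-! ### the cycle -/

namespace MCtx

variable {C E : DGA k} (M : MCtx C E)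

/-- finite triangular data -/
structure Tri (n : ℕ) where
  m : Fin n → M.X.V
  x : Fin n → M.Y.V
  δ : Fin n → Fin n → C.V
  ε : Fin n → k
  rk : Fin n → ℕ
  εε : ∀ j, ε j * ε j = 1
  E_m : ∀ j, M.X.E (m j) = ε j • m j
  E_δ : ∀ i j, C.E (δ i j) = - ((ε i * ε j) • δ i j)
  tri : ∀ i j, rk j ≤ rk i → δ i j = 0
  D_m : ∀ j, M.X.D (m j) = ∑ i, M.bX.r.act (m i) (δ i j)
  D_x : ∀ i, M.Y.D (x i) = - (ε i • ∑ j, M.bY.l.act (δ i j) (x j))
  D_δ : ∀ l j, ∑ i, δ l i * δ i j + ε l • C.D (δ l j) = 0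

namespace Tri

variable {M} {n : ℕ} (T : M.Tri n)

theorem exists_words : ∃ w : Fin n → Wd k M.X.V C.V, ∀ j,
    w j = Wd.nil (T.m j) - ∑ i, Wd.snoc (EW M.X C.toSD (w i)) (T.δ i j) := by
  have key : ∀ R : ℕ, ∃ w : Fin n → Wd k M.X.V C.V, ∀ j, T.rk j < R →
      w j = Wd.nil (T.m j) - ∑ i, Wd.snoc (EW M.X C.toSD (w i)) (T.δ i j) := by
    intro R
    induction R with
    | zero => exact ⟨fun _ => 0, fun j hj => absurd hj (Nat.not_lt_zero _)⟩
    | succ R ih =>
      obtain ⟨w, hw⟩ := ih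
      let w' : Fin n → Wd k M.X.V C.V := fun j => if T.rk j < R then w j else
        Wd.nil (T.m j) - ∑ i, Wd.snoc (EW M.X C.toSD (w i)) (T.δ i j)
      have hs : ∀ j, T.rk j < R + 1 → ∑ i, Wd.snoc (EW M.X C.toSD (w' i)) (T.δ i j) =
          ∑ i, Wd.snoc (EW M.X C.toSD (w i)) (T.δ i j) := by
        intro j hj
        refine Finset.sum_congr rfl (fun i _ => ?_)
        by_cases h : T.rk i < R
        · simp only [w', if_pos h]
        · rw [T.tri i j (by omega), map_zero, map_zero]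
      refine ⟨w', fun j hj => ?_⟩
      rw [hs j hj]
      by_cases h : T.rk j < R
      · simp only [w', if_pos h]
        exact hw j h
      · simp only [w', if_neg h]
  obtain ⟨w, hw⟩ := key (∑ j, T.rk j + 1)
  refine ⟨w, fun j => hw j ?_⟩
  have := Finset.single_le_sum (f := T.rk) (fun i _ => Nat.zero_le _) (Finset.mem_univ j)
  omega

/-- the words -/
def w : Fin n → Wd k M.X.V C.V := T.exists_words.choose

theorem w_eq (j : Fin n) :
    T.w j = Wd.nil (T.m j) - ∑ i, Wd.snoc (EW M.X C.toSD (T.w i)) (T.δ i j) :=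
  T.exists_words.choose_spec j

theorem w_ind {p : Fin n → Prop} (h : ∀ j, (∀ i, T.rk i < T.rk j → p i) → p j) (j : Fin n) :
    p j := by
  have key : ∀ R : ℕ, ∀ j, T.rk j < R → p j := by
    intro R
    induction R with
    | zero => exact fun j hj => absurd hj (Nat.not_lt_zero _)
    | succ R ih => exact fun j hj => h j (fun i hi => ih i (by omega))
  exact key _ j (Nat.lt_succ_self _)

theorem EW_w (j : Fin n) : EW M.X C.toSD (T.w j) = T.ε j • T.w j := by
  refine T.w_ind (p := fun j => EW M.X C.toSD (T.w j) = T.ε j • T.w j) (fun j hj => ?_) j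
  have h1 := T.w_eq j
  rw [h1, map_sub, map_sum, EW_nil, T.E_m, smul_sub, Finset.smul_sum, map_smul]
  congr 1
  refine Finset.sum_congr rfl (fun i _ => ?_)
  rw [EW_snoc, EW_EW, T.E_δ]
  by_cases h : T.rk i < T.rk j
  · rw [hj i h, map_neg, neg_neg, map_smul, map_smul, LinearMap.smul_apply, smul_smul, mul_comm]
  · rw [T.tri i j (by omega)]
    simp

theorem Db_w (j : Fin n) : Db M.bX.r (T.w j) = 0 := by
  refine T.w_ind (p := fun j => Db M.bX.r (T.w j) = 0) (fun j hj => ?_) j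
  have h1 := T.w_eq j
  have h2 : ∀ i, Db M.bX.r (Wd.snoc (EW M.X C.toSD (T.w i)) (T.δ i j)) =
      - Wd.snoc (T.w i) (C.D (T.δ i j)) + (Wd.nil (M.bX.r.act (T.m i) (T.δ i j)) -
        ∑ l, Wd.snoc (T.ε l • T.w l) (T.δ l i * T.δ i j)) := by
    intro i
    rw [Db_snoc, EW_EW, Db_EW]
    have h3 : tl C M.bX.r.act (T.w i) (T.δ i j) = Wd.nil (M.bX.r.act (T.m i) (T.δ i j)) -
        ∑ l, Wd.snoc (T.ε l • T.w l) (T.δ l i * T.δ i j) := by
      rw [T.w_eq i, map_sub, LinearMap.sub_apply, tl_nil, map_sum, LinearMap.sum_apply]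
      congr 1
      refine Finset.sum_congr rfl (fun l _ => ?_)
      rw [tl_snoc, T.EW_w]
    rw [h3]
    by_cases h : T.rk i < T.rk j
    · rw [hj i h]; simp
    · rw [T.tri i j (by omega)]; simp
  rw [h1, map_sub, Db_nil, map_sum, Finset.sum_congr rfl (fun i _ => h2 i), T.D_m,
    Finset.sum_add_distrib, Finset.sum_sub_distrib, ← map_sum, Finset.sum_neg_distrib,
    Finset.sum_comm]
  have h4 : ∑ l, ∑ i, Wd.snoc (T.ε l • T.w l) (T.δ l i * T.δ i j) =
      - ∑ l, Wd.snoc (T.w l) (C.D (T.δ l j)) := by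
    rw [← Finset.sum_neg_distrib]
    refine Finset.sum_congr rfl (fun l _ => ?_)
    rw [← map_sum]
    have h5 := T.D_δ l j
    have h6 : ∑ i, T.δ l i * T.δ i j = - (T.ε l • C.D (T.δ l j)) :=
      eq_neg_of_add_eq_zero_left h5
    rw [h6, map_neg, map_smul, map_smul, LinearMap.smul_apply, smul_smul, T.εε, one_smul]
  rw [h4]
  abel

/-- the cycle -/
def z : M.BV := ∑ j, T.w j ⊗ₜ T.x j

theorem barD_z : barD M.bX.r M.bY.l T.z = 0 := by
  unfold z
  rw [map_sum]
  have h1 : ∀ j, barD M.bX.r M.bY.l (T.w j ⊗ₜ T.x j) =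
      - ∑ l, T.w j ⊗ₜ M.bY.l.act (T.δ j l) (T.x l) +
        ∑ i, T.w i ⊗ₜ M.bY.l.act (T.δ i j) (T.x j) := by
    intro j
    rw [barD_tmul, T.Db_w, TensorProduct.zero_tmul, zero_add, T.EW_w, T.D_x]
    have h2 : lam (X := M.X) M.bY.l (T.w j ⊗ₜ T.x j) =
        - ∑ i, T.w i ⊗ₜ M.bY.l.act (T.δ i j) (T.x j) := by
      conv_lhs => rw [T.w_eq j]
      rw [TensorProduct.sub_tmul, map_sub, lam_nil, zero_sub, TensorProduct.sum_tmul, map_sum]
      congr 1
      refine Finset.sum_congr rfl (fun i _ => ?_)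
      rw [lam_snoc, EW_EW]
    rw [h2, TensorProduct.smul_tmul, smul_neg, smul_smul, T.εε, one_smul, TensorProduct.tmul_neg,
      TensorProduct.tmul_sum]
    abel
  rw [Finset.sum_congr rfl (fun j _ => h1 j), Finset.sum_add_distrib, Finset.sum_neg_distrib,
    Finset.sum_comm, neg_add_cancel]

theorem augX_z : augX C M.co T.z = ∑ j, M.co.f (T.m j ⊗ₜ T.x j) := by
  unfold z
  rw [map_sum]
  refine Finset.sum_congr rfl (fun j _ => ?_)
  rw [T.w_eq j, TensorProduct.sub_tmul, map_sub, augX_nil, TensorProduct.sum_tmul, map_sum,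
    Finset.sum_eq_zero (fun i _ => augX_snoc _ _ _ _), sub_zero]

end Tri

end MCtx

/-! ### corners -/

section corner

variable {C E : DGA k} (i : DGA.NHom C E)

/-- `{x | x e = x}` -/
def subX : Submodule k E.V where
  carrier := {x | x * i.f 1 = x}
  add_mem' := fun {a b} ha hb => by
    change (a + b) * i.f 1 = a + b
    rw [add_mul]
    exact congrArg₂ (· + ·) ha hb
  zero_mem' := zero_mul _
  smul_mem' := fun c a ha => by
    change (c • a) * i.f 1 = c • a
    rw [smul_mul_assoc]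
    exact congrArg (c • ·) ha

/-- `{y | e y = y}` -/
def subY : Submodule k E.V where
  carrier := {x | i.f 1 * x = x}
  add_mem' := fun {a b} ha hb => by
    change i.f 1 * (a + b) = a + b
    rw [mul_add]
    exact congrArg₂ (· + ·) ha hb
  zero_mem' := mul_zero _
  smul_mem' := fun c a ha => by
    change i.f 1 * (c • a) = c • a
    rw [mul_smul_comm]
    exact congrArg (c • ·) ha

theorem mem_subX {x : E.V} : x ∈ subX i ↔ x * i.f 1 = x := Iff.rfl
theorem mem_subY {x : E.V} : x ∈ subY i ↔ i.f 1 * x = x := Iff.rfl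

theorem i1_i1 : i.f 1 * i.f 1 = i.f 1 := by rw [← i.mul, mul_one]
theorem i1_P : E.P (i.f 1) = i.f 1 := by rw [← i.P]; exact congrArg i.f C.P_one
theorem i1_E : E.E (i.f 1) = i.f 1 := by rw [SD.E_apply, i1_P]; abel
theorem i1_D : E.D (i.f 1) = 0 := by rw [← i.D, C.D_one, map_zero]

theorem subX_D : ∀ x ∈ subX i, E.D x ∈ subX i := by
  intro x hx
  rw [mem_subX] at hx ⊢
  conv_rhs => rw [← hx, E.D_mul', i1_D, mul_zero, add_zero]

theorem subX_P : ∀ x ∈ subX i, E.P x ∈ subX i := by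
  intro x hx
  rw [mem_subX] at hx ⊢
  conv_rhs => rw [← hx]
  have h := E.P_mul x (i.f 1)
  rw [i1_P, sub_self, map_zero, add_zero] at h
  exact h.symm

theorem subY_D : ∀ x ∈ subY i, E.D x ∈ subY i := by
  intro x hx
  rw [mem_subY] at hx ⊢
  conv_rhs => rw [← hx, E.D_mul', i1_D, zero_mul, zero_add, i1_E]

theorem subY_P : ∀ x ∈ subY i, E.P x ∈ subY i := by
  intro x hx
  rw [mem_subY] at hx ⊢
  conv_rhs => rw [← hx]
  have h := E.P_mul (i.f 1) x
  rw [i1_P, sub_self, map_zero, LinearMap.zero_apply, add_zero] at h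
  exact h.symm

/-- the differential module `E e` -/
abbrev sdX : SD k := E.toSD.sub (subX i) (subX_D i) (subX_P i)

/-- the differential module `e E` -/
abbrev sdY : SD k := E.toSD.sub (subY i) (subY_D i) (subY_P i)

/-- the bimodule `E e` -/
def biX : Bi E C (sdX i) where
  l := E.diag.l.sub _ _ _ (fun s v hv => by
    change (s * v) * i.f 1 = s * v
    rw [mul_assoc]
    exact congrArg (s * ·) hv)
  r := (E.diag.r.res i).sub _ _ _ (fun c v hv => by
    change (v * i.f c) * i.f 1 = v * i.f c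
    rw [mul_assoc, ← i.mul, mul_one])
  lr := fun a x b => Subtype.ext (mul_assoc a x.1 (i.f b))

/-- the bimodule `e E` -/
def biY : Bi C E (sdY i) where
  l := (E.diag.l.res i).sub _ _ _ (fun c v hv => by
    change i.f 1 * (i.f c * v) = i.f c * v
    rw [← mul_assoc, ← i.mul, one_mul])
  r := E.diag.r.sub _ _ _ (fun s v hv => by
    change i.f 1 * (v * s) = v * s
    rw [← mul_assoc]
    exact congrArg (· * s) hv)
  lr := fun a x b => Subtype.ext (mul_assoc (i.f a) x.1 b)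

@[simp] theorem biX_l (e : E.V) (x : subX i) : ((biX i).l.act e x).1 = e * x.1 := rfl
@[simp] theorem biX_r (c : C.V) (x : subX i) : ((biX i).r.act x c).1 = x.1 * i.f c := rfl
@[simp] theorem biY_l (c : C.V) (y : subY i) : ((biY i).l.act c y).1 = i.f c * y.1 := rfl
@[simp] theorem biY_r (e : E.V) (y : subY i) : ((biY i).r.act y e).1 = y.1 * e := rfl

/-- the product `E e ⊗ e E → E` -/
def coC : SD.Hom ((sdX i).tens (sdY i)) E.toSD where
  f := TensorProduct.lift (E.mul.compl₁₂ (subX i).subtype (subY i).subtype)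
  D := fun v => by
    refine tens_ext (f := TensorProduct.lift (E.mul.compl₁₂ (subX i).subtype (subY i).subtype) ∘ₗ
      SD.tD (sdX i) (sdY i)) (g := E.D ∘ₗ TensorProduct.lift
        (E.mul.compl₁₂ (subX i).subtype (subY i).subtype)) (fun x y => ?_) v
    exact (E.D_mul x.1 y.1).symm
  P := fun v => by
    refine tens_ext (f := TensorProduct.lift (E.mul.compl₁₂ (subX i).subtype (subY i).subtype) ∘ₗ
      SD.tP (sdX i) (sdY i)) (g := E.P ∘ₗ TensorProduct.lift
        (E.mul.compl₁₂ (subX i).subtype (subY i).subtype)) (fun x y => ?_) v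
    exact (E.P_mul x.1 y.1).symm

@[simp] theorem coC_tmul (x : subX i) (y : subY i) : (coC i).f (x ⊗ₜ y) = x.1 * y.1 := rfl

variable (hi : Function.Injective i.f)
  (hc : ∀ f : E.V, i.f 1 * f = f → f * i.f 1 = f → ∃ a, i.f a = f)

/-- the inverse of `i` on the corner -/
def rhoC : E.V →ₗ[k] C.V :=
  (i.f.exists_leftInverse_of_injective (LinearMap.ker_eq_bot.2 hi)).choose

theorem rhoC_i (c : C.V) : rhoC i hi (i.f c) = c :=
  LinearMap.congr_fun
    (i.f.exists_leftInverse_of_injective (LinearMap.ker_eq_bot.2 hi)).choose_spec c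

include hc in
theorem i_rhoC (y : subY i) (x : subX i) : i.f (rhoC i hi (y.1 * x.1)) = y.1 * x.1 := by
  obtain ⟨a, ha⟩ := hc (y.1 * x.1) (by
    rw [← mul_assoc]; exact congrArg (· * x.1) y.2) (by
    rw [mul_assoc]; exact congrArg (y.1 * ·) x.2)
  rw [← ha, rhoC_i]

/-- the product `e E ⊗ E e → e E e = C` -/
def evC : SD.Hom ((sdY i).tens (sdX i)) C.toSD where
  f := rhoC i hi ∘ₗ TensorProduct.lift (E.mul.compl₁₂ (subY i).subtype (subX i).subtype)
  D := fun v => by
    refine tens_ext (f := (rhoC i hi ∘ₗ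
      TensorProduct.lift (E.mul.compl₁₂ (subY i).subtype (subX i).subtype)) ∘ₗ
      SD.tD (sdY i) (sdX i)) (g := C.D ∘ₗ rhoC i hi ∘ₗ TensorProduct.lift
        (E.mul.compl₁₂ (subY i).subtype (subX i).subtype)) (fun y x => ?_) v
    have h1 := i_rhoC i hi hc ⟨E.D y.1, subY_D i _ y.2⟩ x
    have hE : E.E y.1 ∈ subY i := by
      rw [SD.E_apply]
      exact Submodule.sub_mem _ (Submodule.add_mem _ (subY_P i _ y.2) (subY_P i _ y.2)) y.2
    have h2 := i_rhoC i hi hc ⟨E.E y.1, hE⟩ ⟨E.D x.1, subX_D i _ x.2⟩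
    have h3 : rhoC i hi (E.D y.1 * x.1 + E.E y.1 * E.D x.1) = C.D (rhoC i hi (y.1 * x.1)) := by
      apply hi
      rw [map_add, map_add, i.D, i_rhoC i hi hc y x, E.D_mul']
      exact congrArg₂ (· + ·) h1 h2
    exact h3
  P := fun v => by
    refine tens_ext (f := (rhoC i hi ∘ₗ
      TensorProduct.lift (E.mul.compl₁₂ (subY i).subtype (subX i).subtype)) ∘ₗ
      SD.tP (sdY i) (sdX i)) (g := C.P ∘ₗ rhoC i hi ∘ₗ TensorProduct.lift
        (E.mul.compl₁₂ (subY i).subtype (subX i).subtype)) (fun y x => ?_) v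
    have h1 := i_rhoC i hi hc ⟨E.P y.1, subY_P i _ y.2⟩ ⟨E.P x.1, subX_P i _ x.2⟩
    have h2 := i_rhoC i hi hc ⟨y.1 - E.P y.1, Submodule.sub_mem _ y.2 (subY_P i _ y.2)⟩
      ⟨x.1 - E.P x.1, Submodule.sub_mem _ x.2 (subX_P i _ x.2)⟩
    have h4 : E.P (y.1 * x.1) = E.P y.1 * E.P x.1 + (y.1 - E.P y.1) * (x.1 - E.P x.1) :=
      E.P_mul y.1 x.1
    have h3 : rhoC i hi (E.P y.1 * E.P x.1 + (y.1 - E.P y.1) * (x.1 - E.P x.1)) =
        C.P (rhoC i hi (y.1 * x.1)) := by
      apply hi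
      rw [map_add, map_add, i.P, i_rhoC i hi hc y x, h4]
      exact congrArg₂ (· + ·) h1 h2
    exact h3

theorem i_evC (y : subY i) (x : subX i) : i.f ((evC i hi hc).f (y ⊗ₜ x)) = y.1 * x.1 :=
  i_rhoC i hi hc y x

/-- the Morita context of a corner -/
def MCtx.ofCorner : MCtx C E where
  X := sdX i
  Y := sdY i
  bX := biX i
  bY := biY i
  co := coC i
  ev := evC i hi hc
  co_l := fun e x y => mul_assoc e x.1 y.1
  co_r := fun x y e => (mul_assoc x.1 y.1 e).symm
  co_b := fun x c y => mul_assoc x.1 (i.f c) y.1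
  ev_l := fun c y x => hi (by
    refine (i_evC i hi hc _ _).trans ?_
    rw [i.mul, i_evC, biY_l, mul_assoc])
  ev_r := fun y x c => hi (by
    refine (i_evC i hi hc _ _).trans ?_
    rw [i.mul, i_evC, biX_r, mul_assoc])
  ev_b := fun y e x => hi (by
    refine (i_evC i hi hc _ _).trans ?_
    refine Eq.trans ?_ (i_evC i hi hc _ _).symm
    rw [biY_r, biX_l, mul_assoc])
  cx := fun x y x' => Subtype.ext (by
    change (x.1 * y.1) * x'.1 = x.1 * i.f ((evC i hi hc).f (y ⊗ₜ x'))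
    rw [i_evC, mul_assoc])
  yc := fun y x y' => Subtype.ext (by
    change y.1 * (x.1 * y'.1) = i.f ((evC i hi hc).f (y ⊗ₜ x)) * y'.1
    rw [i_evC, mul_assoc])
  X1 := fun x => Subtype.ext x.2
  Y1 := fun y => Subtype.ext y.2
  ξ := ⟨i.f 1, i1_i1 i⟩
  η := ⟨i.f 1, i1_i1 i⟩
  P_ξ := Subtype.ext (i1_P i)
  P_η := Subtype.ext (i1_P i)
  D_ξ := Subtype.ext (i1_D i)
  D_η := Subtype.ext (i1_D i)
  ev1 := hi (by
    refine (i_evC i hi hc _ _).trans ?_
    exact i1_i1 i)

theorem MCtx.ofCorner_i (c : C.V) : (MCtx.ofCorner i hi hc).i.f c = i.f c := by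
  change (i.f 1 * i.f c) * i.f 1 = i.f c
  rw [← i.mul, ← i.mul, one_mul, mul_one]

include hi hc in
/-- **Morita invariance for corners with finite data.** -/
theorem hcA_QI_of_corner {n : ℕ} (m x : Fin n → E.V) (δ : Fin n → Fin n → C.V) (h : E.V)
    (ε : Fin n → k) (rk : Fin n → ℕ)
    (m_e : ∀ j, m j * i.f 1 = m j) (e_x : ∀ j, i.f 1 * x j = x j)
    (εε : ∀ j, ε j * ε j = 1) (E_m : ∀ j, E.E (m j) = ε j • m j)
    (E_δ : ∀ i j, C.E (δ i j) = - ((ε i * ε j) • δ i j))
    (tri : ∀ i j, rk j ≤ rk i → δ i j = 0)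
    (D_m : ∀ j, E.D (m j) = ∑ l, m l * i.f (δ l j))
    (D_x : ∀ l, E.D (x l) = - (ε l • ∑ j, i.f (δ l j) * x j))
    (D_δ : ∀ l j, ∑ i, δ l i * δ i j + ε l • C.D (δ l j) = 0)
    (sum : i.f 1 + ∑ j, m j * x j = 1 + E.D h) : (hcA i).QI := by
  let M := MCtx.ofCorner i hi hc
  let T : M.Tri n :=
    { m := fun j => ⟨m j, m_e j⟩
      x := fun j => ⟨x j, e_x j⟩
      δ := δ
      ε := ε
      rk := rk
      εε := εε
      E_m := fun j => Subtype.ext (E_m j)
      E_δ := E_δ
      tri := tri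
      D_m := fun j => by
        refine Subtype.ext ?_
        refine (D_m j).trans ?_
        exact (AddSubmonoidClass.coe_finsetSum
          (fun l => (biX i).r.act ⟨m l, m_e l⟩ (δ l j)) Finset.univ).symm
      D_x := fun l => by
        refine Subtype.ext ?_
        refine (D_x l).trans ?_
        have h1 := AddSubmonoidClass.coe_finsetSum
          (fun j => (biY i).l.act (δ l j) ⟨x j, e_x j⟩) Finset.univ
        exact congrArg (fun t => -(ε l • t)) h1.symm
      D_δ := D_δ }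
  have h0 : (M.i.f : C.V → E.V) = i.f := by
    funext c
    exact MCtx.ofCorner_i i hi hc c
  have h1 : M.aug.QI := by
    refine M.aug_QI (fun y => Subtype.ext (mul_one y.1))
      (Wd.nil M.ξ ⊗ₜ M.η + T.z) ?_ h ?_
    · rw [map_add, T.barD_z, barD_nil, M.D_ξ, M.D_η]
      simp
    · rw [map_add, augX_nil, T.augX_z, ← sum]
      have h2 : M.co.f (M.ξ ⊗ₜ M.η) = i.f 1 := i1_i1 i
      rw [h2]
      rfl
  have h2 := M.QI h1
  refine ⟨fun a b ha hb => h2.inj a b ha ?_, fun b hb => ?_⟩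
  · have e : M.i.f = i.f := LinearMap.ext (fun c => MCtx.ofCorner_i i hi hc c)
    rw [hcA_f, e]
    exact hb
  · obtain ⟨u, v, h3, h4⟩ := h2.surj b hb
    refine ⟨u, v, h3, ?_⟩
    have e : M.i.f = i.f := LinearMap.ext (fun c => MCtx.ofCorner_i i hi hc c)
    rw [hcA_f, e] at h4
    exact h4

end corner

end NC
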