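import Mathlib
import Pool.Agent.H16.NC.HC
import Pool.Agent.H94.NC.GCyc
import Pool.Agent.H94.NC.GrTot

/-!
# Comparison of the cyclic module with the Hochschild complex `HC`
-/

set_option autoImplicit false

open scoped TensorProduct

noncomputable section

namespace NC

variable {k : Type} [Field k]

namespace Wd

theorem wP_eq_PW (N R : SD k) (w : Wd k N.V R.V) : wP N R w = PW N R w := by
  induction w using Wd.induction with
  | hadd a b ha hb => simp only [map_add, ha, hb]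
  | hnil a => simp
  | hsnoc w ih r =>
    rw [wP_snoc, PW_snoc, ih, SD.E_apply]
    simp only [map_add, map_sub]
    abel

theorem wS_eq_EW (N R : SD k) (w : Wd k N.V R.V) : wS N R w = - EW N R w := by
  rw [wS_apply, wP_eq_PW, EW_apply]
  abel

theorem tlA_eq_tl (A : DGA k) (w : Wd k A.V A.V) (r : A.V) :
    tlA A w r = NC.tl A A.diag.r.act w r := by
  induction w using Wd.induction with
  | hadd a b ha hb => simp only [map_add, LinearMap.add_apply, ha, hb]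
  | hnil a =>
    rw [Wd.tl_nil, NC.tl_nil]
    rfl
  | hsnoc w _ s =>
    rw [Wd.tl_snoc, NC.tl_snoc]
    rfl

theorem hd_eq_hd (A : DGA k) (r : A.V) (w : Wd k A.V A.V) :
    Wd.hd A r w = NC.hd A A.diag.l r w := by
  induction w using Wd.induction with
  | hadd a b ha hb => simp only [map_add, ha, hb]
  | hnil a =>
    rw [Wd.hd_nil, NC.hd_nil]
    rfl
  | hsnoc w ih s => rw [Wd.hd_snoc, NC.hd_snoc, ih]

theorem bp_eq_Db (A : DGA k) (w : Wd k A.V A.V) : bp A w = Db A.diag.r w := by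
  induction w using Wd.induction with
  | hadd a b ha hb => simp only [map_add, ha, hb]
  | hnil a => simp
  | hsnoc w ih r =>
    rw [bp_snoc, Db_snoc, ih, wS_eq_EW, tlA_eq_tl]
    simp only [map_neg, LinearMap.neg_apply]
    abel

theorem cc_eq_om (A : DGA k) (w : Wd k A.V A.V) : cc A w = - om A.diag.l w := by
  induction w using Wd.induction with
  | hadd a b ha hb => simp only [map_add, ha, hb]; abel
  | hnil a => simp
  | hsnoc w ih r =>
    rw [cc_snoc, om_snoc, wS_eq_EW, hd_eq_hd, hd_eq_hd]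
    simp only [map_neg]
    abel

theorem bb_eq_hcD (A : DGA k) (w : Wd k A.V A.V) : bb A w = hcD A.diag w := by
  rw [bb_apply, hcD_apply, bp_eq_Db, cc_eq_om]
  abel

end Wd

open Wd

/-- the Hochschild complex of a dg algebra -/
abbrev DGA.hh (A : DGA k) : SD k := HC A.diag

theorem ZDGA.cyc_b (A : ZDGA k) (w : Wd k A.V A.V) : A.cyc.b w = A.toDGA.hh.D w :=
  bb_eq_hcD _ w

/-- the map on Hochschild complexes -/
def ZHom.hh {A B : ZDGA k} (f : ZHom A B) : SD.Hom A.toDGA.hh B.toDGA.hh where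
  f := wm (A := A.toSD) (B := B.toSD) f.f
  D := fun w => by
    rw [← bb_eq_hcD]
    change _ = hcD B.toDGA.diag _
    rw [← bb_eq_hcD]
    exact wm_bb f.mul f.P f.D w
  P := fun w => by
    change wm f.f (PW _ _ w) = PW _ _ (wm f.f w)
    rw [← wP_eq_PW, ← wP_eq_PW]
    exact wm_P f.P w

@[simp] theorem ZHom.hh_nil {A B : ZDGA k} (f : ZHom A B) (a : A.V) :
    f.hh.f (nil a : Wd k A.V A.V) = (nil (f.f a) : Wd k B.V B.V) := wm_nil _ _

@[simp] theorem ZHom.hh_snoc {A B : ZDGA k} (f : ZHom A B) (w : Wd k A.V A.V) (a : A.V) :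
    f.hh.f (snoc w a : Wd k A.V A.V) = (snoc (f.hh.f w) (f.f a) : Wd k B.V B.V) := wm_snoc _ _ _

theorem QI_inj {A B : ZDGA k} (f : ZHom A B) (h : f.hh.QI) (v : A.cyc.V) (w : B.cyc.V)
    (hv : A.cyc.b v = 0) (hw : f.cyc.f v = B.cyc.b w) : ∃ z, A.cyc.b z = v := by
  obtain ⟨z, hz⟩ := h.inj v w ((A.cyc_b v).symm.trans hv) (hw.trans (B.cyc_b w))
  exact ⟨z, (A.cyc_b z).trans hz⟩

theorem QI_surj {A B : ZDGA k} (f : ZHom A B) (h : f.hh.QI) (v : B.cyc.V)
    (hv : B.cyc.b v = 0) :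
    ∃ (x : A.cyc.V) (z : B.cyc.V), A.cyc.b x = 0 ∧ v = f.cyc.f x + B.cyc.b z := by
  obtain ⟨x, z, h1, h2⟩ := h.surj v ((B.cyc_b v).symm.trans hv)
  refine ⟨x, z, (A.cyc_b x).trans h1, ?_⟩
  have h3 := B.cyc_b z
  exact h2.trans (congrArg (fun t => f.hh.f x + t) h3.symm)

/-- quasi-isomorphisms of Hochschild complexes in terms of the total homology -/
theorem HT_bij_of_QI {A B : ZDGA k} (f : ZHom A B) (h : f.hh.QI) :
    Function.Bijective f.cyc.HT := by
  constructor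
  · rw [injective_iff_map_eq_zero]
    intro x hx
    obtain ⟨v, hv, rfl⟩ := A.cyc.tcls_surj x
    obtain ⟨w, hw⟩ := (B.cyc.tcls_eq_zero _ _).1 hx
    exact (A.cyc.tcls_eq_zero _ _).2 (QI_inj f h v w hv hw.symm)
  · intro y
    obtain ⟨v, hv, rfl⟩ := B.cyc.tcls_surj y
    obtain ⟨x, z, hx, hz⟩ := QI_surj f h v hv
    refine ⟨A.cyc.tcls x hx, ?_⟩
    have h0 : B.cyc.b (f.cyc.f x) = 0 := by
      rw [← f.cyc.b, hx, map_zero]
    refine sub_eq_zero.1 ((B.cyc.tcls_eq_zero (f.cyc.f x - v) ?_).2 ⟨-z, ?_⟩)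
    · rw [map_sub, hv, h0, sub_zero]
    · rw [hz, map_neg]
      abel

/-- the converse -/
theorem QI_of_HT_bij {A B : ZDGA k} (f : ZHom A B) (h : Function.Bijective f.cyc.HT) :
    f.hh.QI where
  inj := fun (x : A.cyc.V) (y : B.cyc.V) hx hy => by
    have hx' : A.cyc.b x = 0 := (A.cyc_b x).trans hx
    have h1 : A.cyc.tcls x hx' = 0 := by
      apply h.1
      rw [map_zero]
      exact (B.cyc.tcls_eq_zero _ _).2 ⟨y, (B.cyc_b y).trans hy.symm⟩
    obtain ⟨z, hz⟩ := (A.cyc.tcls_eq_zero _ _).1 h1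
    exact ⟨z, (A.cyc_b z).symm.trans hz⟩
  surj := fun (y : B.cyc.V) hy => by
    have hy' : B.cyc.b y = 0 := (B.cyc_b y).trans hy
    obtain ⟨x, hx⟩ := h.2 (B.cyc.tcls y hy')
    obtain ⟨v, hv, rfl⟩ := A.cyc.tcls_surj x
    have h0 : B.cyc.b (f.cyc.f v) = 0 := by
      rw [← f.cyc.b, hv, map_zero]
    have h2 : B.cyc.tcls (y - f.cyc.f v) (by rw [map_sub, hy', h0, sub_zero]) = 0 :=
      sub_eq_zero.2 hx.symm
    obtain ⟨z, hz⟩ := (B.cyc.tcls_eq_zero _ _).1 h2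
    refine ⟨v, z, (A.cyc_b v).symm.trans hv, ?_⟩
    have h3 : y = f.cyc.f v + B.cyc.b z := by
      rw [hz]
      abel
    have h4 := B.cyc_b z
    exact h3.trans (congrArg (fun t => f.hh.f v + t) h4)

/-- the parity automorphism of words -/
def ZDGA.ew (A : ZDGA k) : A.cyc.V →ₗ[k] A.cyc.V := EW A.toSD A.toSD

theorem ew_b (A : ZDGA k) (v : A.cyc.V) : A.cyc.b (A.ew v) = - A.ew (A.cyc.b v) := by
  have h1 : ∀ w : Wd k A.V A.V, bb A.toDGA (EW A.toSD A.toSD w)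
      = - EW A.toSD A.toSD (bb A.toDGA w) := by
    intro w
    rw [bb_eq_hcD, bb_eq_hcD]
    exact A.toDGA.hh.DE w
  exact h1 v

theorem ew_gr (A : ZDGA k) {m : ℤ} (v : A.cyc.V) (hv : v ∈ A.cyc.gr m) :
    A.ew v = CycMod.sn k m • v := by
  have h1 : ∀ w : Wd k A.V A.V, w ∈ wg A m →
      EW A.toSD A.toSD w = CycMod.sn k m • w := by
    intro w hw
    have h2 := (hs_wg hw).S
    rw [wS_eq_EW] at h2
    have h3 : EW A.toSD A.toSD w = - (sg k (decide (Even m)) • w) := by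
      rw [← h2, neg_neg]
    rw [h3]
    unfold CycMod.sn
    by_cases h : Even m <;> simp [h]
  exact h1 v hv

/-- the parity automorphism of the total Hochschild homology -/
def ZDGA.EHT (A : ZDGA k) : A.cyc.HT →ₗ[k] A.cyc.HT :=
  Submodule.mapQ _ _ (A.ew.restrict (fun v hv => by
      have h1 : A.cyc.b v = 0 := hv
      change A.cyc.b (A.ew v) = 0
      rw [ew_b, h1, map_zero, neg_zero])) (by
    rintro ⟨v, hv⟩ ⟨w, hw⟩
    have h1 : A.cyc.b w = v := hw
    refine ⟨- A.ew w, ?_⟩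
    change A.cyc.b (- A.ew w) = A.ew v
    rw [map_neg, ew_b, h1, neg_neg])

theorem ZDGA.EHT_tcls (A : ZDGA k) (v : A.cyc.V) (hv : A.cyc.b v = 0)
    (hv' : A.cyc.b (A.ew v) = 0) : A.EHT (A.cyc.tcls v hv) = A.cyc.tcls (A.ew v) hv' := rfl

theorem ZDGA.EHT_hinc (A : ZDGA k) (m : ℤ) (x : A.cyc.HH m) :
    A.EHT (A.cyc.hinc m x) = CycMod.sn k m • A.cyc.hinc m x := by
  obtain ⟨v, hv, rfl⟩ := A.cyc.hcls_surj x
  have hb : A.cyc.b v = 0 := hv.1
  have h1 := ew_gr A v hv.2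
  have hb2 : A.cyc.b (A.ew v) = 0 := by
    rw [ew_b, hb, map_zero, neg_zero]
  change A.EHT (A.cyc.tcls v hb) = CycMod.sn k m • A.cyc.tcls v hb
  rw [A.EHT_tcls v hb hb2]
  refine sub_eq_zero.1 ((A.cyc.tcls_eq_zero (A.ew v - CycMod.sn k m • v) ?_).2 ⟨0, ?_⟩)
  · rw [h1, sub_self, map_zero]
  · rw [h1, sub_self, map_zero]

end NC
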