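import Mathlib
import Pool.Agent.H94.NC.GDefs
import Pool.Agent.H94.NC.GrTot

/-!
# The dg algebra of graded endomorphisms of a right dg module

`N` is a right dg `A`-module.  `N.EndA` is the dg algebra of the graded `A`-linear endomorphisms:
finite sums of homogeneous maps, differential `f ↦ D f - (-1)^|f| f D`.
For a dg bimodule `M` the algebra `M.EM` is the endomorphism algebra of the right module `A ⊕ M`;
it contains `A` as the corner of `A` (`M.iM`) and `A` acts on the corner of `M` (`M.rhoM`).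

Hints.  `homGr N i` is stable under the obvious operations; `homs N = ⨆ i, homGr N i`, so
statements about elements of `homs N` follow by `Submodule.iSup_induction` from the homogeneous
ones.  For `f ∈ homGr N i` one has `E f E = (-1)^i f` (check on homogeneous elements of `N`).
Independence of the `homGr N i`: if `Σ fᵢ = 0` (finite sum) apply it to `m ∈ gr j` and use that
`gr` is internal.
-/

set_option autoImplicit false

noncomputable section

namespace NC

variable {k : Type} [Field k] {A : ZDGA k}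

open CycMod (mem_int eq_int pj pj_same pj_ne pj_mem)

/-- a criterion for internal direct sums -/
theorem isInternal_of {V W T : Type} [AddCommGroup V] [Module k V] [AddCommGroup W] [Module k W]
    (g : ℤ → Submodule k V) (q : ℤ → T → V →ₗ[k] W)
    (h1 : ∀ i, ∀ v ∈ g i, (∀ t, q i t v = 0) → v = 0)
    (h2 : ∀ i j, j ≠ i → ∀ v ∈ g j, ∀ t, q i t v = 0)
    (h3 : ∀ v, v ∈ iSup g) : DirectSum.IsInternal g := by
  classical
  have key : ∀ (x : DirectSum ℤ (fun i => g i)) (i : ℤ) (t : T),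
      q i t (DirectSum.coeAddMonoidHom (fun i => g i) x) = q i t (x i : V) := by
    intro x i t
    induction x using DirectSum.induction_on with
    | zero => simp
    | of j y =>
      rw [DirectSum.coeAddMonoidHom_of]
      by_cases h : j = i
      · subst h
        rw [DirectSum.of_eq_same]
      · rw [h2 i j h y.1 y.2 t, DirectSum.of_eq_of_ne _ _ _ (Ne.symm h)]
        simp
    | add x y hx hy =>
      rw [map_add, map_add, hx, hy, DirectSum.add_apply, ← map_add]
      rfl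
  constructor
  · rw [injective_iff_map_eq_zero]
    intro x hx
    ext i
    refine h1 i (x i).1 (x i).2 (fun t => ?_)
    rw [← key x i t, hx, map_zero]
  · intro v
    have h4 := h3 v
    rw [← DirectSum.range_coeLinearMap] at h4
    exact h4

/-- the sign is multiplicative on a graded bilinear map -/
theorem E_bil (X Y Z : ZD k) (B : X.V →ₗ[k] Y.V →ₗ[k] Z.V)
    (hB : ∀ i j, ∀ x ∈ X.gr i, ∀ y ∈ Y.gr j, B x y ∈ Z.gr (i + j)) (x : X.V) (y : Y.V) :
    Z.E (B x y) = B (X.E x) (Y.E y) := by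
  have h1 : ∀ (X : ZD k) (i : ℤ) (v : X.V), v ∈ X.gr i → X.E v = if Even i then v else -v := by
    intro X i v hv
    rw [SD.E_apply, X.P_gr i v hv]
    split_ifs <;> simp
  refine eq_int X.internal (Z.E ∘ₗ B.flip y) (B.flip (Y.E y) ∘ₗ X.E) (fun i x hx => ?_) x
  change Z.E (B x y) = B (X.E x) (Y.E y)
  refine eq_int Y.internal (Z.E ∘ₗ B x) (B (X.E x) ∘ₗ Y.E) (fun j y hy => ?_) y
  change Z.E (B x y) = B (X.E x) (Y.E y)
  rw [h1 Z _ _ (hB i j x hx y hy), h1 X i x hx, h1 Y j y hy]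
  by_cases hi : Even i <;> by_cases hj : Even j <;> simp [Int.even_add, hi, hj]

namespace ZD

/-- the grading determines the sign -/
theorem E_gr (X : ZD k) (i : ℤ) (v : X.V) (hv : v ∈ X.gr i) :
    X.E v = if Even i then v else -v := by
  rw [SD.E_apply, X.P_gr i v hv]
  split_ifs <;> simp

end ZD

namespace ZRMod

/-- the homogeneous `A`-linear endomorphisms of degree `i` -/
def homGr (N : ZRMod A) (i : ℤ) : Submodule k (N.V →ₗ[k] N.V) where
  carrier := {f | (∀ m a, f (N.r m a) = N.r (f m) a) ∧ ∀ j, ∀ m ∈ N.gr j, f m ∈ N.gr (i + j)}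
  add_mem' := by
    rintro f g ⟨h1, h2⟩ ⟨h1', h2'⟩
    refine ⟨fun m a => ?_, fun j m hm => ?_⟩
    · simp only [LinearMap.add_apply, h1, h1', map_add]
    · exact Submodule.add_mem _ (h2 j m hm) (h2' j m hm)
  zero_mem' := ⟨fun m a => by simp, fun j m hm => Submodule.zero_mem _⟩
  smul_mem' := by
    rintro c f ⟨h1, h2⟩
    refine ⟨fun m a => ?_, fun j m hm => ?_⟩
    · simp only [LinearMap.smul_apply, h1, map_smul]
    · exact Submodule.smul_mem _ _ (h2 j m hm)

/-- the graded `A`-linear endomorphisms -/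
def homs (N : ZRMod A) : Submodule k (N.V →ₗ[k] N.V) := ⨆ i, N.homGr i

theorem homGr_le (N : ZRMod A) (i : ℤ) : N.homGr i ≤ N.homs := le_iSup N.homGr i

theorem homs_ind (N : ZRMod A) (S : Submodule k (N.V →ₗ[k] N.V)) (h : ∀ i, N.homGr i ≤ S)
    {f : N.V →ₗ[k] N.V} (hf : f ∈ N.homs) : f ∈ S :=
  (iSup_le h : N.homs ≤ S) hf

theorem homGr_comp (N : ZRMod A) {i j : ℤ} {f g : N.V →ₗ[k] N.V} (hf : f ∈ N.homGr i)
    (hg : g ∈ N.homGr j) : f ∘ₗ g ∈ N.homGr (i + j) := by
  refine ⟨fun m a => ?_, fun l m hm => ?_⟩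
  · rw [LinearMap.comp_apply, LinearMap.comp_apply, hg.1, hf.1]
  · rw [add_assoc]
    exact hf.2 _ _ (hg.2 l m hm)

theorem homs_comp (N : ZRMod A) {f g : N.V →ₗ[k] N.V} (hf : f ∈ N.homs) (hg : g ∈ N.homs) :
    f ∘ₗ g ∈ N.homs := by
  refine N.homs_ind (N.homs.comap (LinearMap.lcomp k N.V g)) (fun i f hf => ?_) hf
  change f ∘ₗ g ∈ N.homs
  refine N.homs_ind (N.homs.comap (LinearMap.llcomp k N.V N.V N.V f)) (fun j g hg => ?_) hg
  change f ∘ₗ g ∈ N.homs
  exact N.homGr_le _ (N.homGr_comp hf hg)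

theorem homGr_id (N : ZRMod A) : (LinearMap.id : N.V →ₗ[k] N.V) ∈ N.homGr 0 :=
  ⟨fun m a => rfl, fun j m hm => by rw [zero_add]; exact hm⟩

theorem homs_id (N : ZRMod A) : (LinearMap.id : N.V →ₗ[k] N.V) ∈ N.homs :=
  N.homGr_le 0 N.homGr_id

theorem E_r (N : ZRMod A) (m : N.V) (a : A.V) : N.E (N.r m a) = N.r (N.E m) (A.E a) :=
  E_bil N.toZD A.toZD N.toZD N.r N.r_gr m a

theorem E_gr (N : ZRMod A) {i : ℤ} {m : N.V} (hm : m ∈ N.gr i) : N.E m ∈ N.gr i := by
  rw [N.toZD.E_gr i m hm]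
  split_ifs
  · exact hm
  · exact Submodule.neg_mem _ hm

/-- the even part of an endomorphism -/
def evP (N : ZRMod A) : (N.V →ₗ[k] N.V) →ₗ[k] (N.V →ₗ[k] N.V) where
  toFun f := N.P ∘ₗ f ∘ₗ N.P + (LinearMap.id - N.P) ∘ₗ f ∘ₗ (LinearMap.id - N.P)
  map_add' f g := by ext m; simp; abel
  map_smul' c f := by ext m; simp [smul_sub]

/-- the differential of an endomorphism: `D f - (E f E) D` -/
def evD (N : ZRMod A) : (N.V →ₗ[k] N.V) →ₗ[k] (N.V →ₗ[k] N.V) where
  toFun f := N.D ∘ₗ f - N.E ∘ₗ f ∘ₗ N.E ∘ₗ N.D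
  map_add' f g := by ext m; simp; abel
  map_smul' c f := by ext m; simp [smul_sub]

theorem evP_apply (N : ZRMod A) (f : N.V →ₗ[k] N.V) (m : N.V) :
    N.evP f m = N.P (f (N.P m)) + (f (m - N.P m) - N.P (f (m - N.P m))) := rfl

theorem evD_apply (N : ZRMod A) (f : N.V →ₗ[k] N.V) (m : N.V) :
    N.evD f m = N.D (f m) - N.E (f (N.E (N.D m))) := rfl

theorem evP_gr (N : ZRMod A) {i : ℤ} {f : N.V →ₗ[k] N.V} (hf : f ∈ N.homGr i) :
    N.evP f = if Even i then f else 0 := by
  have h : ∀ m, N.evP f m = (if Even i then f else 0 : N.V →ₗ[k] N.V) m := by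
    refine eq_int N.internal _ _ (fun j m hm => ?_)
    rw [evP_apply, N.P_gr j m hm]
    by_cases hj : Even j
    · rw [if_pos hj, sub_self, map_zero, map_zero, sub_zero, add_zero,
        N.P_gr _ _ (hf.2 j m hm)]
      by_cases hi : Even i
      · rw [if_pos hi, if_pos (hi.add hj)]
      · rw [if_neg hi, if_neg (by rw [Int.even_add]; tauto)]
        rfl
    · rw [if_neg hj, sub_zero, map_zero, map_zero, zero_add, N.P_gr _ _ (hf.2 j m hm)]
      by_cases hi : Even i
      · rw [if_pos hi, if_neg (by rw [Int.even_add]; tauto), sub_zero]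
      · rw [if_neg hi, if_pos (by rw [Int.even_add]; tauto), sub_self]
        rfl
  exact LinearMap.ext h

theorem evD_gr (N : ZRMod A) {i : ℤ} {f : N.V →ₗ[k] N.V} (hf : f ∈ N.homGr i) :
    N.evD f ∈ N.homGr (i + 1) := by
  refine ⟨fun m a => ?_, fun j m hm => ?_⟩
  · rw [evD_apply, evD_apply, hf.1, N.D_r, N.D_r, map_add, N.E_r, N.E_r, map_add, hf.1, hf.1,
      map_add, N.E_r, N.E_r, A.EE, N.EE, A.EE, map_sub, LinearMap.sub_apply]
    abel
  · rw [evD_apply]
    refine Submodule.sub_mem _ ?_ ?_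
    · have h := N.D_gr _ _ (hf.2 j m hm)
      rwa [show i + j + 1 = i + 1 + j by ring] at h
    · have h := N.E_gr (hf.2 _ _ (N.E_gr (N.D_gr j m hm)))
      rwa [show i + (j + 1) = i + 1 + j by ring] at h

theorem evP_mem (N : ZRMod A) {f : N.V →ₗ[k] N.V} (hf : f ∈ N.homs) : N.evP f ∈ N.homs := by
  refine N.homs_ind (N.homs.comap N.evP) (fun i f hf => ?_) hf
  change N.evP f ∈ N.homs
  rw [N.evP_gr hf]
  split_ifs
  · exact N.homGr_le i hf
  · exact Submodule.zero_mem _

theorem evD_mem (N : ZRMod A) {f : N.V →ₗ[k] N.V} (hf : f ∈ N.homs) : N.evD f ∈ N.homs := by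
  refine N.homs_ind (N.homs.comap N.evD) (fun i f hf => ?_) hf
  exact N.homGr_le _ (N.evD_gr hf)

/-- the homogeneous endomorphisms, inside `homs N` -/
def hgr (N : ZRMod A) (i : ℤ) : Submodule k N.homs := (N.homGr i).comap N.homs.subtype

theorem hgr_internal (N : ZRMod A) : DirectSum.IsInternal N.hgr := by
  refine isInternal_of (T := ℤ × N.V) N.hgr (fun i t => pj N.internal (i + t.1) ∘ₗ
    LinearMap.applyₗ (pj N.internal t.1 t.2) ∘ₗ N.homs.subtype) ?_ ?_ ?_
  · intro i f hf h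
    refine Subtype.ext (LinearMap.ext ?_)
    refine eq_int N.internal _ _ (fun j m hm => ?_)
    have h1 : pj N.internal (i + j) (f.1 (pj N.internal j m)) = 0 := h (j, m)
    have h2 : f.1 m ∈ N.gr (i + j) := hf.2 j m hm
    rw [pj_same N.internal hm, pj_same N.internal h2] at h1
    exact h1
  · intro i j hij f hf t
    change pj N.internal (i + t.1) (f.1 (pj N.internal t.1 t.2)) = 0
    exact pj_ne N.internal (hf.2 _ _ (pj_mem N.internal t.1 t.2)) (fun h => hij (by omega))
  · intro f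
    have h : N.homs ≤ (iSup N.hgr).map N.homs.subtype := by
      refine iSup_le (fun i g hg => ?_)
      exact ⟨⟨g, N.homGr_le i hg⟩, Submodule.mem_iSup_of_mem i hg, rfl⟩
    obtain ⟨g, hg, he⟩ := h f.2
    have : g = f := Subtype.ext he
    rw [← this]
    exact hg

/-- composition -/
def hmul (N : ZRMod A) : N.homs →ₗ[k] N.homs →ₗ[k] N.homs :=
  LinearMap.mk₂ k (fun f g => ⟨f.1 ∘ₗ g.1, N.homs_comp f.2 g.2⟩)
    (fun a b c => Subtype.ext (by simp [LinearMap.add_comp]))
    (fun c a b => Subtype.ext (by simp [LinearMap.smul_comp]))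
    (fun a b c => Subtype.ext (by simp [LinearMap.comp_add]))
    (fun a c b => Subtype.ext (by simp [LinearMap.comp_smul]))

theorem evD_evD (N : ZRMod A) (f : N.V →ₗ[k] N.V) : N.evD (N.evD f) = 0 := by
  refine LinearMap.ext (fun m => ?_)
  simp only [evD_apply, map_sub, N.DD, N.DE, N.EE, map_neg, LinearMap.zero_apply,
    map_zero, neg_neg, neg_zero, sub_zero, zero_sub, sub_self, sub_neg_eq_add, zero_add]

theorem evP_evP (N : ZRMod A) (f : N.V →ₗ[k] N.V) : N.evP (N.evP f) = N.evP f := by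
  refine LinearMap.ext (fun m => ?_)
  simp only [evP_apply, map_sub, map_add, N.PP]
  abel

theorem evD_evP (N : ZRMod A) (f : N.V →ₗ[k] N.V) :
    N.evD (N.evP f) = N.evD f - N.evP (N.evD f) := by
  refine LinearMap.ext (fun m => ?_)
  simp only [evD_apply, evP_apply, LinearMap.sub_apply, SD.E_apply, map_sub, map_add, N.DP, N.PP,
    N.DD]
  abel

theorem evP_id (N : ZRMod A) : N.evP LinearMap.id = LinearMap.id := by
  refine LinearMap.ext (fun m => ?_)
  simp only [evP_apply, LinearMap.id_apply, map_sub, N.PP]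
  abel

theorem evP_comp (N : ZRMod A) (f g : N.V →ₗ[k] N.V) :
    N.evP (f ∘ₗ g) = N.evP f ∘ₗ N.evP g + (f - N.evP f) ∘ₗ (g - N.evP g) := by
  refine LinearMap.ext (fun m => ?_)
  simp only [evP_apply, LinearMap.add_apply, LinearMap.comp_apply, LinearMap.sub_apply, map_sub,
    map_add, N.PP]
  abel

theorem evE (N : ZRMod A) (f : N.V →ₗ[k] N.V) :
    N.evP f + N.evP f - f = N.E ∘ₗ f ∘ₗ N.E := by
  refine LinearMap.ext (fun m => ?_)
  simp only [evP_apply, LinearMap.add_apply, LinearMap.comp_apply, LinearMap.sub_apply,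
    SD.E_apply, map_sub, map_add]
  abel

theorem evD_comp (N : ZRMod A) (f g : N.V →ₗ[k] N.V) :
    N.evD (f ∘ₗ g) = N.evD f ∘ₗ g + (N.evP f + N.evP f - f) ∘ₗ N.evD g := by
  rw [N.evE]
  refine LinearMap.ext (fun m => ?_)
  simp only [evD_apply, LinearMap.add_apply, LinearMap.comp_apply, map_sub, N.EE]
  abel

/-- the dg algebra of graded endomorphisms -/
def EndA (N : ZRMod A) : ZDGA k where
  V := N.homs
  D := N.evD.restrict (fun _ hf => N.evD_mem hf)
  P := N.evP.restrict (fun _ hf => N.evP_mem hf)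
  DD := fun f => Subtype.ext (N.evD_evD f.1)
  PP := fun f => Subtype.ext (N.evP_evP f.1)
  DP := fun f => Subtype.ext (N.evD_evP f.1)
  mul := N.hmul
  one := ⟨LinearMap.id, N.homs_id⟩
  one_mul' := fun a => Subtype.ext (by simp [hmul])
  mul_one' := fun a => Subtype.ext (by simp [hmul])
  mul_assoc' := fun a b c => Subtype.ext (by simp [hmul, LinearMap.comp_assoc])
  P_one := Subtype.ext N.evP_id
  P_mul := fun f g => Subtype.ext (N.evP_comp f.1 g.1)
  D_mul := fun f g => Subtype.ext (N.evD_comp f.1 g.1)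
  gr := N.hgr
  internal := N.hgr_internal
  P_gr := fun i f hf => Subtype.ext (by
    have h : N.evP f.1 = if Even i then f.1 else 0 := N.evP_gr hf
    change N.evP f.1 = _
    rw [h]
    split_ifs <;> rfl)
  D_gr := fun i f hf => N.evD_gr hf
  mul_gr := fun i j f hf g hg => N.homGr_comp hf hg
  one_gr := N.homGr_id

theorem EndA_mul (N : ZRMod A) (f g : N.homs) : (N.EndA.mul f g).1 = f.1 ∘ₗ g.1 := rfl

theorem EndA_D (N : ZRMod A) (f : N.homs) : (N.EndA.D f).1 = N.evD f.1 := rfl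

theorem EndA_E (N : ZRMod A) (f : N.homs) : (N.EndA.E f).1 = N.E ∘ₗ f.1 ∘ₗ N.E := N.evE f.1

theorem sum_internal (M N : ZRMod A) :
    DirectSum.IsInternal (fun i => (M.gr i).prod (N.gr i)) := by
  refine isInternal_of (T := Unit) _ (fun i _ => (pj M.internal i).prodMap (pj N.internal i))
    ?_ ?_ ?_
  · rintro i ⟨m, n⟩ ⟨hm, hn⟩ h
    have h1 := h ()
    rw [LinearMap.prodMap_apply, pj_same M.internal hm, pj_same N.internal hn] at h1
    exact h1
  · rintro i j hij ⟨m, n⟩ ⟨hm, hn⟩ _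
    rw [LinearMap.prodMap_apply, pj_ne M.internal hm hij, pj_ne N.internal hn hij]
    rfl
  · rintro ⟨m, n⟩
    have h1 : ((m, n) : M.V × N.V) = LinearMap.inl k M.V N.V m + LinearMap.inr k M.V N.V n := by
      simp
    rw [h1]
    refine Submodule.add_mem _ ?_ ?_
    · refine mem_int M.internal
        ((⨆ i, (M.gr i).prod (N.gr i)).comap (LinearMap.inl k M.V N.V)) (fun i m hm => ?_) m
      exact Submodule.mem_iSup_of_mem i ⟨hm, Submodule.zero_mem _⟩
    · refine mem_int N.internal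
        ((⨆ i, (M.gr i).prod (N.gr i)).comap (LinearMap.inr k M.V N.V)) (fun i m hm => ?_) n
      exact Submodule.mem_iSup_of_mem i ⟨Submodule.zero_mem _, hm⟩

/-- direct sums of right dg modules -/
def sum (M N : ZRMod A) : ZRMod A where
  V := M.V × N.V
  D := M.D.prodMap N.D
  P := M.P.prodMap N.P
  DD := fun v => by simp [M.DD, N.DD]
  PP := fun v => by simp [M.PP, N.PP]
  DP := fun v => by simp [M.DP, N.DP]
  gr := fun i => (M.gr i).prod (N.gr i)
  internal := M.sum_internal N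
  P_gr := fun i v hv => by
    obtain ⟨m, n⟩ := v
    rw [LinearMap.prodMap_apply, M.P_gr i m hv.1, N.P_gr i n hv.2]
    split_ifs <;> rfl
  D_gr := fun i v hv => ⟨M.D_gr i _ hv.1, N.D_gr i _ hv.2⟩
  r := (M.r.compl₁₂ (LinearMap.fst k M.V N.V) LinearMap.id).compr₂ (LinearMap.inl k M.V N.V)
    + (N.r.compl₁₂ (LinearMap.snd k M.V N.V) LinearMap.id).compr₂ (LinearMap.inr k M.V N.V)
  r_one := fun m => by simp [M.r_one, N.r_one]
  r_mul := fun m a b => by simp [M.r_mul, N.r_mul]
  D_r := fun m a => by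
    obtain ⟨m, n⟩ := m
    refine Prod.ext ?_ ?_
    · change M.D (M.r m a + 0) = (M.r (M.D m) a + 0) + (M.r (M.E m) (A.D a) + 0)
      rw [add_zero, add_zero, add_zero, M.D_r]
    · change N.D (0 + N.r n a) = (0 + N.r (N.D n) a) + (0 + N.r (N.E n) (A.D a))
      rw [zero_add, zero_add, zero_add, N.D_r]
  r_gr := fun i j m hm a ha => by
    refine ⟨?_, ?_⟩
    · simpa using M.r_gr i j _ hm.1 a ha
    · simpa using N.r_gr i j _ hm.2 a ha

end ZRMod

namespace ZBim

/-- the endomorphism algebra of the right dg module `A ⊕ M` -/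
def EM (M : ZBim A) : ZDGA k := (A.diag.right.sum M.right).EndA

/-- left multiplication with `a` on the summand `A` of `A ⊕ M` -/
def iMap (M : ZBim A) : A.V →ₗ[k] (A.V × M.V →ₗ[k] A.V × M.V) where
  toFun a := LinearMap.inl k A.V M.V ∘ₗ A.mul a ∘ₗ LinearMap.fst k A.V M.V
  map_add' a b := by ext m <;> simp
  map_smul' c a := by ext m <;> simp

/-- the left action of `a` on the summand `M` of `A ⊕ M` -/
def rhoMap (M : ZBim A) : A.V →ₗ[k] (A.V × M.V →ₗ[k] A.V × M.V) where
  toFun a := LinearMap.inr k A.V M.V ∘ₗ M.l a ∘ₗ LinearMap.snd k A.V M.V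
  map_add' a b := by ext m <;> simp
  map_smul' c a := by ext m <;> simp

theorem iMap_gr (M : ZBim A) (i : ℤ) {a : A.V} (ha : a ∈ A.gr i) :
    M.iMap a ∈ (A.diag.right.sum M.right).homGr i := by
  refine ⟨?_, ?_⟩
  · rintro ⟨m, n⟩ b
    refine Prod.ext ?_ ?_
    · change A.mul a (A.mul m b + 0) = A.mul (A.mul a m) b + 0
      rw [add_zero, add_zero, A.mul_assoc']
    · change (0 : M.V) = 0 + M.r 0 b
      simp
  · rintro j ⟨m, n⟩ ⟨hm, hn⟩
    exact ⟨A.mul_gr i j a ha m hm, Submodule.zero_mem _⟩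

theorem rhoMap_gr (M : ZBim A) (i : ℤ) {a : A.V} (ha : a ∈ A.gr i) :
    M.rhoMap a ∈ (A.diag.right.sum M.right).homGr i := by
  refine ⟨?_, ?_⟩
  · rintro ⟨m, n⟩ b
    refine Prod.ext ?_ ?_
    · change (0 : A.V) = A.mul 0 b + 0
      simp
    · change M.l a (0 + M.r n b) = 0 + M.r (M.l a n) b
      rw [zero_add, zero_add, M.l_r]
  · rintro j ⟨m, n⟩ ⟨hm, hn⟩
    exact ⟨Submodule.zero_mem _, M.l_gr i j a ha n hn⟩

theorem iMap_mem (M : ZBim A) (a : A.V) :
    M.iMap a ∈ (A.diag.right.sum M.right).homs :=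
  mem_int A.internal ((A.diag.right.sum M.right).homs.comap M.iMap)
    (fun i _ ha => ZRMod.homGr_le _ i (M.iMap_gr i ha)) a

theorem rhoMap_mem (M : ZBim A) (a : A.V) :
    M.rhoMap a ∈ (A.diag.right.sum M.right).homs :=
  mem_int A.internal ((A.diag.right.sum M.right).homs.comap M.rhoMap)
    (fun i _ ha => ZRMod.homGr_le _ i (M.rhoMap_gr i ha)) a

theorem E_l (M : ZBim A) (a : A.V) (m : M.V) : M.E (M.l a m) = M.l (A.E a) (M.E m) :=
  E_bil A.toZD M.toZD M.toZD M.l M.l_gr a m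

theorem sum_E (M : ZBim A) (m : A.V) (n : M.V) :
    (A.diag.right.sum M.right).E ((m, n) : A.V × M.V) = ((A.E m, M.E n) : A.V × M.V) := rfl

/-- the inclusion of `A` as the corner of the summand `A` -/
def iM (M : ZBim A) : ZHom A M.EM where
  f := M.iMap.codRestrict _ M.iMap_mem
  mul := fun a b => by
    refine Subtype.ext (LinearMap.ext ?_)
    rintro ⟨m, n⟩
    refine Prod.ext ?_ rfl
    exact A.mul_assoc' a b m
  D := fun a => by
    refine Subtype.ext (LinearMap.ext ?_)
    rintro ⟨m, n⟩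
    refine Prod.ext ?_ ?_
    · change A.mul (A.D a) m = A.D (A.mul a m) - A.E (A.mul a (A.E (A.D m)))
      have h := A.E_mul a (A.E (A.D m))
      rw [DGA.mul_def, DGA.mul_def, A.EE] at h
      rw [h, A.D_mul]
      abel
    · change (0 : M.V) = M.D 0 - M.E 0
      simp
  gr := fun i a ha => M.iMap_gr i ha

/-- the left action of `A` on the summand `M` -/
def rhoM (M : ZBim A) : ZHom A M.EM where
  f := M.rhoMap.codRestrict _ M.rhoMap_mem
  mul := fun a b => by
    refine Subtype.ext (LinearMap.ext ?_)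
    rintro ⟨m, n⟩
    refine Prod.ext rfl ?_
    exact M.l_mul a b n
  D := fun a => by
    refine Subtype.ext (LinearMap.ext ?_)
    rintro ⟨m, n⟩
    refine Prod.ext ?_ ?_
    · change (0 : A.V) = A.D 0 - A.E 0
      simp
    · change M.l (A.D a) n = M.D (M.l a n) - M.E (M.l a (M.E (M.D n)))
      rw [M.E_l, M.EE, M.D_l]
      abel
  gr := fun i a ha => M.rhoMap_gr i ha

end ZBim

end NC
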