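import Mathlib
import Pool.Agent.H94.NC.GEnd

/-!
# Coordinates in a finite semi-free right module
-/

set_option autoImplicit false

noncomputable section

namespace NC

variable {k : Type} [Field k] {A : ZDGA k}

open CycMod (mem_int eq_int pj pj_same pj_ne pj_mem pj_comm)

/-- a finite semi-free right dg module with a chosen basis -/
structure SFData (F : ZRMod A) (n : ℕ) where
  x : Fin n → F.V
  deg : Fin n → ℤ
  rk : Fin n → ℕ
  x_gr : ∀ i, x i ∈ F.gr (deg i)
  bij : Function.Bijective (F.comb x)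
  D_x : ∀ i, F.D (x i) ∈ Submodule.span k {m | ∃ j b, rk j < rk i ∧ m = F.r (x j) b}

namespace SFData

variable {F : ZRMod A} {n : ℕ} (s : SFData F n)

/-- the coordinates -/
def co : F.V ≃ₗ[k] (Fin n →₀ A.V) := (LinearEquiv.ofBijective (F.comb s.x) s.bij).symm

theorem comb_apply (v : Fin n →₀ A.V) : F.comb s.x v = ∑ i, F.r (s.x i) (v i) := by
  unfold ZRMod.comb
  rw [Finsupp.lsum_apply, Finsupp.sum_fintype]
  intro i
  exact map_zero _

theorem sum_co (y : F.V) : ∑ i, F.r (s.x i) (s.co y i) = y := by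
  rw [← s.comb_apply]
  exact (LinearEquiv.ofBijective (F.comb s.x) s.bij).apply_symm_apply y

theorem co_eq (y : F.V) (v : Fin n → A.V) (h : y = ∑ i, F.r (s.x i) (v i)) (i : Fin n) :
    s.co y i = v i := by
  have h1 : y = F.comb s.x (Finsupp.equivFunOnFinite.symm v) := by
    rw [s.comb_apply, h]
    rfl
  have h2 : s.co y = Finsupp.equivFunOnFinite.symm v := by
    rw [h1]
    exact (LinearEquiv.ofBijective (F.comb s.x) s.bij).symm_apply_apply _
  rw [h2]
  rfl

theorem co_r (y : F.V) (a : A.V) (i : Fin n) : s.co (F.r y a) i = A.mul (s.co y i) a := by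
  refine s.co_eq _ (fun i => A.mul (s.co y i) a) ?_ i
  conv_lhs => rw [← s.sum_co y]
  rw [map_sum, LinearMap.sum_apply]
  exact Finset.sum_congr rfl (fun j _ => (F.r_mul _ _ _).symm)

/-- the `i`-th coordinate as a linear map -/
def ci (i : Fin n) : F.V →ₗ[k] A.V := Finsupp.lapply i ∘ₗ s.co.toLinearMap

theorem ci_apply (i : Fin n) (y : F.V) : s.ci i y = s.co y i := rfl

theorem co_gr {d : ℤ} {y : F.V} (hy : y ∈ F.gr d) (i : Fin n) :
    s.co y i ∈ A.gr (d - s.deg i) := by
  have h1 : ∀ j (b : A.V), pj F.internal d (F.r (s.x j) b)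
      = F.r (s.x j) (pj A.internal (d - s.deg j) b) := by
    intro j b
    have h2 := pj_comm A.internal F.internal (F.r (s.x j)) (- s.deg j) (fun m v hv => by
      have h3 := F.r_gr _ _ _ (s.x_gr j) _ hv
      have e : s.deg j + m = m - - s.deg j := by ring
      rwa [e] at h3) (d - s.deg j) b
    have e : d - s.deg j - - s.deg j = d := by ring
    rwa [e] at h2
  have h2 : y = ∑ j, F.r (s.x j) (pj A.internal (d - s.deg j) (s.co y j)) := by
    have h3 := pj_same F.internal hy
    conv_lhs => rw [← h3, ← s.sum_co y]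
    rw [map_sum]
    exact Finset.sum_congr rfl (fun j _ => h1 j _)
  rw [s.co_eq y _ h2 i]
  exact pj_mem A.internal _ _

/-- the matrix of the differential -/
def dl (i j : Fin n) : A.V := s.co (F.D (s.x j)) i

theorem D_x' (j : Fin n) : F.D (s.x j) = ∑ i, F.r (s.x i) (s.dl i j) := (s.sum_co _).symm

theorem dl_gr (i j : Fin n) : s.dl i j ∈ A.gr (s.deg j + 1 - s.deg i) :=
  s.co_gr (F.D_gr _ _ (s.x_gr j)) i

theorem dl_tri (i j : Fin n) (h : s.rk j ≤ s.rk i) : s.dl i j = 0 := by
  have key : Submodule.span k {m | ∃ l b, s.rk l < s.rk j ∧ m = F.r (s.x l) b}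
      ≤ LinearMap.ker (s.ci i) := by
    refine Submodule.span_le.2 ?_
    rintro _ ⟨l, b, hl, rfl⟩
    change s.co _ i = 0
    rw [s.co_eq (F.r (s.x l) b) (fun m => if m = l then b else 0) ?_ i]
    · rw [if_neg]
      rintro rfl
      omega
    · rw [Finset.sum_eq_single l]
      · rw [if_pos rfl]
      · intro m _ hm
        rw [if_neg hm, map_zero]
      · intro hl'
        exact absurd (Finset.mem_univ l) hl'
  exact key (s.D_x j)

theorem E_x (j : Fin n) : F.E (s.x j) = (if Even (s.deg j) then (1 : k) else -1) • s.x j := by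
  rw [F.toZD.E_gr (s.deg j) (s.x j) (s.x_gr j)]
  split_ifs <;> simp

/-- the differential in coordinates -/
theorem co_D (y : F.V) (l : Fin n) : s.co (F.D y) l
    = ∑ i, A.mul (s.dl l i) (s.co y i)
      + (if Even (s.deg l) then (1 : k) else -1) • A.D (s.co y l) := by
  refine s.co_eq _ (fun l => ∑ i, A.mul (s.dl l i) (s.co y i)
    + (if Even (s.deg l) then (1 : k) else -1) • A.D (s.co y l)) ?_ l
  conv_lhs => rw [← s.sum_co y]
  rw [map_sum]
  have h1 : ∀ j, F.D (F.r (s.x j) (s.co y j))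
      = ∑ i, F.r (s.x i) (A.mul (s.dl i j) (s.co y j))
        + F.r (s.x j) ((if Even (s.deg j) then (1 : k) else -1) • A.D (s.co y j)) := by
    intro j
    rw [F.D_r, s.E_x, s.D_x', map_sum, LinearMap.sum_apply, map_smul, LinearMap.smul_apply,
      map_smul]
    congr 1
    exact Finset.sum_congr rfl (fun i _ => (F.r_mul _ _ _).symm)
  rw [Finset.sum_congr rfl (fun j _ => h1 j), Finset.sum_add_distrib, Finset.sum_comm]
  simp only [map_add, map_sum, Finset.sum_add_distrib]

/-- `D ∘ D = 0` for the matrix -/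
theorem dl_D (l j : Fin n) : ∑ i, A.mul (s.dl l i) (s.dl i j)
    + (if Even (s.deg l) then (1 : k) else -1) • A.D (s.dl l j) = 0 := by
  have h1 := s.co_D (F.D (s.x j)) l
  rw [F.DD, map_zero] at h1
  exact h1.symm

end SFData

theorem ZRMod.IsSemiFree.data {F : ZRMod A} {n : ℕ} (h : F.IsSemiFree (Fin n)) :
    Nonempty (SFData F n) := by
  obtain ⟨x, deg, rk, h1, h2, h3⟩ := h
  exact ⟨⟨x, deg, rk, h1, h2, h3⟩⟩

end NC
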