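import Mathlib
import Pool.Agent.H94.NC.GCoord

/-!
# Finite data in the endomorphism algebra of `A ⊕ M`

If the right module `M` is a homotopy retract (`s`, `r`, `h`) of a semi-free module `F` with
finite basis `f_j` then put `m_j = (a ↦ r(f_j) a)`, `ξ_j` = (coordinate `j`) `∘ s`,
`D f_j = Σ_i f_i δ_ij`.  All relations below are computed in `M.EM`.
-/

set_option autoImplicit false

noncomputable section

namespace NC

variable {k : Type} [Field k] {A : ZDGA k}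

open CycMod (mem_int eq_int pj pj_same pj_ne pj_mem pj_comm)

namespace ZBim

/-- the projection on `A` -/
def e0 (M : ZBim A) : M.EM.V := M.iM.f A.one

/-- the projection on `M` -/
def e1 (M : ZBim A) : M.EM.V := M.rhoM.f A.one

/-- evaluation of an endomorphism -/
def ev (M : ZBim A) (x : A.V × M.V) : M.EM.V →ₗ[k] A.V × M.V where
  toFun f := f.1 x
  map_add' _ _ := rfl
  map_smul' _ _ := rfl

theorem EM_ext (M : ZBim A) {f g : M.EM.V}
    (h : ∀ (a : A.V) (m : M.V), M.ev (a, m) f = M.ev (a, m) g) : f = g :=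
  Subtype.ext (LinearMap.ext (fun x => h x.1 x.2))

@[simp] theorem ev_e0 (M : ZBim A) (a : A.V) (m : M.V) : M.ev (a, m) M.e0 = (a, 0) := by
  change ((A.mul A.one a, 0) : A.V × M.V) = _
  rw [A.one_mul']

@[simp] theorem ev_e1 (M : ZBim A) (a : A.V) (m : M.V) : M.ev (a, m) M.e1 = (0, m) := by
  change ((0, M.l A.one m) : A.V × M.V) = _
  rw [M.l_one]

@[simp] theorem ev_iM (M : ZBim A) (b : A.V) (a : A.V) (m : M.V) :
    M.ev (a, m) (M.iM.f b) = (A.mul b a, 0) := rfl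

@[simp] theorem ev_rhoM (M : ZBim A) (b : A.V) (a : A.V) (m : M.V) :
    M.ev (a, m) (M.rhoM.f b) = (0, M.l b m) := rfl

@[simp] theorem ev_one (M : ZBim A) (x : A.V × M.V) : M.ev x M.EM.one = x := rfl

@[simp] theorem ev_mul (M : ZBim A) (f g : M.EM.V) (x : A.V × M.V) :
    M.ev x (M.EM.mul f g) = M.ev (M.ev x g) f := rfl

theorem ev_D (M : ZBim A) (f : M.EM.V) (a : A.V) (m : M.V) :
    M.ev (a, m) (M.EM.D f) = (A.D (M.ev (a, m) f).1
        - A.E (M.ev (A.E (A.D a), M.E (M.D m)) f).1,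
      M.D (M.ev (a, m) f).2 - M.E (M.ev (A.E (A.D a), M.E (M.D m)) f).2) := rfl

theorem ev_r (M : ZBim A) (f : M.EM.V) (a : A.V) (m : M.V) (b : A.V) :
    M.ev (A.mul a b, M.r m b) f = (A.mul (M.ev (a, m) f).1 b, M.r (M.ev (a, m) f).2 b) := by
  have h1 : ∀ g ∈ (A.diag.right.sum M.right).homs, ∀ (x : (A.diag.right.sum M.right).V) (b : A.V),
      g ((A.diag.right.sum M.right).r x b) = (A.diag.right.sum M.right).r (g x) b := by
    intro g hg x b
    let S : Submodule k ((A.diag.right.sum M.right).V →ₗ[k] (A.diag.right.sum M.right).V) :=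
      { carrier := {g | ∀ (x : (A.diag.right.sum M.right).V) (b : A.V),
          g ((A.diag.right.sum M.right).r x b) = (A.diag.right.sum M.right).r (g x) b}
        add_mem' := fun {u v} hu hv x b => by
          rw [LinearMap.add_apply, hu x b, hv x b, LinearMap.add_apply, map_add,
            LinearMap.add_apply]
        zero_mem' := fun x b => by simp
        smul_mem' := fun c u hu x b => by
          rw [LinearMap.smul_apply, hu x b, LinearMap.smul_apply, map_smul,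
            LinearMap.smul_apply] }
    exact (ZRMod.homs_ind _ S (fun i u hu => hu.1) hg) x b
  have h2 := h1 f.1 f.2 ((a, m) : A.V × M.V) b
  have h3 : (A.diag.right.sum M.right).r ((a, m) : A.V × M.V) b
      = ((A.mul a b, M.r m b) : A.V × M.V) := by
    change ((A.mul a b + 0, 0 + M.r m b) : A.V × M.V) = _
    rw [add_zero, zero_add]
  have h4 : ∀ y : A.V × M.V, (A.diag.right.sum M.right).r y b
      = ((A.mul y.1 b, M.r y.2 b) : A.V × M.V) := by
    intro y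
    change ((A.mul y.1 b + 0, 0 + M.r y.2 b) : A.V × M.V) = _
    rw [add_zero, zero_add]
  rw [h3] at h2
  exact h2.trans (h4 _)

theorem e0_add_e1 (M : ZBim A) : M.e0 + M.e1 = M.EM.one := by
  refine M.EM_ext (fun a m => ?_)
  rw [map_add, ev_e0, ev_e1, ev_one]
  simp

/-- finite data -/
structure FinData (M : ZBim A) where
  n : ℕ
  m : Fin n → M.EM.V
  ξ : Fin n → M.EM.V
  δ : Fin n → Fin n → A.V
  h : M.EM.V
  deg : Fin n → ℤ
  rk : Fin n → ℕ
  m_gr : ∀ j, m j ∈ M.EM.gr (deg j)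
  ξ_gr : ∀ j, ξ j ∈ M.EM.gr (- deg j)
  δ_gr : ∀ i j, δ i j ∈ A.gr (deg j + 1 - deg i)
  h_gr : h ∈ M.EM.gr (-1)
  e1_m : ∀ j, M.EM.mul M.e1 (m j) = m j
  m_e0 : ∀ j, M.EM.mul (m j) M.e0 = m j
  e0_ξ : ∀ j, M.EM.mul M.e0 (ξ j) = ξ j
  ξ_e1 : ∀ j, M.EM.mul (ξ j) M.e1 = ξ j
  e1_h : M.EM.mul M.e1 h = h
  h_e1 : M.EM.mul h M.e1 = h
  tri : ∀ i j, rk j ≤ rk i → δ i j = 0
  sum : ∑ j, M.EM.mul (m j) (ξ j) = M.e1 + M.EM.D h
  D_m : ∀ j, M.EM.D (m j) = ∑ i, M.EM.mul (m i) (M.iM.f (δ i j))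
  D_ξ : ∀ i, M.EM.D (ξ i) = (if Even (deg i) then (-1 : k) else 1) •
    ∑ j, M.EM.mul (M.iM.f (δ i j)) (ξ j)
  D_δ : ∀ l j, ∑ i, A.mul (δ l i) (δ i j) + (if Even (deg l) then (1 : k) else -1) •
    A.D (δ l j) = 0

theorem colE_mem (M : ZBim A) {d : ℤ} (x : M.V) (hx : x ∈ M.gr d) :
    LinearMap.inr k A.V M.V ∘ₗ M.r x ∘ₗ LinearMap.fst k A.V M.V
      ∈ (A.diag.right.sum M.right).homGr d := by
  refine ⟨?_, ?_⟩
  · rintro ⟨a, m⟩ b
    refine Prod.ext ?_ ?_
    · change (0 : A.V) = A.mul 0 b + 0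
      simp
    · change M.r x (A.mul a b + 0) = 0 + M.r (M.r x a) b
      rw [add_zero, zero_add]
      exact M.r_mul x a b
  · rintro j ⟨a, m⟩ ⟨ha, hm⟩
    exact ⟨Submodule.zero_mem _, M.r_gr _ _ _ hx _ ha⟩

/-- the column endomorphism `a ↦ x a` -/
def colE (M : ZBim A) {d : ℤ} (x : M.V) (hx : x ∈ M.gr d) : M.EM.V :=
  ⟨_, ZRMod.homGr_le _ d (M.colE_mem x hx)⟩

theorem ev_colE (M : ZBim A) {d : ℤ} (x : M.V) (hx : x ∈ M.gr d) (a : A.V) (m : M.V) :
    M.ev (a, m) (M.colE x hx) = (0, M.r x a) := rfl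

theorem rowE_mem (M : ZBim A) {d : ℤ} (η : M.V →ₗ[k] A.V)
    (hη : ∀ m b, η (M.r m b) = A.mul (η m) b) (hd : ∀ j, ∀ m ∈ M.gr j, η m ∈ A.gr (d + j)) :
    LinearMap.inl k A.V M.V ∘ₗ η ∘ₗ LinearMap.snd k A.V M.V
      ∈ (A.diag.right.sum M.right).homGr d := by
  refine ⟨?_, ?_⟩
  · rintro ⟨a, m⟩ b
    refine Prod.ext ?_ ?_
    · change η (0 + M.r m b) = A.mul (η m) b + 0
      rw [add_zero, zero_add]
      exact hη m b
    · change (0 : M.V) = 0 + M.r 0 b
      simp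
  · rintro j ⟨a, m⟩ ⟨ha, hm⟩
    exact ⟨hd j m hm, Submodule.zero_mem _⟩

/-- the row endomorphism `m ↦ η(m)` -/
def rowE (M : ZBim A) {d : ℤ} (η : M.V →ₗ[k] A.V)
    (hη : ∀ m b, η (M.r m b) = A.mul (η m) b) (hd : ∀ j, ∀ m ∈ M.gr j, η m ∈ A.gr (d + j)) :
    M.EM.V := ⟨_, ZRMod.homGr_le _ d (M.rowE_mem η hη hd)⟩

theorem ev_rowE (M : ZBim A) {d : ℤ} (η : M.V →ₗ[k] A.V)
    (hη : ∀ m b, η (M.r m b) = A.mul (η m) b) (hd : ∀ j, ∀ m ∈ M.gr j, η m ∈ A.gr (d + j))
    (a : A.V) (m : M.V) : M.ev (a, m) (M.rowE η hη hd) = (η m, 0) := rfl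

theorem endE_mem (M : ZBim A) {d : ℤ} (η : M.V →ₗ[k] M.V)
    (hη : ∀ m b, η (M.r m b) = M.r (η m) b) (hd : ∀ j, ∀ m ∈ M.gr j, η m ∈ M.gr (d + j)) :
    LinearMap.inr k A.V M.V ∘ₗ η ∘ₗ LinearMap.snd k A.V M.V
      ∈ (A.diag.right.sum M.right).homGr d := by
  refine ⟨?_, ?_⟩
  · rintro ⟨a, m⟩ b
    refine Prod.ext ?_ ?_
    · change (0 : A.V) = A.mul 0 b + 0
      simp
    · change η (0 + M.r m b) = 0 + M.r (η m) b
      rw [zero_add, zero_add]
      exact hη m b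
  · rintro j ⟨a, m⟩ ⟨ha, hm⟩
    exact ⟨Submodule.zero_mem _, hd j m hm⟩

/-- the endomorphism of the summand `M` -/
def endE (M : ZBim A) {d : ℤ} (η : M.V →ₗ[k] M.V)
    (hη : ∀ m b, η (M.r m b) = M.r (η m) b) (hd : ∀ j, ∀ m ∈ M.gr j, η m ∈ M.gr (d + j)) :
    M.EM.V := ⟨_, ZRMod.homGr_le _ d (M.endE_mem η hη hd)⟩

theorem ev_endE (M : ZBim A) {d : ℤ} (η : M.V →ₗ[k] M.V)
    (hη : ∀ m b, η (M.r m b) = M.r (η m) b) (hd : ∀ j, ∀ m ∈ M.gr j, η m ∈ M.gr (d + j))
    (a : A.V) (m : M.V) : M.ev (a, m) (M.endE η hη hd) = (0, η m) := rfl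

theorem finData (M : ZBim A) (hM : M.IsCorr) : Nonempty M.FinData := by
  obtain ⟨-, F, n, hF, s, r, h, h1, h2, h3⟩ := hM
  obtain ⟨sf⟩ := hF.data
  let sM : M.V →ₗ[k] F.V := s.f
  let rM : F.V →ₗ[k] M.V := r.f
  let hM : M.V →ₗ[k] M.V := h
  have sr : ∀ m b, sM (M.r m b) = F.r (sM m) b := s.r
  have sD : ∀ m, sM (M.D m) = F.D (sM m) := s.D
  have sg : ∀ i, ∀ m ∈ M.gr i, sM m ∈ F.gr i := s.gr
  have rr : ∀ m b, rM (F.r m b) = M.r (rM m) b := r.r
  have rD : ∀ m, rM (F.D m) = M.D (rM m) := r.D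
  have rg : ∀ i, ∀ m ∈ F.gr i, rM m ∈ M.gr i := r.gr
  have hh : ∀ m b, hM (M.r m b) = M.r (hM m) b := h2
  have hg : ∀ j, ∀ m ∈ M.gr j, hM m ∈ M.gr (j - 1) := h1
  have hrs : ∀ m, rM (sM m) = m + M.D (hM m) + hM (M.D m) := h3
  clear_value sM rM hM
  let η : Fin n → (M.V →ₗ[k] A.V) := fun i => sf.ci i ∘ₗ sM
  have hη0 : ∀ i m, η i m = sf.co (sM m) i := fun _ _ => rfl
  have hηr : ∀ i m b, η i (M.r m b) = A.mul (η i m) b := fun i m b => by
    rw [hη0, hη0, sr, sf.co_r]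
  have hηd : ∀ i j, ∀ m ∈ M.gr j, η i m ∈ A.gr (- sf.deg i + j) := fun i j m hm => by
    have h4 := sf.co_gr (sg j m hm) i
    have e : j - sf.deg i = - sf.deg i + j := by ring
    rwa [e] at h4
  have hhd : ∀ j, ∀ m ∈ M.gr j, hM m ∈ M.gr (-1 + j) := fun j m hm => by
    have h4 := hg j m hm
    have e : j - 1 = -1 + j := by ring
    rwa [e] at h4
  have hx : ∀ j, rM (sf.x j) ∈ M.gr (sf.deg j) := fun j => rg _ _ (sf.x_gr j)
  have hhE : ∀ m, M.E (hM (M.E m)) = - hM m := by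
    intro m
    have h5 : hM (M.E m) = - M.E (hM m) := by
      refine eq_int M.internal (hM ∘ₗ M.E) (- (M.E ∘ₗ hM)) (fun i v hv => ?_) m
      change hM (M.E v) = - M.E (hM v)
      rw [M.toZD.E_gr i v hv, M.toZD.E_gr (i - 1) _ (hg i v hv)]
      by_cases hi : Even i
      · have : ¬ Even (i - 1) := by
          rw [Int.even_sub_one]
          simpa using hi
        simp [hi, this]
      · have : Even (i - 1) := by
          rw [Int.even_sub_one]
          exact hi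
        simp [hi, this]
    rw [h5, map_neg, M.EE]
  refine ⟨{
    n := n
    m := fun j => M.colE (rM (sf.x j)) (hx j)
    ξ := fun i => M.rowE (η i) (hηr i) (hηd i)
    δ := sf.dl
    h := M.endE hM hh hhd
    deg := sf.deg
    rk := sf.rk
    m_gr := fun j => M.colE_mem _ (hx j)
    ξ_gr := fun i => M.rowE_mem (η i) (hηr i) (hηd i)
    δ_gr := sf.dl_gr
    h_gr := M.endE_mem hM hh hhd
    e1_m := fun j => M.EM_ext (fun a m => ?_)
    m_e0 := fun j => M.EM_ext (fun a m => ?_)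
    e0_ξ := fun j => M.EM_ext (fun a m => ?_)
    ξ_e1 := fun j => M.EM_ext (fun a m => ?_)
    e1_h := M.EM_ext (fun a m => ?_)
    h_e1 := M.EM_ext (fun a m => ?_)
    tri := sf.dl_tri
    sum := M.EM_ext (fun a m => ?_)
    D_m := fun j => M.EM_ext (fun a m => ?_)
    D_ξ := fun i => M.EM_ext (fun a m => ?_)
    D_δ := sf.dl_D }⟩
  · rw [ev_mul, ev_colE, ev_e1]
  · rw [ev_mul, ev_e0, ev_colE, ev_colE]
  · rw [ev_mul, ev_rowE, ev_e0]
  · rw [ev_mul, ev_e1, ev_rowE, ev_rowE]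
  · rw [ev_mul, ev_endE, ev_e1]
  · rw [ev_mul, ev_e1, ev_endE, ev_endE]
  · rw [map_sum, map_add, ev_D, ev_e1, ev_endE, ev_endE]
    have h4 : ∑ i, M.ev (a, m) (M.EM.mul (M.colE (rM (sf.x i)) (hx i))
        (M.rowE (η i) (hηr i) (hηd i))) = ∑ i, ((0, M.r (rM (sf.x i)) (η i m)) : A.V × M.V) :=
      Finset.sum_congr rfl (fun i _ => by rw [ev_mul, ev_rowE, ev_colE])
    rw [h4]
    have h5 : ∑ i, M.r (rM (sf.x i)) (η i m) = rM (sM m) := by
      have h6 := congrArg rM (sf.sum_co (sM m))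
      rw [map_sum] at h6
      rw [← h6]
      exact Finset.sum_congr rfl (fun i _ => (rr _ _).symm)
    refine Prod.ext ?_ ?_
    · rw [Prod.fst_sum]
      simp
    · rw [Prod.snd_sum]
      change ∑ i, M.r (rM (sf.x i)) (η i m) = m + (M.D (hM m) - M.E (hM (M.E (M.D m))))
      rw [h5, hrs, hhE]
      abel
  · rw [map_sum, ev_D, ev_colE, ev_colE]
    have h4 : ∑ i, M.ev (a, m) (M.EM.mul (M.colE (rM (sf.x i)) (hx i))
        (M.iM.f (sf.dl i j))) = ∑ i, ((0, M.r (rM (sf.x i)) (A.mul (sf.dl i j) a)) : A.V × M.V) :=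
      Finset.sum_congr rfl (fun i _ => by rw [ev_mul, ev_iM, ev_colE])
    rw [h4]
    refine Prod.ext ?_ ?_
    · rw [Prod.fst_sum]
      simp
    · rw [Prod.snd_sum]
      change M.D (M.r (rM (sf.x j)) a) - M.E (M.r (rM (sf.x j)) (A.E (A.D a)))
        = ∑ i, M.r (rM (sf.x i)) (A.mul (sf.dl i j) a)
      rw [M.D_r, ← rD, sf.D_x', map_sum, map_sum, LinearMap.sum_apply]
      have h5 : M.E (M.r (rM (sf.x j)) (A.E (A.D a))) = M.r (M.E (rM (sf.x j))) (A.D a) := by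
        have h6 := M.right.E_r (rM (sf.x j)) (A.E (A.D a))
        rw [A.EE] at h6
        exact h6
      rw [h5, add_sub_cancel_right]
      refine Finset.sum_congr rfl (fun i _ => ?_)
      rw [rr, M.r_mul]
  · rw [map_smul, map_sum, ev_D, ev_rowE, ev_rowE]
    have h4 : ∑ j, M.ev (a, m) (M.EM.mul (M.iM.f (sf.dl i j)) (M.rowE (η j) (hηr j) (hηd j)))
        = ∑ j, ((A.mul (sf.dl i j) (η j m), 0) : A.V × M.V) :=
      Finset.sum_congr rfl (fun j _ => by rw [ev_mul, ev_rowE, ev_iM])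
    rw [h4]
    refine Prod.ext ?_ ?_
    · rw [Prod.smul_fst, Prod.fst_sum]
      change A.D (η i m) - A.E (η i (M.E (M.D m)))
        = (if Even (sf.deg i) then (-1 : k) else 1) • ∑ j, A.mul (sf.dl i j) (η j m)
      have h5 : A.E (η i (M.E (M.D m)))
          = (if Even (sf.deg i) then (1 : k) else -1) • η i (M.D m) := by
        have h6 : ∀ v, A.E (η i (M.E v))
            = (if Even (sf.deg i) then (1 : k) else -1) • η i v := by
          intro v
          refine eq_int M.internal (A.E ∘ₗ η i ∘ₗ M.E)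
            ((if Even (sf.deg i) then (1 : k) else -1) • η i) (fun d v hv => ?_) v
          change A.E (η i (M.E v)) = (if Even (sf.deg i) then (1 : k) else -1) • η i v
          rw [M.toZD.E_gr d v hv]
          have h7 := hηd i d v hv
          have h8 := A.toZD.E_gr _ _ h7
          by_cases hd : Even d <;> by_cases hi : Even (sf.deg i)
          · rw [if_pos hd, if_pos hi, one_smul, h8, if_pos]
            exact (hi.neg).add hd
          · rw [if_pos hd, if_neg hi, h8, if_neg, neg_one_smul]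
            rw [Int.even_add, even_neg]
            tauto
          · rw [if_neg hd, if_pos hi, one_smul, map_neg, map_neg, h8, if_neg, neg_neg]
            rw [Int.even_add, even_neg]
            tauto
          · rw [if_neg hd, if_neg hi, map_neg, map_neg, h8, if_pos, neg_one_smul]
            rw [Int.even_add, even_neg]
            tauto
        exact h6 _
      rw [h5, hη0 i (M.D m), sD, sf.co_D, smul_add, smul_smul]
      have h6 : ∀ j, sf.co (sM m) j = η j m := fun _ => rfl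
      rw [h6]
      simp only [h6]
      by_cases hi : Even (sf.deg i) <;> simp [hi]
    · rw [Prod.smul_snd, Prod.snd_sum]
      simp

/-- the corner of `A` in `M.EM` is `A`: a graded endomorphism of `A ⊕ M` of the form
`e₀ f e₀` is the left multiplication with an element of `A` -/
theorem corner (M : ZBim A) (f : M.EM.V) (h1 : M.EM.mul M.e0 f = f) (h2 : M.EM.mul f M.e0 = f) :
    ∃ a : A.V, M.iM.f a = f := by
  refine ⟨(M.ev (A.one, 0) f).1, M.EM_ext (fun a m => ?_)⟩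
  rw [ev_iM]
  have h3 : M.ev (a, m) f = M.ev (a, 0) f := by
    conv_lhs => rw [← h2]
    rw [ev_mul, ev_e0]
  have h4 : (M.ev (a, 0) f).2 = 0 := by
    conv_lhs => rw [← h1]
    rw [ev_mul]
    have h5 := M.ev_e0 (M.ev (a, 0) f).1 (M.ev (a, 0) f).2
    rw [Prod.mk.eta] at h5
    rw [h5]
  have h5 := M.ev_r f A.one 0 a
  rw [A.one_mul', map_zero, LinearMap.zero_apply] at h5
  rw [h3]
  refine Prod.ext ?_ h4.symm
  rw [h5]

theorem iM_inj (M : ZBim A) : Function.Injective M.iM.f := by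
  rw [injective_iff_map_eq_zero]
  intro a ha
  have h1 : M.ev (A.one, 0) (M.iM.f a) = 0 := by
    rw [ha, map_zero]
  rw [ev_iM, A.mul_one'] at h1
  exact congrArg Prod.fst h1

end ZBim

end NC
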