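import Mathlib
import Pool.Agent.H94.NC.MorC
import Pool.Agent.H94.NC.GFin
import Pool.Agent.H94.NC.Bridge

/-!
# The inclusion `A → End(A ⊕ M)` induces an isomorphism on Hochschild homology
-/

set_option autoImplicit false

open scoped TensorProduct

noncomputable section

namespace NC

variable {k : Type} [Field k] {A : ZDGA k}

/-- the underlying homomorphism of super dg algebras -/
def ZHom.nh {A B : ZDGA k} (f : ZHom A B) : DGA.NHom A.toDGA B.toDGA where
  f := f.f
  D := f.D
  P := f.P
  mul := f.mul

namespace ZBim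

theorem iM_QI (M : ZBim A) (hM : M.IsCorr) : M.iM.hh.QI := by
  obtain ⟨F⟩ := M.finData hM
  have key : (hcA M.iM.nh).QI := by
    refine hcA_QI_of_corner M.iM.nh M.iM_inj ?_ F.m F.ξ F.δ F.h
      (fun j => if Even (F.deg j) then (1 : k) else -1) F.rk ?_ ?_ ?_ ?_ ?_ F.tri F.D_m ?_ F.D_δ ?_
    · intro f h1 h2
      exact M.corner f h1 h2
    · exact F.m_e0
    · exact F.e0_ξ
    · intro j
      split_ifs <;> simp
    · intro j
      have h := M.EM.toZD.E_gr (F.deg j) _ (F.m_gr j)
      refine h.trans ?_
      split_ifs <;> simp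
    · intro i j
      have h := A.toZD.E_gr _ _ (F.δ_gr i j)
      refine h.trans ?_
      by_cases hi : Even (F.deg i) <;> by_cases hj : Even (F.deg j)
      · rw [if_pos hi, if_pos hj, if_neg (by rw [Int.even_sub, Int.even_add_one]; tauto)]
        simp
      · rw [if_pos hi, if_neg hj, if_pos (by rw [Int.even_sub, Int.even_add_one]; tauto)]
        simp
      · rw [if_neg hi, if_pos hj, if_pos (by rw [Int.even_sub, Int.even_add_one]; tauto)]
        simp
      · rw [if_neg hi, if_neg hj, if_neg (by rw [Int.even_sub, Int.even_add_one]; tauto)]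
        simp
    · intro i
      refine (F.D_ξ i).trans ?_
      split_ifs <;> simp <;> rfl
    · have h := congrArg (fun t => M.e0 + t) F.sum
      refine h.trans ?_
      change M.e0 + (M.e1 + M.EM.D F.h) = M.EM.one + M.EM.D F.h
      rw [← add_assoc, M.e0_add_e1]
  exact key

theorem iM_HT_bij (M : ZBim A) (hM : M.IsCorr) : Function.Bijective M.iM.cyc.HT :=
  HT_bij_of_QI M.iM (M.iM_QI hM)

end ZBim

end NC
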