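import Mathlib
import Pool.Agent.H94.NC.GCoord
import Pool.Agent.H94.NC.CorQI
import Pool.Agent.H16.NC.PF
import Pool.Agent.H16.NC.EndA

/-!
# From graded bimodules to super bimodules
-/

set_option autoImplicit false

open scoped TensorProduct

noncomputable section

namespace NC

variable {k : Type} [Field k] {A : ZDGA k}

open CycMod (mem_int eq_int pj pj_same pj_ne pj_mem pj_comm)

/-- the even part is compatible with graded bilinear maps -/
theorem P_bil (X Y Z : ZD k) (B : X.V →ₗ[k] Y.V →ₗ[k] Z.V)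
    (hB : ∀ i j, ∀ x ∈ X.gr i, ∀ y ∈ Y.gr j, B x y ∈ Z.gr (i + j)) (x : X.V) (y : Y.V) :
    Z.P (B x y) = B (X.P x) (Y.P y) + B (x - X.P x) (y - Y.P y) := by
  refine eq_int X.internal (Z.P ∘ₗ B.flip y) (B.flip (Y.P y) ∘ₗ X.P +
    B.flip (y - Y.P y) ∘ₗ (LinearMap.id - X.P)) (fun i x hx => ?_) x
  change Z.P (B x y) = B (X.P x) (Y.P y) + B (x - X.P x) (y - Y.P y)
  refine eq_int Y.internal (Z.P ∘ₗ B x) (B (X.P x) ∘ₗ Y.P +
    B (x - X.P x) ∘ₗ (LinearMap.id - Y.P)) (fun j y hy => ?_) y
  change Z.P (B x y) = B (X.P x) (Y.P y) + B (x - X.P x) (y - Y.P y)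
  rw [Z.P_gr _ _ (hB i j x hx y hy), X.P_gr i x hx, Y.P_gr j y hy]
  by_cases hi : Even i <;> by_cases hj : Even j <;> simp [Int.even_add, hi, hj]

/-- the right action of a right module -/
def ZRMod.ra (F : ZRMod A) : RA A.toDGA F.toSD where
  act := F.r
  act_mul := fun x a b => (F.r_mul x a b).symm
  P_act := fun x a => P_bil F.toZD A.toZD F.toZD F.r F.r_gr x a
  D_act := F.D_r

/-- the underlying super bimodule -/
def ZBim.bi (M : ZBim A) : Bi A.toDGA A.toDGA M.toSD where
  l :=
    { act := M.l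
      mul_act := M.l_mul
      P_act := fun a m => P_bil A.toZD M.toZD M.toZD M.l M.l_gr a m
      D_act := M.D_l }
  r := M.right.ra
  lr := M.l_r

/-- the underlying unital super bimodule -/
def ZBim.bm (M : ZBim A) : BMod A.toDGA A.toDGA where
  N := M.toSD
  b := M.bi
  one_l := M.l_one
  r_one := M.r_one

theorem ZBim.P_hom {M : ZBim A} {i : ℤ} {x : M.V} (hx : x ∈ M.gr i) :
    M.P x = x ∨ M.P x = 0 := by
  rw [M.P_gr i x hx]
  by_cases h : Even i
  · exact Or.inl (if_pos h)
  · exact Or.inr (if_neg h)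

theorem ZBim.IsSemiFree.super {M : ZBim A} {I : Type} (h : M.IsSemiFree I) :
    Nonempty (SemiFree M.bi I) := by
  obtain ⟨x, deg, rk, h1, h2, h3⟩ := h
  exact ⟨{ x := x, rk := rk, par := fun i => ZBim.P_hom (h1 i), comb_bij := h2, D_mem := h3 }⟩

/-! ### finite semi-free modules are iterated extensions -/

namespace SFData

variable {F : ZRMod A} {n : ℕ} (s : SFData F n)

/-- the submodule with coordinates in `J` -/
def subJ (J : Finset (Fin n)) : Submodule k F.V where
  carrier := {y | ∀ i, i ∉ J → s.co y i = 0}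
  add_mem' := fun {a b} ha hb i hi => by
    rw [map_add, Finsupp.add_apply, ha i hi, hb i hi, add_zero]
  zero_mem' := fun i _ => by rw [map_zero]; rfl
  smul_mem' := fun c a ha i hi => by
    rw [map_smul, Finsupp.smul_apply, ha i hi, smul_zero]

theorem mem_subJ {J : Finset (Fin n)} {y : F.V} : y ∈ s.subJ J ↔ ∀ i, i ∉ J → s.co y i = 0 :=
  Iff.rfl

/-- closed under smaller rank -/
def Dn (J : Finset (Fin n)) : Prop := ∀ i j, j ∈ J → s.rk i < s.rk j → i ∈ J

/-- the coordinates and the parity -/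
theorem co_E (y : F.V) (i : Fin n) : s.co (F.E y) i =
    (if Even (s.deg i) then (1 : k) else -1) • A.E (s.co y i) := by
  refine s.co_eq _ (fun i => (if Even (s.deg i) then (1 : k) else -1) • A.E (s.co y i)) ?_ i
  conv_lhs => rw [← s.sum_co y]
  rw [map_sum]
  refine Finset.sum_congr rfl (fun i _ => ?_)
  rw [F.E_r, s.E_x, map_smul, map_smul, LinearMap.smul_apply]

/-- the coordinates and the even part -/
theorem co_P (y : F.V) (i : Fin n) : s.co (F.P y) i =
    if Even (s.deg i) then A.P (s.co y i) else s.co y i - A.P (s.co y i) := by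
  refine s.co_eq _ (fun i => if Even (s.deg i) then A.P (s.co y i) else
    s.co y i - A.P (s.co y i)) ?_ i
  conv_lhs => rw [← s.sum_co y]
  rw [map_sum]
  refine Finset.sum_congr rfl (fun i _ => ?_)
  have h := P_bil F.toZD A.toZD F.toZD F.r F.r_gr (s.x i) (s.co y i)
  rw [h, F.P_gr _ _ (s.x_gr i)]
  by_cases hi : Even (s.deg i)
  · rw [if_pos hi, if_pos hi, sub_self, map_zero, LinearMap.zero_apply, add_zero]
  · rw [if_neg hi, if_neg hi, map_zero, LinearMap.zero_apply, zero_add, sub_zero]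

theorem subJ_P (J : Finset (Fin n)) : ∀ y ∈ s.subJ J, F.P y ∈ s.subJ J := by
  intro y hy i hi
  rw [s.co_P, hy i hi, map_zero, sub_zero, ite_self]

theorem subJ_D {J : Finset (Fin n)} (hJ : s.Dn J) : ∀ y ∈ s.subJ J, F.D y ∈ s.subJ J := by
  intro y hy i hi
  rw [s.co_D, hy i hi, map_zero, smul_zero, add_zero]
  refine Finset.sum_eq_zero (fun j _ => ?_)
  by_cases hj : j ∈ J
  · rw [s.dl_tri i j (not_lt.1 (fun h => hi (hJ i j hj h))), map_zero, LinearMap.zero_apply]
  · rw [hy j hj, map_zero]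

theorem subJ_r (J : Finset (Fin n)) (a : A.V) : ∀ y ∈ s.subJ J, F.r y a ∈ s.subJ J := by
  intro y hy i hi
  rw [s.co_r, hy i hi, map_zero, LinearMap.zero_apply]

/-- the super right module with coordinates in `J` -/
abbrev sdJ (J : Finset (Fin n)) (hJ : s.Dn J) : SD k :=
  F.toSD.sub (s.subJ J) (s.subJ_D hJ) (s.subJ_P J)

/-- the action -/
abbrev raJ (J : Finset (Fin n)) (hJ : s.Dn J) : RA A.toDGA (s.sdJ J hJ) :=
  F.ra.sub (s.subJ J) (s.subJ_D hJ) (s.subJ_P J) (fun a y hy => s.subJ_r J a y hy)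

theorem co_x (i j : Fin n) (a : A.V) : s.co (F.r (s.x i) a) j = if j = i then a else 0 := by
  refine s.co_eq _ (fun j => if j = i then a else 0) ?_ j
  rw [Finset.sum_eq_single i]
  · rw [if_pos rfl]
  · intro m _ hm
    rw [if_neg hm, map_zero]
  · intro h
    exact absurd (Finset.mem_univ i) h

theorem finSF (J : Finset (Fin n)) (hJ : s.Dn J) : FinSF A.toDGA (s.sdJ J hJ) (s.raJ J hJ) := by
  induction hc : J.card generalizing J with
  | zero =>
    have hJ0 : J = ∅ := Finset.card_eq_zero.1 hc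
    refine FinSF.zero (fun y => Subtype.ext ?_)
    have h1 : s.co y.1 = 0 := by
      refine Finsupp.ext (fun i => ?_)
      exact y.2 i (by rw [hJ0]; exact Finset.notMem_empty i)
    exact s.co.injective (by rw [h1]; exact (map_zero s.co).symm)
  | succ c ih =>
    obtain ⟨m, hm, hmax⟩ := Finset.exists_max_image J s.rk (Finset.card_pos.1 (by omega))
    let J' := J.erase m
    have hJ' : s.Dn J' := fun i j hj h => by
      have hj1 : j ∈ J := Finset.mem_of_mem_erase hj
      refine Finset.mem_erase.2 ⟨?_, hJ i j hj1 h⟩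
      rintro rfl
      have := hmax j hj1
      omega
    have hle : s.subJ J' ≤ s.subJ J := fun y hy i hi =>
      hy i (fun h => hi (Finset.mem_of_mem_erase h))
    let f : SD.Hom (s.sdJ J' hJ') (s.sdJ J hJ) :=
      { f := Submodule.inclusion hle
        D := fun _ => rfl
        P := fun _ => rfl }
    have hf : (s.raJ J' hJ').IsHom (s.raJ J hJ) f := fun _ _ => rfl
    have hδ : ∀ j ∈ J, s.dl m j = 0 := fun j hj => s.dl_tri m j (hmax j hj)
    have hD : ∀ y : s.subJ J, s.co (F.D y.1) m =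
        (if Even (s.deg m) then (1 : k) else -1) • A.D (s.co y.1 m) := by
      intro y
      rw [s.co_D, Finset.sum_eq_zero, zero_add]
      intro j _
      by_cases hj : j ∈ J
      · rw [hδ j hj, map_zero, LinearMap.zero_apply]
      · rw [y.2 j hj, map_zero]
    have hex : ∀ y : s.subJ J, s.co y.1 m = 0 → y.1 ∈ s.subJ J' := by
      intro y hy i hi
      by_cases h : i ∈ J
      · by_cases him : i = m
        · rw [him]; exact hy
        · exact absurd (Finset.mem_erase.2 ⟨him, h⟩) hi
      · exact y.2 i h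
    have hsurj : ∀ a : A.V, ∃ y : s.subJ J, s.co y.1 m = a := by
      intro a
      refine ⟨⟨F.r (s.x m) a, fun i hi => ?_⟩, ?_⟩
      · rw [s.co_x, if_neg (fun h => hi (by rw [h]; exact hm))]
      · rw [s.co_x, if_pos rfl]
    have hJc : J'.card = c := by
      have h := Finset.card_erase_of_mem hm
      change (J.erase m).card = c
      omega
    by_cases hev : Even (s.deg m)
    · let g : SD.Hom (s.sdJ J hJ) A.toDGA.toSD :=
        { f := s.ci m ∘ₗ (s.subJ J).subtype
          D := fun y => by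
            change s.co (F.D y.1) m = A.D (s.co y.1 m)
            rw [hD, if_pos hev, one_smul]
          P := fun y => by
            change s.co (F.P y.1) m = A.P (s.co y.1 m)
            rw [s.co_P, if_pos hev] }
      refine FinSF.ext f hf g (fun y a => s.co_r y.1 a m) ⟨?_, hsurj, ?_, ?_⟩
        (ih J' hJ' hJc)
      · intro x hx
        have h0 : (x.1 : F.V) = 0 := congrArg Subtype.val hx
        exact Subtype.ext h0
      · intro x
        exact x.2 m (Finset.notMem_erase m J)
      · intro y hy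
        exact ⟨⟨y.1, hex y hy⟩, rfl⟩
    · let g : SD.Hom (s.sdJ J hJ) A.toDGA.toSD.sh :=
        { f := s.ci m ∘ₗ (s.subJ J).subtype
          D := fun y => by
            change s.co (F.D y.1) m = - A.D (s.co y.1 m)
            rw [hD, if_neg hev, neg_one_smul]
          P := fun y => by
            change s.co (F.P y.1) m = s.co y.1 m - A.P (s.co y.1 m)
            rw [s.co_P, if_neg hev] }
      refine FinSF.exts f hf g (fun y a => s.co_r y.1 a m) ⟨?_, hsurj, ?_, ?_⟩
        (ih J' hJ' hJc)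
      · intro x hx
        have h0 : (x.1 : F.V) = 0 := congrArg Subtype.val hx
        exact Subtype.ext h0
      · intro x
        exact x.2 m (Finset.notMem_erase m J)
      · intro y hy
        exact ⟨⟨y.1, hex y hy⟩, rfl⟩

end SFData

/-- graded maps are even -/
theorem hom_P {X Y : ZD k} (f : X.V →ₗ[k] Y.V) (h : ∀ i, ∀ x ∈ X.gr i, f x ∈ Y.gr i)
    (x : X.V) : f (X.P x) = Y.P (f x) := by
  refine eq_int X.internal (f ∘ₗ X.P) (Y.P ∘ₗ f) (fun i v hv => ?_) x
  change f (X.P v) = Y.P (f v)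
  rw [X.P_gr i v hv, Y.P_gr i _ (h i v hv)]
  split_ifs
  · rfl
  · exact map_zero _

theorem ZRMod.rpf {X F : ZRMod A} {n : ℕ} (hF : F.IsSemiFree (Fin n)) (h : X.IsHRetract F) :
    RPf X.ra := by
  obtain ⟨s, r, h, h1, h2, h3⟩ := h
  obtain ⟨sf⟩ := hF.data
  have hD : sf.Dn Finset.univ := fun _ _ _ _ => Finset.mem_univ _
  have htop : ∀ y : F.V, y ∈ sf.subJ Finset.univ := fun y i hi => absurd (Finset.mem_univ i) hi
  refine ⟨⟨sf.sdJ Finset.univ hD, sf.raJ Finset.univ hD,
    { f := s.f.codRestrict _ (fun x => htop (s.f x))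
      D := fun x => Subtype.ext (s.D x)
      P := fun x => Subtype.ext (hom_P (X := X.toZD) (Y := F.toZD) s.f s.gr x) },
    { f := r.f ∘ₗ (sf.subJ Finset.univ).subtype
      D := fun x => r.D x.1
      P := fun x => hom_P (X := F.toZD) (Y := X.toZD) r.f r.gr x.1 },
    h, sf.finSF _ hD, fun x a => Subtype.ext (s.r x a), fun x a => r.r x.1 a, h2, h3⟩⟩

theorem ZBim.IsCorr.rpf {M : ZBim A} (hM : M.IsCorr) : RPf M.bi.r := by
  obtain ⟨-, F, n, hF, h⟩ := hM
  exact ZRMod.rpf hF h

theorem ZBim.IsCorr.semiFree {M : ZBim A} (hM : M.IsCorr) :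
    ∃ I : Type, Nonempty (SemiFree M.bi I) := by
  obtain ⟨⟨I, hI⟩, -⟩ := hM
  exact ⟨I, hI.super⟩

/-! ### graded endomorphisms are endomorphisms -/

theorem ZRMod.homs_rLin (N : ZRMod A) {f : N.V →ₗ[k] N.V} (hf : f ∈ N.homs) :
    f ∈ rLin N.ra N.ra := by
  refine N.homs_ind (rLin N.ra N.ra) (fun i g hg => ?_) hf
  exact hg.1

/-- the inclusion of the graded endomorphisms in all right linear endomorphisms -/
def ZRMod.jE (N : ZRMod A) : DGA.NHom N.EndA.toDGA (EndR N.ra) where
  f := Submodule.inclusion (fun _ hf => N.homs_rLin hf : N.homs ≤ rLin N.ra N.ra)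
  D := fun f => Subtype.ext (by
    refine LinearMap.ext (fun m => ?_)
    change N.evD f.1 m = SD.hD N.toSD N.toSD f.1 m
    rw [ZRMod.evD_apply, SD.hD_apply])
  P := fun f => Subtype.ext (by
    refine LinearMap.ext (fun m => ?_)
    change N.evP f.1 m = SD.hP N.toSD N.toSD f.1 m
    rw [ZRMod.evP_apply, SD.hP_apply])
  mul := fun f g => Subtype.ext rfl

theorem ZRMod.jE_apply (N : ZRMod A) (f : N.homs) : (N.jE.f f).1 = f.1 := rfl

end NC
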