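import Mathlib
import Pool.Agent.H94.NC.GEnd
import Pool.Agent.H94.NC.GCyc

/-!
# Endomorphisms of periodic cyclic homology induced by correspondences

For a dg bimodule `M` (semi-free over `Aᵒᵖ ⊗ A`, perfect as a right `A`-module) let `M.EM` be the
dg algebra of graded endomorphisms of the right dg module `A ⊕ M`, `M.iM : A → M.EM` the
inclusion of the corner `End_A(A) = A` and `M.rhoM : A → End_A(M) ⊆ M.EM` the left action.
The map induced by `M` on periodic cyclic homology is `HP(M.iM)⁻¹ ∘ HP(M.rhoM)`.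
-/

set_option autoImplicit false

noncomputable section

namespace NC

variable {k : Type} [Field k]

/-- the super vector space `HP^±(A)`: even part `HP₀(A)`, odd part `HP₁(A)` -/
abbrev ZDGA.HPs (A : ZDGA k) : Type := A.HP 0 × A.HP 1

/-- the map induced on `HP^±` -/
def ZHom.HPs {A B : ZDGA k} (f : ZHom A B) : A.HPs →ₗ[k] B.HPs := (f.HP 0).prodMap (f.HP 1)

/-- the projection `π⁺` of `HP^±(A)` on its even part -/
def ZDGA.piPlus (A : ZDGA k) : A.HPs →ₗ[k] A.HPs :=
  LinearMap.inl k (A.HP 0) (A.HP 1) ∘ₗ LinearMap.fst k (A.HP 0) (A.HP 1)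

/-- `φ` is the endomorphism of `HP^±(A)` induced by the dg bimodule `M` -/
def ZBim.Induces {A : ZDGA k} (M : ZBim A) (φ : A.HPs →ₗ[k] A.HPs) : Prop :=
  ∀ x, M.iM.HPs (φ x) = M.rhoM.HPs x

/-- the endomorphisms of `HP^±(A)` induced by the correspondences from `A` to `A` -/
def ZDGA.corrMaps (A : ZDGA k) : Set (A.HPs →ₗ[k] A.HPs) :=
  {φ | ∃ M : ZBim A, M.IsCorr ∧ M.Induces φ}

end NC
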