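import Mathlib
import Pool.Agent.H94.NC.Stmt
import Pool.Agent.H94.NC.Bridge
import Pool.Agent.H94.NC.CycDim

/-!
# The assembly: `π⁺` is not algebraic
-/

set_option autoImplicit false

noncomputable section

namespace NC

variable {k : Type} [Field k]

open CycMod in
/-- The induced map is well defined. -/
theorem HPs_bij {A B : ZDGA k} (g : ZHom A B) (hg : Function.Bijective g.cyc.HT) :
    Function.Bijective g.HPs := by
  have h1 : ∀ m, Function.Bijective (g.cyc.HH m) := fun m =>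
    HH_bij A.cyc_internal B.cyc_internal g.cyc hg m
  have h2 : ∀ m, Function.Bijective (g.HP m) := fun m =>
    win_bij A.cyc_Bex B.cyc_Bex g.cyc h1 univ_sat Set.ordConnected_univ m
  exact Function.Bijective.prodMap (h2 0) (h2 1)

/-- the supertrace of an endomorphism of `HP^±` -/
def strP (A : ZDGA k) : (A.HPs →ₗ[k] A.HPs) →ₗ[k] k where
  toFun φ := LinearMap.trace k (A.HP 0)
      (LinearMap.fst k (A.HP 0) (A.HP 1) ∘ₗ φ ∘ₗ LinearMap.inl k (A.HP 0) (A.HP 1))
    - LinearMap.trace k (A.HP 1)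
      (LinearMap.snd k (A.HP 0) (A.HP 1) ∘ₗ φ ∘ₗ LinearMap.inr k (A.HP 0) (A.HP 1))
  map_add' φ ψ := by
    rw [LinearMap.add_comp, LinearMap.comp_add, LinearMap.add_comp, LinearMap.comp_add, map_add,
      map_add]
    ring
  map_smul' c φ := by
    rw [LinearMap.smul_comp, LinearMap.comp_smul, LinearMap.smul_comp, LinearMap.comp_smul,
      map_smul, map_smul, RingHom.id_apply, smul_eq_mul, smul_eq_mul, smul_eq_mul]
    ring

open CycMod in
/-- the supertrace of `φ_M` is the supertrace on the total Hochschild homology -/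
theorem strP_eq {A B : ZDGA k} (f g : ZHom A B) (hg : Function.Bijective g.cyc.HT)
    [FiniteDimensional k A.cyc.HT] (φ : A.HPs →ₗ[k] A.HPs) (hφ : ∀ x, g.HPs (φ x) = f.HPs x) :
    strP A φ = LinearMap.trace k _ (A.EHT ∘ₗ zz f.cyc.HT g.cyc.HT hg) := by
  have h1 : ∀ m, Function.Bijective (g.cyc.HH m) := fun m =>
    HH_bij A.cyc_internal B.cyc_internal g.cyc hg m
  have h2 : ∀ m, Function.Bijective (g.HP m) := fun m =>
    win_bij A.cyc_Bex B.cyc_Bex g.cyc h1 univ_sat Set.ordConnected_univ m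
  obtain ⟨hfd, lo, N, hlo, hhi⟩ := HH_fin (X := A.cyc) A.cyc_internal
  let T := fun m => zz (f.cyc.HH m) (g.cyc.HH m) (h1 m)
  let S := fun m => zz (f.HP m) (g.HP m) (h2 m)
  have hS := (str_HP A.cyc_Bex B.cyc_Bex f.cyc g.cyc h1 lo N hlo hhi hfd T
    (fun m x => zz_spec _ _ _ x) S (fun m x => zz_spec _ _ _ x)).2
  have hT := str_HT A.cyc_internal f.cyc g.cyc hg A.EHT A.EHT_hinc lo N hlo hhi T
    (fun m x => zz_spec _ _ _ x) (zz f.cyc.HT g.cyc.HT hg) (fun x => zz_spec _ _ _ x)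
  rw [hT, ← hS]
  have e0 : LinearMap.fst k (A.HP 0) (A.HP 1) ∘ₗ φ ∘ₗ LinearMap.inl k (A.HP 0) (A.HP 1) = S 0 := by
    refine zz_eq _ _ _ _ (fun x => ?_)
    have h3 := congrArg Prod.fst (hφ (x, 0))
    exact h3
  have e1 : LinearMap.snd k (A.HP 0) (A.HP 1) ∘ₗ φ ∘ₗ LinearMap.inr k (A.HP 0) (A.HP 1) = S 1 := by
    refine zz_eq _ _ _ _ (fun x => ?_)
    have h3 := congrArg Prod.snd (hφ (0, x))
    exact h3
  change LinearMap.trace k (A.HP 0) (_ ∘ₗ φ ∘ₗ _) - LinearMap.trace k (A.HP 1) (_ ∘ₗ φ ∘ₗ _) = _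
  rw [e0, e1]

theorem strP_piPlus (A : ZDGA k) [FiniteDimensional k (A.HP 0)] :
    strP A A.piPlus = (Module.finrank k (A.HP 0) : k) := by
  have e0 : LinearMap.fst k (A.HP 0) (A.HP 1) ∘ₗ A.piPlus ∘ₗ LinearMap.inl k (A.HP 0) (A.HP 1)
      = LinearMap.id := by
    ext x
    rfl
  have e1 : LinearMap.snd k (A.HP 0) (A.HP 1) ∘ₗ A.piPlus ∘ₗ LinearMap.inr k (A.HP 0) (A.HP 1)
      = 0 := by
    ext x
    rfl
  change LinearMap.trace k (A.HP 0) (_ ∘ₗ A.piPlus ∘ₗ _)
    - LinearMap.trace k (A.HP 1) (_ ∘ₗ A.piPlus ∘ₗ _) = _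
  rw [e0, e1, map_zero, sub_zero, LinearMap.trace_id]

/-- **Assembly.**  If the supertraces of all correspondences vanish and the dimension of `HP₀`
is not zero in `k` then `π⁺` is not a linear combination of correspondences. -/
theorem piPlus_not_mem (A : ZDGA k) [FiniteDimensional k A.cyc.HT]
    (hMor : ∀ M : ZBim A, M.IsCorr → Function.Bijective M.iM.cyc.HT)
    (hstr : ∀ M : ZBim A, M.IsCorr → ∀ t : A.cyc.HT →ₗ[k] A.cyc.HT,
      (∀ x, M.iM.cyc.HT (t x) = M.rhoM.cyc.HT x) → LinearMap.trace k _ (A.EHT ∘ₗ t) = 0)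
    (hfd : FiniteDimensional k (A.HP 0)) (hne : (Module.finrank k (A.HP 0) : k) ≠ 0) :
    A.piPlus ∉ Submodule.span k A.corrMaps := by
  intro hmem
  have h1 : Submodule.span k A.corrMaps ≤ LinearMap.ker (strP A) := by
    refine Submodule.span_le.2 ?_
    rintro φ ⟨M, hM, hφ⟩
    change strP A φ = 0
    rw [strP_eq M.rhoM M.iM (hMor M hM) φ hφ]
    exact hstr M hM _ (fun x => zz_spec _ _ _ x)
  have h2 : strP A A.piPlus = 0 := h1 hmem
  rw [strP_piPlus] at h2
  exact hne h2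

end NC
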