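import Mathlib
import Pool.Agent.H94.NC.Final
import Pool.Agent.H94.NC.CorQI

/-!
# Extension of the field of coefficients
-/

set_option autoImplicit false

open scoped TensorProduct

noncomputable section

namespace NC

variable {k : Type} [Field k]

/-- the identity -/
def ZHom.id (A : ZDGA k) : ZHom A A where
  f := LinearMap.id
  mul := fun _ _ => rfl
  D := fun _ => rfl
  gr := fun _ _ h => h

theorem ZHom.id_HT (A : ZDGA k) : (ZHom.id A).cyc.HT = LinearMap.id := by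
  refine LinearMap.ext (fun x => ?_)
  obtain ⟨v, hv, rfl⟩ := A.cyc.tcls_surj x
  have h1 : (ZHom.id A).cyc.f v = v := by
    have h2 : ∀ w : Wd k A.V A.V, Wd.wm (A := A.toSD) (B := A.toSD)
        (LinearMap.id : A.V →ₗ[k] A.V) w = w := by
      intro w
      induction w using Wd.induction with
      | hadd a b ha hb => rw [map_add, ha, hb]
      | hnil a => rw [Wd.wm_nil]; rfl
      | hsnoc w hw r => rw [Wd.wm_snoc, hw]; rfl
    exact h2 v
  have hb : A.cyc.b ((ZHom.id A).cyc.f v) = 0 := by rw [h1, hv]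
  change A.cyc.tcls ((ZHom.id A).cyc.f v) hb = A.cyc.tcls v hv
  congr 1

open CycMod in
/-- `HP` is finite dimensional -/
theorem HP_fd (A : ZDGA k) [FiniteDimensional k A.cyc.HT] (m : ℤ) :
    FiniteDimensional k (A.HP m) := by
  have hg : Function.Bijective (ZHom.id A).cyc.HT := by
    rw [ZHom.id_HT]; exact Function.bijective_id
  have h1 : ∀ m, Function.Bijective ((ZHom.id A).cyc.HH m) := fun m =>
    HH_bij A.cyc_internal A.cyc_internal (ZHom.id A).cyc hg m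
  have h2 : ∀ m, Function.Bijective ((ZHom.id A).HP m) := fun m =>
    win_bij A.cyc_Bex A.cyc_Bex (ZHom.id A).cyc h1 univ_sat Set.ordConnected_univ m
  obtain ⟨hfd, lo, N, hlo, hhi⟩ := HH_fin (X := A.cyc) A.cyc_internal
  exact (str_HP A.cyc_Bex A.cyc_Bex (ZHom.id A).cyc (ZHom.id A).cyc h1 lo N hlo hhi hfd
    (fun m => zz ((ZHom.id A).cyc.HH m) ((ZHom.id A).cyc.HH m) (h1 m))
    (fun m x => zz_spec _ _ _ x)
    (fun m => zz ((ZHom.id A).HP m) ((ZHom.id A).HP m) (h2 m))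
    (fun m x => zz_spec _ _ _ x)).1 m

/-- the parity operator of `HP^±` -/
def ZDGA.gam (A : ZDGA k) : A.HPs →ₗ[k] A.HPs :=
  LinearMap.inl k (A.HP 0) (A.HP 1) ∘ₗ LinearMap.fst k (A.HP 0) (A.HP 1) -
    LinearMap.inr k (A.HP 0) (A.HP 1) ∘ₗ LinearMap.snd k (A.HP 0) (A.HP 1)

theorem strP_eq_trace (A : ZDGA k) [FiniteDimensional k (A.HP 0)]
    [FiniteDimensional k (A.HP 1)] (φ : A.HPs →ₗ[k] A.HPs) :
    strP A φ = LinearMap.trace k A.HPs (A.gam ∘ₗ φ) := by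
  have h1 : LinearMap.trace k (A.HP 0)
      (LinearMap.fst k (A.HP 0) (A.HP 1) ∘ₗ φ ∘ₗ LinearMap.inl k (A.HP 0) (A.HP 1)) =
      LinearMap.trace k A.HPs (LinearMap.inl k (A.HP 0) (A.HP 1) ∘ₗ
        (LinearMap.fst k (A.HP 0) (A.HP 1) ∘ₗ φ)) := by
    rw [← LinearMap.comp_assoc]
    exact LinearMap.trace_comp_comm' _ _
  have h2 : LinearMap.trace k (A.HP 1)
      (LinearMap.snd k (A.HP 0) (A.HP 1) ∘ₗ φ ∘ₗ LinearMap.inr k (A.HP 0) (A.HP 1)) =
      LinearMap.trace k A.HPs (LinearMap.inr k (A.HP 0) (A.HP 1) ∘ₗ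
        (LinearMap.snd k (A.HP 0) (A.HP 1) ∘ₗ φ)) := by
    rw [← LinearMap.comp_assoc]
    exact LinearMap.trace_comp_comm' _ _
  change LinearMap.trace k (A.HP 0) (_ ∘ₗ φ ∘ₗ _) - LinearMap.trace k (A.HP 1) (_ ∘ₗ φ ∘ₗ _) = _
  rw [h1, h2, ← map_sub]
  rfl

/-- the projection `π⁻` of `HP^±(A)` on its odd part -/
def ZDGA.piMinus (A : ZDGA k) : A.HPs →ₗ[k] A.HPs :=
  LinearMap.inr k (A.HP 0) (A.HP 1) ∘ₗ LinearMap.snd k (A.HP 0) (A.HP 1)

/-- `ψ` is an `F`-linear combination of maps of correspondences, `F ⊆ k` -/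
def ZDGA.AlgSub (A : ZDGA k) (F : Type) [Field F] [Algebra F k] (ψ : A.HPs →ₗ[k] A.HPs) :
    Prop :=
  ∃ (n : ℕ) (c : Fin n → F) (φ : Fin n → (A.HPs →ₗ[k] A.HPs)),
    (∀ i, φ i ∈ A.corrMaps) ∧ ψ = ∑ i, algebraMap F k (c i) • φ i

/-- `ψ ⊗ F` is an `F`-linear combination of maps of correspondences, `F ⊇ k` -/
def ZDGA.AlgExt (A : ZDGA k) (F : Type) [Field F] [Algebra k F] (ψ : A.HPs →ₗ[k] A.HPs) :
    Prop :=
  ∃ (n : ℕ) (c : Fin n → F) (φ : Fin n → (A.HPs →ₗ[k] A.HPs)),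
    (∀ i, φ i ∈ A.corrMaps) ∧ ψ.baseChange F = ∑ i, c i • (φ i).baseChange F

theorem not_algSub (A : ZDGA k) (h0 : ∀ φ ∈ A.corrMaps, strP A φ = 0)
    (F : Type) [Field F] [Algebra F k] (ψ : A.HPs →ₗ[k] A.HPs) (hψ : strP A ψ ≠ 0) :
    ¬ A.AlgSub F ψ := by
  rintro ⟨n, c, φ, h1, h2⟩
  apply hψ
  rw [h2, map_sum]
  refine Finset.sum_eq_zero (fun i _ => ?_)
  rw [map_smul, h0 _ (h1 i), smul_zero]

theorem not_algExt (A : ZDGA k) [FiniteDimensional k A.cyc.HT]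
    (h0 : ∀ φ ∈ A.corrMaps, strP A φ = 0)
    (F : Type) [Field F] [Algebra k F] (ψ : A.HPs →ₗ[k] A.HPs) (hψ : strP A ψ ≠ 0) :
    ¬ A.AlgExt F ψ := by
  rintro ⟨n, c, φ, h1, h2⟩
  have := HP_fd A 0
  have := HP_fd A 1
  let L : ((F ⊗[k] A.HPs) →ₗ[F] (F ⊗[k] A.HPs)) →ₗ[F] F :=
    LinearMap.trace F (F ⊗[k] A.HPs) ∘ₗ
      LinearMap.llcomp F (F ⊗[k] A.HPs) (F ⊗[k] A.HPs) (F ⊗[k] A.HPs) (A.gam.baseChange F)
  have key : ∀ χ : A.HPs →ₗ[k] A.HPs, L (χ.baseChange F) = algebraMap k F (strP A χ) := by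
    intro χ
    rw [strP_eq_trace, ← LinearMap.trace_baseChange, LinearMap.baseChange_comp]
    rfl
  have h3 := key ψ
  rw [h2, map_sum] at h3
  have h4 : ∀ i, L (c i • (φ i).baseChange F) = 0 := by
    intro i
    rw [map_smul, key, h0 _ (h1 i), map_zero, smul_zero]
  rw [Finset.sum_eq_zero (fun i _ => h4 i)] at h3
  exact hψ ((algebraMap k F).injective (by rw [← h3, map_zero]))

end NC
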