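import Mathlib
import Pool.Agent.H94.NC.Conv
import Pool.Agent.H94.NC.FExt
import Pool.Agent.H9.NC.Coh

/-!
# From the cyclic module to the homology of the Hochschild complex
-/

set_option autoImplicit false

open scoped TensorProduct

noncomputable section

namespace NC

variable {k : Type} [Field k]

theorem ZDGA.cyc_b0 (A : ZDGA k) (x : A.toDGA.hh.V) (hx : A.toDGA.hh.D x = 0) :
    A.cyc.b x = 0 := (A.cyc_b x).trans hx

/-- the class of a cycle of the Hochschild complex -/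
def ZDGA.kerHT (A : ZDGA k) : ↥(LinearMap.ker A.toDGA.hh.D) →ₗ[k] A.cyc.HT where
  toFun x := A.cyc.tcls x.1 (A.cyc_b0 x.1 x.2)
  map_add' _ _ := rfl
  map_smul' _ _ := rfl

/-- comparison of the total Hochschild homology with the homology of the Hochschild complex -/
def ZDGA.htMap (A : ZDGA k) : A.toDGA.hh.Coh →ₗ[k] A.cyc.HT :=
  Submodule.liftQ _ A.kerHT (by
    rintro ⟨v, hv⟩ ⟨w, hw⟩
    exact (A.cyc.tcls_eq_zero _ _).2 ⟨w, (A.cyc_b w).trans hw⟩)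

theorem ZDGA.htMap_mk (A : ZDGA k) (x : A.toDGA.hh.V) (hx : A.toDGA.hh.D x = 0) :
    A.htMap (SD.Coh.mk x hx) = A.cyc.tcls x (A.cyc_b0 x hx) := rfl

theorem ZDGA.htMap_bij (A : ZDGA k) : Function.Bijective A.htMap := by
  constructor
  · rw [injective_iff_map_eq_zero]
    intro c hc
    obtain ⟨x, hx, rfl⟩ := SD.Coh.exists_mk c
    rw [A.htMap_mk x hx] at hc
    obtain ⟨z, hz⟩ := (A.cyc.tcls_eq_zero _ _).1 hc
    exact (SD.Coh.mk_eq_zero hx).2 ⟨z, (A.cyc_b z).symm.trans hz⟩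
  · intro y
    obtain ⟨v, hv, rfl⟩ := A.cyc.tcls_surj y
    have hv' : A.toDGA.hh.D v = 0 := (A.cyc_b v).symm.trans hv
    exact ⟨SD.Coh.mk (N := A.toDGA.hh) v hv', A.htMap_mk v hv'⟩

/-- the comparison isomorphism -/
def ZDGA.htE (A : ZDGA k) : A.toDGA.hh.Coh ≃ₗ[k] A.cyc.HT :=
  LinearEquiv.ofBijective A.htMap A.htMap_bij

theorem ZDGA.htE_mk (A : ZDGA k) (x : A.toDGA.hh.V) (hx : A.toDGA.hh.D x = 0) :
    A.htE (SD.Coh.mk x hx) = A.cyc.tcls x (A.cyc_b0 x hx) := A.htMap_mk x hx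

theorem CycMod.tcls_cg (X : CycMod k) {v w : X.V} (hv : X.b v = 0) (hw : X.b w = 0)
    (h : v = w) : X.tcls v hv = X.tcls w hw := by
  subst h
  rfl

theorem CycMod.HT_tcls {X Y : CycMod k} (f : CycMod.Hom X Y) (v : X.V) (hv : X.b v = 0)
    (h : Y.b (f.f v) = 0) : f.HT (X.tcls v hv) = Y.tcls (f.f v) h := rfl

theorem ZHom.hh_cyc {A B : ZDGA k} (f : ZHom A B) (x : Wd k A.V A.V) :
    f.hh.f x = f.cyc.f x := rfl

theorem CycMod.HT_tcls' {X Y : CycMod k} (f : CycMod.Hom X Y) (v : X.V) (hv : X.b v = 0)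
    (w : Y.V) (hw : Y.b w = 0) (h : w = f.f v) : Y.tcls w hw = f.HT (X.tcls v hv) := by
  subst h
  rfl

theorem ZDGA.htE_nat {A B : ZDGA k} (f : ZHom A B) (c : A.toDGA.hh.Coh) :
    B.htE (SD.Coh.map f.hh c) = f.cyc.HT (A.htE c) := by
  obtain ⟨x, hx, rfl⟩ := SD.Coh.exists_mk c
  rw [SD.Coh.map_mk, B.htE_mk, A.htE_mk]
  exact CycMod.HT_tcls' f.cyc x (A.cyc_b0 x hx) (f.hh.f x) _ (f.hh_cyc x)

theorem ZDGA.htE_E (A : ZDGA k) (c : A.toDGA.hh.Coh) :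
    A.htE (SD.cohE A.toDGA.hh c) = A.EHT (A.htE c) := by
  obtain ⟨x, hx, rfl⟩ := SD.Coh.exists_mk c
  rw [SD.cohE_mk, A.htE_mk, A.htE_mk]
  exact (A.EHT_tcls x (A.cyc_b0 x hx) _).symm

theorem ZDGA.HT_fd (A : ZDGA k) (h : A.toDGA.hh.FinH) : FiniteDimensional k A.cyc.HT := by
  have h1 := SD.coh_finite_iff.2 h
  exact Module.Finite.equiv A.htE

/-- the traces agree -/
theorem ZDGA.trace_ht (A : ZDGA k) (t : A.cyc.HT →ₗ[k] A.cyc.HT) :
    LinearMap.trace k _ (A.EHT ∘ₗ t) =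
      LinearMap.trace k _ (SD.cohE A.toDGA.hh ∘ₗ (A.htE.symm.toLinearMap ∘ₗ t ∘ₗ
        A.htE.toLinearMap)) := by
  have h1 : A.EHT ∘ₗ t = A.htE.conj (SD.cohE A.toDGA.hh ∘ₗ (A.htE.symm.toLinearMap ∘ₗ t ∘ₗ
        A.htE.toLinearMap)) := by
    refine LinearMap.ext (fun x => ?_)
    rw [LinearEquiv.conj_apply]
    simp only [LinearMap.comp_apply, LinearEquiv.coe_coe, LinearEquiv.apply_symm_apply]
    rw [A.htE_E, LinearEquiv.apply_symm_apply]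
  rw [h1, LinearMap.trace_conj']

/-- The supertrace of a correspondence on the homology of the Hochschild complex. -/
theorem hstr_of {A : ZDGA k} (M : ZBim A)
    (h : ∀ t : A.toDGA.hh.Coh →ₗ[k] A.toDGA.hh.Coh,
      (∀ c, SD.Coh.map M.iM.hh (t c) = SD.Coh.map M.rhoM.hh c) →
      LinearMap.trace k _ (SD.cohE A.toDGA.hh ∘ₗ t) = 0)
    (t : A.cyc.HT →ₗ[k] A.cyc.HT) (ht : ∀ x, M.iM.cyc.HT (t x) = M.rhoM.cyc.HT x) :
    LinearMap.trace k _ (A.EHT ∘ₗ t) = 0 := by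
  rw [A.trace_ht]
  refine h _ (fun c => ?_)
  apply M.EM.htE.injective
  rw [ZDGA.htE_nat, ZDGA.htE_nat, ← ht]
  refine congrArg _ ?_
  simp only [LinearMap.comp_apply, LinearEquiv.coe_coe, LinearEquiv.apply_symm_apply]

/-- the graded endomorphisms of `A ⊕ M` inside all right linear endomorphisms -/
def ZBim.jEM {A : ZDGA k} (M : ZBim A) :
    DGA.NHom M.EM.toDGA (EndR (A.diag.right.sum M.right).ra) := (A.diag.right.sum M.right).jE

theorem ZHom.hh_eq {A B : ZDGA k} (f : ZHom A B) : f.hh = hcA f.nh := rfl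

/-- The same with a further map of dg algebras. -/
theorem hstr_L {A : ZDGA k} (M : ZBim A) {L : DGA k} (j : DGA.NHom M.EM.toDGA L)
    (h : ∀ t : A.toDGA.hh.Coh →ₗ[k] A.toDGA.hh.Coh,
      (∀ c, SD.Coh.map (hcA j) (SD.Coh.map (hcA M.iM.nh) (t c)) =
        SD.Coh.map (hcA j) (SD.Coh.map (hcA M.rhoM.nh) c)) →
      LinearMap.trace k _ (SD.cohE A.toDGA.hh ∘ₗ t) = 0)
    (t : A.cyc.HT →ₗ[k] A.cyc.HT) (ht : ∀ x, M.iM.cyc.HT (t x) = M.rhoM.cyc.HT x) :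
    LinearMap.trace k _ (A.EHT ∘ₗ t) = 0 := by
  refine hstr_of M (fun t' ht' => h t' (fun c => ?_)) t ht
  rw [← ZHom.hh_eq, ← ZHom.hh_eq, ht']

end NC
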