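import Mathlib
import Pool.Agent.H94.NC.Link
import Pool.Agent.H16.NC.A5S

/-!
# Assembly: from the Lefschetz formula to the supertraces on `HP`
-/

set_option autoImplicit false

open scoped TensorProduct

noncomputable section

namespace NC

variable {k : Type} [Field k]

theorem hcA_comp {R S T : DGA k} (j : DGA.NHom S T) (g : DGA.NHom R S) (g' : DGA.NHom R T)
    (h : ∀ a, j.f (g.f a) = g'.f a) (w : Wd k R.V R.V) :
    (hcA j).f ((hcA g).f w) = (hcA g').f w := by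
  rw [hcA_f, hcA_f, hcA_f]
  induction w using Wd.induction with
  | hadd a b ha hb => rw [map_add, map_add, map_add, ha, hb]
  | hnil a => rw [Wd.map_nil, Wd.map_nil, Wd.map_nil, h]
  | hsnoc w hw r => rw [Wd.map_snoc, Wd.map_snoc, Wd.map_snoc, hw, h]

theorem Coh_hcA_comp {R S T : DGA k} (j : DGA.NHom S T) (g : DGA.NHom R S)
    (g' : DGA.NHom R T) (h : ∀ a, j.f (g.f a) = g'.f a) (c : (HC R.diag).Coh) :
    SD.Coh.map (hcA j) (SD.Coh.map (hcA g) c) = SD.Coh.map (hcA g') c := by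
  obtain ⟨x, hx, rfl⟩ := SD.Coh.exists_mk c
  rw [SD.Coh.map_mk, SD.Coh.map_mk, SD.Coh.map_mk]
  exact SD.Coh.mk_congr _ _ (hcA_comp j g g' h x)

variable {A : ZDGA k}

/-- the underlying map of a graded endomorphism of `A ⊕ M` -/
def ZBim.emL (M : ZBim A) (f : M.EM.V) : (A.V × M.V) →ₗ[k] (A.V × M.V) := f.1

/-- it is right linear -/
theorem EM_lin (M : ZBim A) (f : M.EM.V) : M.emL f ∈ rLin (AM M.bm).b.r (AM M.bm).b.r := by
  have h1 : ∀ (v : A.V × M.V) (b : A.V), M.emL f ((A.diag.right.sum M.right).r v b) =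
      (A.diag.right.sum M.right).r (M.emL f v) b := (A.diag.right.sum M.right).homs_rLin f.2
  have h2 : ∀ (v : A.V × M.V) (b : A.V),
      (A.diag.right.sum M.right).r v b = (AM M.bm).b.r.act v b := by
    rintro ⟨x, m⟩ b
    refine Prod.ext ?_ ?_
    · change A.mul x b + 0 = A.mul x b
      rw [add_zero]
    · change 0 + M.r m b = M.r m b
      rw [zero_add]
  intro v b
  exact ((congrArg (M.emL f) (h2 v b)).symm.trans (h1 v b)).trans (h2 (M.emL f v) b)

theorem EM_D (M : ZBim A) (f : M.EM.V) :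
    M.emL (M.EM.D f) = SD.hD (AM M.bm).N (AM M.bm).N (M.emL f) := by
  refine LinearMap.ext (fun m => ?_)
  exact ((A.diag.right.sum M.right).evD_apply f.1 m).trans
    (SD.hD_apply (AM M.bm).N (AM M.bm).N (M.emL f) m).symm

theorem EM_P (M : ZBim A) (f : M.EM.V) :
    M.emL (M.EM.P f) = SD.hP (AM M.bm).N (AM M.bm).N (M.emL f) := by
  refine LinearMap.ext (fun m => ?_)
  exact ((A.diag.right.sum M.right).evP_apply f.1 m).trans
    (SD.hP_apply (AM M.bm).N (AM M.bm).N (M.emL f) m).symm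

/-- graded endomorphisms of `A ⊕ M` as right linear endomorphisms -/
def ZBim.jL (M : ZBim A) : DGA.NHom M.EM.toDGA (EndR (AM M.bm).b.r) where
  f :=
    { toFun := fun f => ⟨M.emL f, EM_lin M f⟩
      map_add' := fun _ _ => rfl
      map_smul' := fun _ _ => rfl }
  D := fun f => Subtype.ext (EM_D M f)
  P := fun f => Subtype.ext (EM_P M f)
  mul := fun _ _ => Subtype.ext rfl

theorem ZBim.jL_iM (M : ZBim A) (a : A.V) : M.jL.f (M.iM.nh.f a) = (iE M.bm).f a :=
  Subtype.ext rfl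

theorem ZBim.jL_rhoM (M : ZBim A) (a : A.V) : M.jL.f (M.rhoM.nh.f a) = (rhoE M.bm).f a :=
  Subtype.ext rfl

theorem hstr_of_lefschetz (M : ZBim A) (hL : Lefschetz M.bm) (hchi : SD.chi (HC M.bm.b) = 0)
    (t : A.cyc.HT →ₗ[k] A.cyc.HT) (ht : ∀ x, M.iM.cyc.HT (t x) = M.rhoM.cyc.HT x) :
    LinearMap.trace k _ (A.EHT ∘ₗ t) = 0 := by
  refine hstr_L M M.jL (fun t' ht' => ?_) t ht
  refine (hL t' (fun c => ?_)).trans hchi
  have h1 := ht' c
  rw [Coh_hcA_comp M.jL M.iM.nh (iE M.bm) M.jL_iM,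
    Coh_hcA_comp M.jL M.rhoM.nh (rhoE M.bm) M.jL_rhoM] at h1
  exact h1

end NC
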