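import Mathlib
import Pool.Agent.H16.NC.HC
import Pool.Agent.H94.NC.GDefs
import Pool.Agent.H94.NC.WGr
import Pool.Agent.H28.NC.BarGr

/-!
# The bar resolution of the diagonal bimodule, graded

`A` a graded dg algebra.  The bar complex `Bar A A A = Wd A A ⊗ A` is a graded dg bimodule,
semi-free, and quasi-isomorphic to `A`.

Gradings: `w ⊗ y` with `w ∈ wgr m` (homological degree) and `y ∈ gr j` has (cohomological) degree
`j - m`.
-/

set_option autoImplicit false

open scoped TensorProduct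

noncomputable section

namespace NC

variable {k : Type} [Field k]

/-- the grading of `Wd A A ⊗ A` -/
def barGr (A : ZDGA k) (i : ℤ) : Submodule k (Wd k A.V A.V ⊗[k] A.V) :=
  Submodule.span k {z | ∃ m j w y, j - m = i ∧ w ∈ Wd.wgr A.gr A.gr m ∧ y ∈ A.gr j ∧
    z = w ⊗ₜ[k] y}

theorem barGr_eq (A : ZDGA k) (i : ℤ) : barGr A i = BG.tgrd (Wd.wgr A.gr A.gr) A.gr i := rfl

theorem tmul_mem_barGr (A : ZDGA k) {m j i : ℤ} {w : Wd k A.V A.V} {y : A.V}
    (hw : w ∈ Wd.wgr A.gr A.gr m) (hy : y ∈ A.gr j) (h : j - m = i) :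
    w ⊗ₜ[k] y ∈ barGr A i :=
  Submodule.subset_span ⟨m, j, w, y, h, hw, hy, rfl⟩

theorem even_sub_aux (m j : ℤ) : Even (j - m) ↔ (Even m ↔ Even j) := by
  rw [Int.even_sub]
  tauto

theorem barP_barGr (A : ZDGA k) (i : ℤ) (v : Wd k A.V A.V ⊗[k] A.V) (hv : v ∈ barGr A i) :
    barP A.toSD A.toSD A.toDGA v = if Even i then v else 0 := by
  have hle : barGr A i ≤ LinearMap.eqLocus (barP A.toSD A.toSD A.toDGA)
      (if Even i then LinearMap.id else 0) := by
    refine Submodule.span_le.2 ?_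
    rintro _ ⟨m, j, w, y, rfl, hw, hy, rfl⟩
    change barP A.toSD A.toSD A.toDGA (w ⊗ₜ[k] y) =
      (if Even (j - m) then LinearMap.id else 0 :
        Wd k A.V A.V ⊗[k] A.V →ₗ[k] Wd k A.V A.V ⊗[k] A.V) (w ⊗ₜ[k] y)
    rw [barP_tmul, BG.PW_wgr A hw, A.P_gr j y hy]
    by_cases h1 : Even m <;> by_cases h2 : Even j
    · rw [if_pos h1, if_pos h2, if_pos (by rw [even_sub_aux]; tauto)]
      simp
    · rw [if_pos h1, if_neg h2, if_neg (by rw [even_sub_aux]; tauto)]
      simp
    · rw [if_neg h1, if_pos h2, if_neg (by rw [even_sub_aux]; tauto)]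
      simp
    · rw [if_neg h1, if_neg h2, if_pos (by rw [even_sub_aux]; tauto)]
      simp
  have h := hle hv
  have h2 : barP A.toSD A.toSD A.toDGA v = (if Even i then LinearMap.id else 0 :
        Wd k A.V A.V ⊗[k] A.V →ₗ[k] Wd k A.V A.V ⊗[k] A.V) v := h
  rw [h2]
  split_ifs <;> rfl

theorem barD_barGr (A : ZDGA k) (i : ℤ) (v : Wd k A.V A.V ⊗[k] A.V) (hv : v ∈ barGr A i) :
    barD A.toDGA.diag.r A.toDGA.diag.l v ∈ barGr A (i + 1) := by
  have hle : barGr A i ≤ (barGr A (i + 1)).comap (barD A.toDGA.diag.r A.toDGA.diag.l) := by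
    refine Submodule.span_le.2 ?_
    rintro _ ⟨m, j, w, y, rfl, hw, hy, rfl⟩
    change barD A.toDGA.diag.r A.toDGA.diag.l (w ⊗ₜ[k] y) ∈ barGr A (j - m + 1)
    rw [barD_tmul]
    refine Submodule.sub_mem _ (Submodule.add_mem _ ?_ ?_) (BG.lam_wgr A hw hy)
    · exact tmul_mem_barGr A (BG.Db_wgr A hw) hy (by ring)
    · exact tmul_mem_barGr A (BG.EW_mem_wgr A hw) (A.D_gr j y hy) (by ring)
  exact hle hv

/-- the bar resolution of the diagonal bimodule -/
def barZ (A : ZDGA k) : ZBim A where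
  toSD := Bar A.toDGA.diag.r A.toDGA.diag.l
  gr := barGr A
  internal := BG.internal_tens (Wd.wgr_internal A.gr A.gr A.internal A.internal) A.internal
  P_gr := barP_barGr A
  D_gr := barD_barGr A
  l := (A.toDGA.diag.bar A.toDGA.diag).l.act
  r := (A.toDGA.diag.bar A.toDGA.diag).r.act
  l_one := fun v => by
    refine tens_ext (f := LinearMap.rTensorHom A.V (hd A.toDGA A.toDGA.diag.l A.one))
      (g := LinearMap.id) (fun w y => ?_) v
    change hd A.toDGA A.toDGA.diag.l A.one w ⊗ₜ[k] y = w ⊗ₜ[k] y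
    have h : hd A.toDGA A.toDGA.diag.l A.one w = w := by
      induction w using Wd.induction with
      | hadd a b ha hb => rw [map_add, ha, hb]
      | hnil a =>
        rw [hd_nil]
        exact congrArg Wd.nil (A.one_mul' a)
      | hsnoc w hw r => rw [hd_snoc, hw]
    rw [h]
  r_one := fun v => by
    refine tens_ext
      (f := LinearMap.lTensorHom (Wd k A.V A.V) (A.toDGA.diag.r.act.flip A.one))
      (g := LinearMap.id) (fun w y => ?_) v
    change w ⊗ₜ[k] A.mul y A.one = w ⊗ₜ[k] y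
    rw [A.mul_one']
  l_mul := fun a b v => (A.toDGA.diag.bar A.toDGA.diag).l.mul_act a b v
  r_mul := fun v a b => ((A.toDGA.diag.bar A.toDGA.diag).r.act_mul v a b).symm
  l_r := fun a v b => (A.toDGA.diag.bar A.toDGA.diag).lr a v b
  D_l := fun a v => (A.toDGA.diag.bar A.toDGA.diag).l.D_act a v
  D_r := fun v a => (A.toDGA.diag.bar A.toDGA.diag).r.D_act v a
  l_gr := fun i j a ha v hv => by
    have hle : barGr A j ≤ (barGr A (i + j)).comap
        (LinearMap.rTensorHom A.V (hd A.toDGA A.toDGA.diag.l a)) := by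
      refine Submodule.span_le.2 ?_
      rintro _ ⟨m, j, w, y, rfl, hw, hy, rfl⟩
      exact tmul_mem_barGr A (BG.hd_wgr A hw ha) hy (by ring)
    exact hle hv
  r_gr := fun i j v hv a ha => by
    have hle : barGr A i ≤ (barGr A (i + j)).comap
        (LinearMap.lTensorHom (Wd k A.V A.V) (A.toDGA.diag.r.act.flip a)) := by
      refine Submodule.span_le.2 ?_
      rintro _ ⟨m, j', w, y, rfl, hw, hy, rfl⟩
      exact tmul_mem_barGr A hw (A.mul_gr _ _ y hy a ha) (by ring)
    exact hle hv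

/-- the augmentation `nil a ⊗ b ↦ a b` is the one of the bar complexes -/
theorem augZ_eq (A : ZDGA k) (v : Wd k A.V A.V ⊗[k] A.V) :
    (TensorProduct.lift (Wd.recW A.mul 0 0) : Wd k A.V A.V ⊗[k] A.V →ₗ[k] A.V) v =
      (augL A.toDGA.diag.l).f v := by
  refine tens_ext (f := TensorProduct.lift (Wd.recW A.mul 0 0))
    (g := (augL A.toDGA.diag.l).f) (fun w y => ?_) v
  change Wd.recW A.mul 0 0 w y = augF (actL A.toDGA.diag.l).f (w ⊗ₜ y)
  induction w using Wd.induction with
  | hadd a b ha hb =>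
    rw [map_add, LinearMap.add_apply, ha, hb, TensorProduct.add_tmul, map_add]
  | hnil a =>
    rw [Wd.recW_nil, augF_nil]
    rfl
  | hsnoc w _ r =>
    rw [augF_snoc]
    simp

/-- the augmentation `nil a ⊗ b ↦ a b` -/
def augZ (A : ZDGA k) : ZBim.Hom (barZ A) A.diag where
  f := TensorProduct.lift (Wd.recW A.mul 0 0)
  l := fun a v => by
    have h := (augL_isHom A.toDGA.diag).l a v
    exact (augZ_eq A _).trans (h.trans (congrArg (A.mul a) (augZ_eq A v).symm))
  r := fun v a => by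
    have h := (augL_isHom A.toDGA.diag).r v a
    exact (augZ_eq A _).trans (h.trans (congrArg (fun z => A.mul z a) (augZ_eq A v).symm))
  D := fun v => by
    have h := (augL A.toDGA.diag.l).D v
    exact (augZ_eq A _).trans (h.trans (congrArg A.D (augZ_eq A v).symm))
  gr := fun i v hv => by
    have hle : barGr A i ≤ (A.gr i).comap
        (TensorProduct.lift (Wd.recW A.mul 0 0) : Wd k A.V A.V ⊗[k] A.V →ₗ[k] A.V) := by
      refine Submodule.span_le.2 ?_
      rintro _ ⟨m, j, w, y, rfl, hw, hy, rfl⟩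
      change Wd.recW A.mul 0 0 w y ∈ A.gr (j - m)
      refine Wd.wgr_induction A.gr A.gr
        (p := fun m w => Wd.recW A.mul 0 0 w y ∈ A.gr (j - m)) ?_ ?_ ?_ ?_ ?_ hw
      · intro m
        rw [map_zero]
        exact Submodule.zero_mem _
      · intro m a b ha hb
        rw [map_add]
        exact Submodule.add_mem _ ha hb
      · intro m c a ha
        rw [map_smul]
        exact Submodule.smul_mem _ _ ha
      · intro i a ha
        rw [Wd.recW_nil]
        have h := A.mul_gr _ _ a ha y hy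
        have e : i + j = j - -i := by ring
        rw [e] at h
        exact h
      · intro n i w r _ _ _
        have h0 : Wd.recW A.mul 0 0 (Wd.snoc w r) y = (0 : A.V) := by simp
        rw [h0]
        exact Submodule.zero_mem _
    exact hle hv

theorem augZ_quasiIso (A : ZDGA k) : (augZ A).IsQuasiIso := by
  have h := qi_augL A.toDGA.diag.l (fun y => A.one_mul' y)
  refine ⟨fun m hm hn => ?_, fun (n : A.V) hn => ?_⟩
  · obtain ⟨n, hn⟩ := hn
    exact h.inj m n hm ((augZ_eq A m).symm.trans hn.symm)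
  · obtain ⟨x, z, hx, hz⟩ := h.surj n hn
    refine ⟨x, -z, hx, ?_⟩
    refine (augZ_eq A x).trans ?_
    have e : A.D (-z) = -(A.D z) := map_neg A.D z
    change (augL A.toDGA.diag.l).f x = n + A.D (-z)
    rw [e]
    have hz' : n = (augL A.toDGA.diag.l).f x + A.D z := hz
    rw [hz']
    abel

/-! ### semi-freeness -/

section

variable (A : ZDGA k) {J : Type} (B : Module.Basis J k A.V) (cyc : J → Prop) (deg : J → ℤ)

open Classical in
/-- number of letters that are not cycles -/
def cntZ : List J → ℕ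
  | [] => 0
  | j :: l => cntZ l + (if cyc j then 0 else 1)

theorem cntZ_le (l : List J) : cntZ cyc l ≤ l.length := by
  induction l with
  | nil => exact le_rfl
  | cons j l ih =>
    unfold cntZ
    rw [List.length_cons]
    split_ifs <;> omega

/-- the rank of a word -/
def rkZ (l : List J) : ℕ := l.length ^ 2 + cntZ cyc l

theorem rkZ_lt {l l' : List J}
    (h : l'.length < l.length ∨ (l'.length = l.length ∧ cntZ cyc l' < cntZ cyc l)) :
    rkZ cyc l' < rkZ cyc l := by
  unfold rkZ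
  rcases h with h | ⟨h1, h2⟩
  · have h1 := cntZ_le cyc l'
    have h2 : l'.length + 1 ≤ l.length := h
    nlinarith [Nat.pow_le_pow_left h2 2]
  · rw [h1]; omega

/-- spans of words below a given length and number of non-cycles -/
def swZ (n c : ℕ) : Submodule k (Wd k A.V A.V) :=
  Submodule.span k {w | ∃ (l : List J) (a : A.V),
    (l.length < n ∨ (l.length = n ∧ cntZ cyc l < c)) ∧ w = BG.wdb B l a}

theorem wdb_mem_swZ {n c : ℕ} {l : List J}
    (h : l.length < n ∨ (l.length = n ∧ cntZ cyc l < c)) (a : A.V) :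
    BG.wdb (k := k) B l a ∈ swZ A B cyc n c :=
  Submodule.subset_span ⟨l, a, h, rfl⟩

theorem swZ_mono {n c c' : ℕ} (h : c ≤ c') : swZ A B cyc n c ≤ swZ A B cyc n c' := by
  refine Submodule.span_mono ?_
  rintro _ ⟨l, a, h1, rfl⟩
  refine ⟨l, a, ?_, rfl⟩
  rcases h1 with h1 | ⟨h1, h2⟩
  · exact Or.inl h1
  · exact Or.inr ⟨h1, lt_of_lt_of_le h2 h⟩

theorem snoc_mem_swZ {n c : ℕ} {w : Wd k A.V A.V} (hw : w ∈ swZ A B cyc n c) (j : J) :
    Wd.snoc w (B j) ∈ swZ A B cyc (n + 1) (c + cntZ cyc [j]) := by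
  have hle : swZ A B cyc n c ≤ (swZ A B cyc (n + 1) (c + cntZ cyc [j])).comap
      (Wd.snoc.flip (B j)) := by
    refine Submodule.span_le.2 ?_
    rintro _ ⟨l, a, h1, rfl⟩
    refine wdb_mem_swZ A B cyc (l := j :: l) ?_ a
    rw [List.length_cons]
    have e : cntZ cyc (j :: l) = cntZ cyc l + cntZ cyc [j] := by
      simp [cntZ]
    rw [e]
    rcases h1 with h1 | ⟨h1, h2⟩
    · exact Or.inl (by omega)
    · exact Or.inr ⟨by omega, by omega⟩
  exact hle hw

theorem snoc_all_mem_swZ (l : List J) (a r : A.V) :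
    Wd.snoc (BG.wdb (k := k) B l a) r ∈ swZ A B cyc (l.length + 2) 0 := by
  have h1 := B.mem_span r
  have hle : Submodule.span k (Set.range B) ≤ (swZ A B cyc (l.length + 2) 0).comap
      (Wd.snoc (BG.wdb (k := k) B l a)) := by
    refine Submodule.span_le.2 ?_
    rintro _ ⟨j, rfl⟩
    exact wdb_mem_swZ A B cyc (l := j :: l) (Or.inl (by rw [List.length_cons]; omega)) a
  exact hle h1

theorem tl_mem_swZ (l : List J) (a r : A.V) :
    tl A.toDGA A.toDGA.diag.r.act (BG.wdb (k := k) B l a) r ∈ swZ A B cyc (l.length + 1) 0 := by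
  cases l with
  | nil =>
    rw [BG.wdb_nil, tl_nil]
    exact wdb_mem_swZ A B cyc (l := []) (Or.inl (by simp)) _
  | cons j l =>
    rw [BG.wdb_cons, tl_snoc]
    exact snoc_all_mem_swZ A B cyc l a _

theorem hd_wdb (l : List J) (a b : A.V) :
    hd A.toDGA A.toDGA.diag.l a (BG.wdb (k := k) B l b) = BG.wdb B l (A.mul a b) := by
  induction l with
  | nil =>
    rw [BG.wdb_nil, BG.wdb_nil, hd_nil]
    rfl
  | cons j l ih => rw [BG.wdb_cons, BG.wdb_cons, hd_snoc, ih]

/-- homological degree of the word -/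
def wdegZ : List J → ℤ
  | [] => 0
  | j :: l => wdegZ l + 1 - deg j

theorem wdb_mem_wgr (hB : ∀ j, B j ∈ A.gr (deg j)) (l : List J) :
    BG.wdb (k := k) B l A.one ∈ Wd.wgr A.gr A.gr (wdegZ deg l) := by
  induction l with
  | nil =>
    have h := Wd.nil_mem_wgr A.gr A.gr A.one_gr
    rw [neg_zero] at h
    exact h
  | cons j l ih => exact Wd.snoc_mem_wgr A.gr A.gr ih (hB j)

theorem Db_mem_swZ (hB : ∀ j, B j ∈ A.gr (deg j)) (hc : ∀ j, cyc j → A.D (B j) = 0)
    (hD : ∀ j, A.D (B j) ∈ Submodule.span k {v | ∃ i, cyc i ∧ v = B i}) (l : List J) :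
    Db A.toDGA.diag.r (BG.wdb (k := k) B l A.one) ∈ swZ A B cyc l.length (cntZ cyc l) := by
  induction l with
  | nil =>
    rw [BG.wdb_nil, Db_nil]
    have h : A.D A.one = 0 := A.toDGA.D_one
    rw [h, map_zero]
    exact Submodule.zero_mem _
  | cons j l ih =>
    rw [BG.wdb_cons, Db_snoc, BG.EW_wgr A (wdb_mem_wgr A B deg hB l)]
    have e : cntZ cyc (j :: l) = cntZ cyc l + cntZ cyc [j] := by
      simp [cntZ]
    rw [List.length_cons, e]
    have h1 := snoc_mem_swZ A B cyc ih j
    have h2 : Wd.snoc (BG.wdb (k := k) B l A.one) (A.D (B j)) ∈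
        swZ A B cyc (l.length + 1) (cntZ cyc l + cntZ cyc [j]) := by
      by_cases hj : cyc j
      · rw [hc j hj, map_zero]
        exact Submodule.zero_mem _
      · have e1 : cntZ cyc [j] = 1 := by simp [cntZ, hj]
        rw [e1]
        have hle : Submodule.span k {v | ∃ i, cyc i ∧ v = B i} ≤
            (swZ A B cyc (l.length + 1) (cntZ cyc l + 1)).comap
              (Wd.snoc (BG.wdb (k := k) B l A.one)) := by
          refine Submodule.span_le.2 ?_
          rintro _ ⟨i, hi, rfl⟩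
          refine wdb_mem_swZ A B cyc (l := i :: l) (Or.inr ⟨by simp, ?_⟩) _
          simp [cntZ, hi]
        exact hle (hD j)
    have h3 := swZ_mono A B cyc (Nat.zero_le (cntZ cyc l + cntZ cyc [j]))
      (tl_mem_swZ A B cyc l A.one (B j))
    split_ifs
    · exact Submodule.add_mem _ (Submodule.sub_mem _ h1 h2) h3
    · rw [map_neg, map_neg, LinearMap.neg_apply, LinearMap.neg_apply]
      exact Submodule.add_mem _ (Submodule.sub_mem _ h1 (Submodule.neg_mem _ h2))
        (Submodule.neg_mem _ h3)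

end

/-- choose a homogeneous basis `e` of `A` adapted to the differential; the words
`1 ⊗ e₁ ⊗ ⋯ ⊗ eₙ ⊗ 1` are a basis, the rank is `n ^ 2 +` the number of letters that are not
cycles. -/
theorem barZ_semiFree (A : ZDGA k) : ∃ I : Type, (barZ A).IsSemiFree I := by
  classical
  obtain ⟨J, B, deg, cyc, hB, hc, hD⟩ := BG.exists_adapted A.toZD
  let x : List J → Wd k A.V A.V ⊗[k] A.V := fun l => BG.wdb (k := k) B l A.one ⊗ₜ[k] A.one
  have hx : ∀ l a b, (barZ A).l a ((barZ A).r (x l) b) = BG.wdb (k := k) B l a ⊗ₜ[k] b := by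
    intro l a b
    change hd A.toDGA A.toDGA.diag.l a (BG.wdb (k := k) B l A.one) ⊗ₜ[k] A.mul A.one b = _
    rw [hd_wdb, A.mul_one', A.one_mul']
  refine ⟨List J, x, fun l => - wdegZ deg l, rkZ cyc, fun l => ?_, ?_, fun l => ?_⟩
  · exact tmul_mem_barGr A (wdb_mem_wgr A B deg hB l) A.one_gr (by ring)
  · let T : (List J →₀ A.V) ≃ₗ[k] Wd k A.V A.V :=
      LinearEquiv.ofLinearMap (BG.toWd B) (BG.ofWd B)
        (LinearMap.ext (fun w => BG.toWd_ofWd B w)) (LinearMap.ext (fun z => BG.ofWd_toWd B z))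
    let Q : (List J →₀ A.V ⊗[k] A.V) ≃ₗ[k] Wd k A.V A.V ⊗[k] A.V :=
      (TensorProduct.finsuppLeft k k A.V A.V (List J)).symm ≪≫ₗ
        TensorProduct.congr T (LinearEquiv.refl k A.V)
    have hQ : (barZ A).comb x = Q.toLinearMap := by
      refine Finsupp.lhom_ext (fun l t => ?_)
      refine tens_ext (f := (barZ A).comb x ∘ₗ Finsupp.lsingle l)
        (g := Q.toLinearMap ∘ₗ Finsupp.lsingle l) (fun a b => ?_) t
      change (barZ A).comb x (Finsupp.single l (a ⊗ₜ[k] b)) = Q (Finsupp.single l (a ⊗ₜ[k] b))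
      have h1 : (barZ A).comb x (Finsupp.single l (a ⊗ₜ[k] b)) =
          (barZ A).l a ((barZ A).r (x l) b) := by
        unfold ZBim.comb
        rw [Finsupp.lsum_single]
        rfl
      rw [h1, hx]
      change _ = TensorProduct.congr T (LinearEquiv.refl k A.V)
        ((TensorProduct.finsuppLeft k k A.V A.V (List J)).symm (Finsupp.single l (a ⊗ₜ[k] b)))
      rw [TensorProduct.finsuppLeft_symm_apply_single, TensorProduct.congr_tmul]
      change _ = BG.toWd (k := k) B (Finsupp.single l a) ⊗ₜ[k] b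
      rw [BG.toWd_single]
    rw [hQ]
    exact Q.bijective
  · have hS : ∀ (l' : List J) (a b : A.V), rkZ cyc l' < rkZ cyc l →
        BG.wdb (k := k) B l' a ⊗ₜ[k] b ∈ Submodule.span k
          {m | ∃ j a b, rkZ cyc j < rkZ cyc l ∧ m = (barZ A).l a ((barZ A).r (x j) b)} := by
      intro l' a b h
      exact Submodule.subset_span ⟨l', a, b, h, (hx l' a b).symm⟩
    have h1 := Db_mem_swZ A B cyc deg hB hc hD l
    have hle : swZ A B cyc l.length (cntZ cyc l) ≤ (Submodule.span k
          {m | ∃ j a b, rkZ cyc j < rkZ cyc l ∧ m = (barZ A).l a ((barZ A).r (x j) b)}).comap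
            ((TensorProduct.mk k (Wd k A.V A.V) A.V).flip A.one) := by
      refine Submodule.span_le.2 ?_
      rintro _ ⟨l', a, h, rfl⟩
      exact hS l' a A.one (rkZ_lt cyc h)
    have h2 : lam (X := A.toSD) A.toDGA.diag.l (BG.wdb (k := k) B l A.one ⊗ₜ[k] A.one) ∈
        Submodule.span k
          {m | ∃ j a b, rkZ cyc j < rkZ cyc l ∧ m = (barZ A).l a ((barZ A).r (x j) b)} := by
      cases l with
      | nil =>
        rw [BG.wdb_nil, lam_nil]
        exact Submodule.zero_mem _
      | cons j l =>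
        rw [BG.wdb_cons, lam_snoc, BG.EW_wgr A (wdb_mem_wgr A B deg hB l)]
        have h3 := hS l A.one (A.toDGA.diag.l.act (B j) A.one)
          (rkZ_lt cyc (Or.inl (by simp)))
        split_ifs
        · exact h3
        · rw [TensorProduct.neg_tmul]
          exact Submodule.neg_mem _ h3
    have h4 : (barZ A).D (x l) = Db A.toDGA.diag.r (BG.wdb (k := k) B l A.one) ⊗ₜ[k] A.one -
        lam (X := A.toSD) A.toDGA.diag.l (BG.wdb (k := k) B l A.one ⊗ₜ[k] A.one) := by
      change barD A.toDGA.diag.r A.toDGA.diag.l (BG.wdb (k := k) B l A.one ⊗ₜ[k] A.one) = _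
      rw [barD_tmul]
      have h : A.D A.one = 0 := A.toDGA.D_one
      rw [h, TensorProduct.tmul_zero, add_zero]
    rw [h4]
    exact Submodule.sub_mem _ (hle h1) h2

end NC
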