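import Mathlib
import Pool.Agent.H94.NC.GDefs

/-!
# From super perfect to graded perfect

`X` is a semi-free bimodule on a basis `x_i` (`i ∈ I`, any index set, rank `rk : I → ℕ`).
If the identity of `X` is homotopic (through bimodule maps that need not be homogeneous for the
`ℤ`-grading) to a map with finitely generated image then `X` is a homotopy retract of a finite
semi-free bimodule in the graded sense.

Proof.
1. (closure) Every finite subset of `I` is contained in a finite subset `J` such that `D x_i`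
   (`i ∈ J`) lies in the span of the `a x_j b`, `j ∈ J`, `rk j < rk i` (induction on the maximal
   rank; an element of the span of all `a x_j b` with `rk j < rk i` uses finitely many `j`).
2. Let `F` be the sub-bimodule spanned by the `a x_j b`, `j ∈ J`; it is stable under `D`, `P`
   and graded (its homogeneous elements: as `x_j` is homogeneous and `comb x` is bijective and
   graded, the components of an element of `F` are in `F`).  It is a `ZBim`, semi-free on `J`;
   choose `J` so that `F` contains `S`, hence the image of `g`.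
3. Let `g₀` be the degree `0` part of `g` (for `x ∈ gr i` the component of degree `i` of `g x`)
   and `h₀` the degree `-1` part of `h`.  They are bimodule maps (`h₀` with the sign), the image
   of `g₀` is in `F`, and `g₀ = 1 + D h₀ + h₀ D`, so `D g₀ = g₀ D`.
   Take `s = g₀ : X → F` and `r` the inclusion.
-/

set_option autoImplicit false

open scoped TensorProduct

noncomputable section

namespace NC

variable {k : Type} [Field k] {A : ZDGA k}

namespace GRef

/-! ### components of a graded space -/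

section comps

variable {V : Type} [AddCommGroup V] [Module k V] {g : ℤ → Submodule k V}

theorem mem_int (h : DirectSum.IsInternal g) (S : Submodule k V)
    (hS : ∀ i, g i ≤ S) (v : V) : v ∈ S := by
  have h1 : iSup g = ⊤ := h.submodule_iSup_eq_top
  have h2 : iSup g ≤ S := iSup_le hS
  rw [h1] at h2
  exact h2 trivial

theorem eq_int {W : Type} [AddCommGroup W] [Module k W]
    (h : DirectSum.IsInternal g) (φ ψ : V →ₗ[k] W)
    (hS : ∀ i, ∀ v ∈ g i, φ v = ψ v) (v : V) : φ v = ψ v :=
  mem_int h (LinearMap.eqLocus φ ψ) hS v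

/-- the linear map which is `φ i` on the part of degree `i` -/
def glue {W : Type} [AddCommGroup W] [Module k W] (h : DirectSum.IsInternal g)
    (φ : ℤ → V →ₗ[k] W) : V →ₗ[k] W :=
  DirectSum.toModule k ℤ W (fun i => φ i ∘ₗ (g i).subtype) ∘ₗ
    (LinearEquiv.ofBijective (DirectSum.coeLinearMap g) h).symm.toLinearMap

theorem glue_apply {W : Type} [AddCommGroup W] [Module k W] (h : DirectSum.IsInternal g)
    (φ : ℤ → V →ₗ[k] W) {i : ℤ} {v : V} (hv : v ∈ g i) : glue h φ v = φ i v := by
  have e : (LinearEquiv.ofBijective (DirectSum.coeLinearMap g) h).symm v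
      = DirectSum.lof k ℤ (fun i => g i) i ⟨v, hv⟩ := by
    rw [LinearEquiv.symm_apply_eq]
    change v = DirectSum.coeLinearMap g (DirectSum.lof k ℤ (fun i => g i) i ⟨v, hv⟩)
    rw [DirectSum.coeLinearMap_lof]
  unfold glue
  rw [LinearMap.comp_apply]
  change DirectSum.toModule k ℤ W _
    ((LinearEquiv.ofBijective (DirectSum.coeLinearMap g) h).symm v) = _
  rw [e, DirectSum.toModule_lof]
  rfl

/-- the component of degree `m` -/
def pj (h : DirectSum.IsInternal g) (m : ℤ) : V →ₗ[k] V :=
  glue h (fun i => if i = m then LinearMap.id else 0)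

theorem pj_same (h : DirectSum.IsInternal g) {m : ℤ} {v : V} (hv : v ∈ g m) : pj h m v = v := by
  unfold pj
  rw [glue_apply h _ hv]
  simp

theorem pj_ne (h : DirectSum.IsInternal g) {m i : ℤ} {v : V} (hv : v ∈ g i) (hi : i ≠ m) :
    pj h m v = 0 := by
  unfold pj
  rw [glue_apply h _ hv]
  simp [hi]

theorem pj_mem (h : DirectSum.IsInternal g) (m : ℤ) (v : V) : pj h m v ∈ g m := by
  refine mem_int h ((g m).comap (pj h m)) (fun i v hv => ?_) v
  change pj h m v ∈ g m
  by_cases hi : i = m
  · subst hi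
    rw [pj_same h hv]
    exact hv
  · rw [pj_ne h hv hi]
    exact Submodule.zero_mem _

theorem pj_comm {W : Type} [AddCommGroup W] [Module k W]
    (h : DirectSum.IsInternal g) {g' : ℤ → Submodule k W}
    (h' : DirectSum.IsInternal g') (f : V →ₗ[k] W) (c : ℤ)
    (hf : ∀ m, ∀ v ∈ g m, f v ∈ g' (m + c)) (m : ℤ) (v : V) :
    pj h' (m + c) (f v) = f (pj h m v) := by
  refine eq_int h (pj h' (m + c) ∘ₗ f) (f ∘ₗ pj h m) (fun i v hv => ?_) v
  rw [LinearMap.comp_apply, LinearMap.comp_apply]
  by_cases hi : i = m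
  · subst hi
    rw [pj_same h hv, pj_same h' (hf _ _ hv)]
  · rw [pj_ne h hv hi, pj_ne h' (hf _ _ hv) (fun h1 => hi (by omega)), map_zero]

theorem pj_sum (h : DirectSum.IsInternal g) (v : V) :
    ∃ s : Finset ℤ, ∀ t : Finset ℤ, s ⊆ t → v = ∑ m ∈ t, pj h m v := by
  classical
  let S : Submodule k V :=
    { carrier := {v | ∃ s : Finset ℤ, ∀ t : Finset ℤ, s ⊆ t → v = ∑ m ∈ t, pj h m v}
      add_mem' := by
        rintro a b ⟨s, hs⟩ ⟨s', hs'⟩
        refine ⟨s ∪ s', fun t ht => ?_⟩
        have h1 := hs t (Finset.union_subset_left ht)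
        have h2 := hs' t (Finset.union_subset_right ht)
        simp only [map_add, Finset.sum_add_distrib]
        rw [← h1, ← h2]
      zero_mem' := ⟨∅, fun t _ => by simp⟩
      smul_mem' := by
        rintro c a ⟨s, hs⟩
        refine ⟨s, fun t ht => ?_⟩
        have h1 := hs t ht
        simp only [map_smul, ← Finset.smul_sum]
        rw [← h1] }
  refine mem_int h S (fun i v hv => ⟨{i}, fun t ht => ?_⟩) v
  rw [Finset.sum_eq_single i]
  · rw [pj_same h hv]
  · intro j _ hj
    exact pj_ne h hv (Ne.symm hj)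
  · intro hi
    exact absurd (ht (Finset.mem_singleton_self i)) hi

/-- a graded subspace is graded -/
theorem internal_sub (h : DirectSum.IsInternal g) (W : Submodule k V)
    (hW : ∀ m, ∀ w ∈ W, pj h m w ∈ W) :
    DirectSum.IsInternal (fun i => (g i).comap W.subtype) := by
  classical
  rw [DirectSum.isInternal_submodule_iff_iSupIndep_and_iSup_eq_top]
  constructor
  · rw [iSupIndep_def]
    intro i
    rw [Submodule.disjoint_def]
    intro w hw hw'
    have h1 : pj h i w.1 = w.1 := pj_same h hw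
    have h2 : (⨆ j, ⨆ (_ : j ≠ i), (g j).comap W.subtype) ≤
        LinearMap.ker ((pj h i) ∘ₗ W.subtype) := by
      refine iSup_le fun j => iSup_le fun hj => ?_
      intro v hv
      rw [LinearMap.mem_ker, LinearMap.comp_apply]
      exact pj_ne h (v := v.1) hv hj
    have h3 : pj h i w.1 = 0 := h2 hw'
    exact Subtype.ext (h1.symm.trans h3)
  · rw [eq_top_iff]
    intro w _
    obtain ⟨s, hs⟩ := pj_sum h w.1
    have h1 : w = ∑ m ∈ s, (⟨pj h m w.1, hW m w.1 w.2⟩ : W) := by
      apply Subtype.ext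
      refine (hs s (Finset.Subset.refl s)).trans ?_
      rw [AddSubmonoidClass.coe_finsetSum]
    rw [h1]
    refine Submodule.sum_mem _ fun m _ => ?_
    exact Submodule.mem_iSup_of_mem m (pj_mem h m w.1)

end comps

/-! ### sub-bimodules -/

theorem E_hom (A : ZDGA k) {i : ℤ} {a : A.V} (ha : a ∈ A.gr i) :
    A.E a = a ∨ A.E a = - a := by
  rw [SD.E_apply, A.P_gr i a ha]
  split_ifs
  · left; abel
  · right; abel

theorem E_homX (X : ZD k) {i : ℤ} {a : X.V} (ha : a ∈ X.gr i) :
    X.E a = a ∨ X.E a = - a := by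
  rw [SD.E_apply, X.P_gr i a ha]
  split_ifs
  · left; abel
  · right; abel

/-- a graded subspace is stable under `P` -/
theorem P_sub (X : ZD k) (W : Submodule k X.V)
    (hW : ∀ m, ∀ w ∈ W, pj X.internal m w ∈ W) (w : X.V) (hw : w ∈ W) : X.P w ∈ W := by
  obtain ⟨s, hs⟩ := pj_sum X.internal w
  rw [hs s (Finset.Subset.refl s), map_sum]
  refine Submodule.sum_mem _ fun m _ => ?_
  rw [X.P_gr m _ (pj_mem X.internal m w)]
  split_ifs
  · exact hW m w hw
  · exact Submodule.zero_mem _

/-- a graded sub-bimodule -/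
def sub (X : ZBim A) (W : Submodule k X.V)
    (hW : ∀ m, ∀ w ∈ W, pj X.internal m w ∈ W) (hD : ∀ w ∈ W, X.D w ∈ W)
    (hl : ∀ a, ∀ w ∈ W, X.l a w ∈ W) (hr : ∀ w ∈ W, ∀ a, X.r w a ∈ W) : ZBim A where
  V := W
  D := X.D.restrict hD
  P := X.P.restrict (P_sub X.toZD W hW)
  DD := fun v => Subtype.ext (X.DD v.1)
  PP := fun v => Subtype.ext (X.PP v.1)
  DP := fun v => Subtype.ext (X.DP v.1)
  gr := fun i => (X.gr i).comap W.subtype
  internal := internal_sub X.internal W hW
  P_gr := fun i v hv => by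
    apply Subtype.ext
    change X.P v.1 = _
    rw [X.P_gr i v.1 hv]
    split_ifs <;> rfl
  D_gr := fun i v hv => X.D_gr i v.1 hv
  l := LinearMap.mk₂ k (fun a m => ⟨X.l a m.1, hl a m.1 m.2⟩)
    (fun a b m => Subtype.ext (by simp))
    (fun c a m => Subtype.ext (by simp))
    (fun a m m' => Subtype.ext (by simp))
    (fun c a m => Subtype.ext (by simp))
  r := LinearMap.mk₂ k (fun m a => ⟨X.r m.1 a, hr m.1 m.2 a⟩)
    (fun a b m => Subtype.ext (by simp))
    (fun c a m => Subtype.ext (by simp))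
    (fun a m m' => Subtype.ext (by simp))
    (fun c a m => Subtype.ext (by simp))
  l_one := fun m => Subtype.ext (X.l_one m.1)
  r_one := fun m => Subtype.ext (X.r_one m.1)
  l_mul := fun a b m => Subtype.ext (X.l_mul a b m.1)
  r_mul := fun m a b => Subtype.ext (X.r_mul m.1 a b)
  l_r := fun a m b => Subtype.ext (X.l_r a m.1 b)
  D_l := fun a m => Subtype.ext (X.D_l a m.1)
  D_r := fun m a => Subtype.ext (X.D_r m.1 a)
  l_gr := fun i j a ha m hm => X.l_gr i j a ha m.1 hm
  r_gr := fun i j m hm a ha => X.r_gr i j m.1 hm a ha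

/-! ### the sub-bimodule generated by finitely many basis elements -/

/-- span of the `a x_j b`, `j ∈ J` -/
def spn (X : ZBim A) {I : Type} (x : I → X.V) (J : Finset I) : Submodule k X.V :=
  Submodule.span k {m | ∃ j ∈ J, ∃ a b, m = X.l a (X.r (x j) b)}

/-- span of the `a x_j b`, `j ∈ J`, `rk j < N` -/
def spr (X : ZBim A) {I : Type} (x : I → X.V) (rk : I → ℕ) (J : Finset I) (N : ℕ) :
    Submodule k X.V :=
  Submodule.span k {m | ∃ j ∈ J, ∃ a b, rk j < N ∧ m = X.l a (X.r (x j) b)}

theorem spn_mono (X : ZBim A) {I : Type} (x : I → X.V) {J J' : Finset I} (h : J ⊆ J') :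
    spn X x J ≤ spn X x J' := by
  refine Submodule.span_mono ?_
  rintro m ⟨j, hj, a, b, rfl⟩
  exact ⟨j, h hj, a, b, rfl⟩

theorem spr_mono (X : ZBim A) {I : Type} (x : I → X.V) (rk : I → ℕ) {J J' : Finset I}
    (h : J ⊆ J') (N : ℕ) : spr X x rk J N ≤ spr X x rk J' N := by
  refine Submodule.span_mono ?_
  rintro m ⟨j, hj, a, b, hr, rfl⟩
  exact ⟨j, h hj, a, b, hr, rfl⟩

theorem spr_le (X : ZBim A) {I : Type} (x : I → X.V) (rk : I → ℕ) (J : Finset I) (N : ℕ) :
    spr X x rk J N ≤ spn X x J := by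
  refine Submodule.span_mono ?_
  rintro m ⟨j, hj, a, b, _, rfl⟩
  exact ⟨j, hj, a, b, rfl⟩

/-- finitely many basis elements suffice -/
theorem exists_fin (X : ZBim A) {I : Type} (x : I → X.V) (rk : I → ℕ) (N : ℕ) (y : X.V)
    (hy : y ∈ Submodule.span k {m | ∃ j a b, rk j < N ∧ m = X.l a (X.r (x j) b)}) :
    ∃ J : Finset I, (∀ j ∈ J, rk j < N) ∧ y ∈ spr X x rk J N := by
  classical
  induction hy using Submodule.span_induction with
  | mem m hm =>
    obtain ⟨j, a, b, hj, rfl⟩ := hm
    refine ⟨{j}, ?_, Submodule.subset_span ⟨j, Finset.mem_singleton_self j, a, b, hj, rfl⟩⟩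
    intro i hi
    rw [Finset.mem_singleton.mp hi]
    exact hj
  | zero => exact ⟨∅, fun _ h => absurd h (Finset.notMem_empty _), Submodule.zero_mem _⟩
  | add u v _ _ hu hv =>
    obtain ⟨J, hJ, hJ'⟩ := hu
    obtain ⟨K, hK, hK'⟩ := hv
    refine ⟨J ∪ K, ?_, Submodule.add_mem _ (spr_mono X x rk Finset.subset_union_left N hJ')
      (spr_mono X x rk Finset.subset_union_right N hK')⟩
    intro j hj
    rcases Finset.mem_union.mp hj with h | h
    · exact hJ j h
    · exact hK j h
  | smul c u _ hu =>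
    obtain ⟨J, hJ, hJ'⟩ := hu
    exact ⟨J, hJ, Submodule.smul_mem _ c hJ'⟩

/-- the closure of a finite set of basis elements under the differential is finite -/
theorem closure (X : ZBim A) {I : Type} (x : I → X.V) (rk : I → ℕ)
    (hD : ∀ i, X.D (x i) ∈ Submodule.span k {m | ∃ j a b, rk j < rk i ∧ m = X.l a (X.r (x j) b)})
    (N : ℕ) : ∀ T : Finset I, (∀ i ∈ T, rk i < N) →
      ∃ J : Finset I, T ⊆ J ∧ (∀ i ∈ J, rk i < N) ∧ ∀ i ∈ J, X.D (x i) ∈ spr X x rk J (rk i) := by
  classical
  induction N with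
  | zero =>
    intro T hT
    refine ⟨T, Finset.Subset.refl T, hT, fun i hi => absurd (hT i hi) (Nat.not_lt_zero _)⟩
  | succ N ih =>
    intro T hT
    choose s hs hs' using fun i => exists_fin X x rk (rk i) (X.D (x i)) (hD i)
    have h1 : ∀ i ∈ T.biUnion s, rk i < N := by
      intro i hi
      obtain ⟨j, hj, hij⟩ := Finset.mem_biUnion.mp hi
      have h2 := hs j i hij
      have h3 := hT j hj
      omega
    obtain ⟨J, hTJ, hJN, hJ⟩ := ih _ h1
    refine ⟨T ∪ J, Finset.subset_union_left, ?_, ?_⟩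
    · intro i hi
      rcases Finset.mem_union.mp hi with h | h
      · exact hT i h
      · have := hJN i h
        omega
    · intro i hi
      rcases Finset.mem_union.mp hi with h | h
      · refine spr_mono X x rk ?_ _ (hs' i)
        intro j hj
        exact Finset.mem_union_right _ (hTJ (Finset.mem_biUnion.mpr ⟨i, h, hj⟩))
      · exact spr_mono X x rk Finset.subset_union_right _ (hJ i h)

theorem spn_l (X : ZBim A) {I : Type} (x : I → X.V) (J : Finset I) (a : A.V) (w : X.V)
    (hw : w ∈ spn X x J) : X.l a w ∈ spn X x J := by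
  have h : spn X x J ≤ (spn X x J).comap (X.l a) := by
    refine Submodule.span_le.mpr ?_
    rintro m ⟨j, hj, c, b, rfl⟩
    change X.l a (X.l c (X.r (x j) b)) ∈ spn X x J
    rw [← X.l_mul]
    exact Submodule.subset_span ⟨j, hj, _, b, rfl⟩
  exact h hw

theorem spn_r (X : ZBim A) {I : Type} (x : I → X.V) (J : Finset I) (w : X.V)
    (hw : w ∈ spn X x J) (a : A.V) : X.r w a ∈ spn X x J := by
  have h : spn X x J ≤ (spn X x J).comap (X.r.flip a) := by
    refine Submodule.span_le.mpr ?_
    rintro m ⟨j, hj, c, b, rfl⟩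
    change X.r (X.l c (X.r (x j) b)) a ∈ spn X x J
    rw [X.l_r, ← X.r_mul]
    exact Submodule.subset_span ⟨j, hj, _, _, rfl⟩
  exact h hw

theorem mem_spn (X : ZBim A) {I : Type} (x : I → X.V) (J : Finset I) {j : I} (hj : j ∈ J) :
    x j ∈ spn X x J := by
  refine Submodule.subset_span ⟨j, hj, A.one, A.one, ?_⟩
  rw [X.r_one, X.l_one]

theorem spn_D (X : ZBim A) {I : Type} (x : I → X.V) (deg : I → ℤ)
    (hdeg : ∀ i, x i ∈ X.gr (deg i)) (J : Finset I)
    (hJ : ∀ i ∈ J, X.D (x i) ∈ spn X x J) (w : X.V)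
    (hw : w ∈ spn X x J) : X.D w ∈ spn X x J := by
  have h : spn X x J ≤ (spn X x J).comap X.D := by
    refine Submodule.span_le.mpr ?_
    rintro m ⟨j, hj, a, b, rfl⟩
    change X.D (X.l a (X.r (x j) b)) ∈ spn X x J
    rw [X.D_l, X.D_r, map_add]
    have hx := mem_spn X x J hj
    refine Submodule.add_mem _ (spn_l X x J _ _ (spn_r X x J _ hx _))
      (Submodule.add_mem _ (spn_l X x J _ _ (spn_r X x J _ (hJ j hj) _))
        (spn_l X x J _ _ (spn_r X x J _ ?_ _)))
    rcases E_homX X.toZD (hdeg j) with h | h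
    · rw [h]; exact hx
    · rw [h]; exact Submodule.neg_mem _ hx
  exact h hw

theorem spn_pj (X : ZBim A) {I : Type} (x : I → X.V) (deg : I → ℤ)
    (hdeg : ∀ i, x i ∈ X.gr (deg i)) (J : Finset I) (m : ℤ) (w : X.V)
    (hw : w ∈ spn X x J) : pj X.internal m w ∈ spn X x J := by
  have h : spn X x J ≤ (spn X x J).comap (pj X.internal m) := by
    refine Submodule.span_le.mpr ?_
    rintro v ⟨j, hj, a, b, rfl⟩
    change pj X.internal m (X.l a (X.r (x j) b)) ∈ spn X x J
    -- linear in `a`
    let S1 : Submodule k A.V :=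
      (spn X x J).comap (pj X.internal m ∘ₗ X.l.flip (X.r (x j) b))
    refine mem_int A.internal S1 (fun p a ha => ?_) a
    change pj X.internal m (X.l a (X.r (x j) b)) ∈ spn X x J
    let S2 : Submodule k A.V :=
      (spn X x J).comap (pj X.internal m ∘ₗ X.l a ∘ₗ X.r (x j))
    refine mem_int A.internal S2 (fun q b hb => ?_) b
    change pj X.internal m (X.l a (X.r (x j) b)) ∈ spn X x J
    have h1 : X.l a (X.r (x j) b) ∈ X.gr (p + (deg j + q)) :=
      X.l_gr p _ a ha _ (X.r_gr _ _ _ (hdeg j) b hb)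
    by_cases hm : p + (deg j + q) = m
    · rw [hm] at h1
      rw [pj_same X.internal h1]
      exact Submodule.subset_span ⟨j, hj, a, b, rfl⟩
    · rw [pj_ne X.internal h1 hm]
      exact Submodule.zero_mem _
  exact h hw

/-! ### homogeneous parts of a map -/

/-- the part of degree `c` of a linear map -/
def gpart {V : Type} [AddCommGroup V] [Module k V] {g : ℤ → Submodule k V}
    (h : DirectSum.IsInternal g) (f : V →ₗ[k] V) (c : ℤ) : V →ₗ[k] V :=
  glue h (fun i => pj h (i + c) ∘ₗ f)

theorem gpart_apply {V : Type} [AddCommGroup V] [Module k V] {g : ℤ → Submodule k V}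
    (h : DirectSum.IsInternal g) (f : V →ₗ[k] V) (c : ℤ) {i : ℤ} {v : V} (hv : v ∈ g i) :
    gpart h f c v = pj h (i + c) (f v) := by
  unfold gpart
  rw [glue_apply h _ hv]
  rfl

theorem gpart_l (X : ZBim A) (f : X.V →ₗ[k] X.V) (c : ℤ) (σ : A.V →ₗ[k] A.V)
    (hσ : ∀ i, ∀ a ∈ A.gr i, σ a ∈ A.gr i) (hf : ∀ a x, f (X.l a x) = X.l (σ a) (f x))
    (a : A.V) (x : X.V) :
    gpart X.internal f c (X.l a x) = X.l (σ a) (gpart X.internal f c x) := by
  refine eq_int A.internal (gpart X.internal f c ∘ₗ X.l.flip x)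
    ((X.l.flip (gpart X.internal f c x)) ∘ₗ σ) (fun p a ha => ?_) a
  change gpart X.internal f c (X.l a x) = X.l (σ a) (gpart X.internal f c x)
  refine eq_int X.internal (gpart X.internal f c ∘ₗ X.l a)
    (X.l (σ a) ∘ₗ gpart X.internal f c) (fun j x hx => ?_) x
  change gpart X.internal f c (X.l a x) = X.l (σ a) (gpart X.internal f c x)
  rw [gpart_apply X.internal f c hx, gpart_apply X.internal f c (X.l_gr p j a ha x hx), hf]
  have h1 := pj_comm X.internal X.internal (X.l (σ a)) p
    (fun m v hv => by rw [add_comm m p]; exact X.l_gr p m _ (hσ p a ha) v hv) (j + c) (f x)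
  rw [← h1]
  congr 2
  ring

theorem gpart_r (X : ZBim A) (f : X.V →ₗ[k] X.V) (c : ℤ)
    (hf : ∀ x a, f (X.r x a) = X.r (f x) a) (x : X.V) (a : A.V) :
    gpart X.internal f c (X.r x a) = X.r (gpart X.internal f c x) a := by
  refine eq_int A.internal (gpart X.internal f c ∘ₗ X.r x)
    (X.r (gpart X.internal f c x)) (fun p a ha => ?_) a
  change gpart X.internal f c (X.r x a) = X.r (gpart X.internal f c x) a
  refine eq_int X.internal (gpart X.internal f c ∘ₗ X.r.flip a)
    (X.r.flip a ∘ₗ gpart X.internal f c) (fun j x hx => ?_) x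
  change gpart X.internal f c (X.r x a) = X.r (gpart X.internal f c x) a
  rw [gpart_apply X.internal f c hx, gpart_apply X.internal f c (X.r_gr j p x hx a ha), hf]
  have h1 := pj_comm X.internal X.internal (X.r.flip a) p
    (fun m v hv => X.r_gr m p v hv a ha) (j + c) (f x)
  have h2 : pj X.internal (j + c + p) (X.r (f x) a) = X.r (pj X.internal (j + c) (f x)) a := h1
  rw [← h2]
  congr 2
  ring

theorem gpart_mem {V : Type} [AddCommGroup V] [Module k V] {g : ℤ → Submodule k V}
    (h : DirectSum.IsInternal g) (f : V →ₗ[k] V) (c : ℤ) {i : ℤ} {v : V} (hv : v ∈ g i) :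
    gpart h f c v ∈ g (i + c) := by
  rw [gpart_apply h f c hv]
  exact pj_mem h _ _

/-- the homotopy, in the right degrees -/
theorem gpart_homotopy (X : ZD k) (g h : X.V →ₗ[k] X.V)
    (hgh : ∀ x, g x = x + X.D (h x) + h (X.D x)) (x : X.V) :
    gpart X.internal g 0 x = x + X.D (gpart X.internal h (-1) x)
      + gpart X.internal h (-1) (X.D x) := by
  refine eq_int X.internal (gpart X.internal g 0)
    (LinearMap.id + X.D ∘ₗ gpart X.internal h (-1) + gpart X.internal h (-1) ∘ₗ X.D)
    (fun j x hx => ?_) x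
  change gpart X.internal g 0 x = x + X.D (gpart X.internal h (-1) x)
      + gpart X.internal h (-1) (X.D x)
  rw [gpart_apply X.internal g 0 hx, gpart_apply X.internal h (-1) hx,
    gpart_apply X.internal h (-1) (X.D_gr j x hx), hgh, map_add, map_add]
  have h1 := pj_comm X.internal X.internal X.D 1 X.D_gr (j + -1) (h x)
  rw [← h1]
  have e1 : j + -1 + 1 = j := by ring
  have e2 : j + 1 + -1 = j := by ring
  rw [e1, e2, add_zero, pj_same X.internal hx]

theorem act_tmul (X : ZBim A) (m : X.V) (a b : A.V) :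
    X.act m (a ⊗ₜ[k] b) = X.l a (X.r m b) := by
  unfold ZBim.act
  rw [TensorProduct.lift.tmul]
  rfl

theorem comb_single (X : ZBim A) {I : Type} (x : I → X.V) (i : I) (t : A.V ⊗[k] A.V) :
    X.comb x (Finsupp.single i t) = X.act (x i) t := by
  unfold ZBim.comb
  rw [Finsupp.lsum_single]

/-- the finite semi-free sub-bimodule -/
theorem sub_semiFree (X : ZBim A) {I : Type} (x : I → X.V) (deg : I → ℤ) (rk : I → ℕ)
    (hdeg : ∀ i, x i ∈ X.gr (deg i)) (hinj : Function.Injective (X.comb x)) (J : Finset I)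
    (hJ : ∀ i ∈ J, X.D (x i) ∈ spr X x rk J (rk i)) :
    (sub X (spn X x J) (fun m w hw => spn_pj X x deg hdeg J m w hw)
      (fun w hw => spn_D X x deg hdeg J (fun i hi => spr_le X x rk J _ (hJ i hi)) w hw)
      (fun a w hw => spn_l X x J a w hw)
      (fun w hw a => spn_r X x J w hw a)).IsSemiFree (Fin J.card) := by
  classical
  set W := spn X x J with hWdef
  set F := (sub X W (fun m w hw => spn_pj X x deg hdeg J m w hw)
      (fun w hw => spn_D X x deg hdeg J (fun i hi => spr_le X x rk J _ (hJ i hi)) w hw)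
      (fun a w hw => spn_l X x J a w hw)
      (fun w hw a => spn_r X x J w hw a)) with hF
  let e : Fin J.card ≃ J := J.equivFin.symm
  let y : Fin J.card → F.V := fun i => (⟨x (e i).1, mem_spn X x J (e i).2⟩ : W)
  have h1 : ∀ f : Fin J.card →₀ A.V ⊗[k] A.V,
      ((show W from F.comb y f) : X.V) = X.comb x (f.mapDomain fun i => (e i).1) := by
    have h0 : (W.subtype ∘ₗ (show (Fin J.card →₀ A.V ⊗[k] A.V) →ₗ[k] W from F.comb y))
        = X.comb x ∘ₗ Finsupp.lmapDomain (A.V ⊗[k] A.V) k (fun i => (e i).1) := by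
      refine Finsupp.lhom_ext' fun i => ?_
      refine TensorProduct.ext' fun a b => ?_
      change ((show W from F.comb y (Finsupp.single i (a ⊗ₜ[k] b))) : X.V)
        = X.comb x (Finsupp.mapDomain (fun i => (e i).1) (Finsupp.single i (a ⊗ₜ[k] b)))
      rw [Finsupp.mapDomain_single, comb_single, comb_single, act_tmul, act_tmul]
      rfl
    intro f
    exact LinearMap.congr_fun h0 f
  have h4 : ∀ w ∈ W, ∃ f, ((show W from F.comb y f) : X.V) = w := by
    intro w hw
    have hw' : w ∈ Submodule.span k {m | ∃ j ∈ J, ∃ a b, m = X.l a (X.r (x j) b)} := hw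
    induction hw' using Submodule.span_induction with
    | mem m hm =>
      obtain ⟨j, hj, a, b, rfl⟩ := hm
      refine ⟨Finsupp.single (e.symm ⟨j, hj⟩) (a ⊗ₜ[k] b), ?_⟩
      rw [h1, Finsupp.mapDomain_single, comb_single, act_tmul, Equiv.apply_symm_apply]
    | zero =>
      refine ⟨0, ?_⟩
      rw [h1]; simp
    | add u v hu hv hu' hv' =>
      obtain ⟨f, hf⟩ := hu' hu
      obtain ⟨f', hf'⟩ := hv' hv
      refine ⟨f + f', ?_⟩
      rw [← hf, ← hf', h1, h1, h1, Finsupp.mapDomain_add, map_add]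
    | smul c u hu hu' =>
      obtain ⟨f, hf⟩ := hu' hu
      refine ⟨c • f, ?_⟩
      rw [← hf, h1, h1, Finsupp.mapDomain_smul, map_smul]
  refine ⟨y, fun i => deg (e i).1, fun i => rk (e i).1, fun i => hdeg (e i).1, ⟨?_, ?_⟩, ?_⟩
  · intro f1 f2 hf
    have h2 : X.comb x (f1.mapDomain fun i => (e i).1) = X.comb x (f2.mapDomain fun i => (e i).1) := by
      rw [← h1, ← h1, hf]
    have h3 := hinj h2
    exact Finsupp.mapDomain_injective (fun i j hij => e.injective (Subtype.ext hij)) h3
  · rintro ⟨w, hw⟩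
    obtain ⟨f, hf⟩ := h4 w hw
    exact ⟨f, Subtype.ext hf⟩
  · intro i
    set T : Submodule k F.V :=
      Submodule.span k {m | ∃ j a b, rk (e j).1 < rk (e i).1 ∧ m = F.l a (F.r (y j) b)} with hT
    have h5 : spr X x rk J (rk (e i).1) ≤ Submodule.map (show F.V →ₗ[k] X.V from W.subtype) T := by
      refine Submodule.span_le.mpr ?_
      rintro m ⟨j, hj, a, b, hr, rfl⟩
      refine ⟨F.l a (F.r (y (e.symm ⟨j, hj⟩)) b), Submodule.subset_span ⟨e.symm ⟨j, hj⟩, a, b, ?_, rfl⟩, ?_⟩
      · rw [Equiv.apply_symm_apply]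
        exact hr
      · change X.l a (X.r (x (e (e.symm ⟨j, hj⟩)).1) b) = _
        rw [Equiv.apply_symm_apply]
    obtain ⟨t, ht, ht'⟩ := h5 (hJ (e i).1 (e i).2)
    have h6 : t = F.D (y i) := Subtype.ext ht'
    rw [← h6]
    exact ht

end GRef

namespace ZBim

theorem hretract_of_super (X : ZBim A) (I : Type) (hX : X.IsSemiFree I)
    (g h : X.V →ₗ[k] X.V)
    (hgl : ∀ a x, g (X.l a x) = X.l a (g x)) (hgr : ∀ x a, g (X.r x a) = X.r (g x) a)
    (hhl : ∀ a x, h (X.l a x) = X.l (A.E a) (h x)) (hhr : ∀ x a, h (X.r x a) = X.r (h x) a)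
    (hgh : ∀ x, g x = x + X.D (h x) + h (X.D x))
    (S : Finset X.V)
    (hS : ∀ x, g x ∈ Submodule.span k {m | ∃ s ∈ S, ∃ a b, m = X.l a (X.r s b)}) :
    ∃ (F : ZBim A) (n : ℕ), F.IsSemiFree (Fin n) ∧ IsHRetract X F := by
  classical
  obtain ⟨x, deg, rk, hdeg, ⟨hinj, hsurj⟩, hD⟩ := hX
  -- a finite set of basis elements which generates `S`
  choose f hf using hsurj
  let T : Finset I := S.biUnion fun s => (f s).support
  obtain ⟨N, hN⟩ : ∃ N, ∀ i ∈ T, rk i < N :=
    ⟨T.sup rk + 1, fun i hi => Nat.lt_succ_of_le (Finset.le_sup hi)⟩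
  obtain ⟨J, hTJ, -, hJ⟩ := GRef.closure X x rk hD N T hN
  have hDJ : ∀ i ∈ J, X.D (x i) ∈ GRef.spn X x J := fun i hi => GRef.spr_le X x rk J _ (hJ i hi)
  have hSJ : ∀ s ∈ S, s ∈ GRef.spn X x J := by
    intro s hs
    have h1 : X.comb x (f s) ∈ GRef.spn X x J := by
      unfold ZBim.comb
      rw [Finsupp.lsum_apply, Finsupp.sum]
      refine Submodule.sum_mem _ fun i hi => ?_
      have hiJ : i ∈ J := hTJ (Finset.mem_biUnion.mpr ⟨s, hs, hi⟩)
      induction (f s) i using TensorProduct.induction_on with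
      | zero => rw [map_zero]; exact Submodule.zero_mem _
      | tmul a b =>
        rw [GRef.act_tmul]
        exact Submodule.subset_span ⟨i, hiJ, a, b, rfl⟩
      | add u v hu hv => rw [map_add]; exact Submodule.add_mem _ hu hv
    rw [hf s] at h1
    exact h1
  have hgJ : ∀ v, g v ∈ GRef.spn X x J := by
    intro v
    refine Submodule.span_le.mpr ?_ (hS v)
    rintro m ⟨s, hs, a, b, rfl⟩
    exact GRef.spn_l X x J _ _ (GRef.spn_r X x J _ (hSJ s hs) _)
  have hg0 : ∀ v, GRef.gpart X.internal g 0 v ∈ GRef.spn X x J := by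
    intro v
    refine GRef.mem_int X.internal ((GRef.spn X x J).comap (GRef.gpart X.internal g 0))
      (fun i v hv => ?_) v
    change GRef.gpart X.internal g 0 v ∈ GRef.spn X x J
    rw [GRef.gpart_apply X.internal g 0 hv]
    exact GRef.spn_pj X x deg hdeg J _ _ (hgJ v)
  have hEgr : ∀ i, ∀ a ∈ A.gr i, A.E a ∈ A.gr i := by
    intro i a ha
    rcases GRef.E_hom A ha with h | h
    · rw [h]; exact ha
    · rw [h]; exact Submodule.neg_mem _ ha
  have hhom := GRef.gpart_homotopy X.toZD g h hgh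
  have hD0 : ∀ v, GRef.gpart X.internal g 0 (X.D v) = X.D (GRef.gpart X.internal g 0 v) := by
    intro v
    rw [hhom, hhom, X.DD, map_zero, add_zero, map_add, map_add, X.DD, add_zero]
  refine ⟨_, J.card, GRef.sub_semiFree X x deg rk hdeg hinj J hJ, ?_, ?_,
    GRef.gpart X.internal h (-1), ?_, ?_, ?_, ?_⟩
  · exact
      { f := (GRef.gpart X.internal g 0).codRestrict (GRef.spn X x J) hg0
        l := fun a m => Subtype.ext
          (GRef.gpart_l X g 0 LinearMap.id (fun _ _ h => h) hgl a m)
        r := fun m a => Subtype.ext (GRef.gpart_r X g 0 hgr m a)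
        D := fun m => Subtype.ext (hD0 m)
        gr := fun i m hm => by
          have := GRef.gpart_mem X.internal g 0 hm
          rw [add_zero] at this
          exact this }
  · exact
      { f := (GRef.spn X x J).subtype
        l := fun a m => rfl
        r := fun m a => rfl
        D := fun m => rfl
        gr := fun i m hm => hm }
  · intro i v hv
    exact GRef.gpart_mem X.internal h (-1) hv
  · exact GRef.gpart_l X h (-1) A.E hEgr hhl
  · exact GRef.gpart_r X h (-1) hhr
  · intro v
    exact hhom v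

end ZBim

end NC
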