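import Mathlib
import Pool.Agent.H28.NC.One
import Pool.Agent.H16.NC.ZClo

/-!
# The Lefschetz formula
-/

set_option autoImplicit false

noncomputable section

namespace NC

variable {k : Type} [Field k] {A : DGA k}

theorem lefschetz (hPF : PF A (BMod.diag A)) (hA : A.toSD.FinH) (M : BMod A A) (I : Type)
    (hS : SemiFree M.b I) (hR : RPf M.b.r) : Lefschetz M := by
  obtain ⟨z0, h0, hz0, hh⟩ := exists_lift_id hPF M hS hR
  exact lefschetz_of hPF hA M hR z0 hz0 h0 hh (one_lift M hR z0 hz0 h0 hh)

end NC
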