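import Mathlib
import Pool.Agent.H94.NC.Asm

/-!
# The supertrace of the identity and of the projections
-/

set_option autoImplicit false

open scoped TensorProduct

noncomputable section

namespace NC

variable {k : Type} [Field k]

theorem strP_piMinus_add (A : ZDGA k) :
    strP A A.piPlus + strP A A.piMinus = strP A LinearMap.id := by
  rw [← map_add]
  refine congrArg _ (LinearMap.ext (fun x => ?_))
  obtain ⟨x, y⟩ := x
  refine Prod.ext ?_ ?_
  · change x + 0 = x
    rw [add_zero]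
  · change 0 + y = y
    rw [zero_add]

open CycMod in
theorem strP_id (A : ZDGA k) [FiniteDimensional k A.cyc.HT] :
    strP A LinearMap.id = SD.chi (HC A.toDGA.diag) := by
  have hg : Function.Bijective (ZHom.id A).cyc.HT := by
    rw [ZHom.id_HT]; exact Function.bijective_id
  rw [strP_eq (ZHom.id A) (ZHom.id A) hg LinearMap.id (fun x => rfl)]
  have h1 : zz (ZHom.id A).cyc.HT (ZHom.id A).cyc.HT hg = LinearMap.id := by
    refine (zz_eq _ _ _ _ (fun x => ?_)).symm
    rfl
  rw [h1, A.trace_ht]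
  unfold SD.chi
  refine congrArg _ (LinearMap.ext (fun c => ?_))
  simp only [LinearMap.comp_apply, LinearEquiv.coe_coe, LinearMap.id_apply,
    LinearEquiv.symm_apply_apply]

/-- the conclusions for the projections -/
theorem pi_not_alg (A : ZDGA k) [FiniteDimensional k A.cyc.HT] [FiniteDimensional k (A.HP 0)]
    (hne : (Module.finrank k (A.HP 0) : k) ≠ 0) (hchi : SD.chi (HC A.toDGA.diag) = 0)
    (hcor : ∀ φ ∈ A.corrMaps, strP A φ = 0) :
    (∀ (F : Type) [Field F] [Algebra F k], ¬ A.AlgSub F A.piPlus ∧ ¬ A.AlgSub F A.piMinus) ∧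
    (∀ (F : Type) [Field F] [Algebra k F], ¬ A.AlgExt F A.piPlus ∧ ¬ A.AlgExt F A.piMinus) := by
  have h1 : strP A A.piPlus ≠ 0 := by
    rw [strP_piPlus]
    exact hne
  have h2 : strP A A.piMinus ≠ 0 := by
    intro h
    have h3 := strP_piMinus_add A
    rw [h, add_zero, strP_id, hchi] at h3
    exact h1 h3
  exact ⟨fun F _ _ => ⟨not_algSub A hcor F _ h1, not_algSub A hcor F _ h2⟩,
    fun F _ _ => ⟨not_algExt A hcor F _ h1, not_algExt A hcor F _ h2⟩⟩

theorem strP_corr {A : ZDGA k} [FiniteDimensional k A.cyc.HT]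
    (hL : ∀ M : ZBim A, M.IsCorr → Lefschetz M.bm)
    (hchi : ∀ M : ZBim A, M.IsCorr → SD.chi (HC M.bm.b) = 0) :
    ∀ φ ∈ A.corrMaps, strP A φ = 0 := by
  rintro φ ⟨M, hM, hφ⟩
  rw [strP_eq M.rhoM M.iM (M.iM_HT_bij hM) φ hφ]
  exact hstr_of_lefschetz M (hL M hM) (hchi M hM) _ (fun x => zz_spec _ _ _ x)

end NC
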