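import Pool.Agent.H36.NX.Index

/-!
# The index hypothesis for discretely valued fields of characteristic 3

The proof is the one of helper36 for `F_3(t)` (`H36/NX/Index.lean`), for a Dedekind domain `A` with
a prime element `ϖ` in place of `F_3[t]` and `t`.
-/

set_option autoImplicit false

namespace H36.NX

open WithZero Module Polynomial

set_option linter.deprecated false in
/-- the index hypothesis holds for a prime element of a Dedekind domain of characteristic 3 -/
theorem indexThree_dedekind (A : Type) [CommRing A] [IsDedekindDomain A] (K : Type) [Field K]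
    [Algebra A K] [IsFractionRing A K] [CharP K 3] {ϖ : A} (hϖ : Prime ϖ) :
    IndexThree K (algebraMap A K ϖ) := by
  intro L _ _ _ x y z hne hrel
  by_contra h3
  have : Fact (Nat.Prime 3) := ⟨Nat.prime_three⟩
  have hsep : Algebra.IsSeparable K L := index_separable h3
  let : Algebra A L := ((algebraMap K L).comp (algebraMap A K)).toAlgebra
  have : IsScalarTower A K L := IsScalarTower.of_algebraMap_eq fun _ => rfl
  let S := integralClosure A L
  have : IsFractionRing S L :=
    integralClosure.isFractionRing_of_finite_extension K L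
  have : Module.Finite A S := IsIntegralClosure.finite A K L S
  have : IsDedekindDomain S := integralClosure.isDedekindDomain A K L
  have hinj : Function.Injective (algebraMap A S) := by
    have h1 : Function.Injective (algebraMap A L) :=
      (algebraMap K L).injective.comp (IsFractionRing.injective A K)
    exact Function.Injective.of_comp (f := algebraMap S L) h1
  have htf : Module.IsTorsionFree A S := Module.isTorsionFree_iff_algebraMap_injective.2 hinj
  let p : Ideal A := Ideal.span {ϖ}
  have hp0 : p ≠ ⊥ := by
    simp only [p, Ne, Ideal.span_singleton_eq_bot]; exact hϖ.ne_zero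
  have hpp : p.IsPrime := (Ideal.span_singleton_prime hϖ.ne_zero).2 hϖ
  have hpmax : p.IsMaximal := hpp.isMaximal hp0
  have hsum := Ideal.sum_ramification_inertia S K L hp0
  obtain ⟨P, hP, hPe⟩ : ∃ P ∈ IsDedekindDomain.primesOverFinset p S,
      ¬ 3 ∣ Ideal.ramificationIdx' p P := by
    by_contra hcon
    push Not at hcon
    apply h3
    rw [← hsum]
    exact Finset.dvd_sum fun P hP => Dvd.dvd.mul_right (hcon P hP) _
  obtain ⟨hPp, hPl⟩ := (IsDedekindDomain.mem_primesOverFinset_iff hp0 _).1 hP
  have hPbot : P ≠ ⊥ := by
    rintro rfl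
    apply hp0
    have h1 := hPl.over
    rw [h1]
    refine (Ideal.comap_bot_of_injective _ ?_)
    exact hinj
  let v : IsDedekindDomain.HeightOneSpectrum S := ⟨P, hPp, hPbot⟩
  have hXS : algebraMap A S ϖ ≠ 0 := by
    intro h
    exact hϖ.ne_zero (hinj (h.trans (map_zero _).symm))
  obtain ⟨n, hn⟩ : ∃ n : ℕ, v.intValuation (algebraMap A S ϖ) = exp (-(n : ℤ)) :=
    ⟨_, v.intValuation_if_neg hXS⟩
  have hmap : ∀ j : ℕ, Ideal.map (algebraMap A S) p ≤ P ^ j ↔ j ≤ n := by
    intro j
    rw [Ideal.map_span, Set.image_singleton, Ideal.span_singleton_le_iff_mem]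
    change algebraMap A S ϖ ∈ v.asIdeal ^ j ↔ _
    rw [← v.intValuation_le_pow_iff_mem, hn, exp_le_exp]
    omega
  have hen : Ideal.ramificationIdx' p P = n :=
    Ideal.ramificationIdx'_spec ((hmap n).2 le_rfl) (fun h => by
      have := (hmap (n + 1)).1 h; omega)
  rw [hen] at hPe
  have hvt : v.valuation L (algebraMap K L (algebraMap A K ϖ)) = exp (-(n : ℤ)) := by
    rw [← hn, ← v.valuation_of_algebraMap (K := L)]
    congr 1
  have hn0 : (0 : ℤ) < n := by
    rcases Nat.eq_zero_or_pos n with h | h
    · exact absurd (h ▸ dvd_zero 3) hPe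
    · exact_mod_cast h
  exact index_val_contra (v.valuation L) (algebraMap K L (algebraMap A K ϖ)) n hvt
    (by intro h; apply hPe; exact_mod_cast h) hn0 x y z hne (by simpa only [map_pow] using hrel)

/-- the index hypothesis holds for `k(t)`, `k` any field of characteristic 3 -/
theorem indexThree_ratFuncK (k : Type) [Field k] [CharP k 3] :
    IndexThree (RatFunc k) RatFunc.X := by
  have : CharP (RatFunc k) 3 := charP_of_injective_algebraMap (algebraMap k (RatFunc k)).injective 3
  have h := indexThree_dedekind k[X] (RatFunc k) (prime_X (R := k))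
  rwa [RatFunc.algebraMap_X] at h

end H36.NX
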