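import Pool.Agent.H16.NC.EDat
import Pool.Agent.H16.NC.Tri

/-!
# Two-B, part a: maps on Hochschild complexes given by pairings
-/

set_option autoImplicit false

open scoped TensorProduct

noncomputable section

namespace NC

variable {k : Type} [Field k]

section gen

variable {R S : DGA k} {X Y Z N : SD k}

/-- `y ⊗ w ↦` the head `x` of `w` is replaced by `ν(y ⊗ x)` -/
def hnT (bX : Bi R R X) (bN : Bi R R N) (ν : SD.Hom (Y.tens X) N)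
    (h : (bX.tensR Y).IsHom bN ν) : SD.Hom (Y.tens (HC bX)) (HC bN) :=
  (hcN (bX.tensR Y) bN ν h).comp (crR Y bX)

theorem hnT_tmul (bX : Bi R R X) (bN : Bi R R N) (ν : SD.Hom (Y.tens X) N)
    (h : (bX.tensR Y).IsHom bN ν) (y : Y.V) (w : Wd k X.V R.V) :
    (hnT bX bN ν h).f (y ⊗ₜ w) = hn R ν y w := by
  change Wd.mh R.V ν.f (xh R.toSD Y X y w) = hn R ν y w
  induction w using Wd.induction with
  | hadd a b ha hb => simp only [map_add, ha, hb]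
  | hnil x => rw [xh_nil, Wd.mh_nil, hn_nil]; rfl
  | hsnoc w hw r => rw [xh_snoc, Wd.mh_snoc, hw, hn_snoc]

theorem hn_m1 (ν : SD.Hom (Y.tens X) N) (ρ : RA S Y) (l : LA S X)
    (h : ∀ y r x, ν.f (ρ.act y r ⊗ₜ x) = ν.f (y ⊗ₜ l.act r x)) (y : Y.V) (r : S.V)
    (w : Wd k X.V R.V) : hn R ν (ρ.act y r) w = hn R ν y (hd R l r w) := by
  induction w using Wd.induction with
  | hadd a b ha hb => simp only [map_add, ha, hb]
  | hnil x => rw [hn_nil, hd_nil, hn_nil, bl_apply, bl_apply, h]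
  | hsnoc w hw s => rw [hn_snoc, hd_snoc, hn_snoc, hw]

theorem hn_m2 (ν : SD.Hom (Y.tens X) N) (l : LA S Y) (r : RA S X)
    (h : ∀ y x t, ν.f (y ⊗ₜ r.act x t) = ν.f (l.act (S.P t) y ⊗ₜ x) +
      ν.f (l.act (t - S.P t) (Y.E y) ⊗ₜ X.E x)) (y : Y.V) (t : S.V) (w : Wd k X.V R.V) :
    hn R ν y (hr R r w t) = hn R ν (l.act (S.P t) y) w +
      hn R ν (l.act (t - S.P t) (Y.E y)) (EW X R.toSD w) := by
  induction w using Wd.induction generalizing t with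
  | hadd a b ha hb => simp only [map_add, ha, hb, LinearMap.add_apply]; abel
  | hnil x =>
    rw [hr_nil, hn_nil, hn_nil, EW_nil, hn_nil, bl_apply, bl_apply, bl_apply, h, map_add]
  | hsnoc w hw s =>
    rw [hr_snoc, map_sub, hn_snoc, hn_snoc, hw, hw, hn_snoc, EW_snoc, map_neg, hn_snoc]
    simp only [S.PP, map_sub, LinearMap.sub_apply, sub_self,
      map_zero, LinearMap.zero_apply, add_zero, sub_zero, zero_add]
    abel

theorem hn_hn {U V W : SD k} (ν1 : SD.Hom (U.tens Y) Z) (ν2 : SD.Hom (V.tens X) Y)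
    (ν3 : SD.Hom (W.tens X) Z) (u : U.V) (v : V.V) (p : W.V)
    (h : ∀ x, ν1.f (u ⊗ₜ ν2.f (v ⊗ₜ x)) = ν3.f (p ⊗ₜ x)) (w : Wd k X.V R.V) :
    hn R ν1 u (hn R ν2 v w) = hn R ν3 p w := by
  induction w using Wd.induction with
  | hadd a b ha hb => simp only [map_add, ha, hb]
  | hnil x => rw [hn_nil, hn_nil, hn_nil, bl_apply, bl_apply, bl_apply, h]
  | hsnoc w hw s => rw [hn_snoc, hn_snoc, hn_snoc, hw]

end gen

/-! ### bimodule maps of any parity -/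

section bi

variable {R A B : DGA k} {X Y Z N : SD k}

/-- evaluation of bimodule maps -/
def evBi (bY : Bi A B Y) (bZ : Bi A B Z) : SD.Hom ((HomBi bY bZ).tens Y) Z :=
  (homEv Y Z).comp ((SD.subIncl (SD.hom Y Z) _ _ _).tens (SD.Hom.id Y))

theorem evBi_tmul (bY : Bi A B Y) (bZ : Bi A B Z) (ξ : (HomBi bY bZ).V) (y : Y.V) :
    (evBi bY bZ).f (ξ ⊗ₜ y) = ξ.1 y := rfl

theorem homBi_even {bY : Bi A B Y} {bZ : Bi A B Z} (ξ : (HomBi bY bZ).V) (s : A.V) (y : Y.V) :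
    ξ.1 (bY.l.act (A.P s) y) = bZ.l.act (A.P s) (ξ.1 y) := by
  have h : ξ.1 (bY.l.act (A.P s) y) = bZ.l.act (A.P s) (SD.hP Y Z ξ.1 y) +
    bZ.l.act (A.E (A.P s)) (ξ.1 y - SD.hP Y Z ξ.1 y) := ξ.2.1 (A.P s) y
  rw [h, A.EP, ← map_add, add_sub_cancel]

theorem homBi_odd {bY : Bi A B Y} {bZ : Bi A B Z} (ξ : (HomBi bY bZ).V) (s : A.V) (y : Y.V) :
    Z.E (ξ.1 (Y.E (bY.l.act (s - A.P s) y))) = bZ.l.act (s - A.P s) (ξ.1 y) := by
  have h1 : ξ.1 (bY.l.act (s - A.P s) y) = bZ.l.act (s - A.P s) (SD.hP Y Z ξ.1 y) +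
    bZ.l.act (A.E (s - A.P s)) (ξ.1 y - SD.hP Y Z ξ.1 y) := ξ.2.1 (s - A.P s) y
  have h2 : SD.hP Y Z ξ.1 (bY.l.act (s - A.P s) y) =
      bZ.l.act (s - A.P s) (SD.hP Y Z (SD.hP Y Z ξ.1) y) +
    bZ.l.act (A.E (s - A.P s)) (SD.hP Y Z ξ.1 y - SD.hP Y Z (SD.hP Y Z ξ.1) y) :=
    (lLin_P bY.l bZ.l ξ.1 ξ.2.1) (s - A.P s) y
  have h3 : SD.hP Y Z (SD.hP Y Z ξ.1) = SD.hP Y Z ξ.1 := (SD.hom Y Z).PP ξ.1
  rw [h3, sub_self, map_zero, add_zero] at h2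
  have h4 : Z.E (ξ.1 (Y.E (bY.l.act (s - A.P s) y))) =
      SD.hP Y Z ξ.1 (bY.l.act (s - A.P s) y) + SD.hP Y Z ξ.1 (bY.l.act (s - A.P s) y) -
        ξ.1 (bY.l.act (s - A.P s) y) := (SD.hE_apply Y Z ξ.1 _).symm
  rw [h4, h2, h1, A.E_odd, map_neg, LinearMap.neg_apply]
  generalize bZ.l.act (s - A.P s) = L
  rw [map_sub]
  abel

theorem evBi_isHom (bY : Bi A B Y) (bZ : Bi A B Z) :
    (bY.tensR (HomBi bY bZ)).IsHom bZ (evBi bY bZ) := by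
  constructor
  · intro s v
    refine tens_ext (f := (evBi bY bZ).f ∘ₗ (bY.tensR (HomBi bY bZ)).l.act s)
      (g := bZ.l.act s ∘ₗ (evBi bY bZ).f) (fun ξ y => ?_) v
    have h1 : (bY.tensR (HomBi bY bZ)).l.act s (ξ ⊗ₜ y) = ξ ⊗ₜ bY.l.act (A.P s) y +
      (HomBi bY bZ).E ξ ⊗ₜ bY.l.act (s - A.P s) y := rfl
    rw [LinearMap.comp_apply, h1, map_add, evBi_tmul, evBi_tmul, homBi_even]
    have h2 : ((HomBi bY bZ).E ξ).1 (bY.l.act (s - A.P s) y) =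
      Z.E (ξ.1 (Y.E (bY.l.act (s - A.P s) y))) := SD.hE_apply Y Z ξ.1 _
    rw [h2, homBi_odd, ← LinearMap.add_apply, ← map_add, add_sub_cancel]
    rfl
  · intro v b
    refine tens_ext (f := (evBi bY bZ).f ∘ₗ (bY.tensR (HomBi bY bZ)).r.act.flip b)
      (g := bZ.r.act.flip b ∘ₗ (evBi bY bZ).f) (fun ξ y => ?_) v
    exact ξ.2.2 y b

/-- functoriality of the Hochschild complex for bimodule maps of any parity -/
def HCf (bY : Bi A A Y) (bZ : Bi A A Z) : SD.Hom (HomBi bY bZ) (SD.hom (HC bY) (HC bZ)) :=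
  (hnT bY bZ (evBi bY bZ) (evBi_isHom bY bZ)).curry

theorem HCf_apply (bY : Bi A A Y) (bZ : Bi A A Z) (ξ : (HomBi bY bZ).V) (w : Wd k Y.V A.V) :
    (HCf bY bZ).f ξ w = hn A (evBi bY bZ) ξ w := hnT_tmul _ _ _ (evBi_isHom bY bZ) _ _

/-- the map `x^ : HC(Q) → HC(Z)` -/
def hat (bZ : Bi A A Z) : SD.Hom Z (SD.hom (HC (bOut A)) (HC bZ)) :=
  (hnT (bOut A) bZ (kap bZ) (kap_isHom bZ)).curry

theorem hat_apply (bZ : Bi A A Z) (z : Z.V) (w : Wd k (QQ A).V A.V) :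
    (hat bZ).f z w = hn A (kap bZ) z w := hnT_tmul _ _ _ (kap_isHom bZ) _ _

end bi

end NC
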