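import Pool.Agent.H94.NC.TwoBb

/-!
# Two-B, part c: pairings and traces, general form
-/

set_option autoImplicit false

open scoped TensorProduct

noncomputable section

namespace NC

variable {k : Type} [Field k] {A : DGA k} {X V W : SD k}

/-! ### the pairings with `hom V W` -/

/-- `x ⊗ n ↦ μ(x ⊗ -) ∘ n` -/
def muN (μ : SD.Hom (X.tens W) V) : SD.Hom (X.tens (SD.hom V W)) (SD.hom V V) :=
  (compH V W V).comp (μ.curry.tens (SD.Hom.id (SD.hom V W)))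

/-- `n ⊗ x ↦ n ∘ μ(x ⊗ -)` -/
def nuN (μ : SD.Hom (X.tens W) V) : SD.Hom ((SD.hom V W).tens X) (SD.hom W W) :=
  (compH W V W).comp ((SD.Hom.id (SD.hom V W)).tens μ.curry)

theorem muN_apply (μ : SD.Hom (X.tens W) V) (x : X.V) (n : V.V →ₗ[k] W.V) (v : V.V) :
    (muN μ).f (x ⊗ₜ n) v = μ.f (x ⊗ₜ n v) := rfl

theorem nuN_apply (μ : SD.Hom (X.tens W) V) (x : X.V) (n : V.V →ₗ[k] W.V) (w : W.V) :
    (nuN μ).f (n ⊗ₜ x) w = n (μ.f (x ⊗ₜ w)) := rfl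

theorem muN_D (bX : Bi A A X) (bW : Bi A A W) (μ : SD.Hom (X.tens W) V) (h : MuD bX bW μ) :
    MuD bX (Nb bW V) (muN μ) where
  m1 := fun x r n => LinearMap.ext (fun v => h.m1 x r (n v))
  m2 := fun x n t => by
    refine LinearMap.ext (fun v => ?_)
    have e1 : (muN μ).f (x ⊗ₜ (Nb bW V).r.act n t) v =
      μ.f (x ⊗ₜ (bW.r.act (n v) (A.P t) + bW.r.act (n (V.E v)) (t - A.P t))) := rfl
    have e2 : ((muN μ).f (bX.l.act (A.P t) x ⊗ₜ n) +
        (muN μ).f (bX.l.act (t - A.P t) (X.E x) ⊗ₜ (SD.hom V W).E n)) v =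
      μ.f (bX.l.act (A.P t) x ⊗ₜ n v) +
        μ.f (bX.l.act (t - A.P t) (X.E x) ⊗ₜ (SD.hom V W).E n v) := rfl
    rw [e1, e2, SD.hom_E, TensorProduct.tmul_add, map_add, h.m2, h.m2]
    simp only [map_sub, A.PP, sub_self, map_zero, LinearMap.zero_apply, sub_zero,
      TensorProduct.zero_tmul, add_zero, zero_add]

theorem nuN_D (bX : Bi A A X) (bW : Bi A A W) (μ : SD.Hom (X.tens W) V) (h : MuD bX bW μ) :
    NuD bX (Nb bW V) (E1 bW) (E2 bW) (nuN μ) where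
  h1 := fun r n x => rfl
  h2 := fun n x r => LinearMap.ext (fun w => congrArg n (h.m1 x r w))
  h3 := fun n x s => by
    refine LinearMap.ext (fun w => ?_)
    have e1 : (nuN μ).f ((Nb bW V).r.act n s ⊗ₜ x) w =
      bW.r.act (n (μ.f (x ⊗ₜ w))) (A.P s) + bW.r.act (n (V.E (μ.f (x ⊗ₜ w)))) (s - A.P s) :=
      rfl
    have e2 : ((E2 bW).r.act ((nuN μ).f (n ⊗ₜ x)) (A.P s) +
        (E2 bW).r.act ((nuN μ).f (n ⊗ₜ X.E x)) (s - A.P s)) w =
      (bW.r.act (n (μ.f (x ⊗ₜ w))) (A.P (A.P s)) +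
        bW.r.act (n (μ.f (x ⊗ₜ W.E w))) (A.P s - A.P (A.P s))) +
      (bW.r.act (n (μ.f (X.E x ⊗ₜ w))) (A.P (s - A.P s)) +
        bW.r.act (n (μ.f (X.E x ⊗ₜ W.E w))) ((s - A.P s) - A.P (s - A.P s))) := rfl
    have e3 : V.E (μ.f (x ⊗ₜ w)) = μ.f (X.E x ⊗ₜ W.E w) := bl_E μ x w
    rw [e1, e2, e3]
    simp only [map_sub, A.PP, sub_self, map_zero, sub_zero, add_zero, zero_add]
  h4 := fun n s x => by
    refine LinearMap.ext (fun w => ?_)
    have e1 : (nuN μ).f (n ⊗ₜ bX.l.act s x) w = n (μ.f (bX.l.act s x ⊗ₜ w)) := rfl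
    have e2 : ((E2 bW).l.act (A.P s) ((nuN μ).f (n ⊗ₜ x)) +
        (E2 bW).l.act (s - A.P s) ((nuN μ).f ((SD.hom V W).E n ⊗ₜ x))) w =
      (n (μ.f (x ⊗ₜ bW.r.act w (A.P (A.P s)))) -
        W.E (n (μ.f (x ⊗ₜ bW.r.act w (A.P s - A.P (A.P s)))))) +
      ((SD.hom V W).E n (μ.f (x ⊗ₜ bW.r.act w (A.P (s - A.P s)))) -
        W.E ((SD.hom V W).E n (μ.f (x ⊗ₜ bW.r.act w ((s - A.P s) - A.P (s - A.P s)))))) := rfl
    have e3 : μ.f (x ⊗ₜ bW.r.act w (A.P s)) = μ.f (bX.l.act (A.P s) x ⊗ₜ w) := by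
      rw [h.m2, A.PP, sub_self, map_zero, LinearMap.zero_apply, TensorProduct.zero_tmul,
        map_zero, add_zero]
    have e4 : V.E (μ.f (x ⊗ₜ bW.r.act w (s - A.P s))) = -μ.f (bX.l.act (s - A.P s) x ⊗ₜ w) := by
      have h1 : A.P (s - A.P s) = 0 := by rw [map_sub, A.PP, sub_self]
      have h2 : ∀ x w, V.E (μ.f (x ⊗ₜ w)) = μ.f (X.E x ⊗ₜ W.E w) := bl_E μ
      rw [h.m2, h1, map_zero, LinearMap.zero_apply, TensorProduct.zero_tmul, map_zero, zero_add,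
        sub_zero, h2, bX.l.E_act, X.EE, W.EE, A.E_odd, map_neg, LinearMap.neg_apply,
        TensorProduct.neg_tmul, map_neg]
    have h1 : A.P (s - A.P s) = 0 := by rw [map_sub, A.PP, sub_self]
    rw [e1, e2, A.PP, sub_self, h1, sub_zero, map_zero, TensorProduct.tmul_zero, map_zero,
      map_zero, map_zero, map_zero, sub_zero, zero_sub, e3, SD.hom_E, W.EE, e4, map_neg, neg_neg,
      ← map_add, ← map_add, ← TensorProduct.add_tmul, ← LinearMap.add_apply, ← map_add,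
      add_sub_cancel]

end NC
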