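import Pool.Agent.H94.NC.TwoBc

/-!
# Two-B, part d: pairings with `V* ⊗ W`
-/

set_option autoImplicit false

open scoped TensorProduct

noncomputable section

namespace NC

variable {k : Type} [Field k] {A : DGA k} {X Y V W : SD k}

/-- the linear map underlying the braiding -/
def brS0 (X Y : SD k) : X.V ⊗[k] Y.V →ₗ[k] Y.V ⊗[k] X.V :=
  (TensorProduct.map Y.P LinearMap.id + TensorProduct.map (LinearMap.id - Y.P) X.E) ∘ₗ
    (TensorProduct.comm k X.V Y.V).toLinearMap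

theorem brS0_tmul (X Y : SD k) (x : X.V) (y : Y.V) :
    brS0 X Y (x ⊗ₜ y) = Y.P y ⊗ₜ x + (y - Y.P y) ⊗ₜ X.E x := rfl

/-- the braiding `x ⊗ y ↦ (-1)^(|x||y|) y ⊗ x` -/
def brS (X Y : SD k) : SD.Hom (X.tens Y) (Y.tens X) where
  f := brS0 X Y
  D := fun v => by
    refine tens_ext (f := brS0 X Y ∘ₗ SD.tD X Y) (g := SD.tD Y X ∘ₗ brS0 X Y)
      (fun x y => ?_) v
    simp only [LinearMap.comp_apply, SD.tD_tmul, map_add, brS0_tmul, Y.EP, X.EE, X.DE,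
      Y.DP, map_sub, TensorProduct.sub_tmul, TensorProduct.tmul_neg, Y.E_apply,
      TensorProduct.add_tmul]
    abel
  P := fun v => by
    refine tens_ext (f := brS0 X Y ∘ₗ SD.tP X Y) (g := SD.tP Y X ∘ₗ brS0 X Y)
      (fun x y => ?_) v
    simp only [LinearMap.comp_apply, SD.tP_tmul, map_add, brS0_tmul, Y.PP, map_sub, sub_self,
      X.PE, X.EP, sub_zero, TensorProduct.zero_tmul, add_zero, zero_add]

theorem brS_tmul (X Y : SD k) (x : X.V) (y : Y.V) :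
    (brS X Y).f (x ⊗ₜ y) = Y.P y ⊗ₜ x + (y - Y.P y) ⊗ₜ X.E x := rfl

/-! ### the pairings -/

/-- `x ⊗ (λ ⊗ w) ↦ (-1)^(|x||λ|) λ ⊗ μ(x ⊗ w)` -/
def muS (μ : SD.Hom (X.tens W) V) : SD.Hom (X.tens (V.dual.tens W)) (V.dual.tens V) :=
  (((SD.Hom.id V.dual).tens μ).comp (assocS V.dual X W)).comp
    (((brS X V.dual).tens (SD.Hom.id W)).comp (assocS' X V.dual W))

theorem muS_tmul (μ : SD.Hom (X.tens W) V) (x : X.V) (f : V.V →ₗ[k] k) (w : W.V) :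
    (muS μ).f (x ⊗ₜ (f ⊗ₜ w)) = V.dual.P f ⊗ₜ μ.f (x ⊗ₜ w) +
      (f - V.dual.P f) ⊗ₜ μ.f (X.E x ⊗ₜ w) := by
  change (((SD.Hom.id V.dual).tens μ).comp (assocS V.dual X W)).f
    ((V.dual.P f ⊗ₜ[k] x + (f - V.dual.P f) ⊗ₜ[k] X.E x) ⊗ₜ[k] w) = _
  rw [TensorProduct.add_tmul, map_add]
  rfl

/-- `(λ ⊗ w) ⊗ x ↦ (-1)^(|w||x|) λ(μ(x ⊗ -)) ⊗ w` -/
def nuS (μ : SD.Hom (X.tens W) V) : SD.Hom ((V.dual.tens W).tens X) (W.dual.tens W) :=
  ((((compH W V (SD.unit k)).comp ((SD.Hom.id V.dual).tens μ.curry)).tens (SD.Hom.id W)).comp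
    (assocS' V.dual X W)).comp (((SD.Hom.id V.dual).tens (brS W X)).comp (assocS V.dual W X))

/-- `λ(μ(x ⊗ -))` -/
def pbk (μ : SD.Hom (X.tens W) V) (f : V.V →ₗ[k] k) (x : X.V) : W.V →ₗ[k] k :=
  f ∘ₗ μ.curry.f x

theorem nuS_tmul (μ : SD.Hom (X.tens W) V) (x : X.V) (f : V.V →ₗ[k] k) (w : W.V) :
    (nuS μ).f ((f ⊗ₜ w) ⊗ₜ x) = pbk μ f (X.P x) ⊗ₜ w + pbk μ f (x - X.P x) ⊗ₜ W.E w := by
  change (((((compH W V (SD.unit k)).comp ((SD.Hom.id V.dual).tens μ.curry)).tens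
    (SD.Hom.id W)).comp (assocS' V.dual X W))).f
    (f ⊗ₜ[k] (X.P x ⊗ₜ[k] w + (x - X.P x) ⊗ₜ[k] W.E w)) = _
  rw [TensorProduct.tmul_add, map_add]
  rfl

theorem pbk_add (μ : SD.Hom (X.tens W) V) (f : V.V →ₗ[k] k) (x y : X.V) :
    pbk μ f (x + y) = pbk μ f x + pbk μ f y := by
  unfold pbk; rw [map_add, LinearMap.comp_add]
theorem pbk_sub (μ : SD.Hom (X.tens W) V) (f : V.V →ₗ[k] k) (x y : X.V) :
    pbk μ f (x - y) = pbk μ f x - pbk μ f y := by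
  unfold pbk; rw [map_sub, LinearMap.comp_sub]
theorem pbk_neg (μ : SD.Hom (X.tens W) V) (f : V.V →ₗ[k] k) (x : X.V) :
    pbk μ f (-x) = -pbk μ f x := by
  unfold pbk; rw [map_neg, LinearMap.comp_neg]
theorem pbk_zero (μ : SD.Hom (X.tens W) V) (f : V.V →ₗ[k] k) :
    pbk μ f (0 : X.V) = 0 := by
  unfold pbk; rw [map_zero, LinearMap.comp_zero]

theorem pbk_apply (μ : SD.Hom (X.tens W) V) (f : V.V →ₗ[k] k) (x : X.V) (w : W.V) :
    pbk μ f x w = f (μ.f (x ⊗ₜ w)) := rfl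

theorem dual_E (V : SD k) (f : V.V →ₗ[k] k) (v : V.V) : V.dual.E f v = f (V.E v) := by
  refine (SD.hom_E V (SD.unit k) f v).trans ?_
  change f (V.E v) + f (V.E v) - f (V.E v) = _
  abel

theorem dual_P (V : SD k) (f : V.V →ₗ[k] k) (v : V.V) : V.dual.P f v = f (V.P v) := by
  refine (SD.hP_apply V (SD.unit k) f v).trans ?_
  change f (V.P v) + (f (v - V.P v) - f (v - V.P v)) = _
  abel

theorem E_pbk (μ : SD.Hom (X.tens W) V) (f : V.V →ₗ[k] k) (x : X.V) :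
    W.dual.E (pbk μ f x) = pbk μ (V.dual.E f) (X.E x) := by
  refine LinearMap.ext (fun w => ?_)
  rw [dual_E, pbk_apply, pbk_apply, dual_E]
  have e3 : V.E (μ.f (X.E x ⊗ₜ w)) = μ.f (X.E (X.E x) ⊗ₜ W.E w) := bl_E μ (X.E x) w
  rw [e3, X.EE]

theorem tensR_l_tmul (bW : Bi A A W) (s : A.V) (f : V.V →ₗ[k] k) (w : W.V) :
    (bW.tensR V.dual).l.act s (f ⊗ₜ w) = f ⊗ₜ bW.l.act (A.P s) w +
      V.dual.E f ⊗ₜ bW.l.act (s - A.P s) w := rfl
theorem tensR_r_tmul (bW : Bi A A W) (s : A.V) (f : V.V →ₗ[k] k) (w : W.V) :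
    (bW.tensR V.dual).r.act (f ⊗ₜ w) s = f ⊗ₜ bW.r.act w s := rfl

theorem muS_D (bX : Bi A A X) (bW : Bi A A W) (μ : SD.Hom (X.tens W) V) (h : MuD bX bW μ) :
    MuD bX (bW.tensR V.dual) (muS μ) where
  m1 := fun x r n => by
    refine tens_ext (f := (muS μ).f ∘ₗ TensorProduct.mk k X.V (V.dual.V ⊗[k] W.V)
        (bX.r.act x r))
      (g := (muS μ).f ∘ₗ TensorProduct.mk k X.V (V.dual.V ⊗[k] W.V) x ∘ₗ
        (bW.tensR V.dual).l.act r) (fun f w => ?_) n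
    change (muS μ).f (bX.r.act x r ⊗ₜ (f ⊗ₜ w)) =
      (muS μ).f (x ⊗ₜ (bW.tensR V.dual).l.act r (f ⊗ₜ w))
    rw [tensR_l_tmul, TensorProduct.tmul_add, map_add, muS_tmul, muS_tmul, muS_tmul,
      bX.r.E_act, h.m1, h.m1, V.dual.E_sub_P_E, V.dual.PE, A.E_apply]
    simp only [map_sub, map_add, LinearMap.sub_apply, LinearMap.add_apply,
      TensorProduct.tmul_sub, TensorProduct.tmul_add, TensorProduct.neg_tmul]
    abel
  m2 := fun x n t => by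
    refine tens_ext (f := (muS μ).f ∘ₗ TensorProduct.mk k X.V (V.dual.V ⊗[k] W.V) x ∘ₗ
        (bW.tensR V.dual).r.act.flip t)
      (g := (muS μ).f ∘ₗ TensorProduct.mk k X.V (V.dual.V ⊗[k] W.V) (bX.l.act (A.P t) x) +
        (muS μ).f ∘ₗ TensorProduct.mk k X.V (V.dual.V ⊗[k] W.V)
          (bX.l.act (t - A.P t) (X.E x)) ∘ₗ (V.dual.tens W).E) (fun f w => ?_) n
    have e3 : (V.dual.tens W).E (f ⊗ₜ w) = V.dual.E f ⊗ₜ W.E w := SD.tens_E V.dual W f w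
    change (muS μ).f (x ⊗ₜ (bW.tensR V.dual).r.act (f ⊗ₜ w) t) =
      (muS μ).f (bX.l.act (A.P t) x ⊗ₜ (f ⊗ₜ w)) +
        (muS μ).f (bX.l.act (t - A.P t) (X.E x) ⊗ₜ (V.dual.tens W).E (f ⊗ₜ w))
    rw [tensR_r_tmul, e3, muS_tmul, muS_tmul, muS_tmul, h.m2, h.m2, bX.l.E_act, bX.l.E_act,
      X.EE, V.dual.E_sub_P_E, V.dual.PE, A.EP, A.E_odd]
    simp only [map_neg, LinearMap.neg_apply, TensorProduct.neg_tmul, TensorProduct.tmul_neg,
      TensorProduct.tmul_add, neg_neg]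
    abel

/-- the rotation data for `V* ⊗ W` -/
theorem nuS_D (bX : Bi A A X) (bW : Bi A A W) (μ : SD.Hom (X.tens W) V) (h : MuD bX bW μ) :
    NuD bX (bW.tensR V.dual) (E1d bW) (E2d bW) (nuS μ) where
  h1 := fun r n x => by
    refine tens_ext (f := (nuS μ).f ∘ₗ (TensorProduct.mk k (V.dual.V ⊗[k] W.V) X.V).flip x ∘ₗ
        (bW.tensR V.dual).l.act r)
      (g := (E1d bW).l.act r ∘ₗ (nuS μ).f ∘ₗ
        (TensorProduct.mk k (V.dual.V ⊗[k] W.V) X.V).flip x) (fun f w => ?_) n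
    have e1 : ∀ (f : W.V →ₗ[k] k) (w : W.V), (E1d bW).l.act r (f ⊗ₜ w) =
      f ⊗ₜ bW.l.act (A.P r) w + W.dual.E f ⊗ₜ bW.l.act (r - A.P r) w := fun _ _ => rfl
    change (nuS μ).f ((bW.tensR V.dual).l.act r (f ⊗ₜ w) ⊗ₜ x) =
      (E1d bW).l.act r ((nuS μ).f ((f ⊗ₜ w) ⊗ₜ x))
    rw [tensR_l_tmul, TensorProduct.add_tmul, map_add, nuS_tmul, nuS_tmul, nuS_tmul, map_add,
      e1, e1, E_pbk, E_pbk, X.EP, X.E_odd, pbk_neg, bW.l.E_act, bW.l.E_act, A.EP, A.E_odd,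
      map_neg, LinearMap.neg_apply]
    simp only [TensorProduct.neg_tmul, TensorProduct.tmul_neg]
    abel
  h2 := fun n x r => by
    refine tens_ext (f := (nuS μ).f ∘ₗ
        (TensorProduct.mk k (V.dual.V ⊗[k] W.V) X.V).flip (bX.r.act x r))
      (g := (E1d bW).r.act.flip r ∘ₗ (nuS μ).f ∘ₗ
        (TensorProduct.mk k (V.dual.V ⊗[k] W.V) X.V).flip x) (fun f w => ?_) n
    have e1 : ∀ (f : W.V →ₗ[k] k) (w : W.V), (E1d bW).r.act (f ⊗ₜ w) r =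
      (LA.pre (SD.unit k) bW.l).act f (A.P r) ⊗ₜ w +
        (LA.pre (SD.unit k) bW.l).act f (r - A.P r) ⊗ₜ W.E w := fun _ _ => rfl
    have e2 : ∀ (x : X.V) (r : A.V), (LA.pre (SD.unit k) bW.l).act (pbk μ f x) r =
        pbk μ f (bX.r.act x r) := fun x r => by
      refine LinearMap.ext (fun w => ?_)
      exact (congrArg f (h.m1 x r w)).symm
    change (nuS μ).f ((f ⊗ₜ w) ⊗ₜ bX.r.act x r) =
      (E1d bW).r.act ((nuS μ).f ((f ⊗ₜ w) ⊗ₜ x)) r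
    rw [nuS_tmul, nuS_tmul, map_add, LinearMap.add_apply, e1, e1, e2, e2, e2, e2, W.EE,
      bX.r.P_act]
    simp only [pbk_add, pbk_sub, map_sub, LinearMap.sub_apply, TensorProduct.sub_tmul,
      TensorProduct.add_tmul]
    abel
  h3 := fun n x s => by
    refine tens_ext (f := (nuS μ).f ∘ₗ (TensorProduct.mk k (V.dual.V ⊗[k] W.V) X.V).flip x ∘ₗ
        (bW.tensR V.dual).r.act.flip s)
      (g := (E2d bW).r.act.flip (A.P s) ∘ₗ (nuS μ).f ∘ₗ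
        (TensorProduct.mk k (V.dual.V ⊗[k] W.V) X.V).flip x +
        (E2d bW).r.act.flip (s - A.P s) ∘ₗ (nuS μ).f ∘ₗ
        (TensorProduct.mk k (V.dual.V ⊗[k] W.V) X.V).flip (X.E x)) (fun f w => ?_) n
    have e1 : ∀ (f : W.V →ₗ[k] k) (w : W.V) (s : A.V), (E2d bW).r.act (f ⊗ₜ w) s =
      f ⊗ₜ bW.r.act w s := fun _ _ _ => rfl
    change (nuS μ).f ((bW.tensR V.dual).r.act (f ⊗ₜ w) s ⊗ₜ x) =
      (E2d bW).r.act ((nuS μ).f ((f ⊗ₜ w) ⊗ₜ x)) (A.P s) +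
        (E2d bW).r.act ((nuS μ).f ((f ⊗ₜ w) ⊗ₜ X.E x)) (s - A.P s)
    rw [tensR_r_tmul, nuS_tmul, nuS_tmul, nuS_tmul, map_add, map_add, LinearMap.add_apply,
      LinearMap.add_apply, e1, e1, e1, e1, X.E_sub_P_E, X.PE, bW.r.E_act, pbk_neg, A.E_apply]
    simp only [map_sub, map_add, TensorProduct.neg_tmul, TensorProduct.tmul_sub,
      TensorProduct.tmul_add]
    abel
  h4 := fun n s x => by
    refine tens_ext (f := (nuS μ).f ∘ₗ
        (TensorProduct.mk k (V.dual.V ⊗[k] W.V) X.V).flip (bX.l.act s x))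
      (g := (E2d bW).l.act (A.P s) ∘ₗ (nuS μ).f ∘ₗ
        (TensorProduct.mk k (V.dual.V ⊗[k] W.V) X.V).flip x +
        (E2d bW).l.act (s - A.P s) ∘ₗ (nuS μ).f ∘ₗ
        (TensorProduct.mk k (V.dual.V ⊗[k] W.V) X.V).flip x ∘ₗ (V.dual.tens W).E)
      (fun f w => ?_) n
    have e3 : (V.dual.tens W).E (f ⊗ₜ w) = V.dual.E f ⊗ₜ W.E w := SD.tens_E V.dual W f w
    have e1 : ∀ (s : A.V) (f : W.V →ₗ[k] k) (w : W.V), (E2d bW).l.act s (f ⊗ₜ w) =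
      (bW.r.pre (SD.unit k)).act s f ⊗ₜ w := fun _ _ _ => rfl
    have e0 : ∀ (s : A.V) (f : W.V →ₗ[k] k) (w : W.V),
      (bW.r.pre (SD.unit k)).act s f w = f (bW.r.act w (A.P s)) -
        (SD.unit k).E (f (bW.r.act w (s - A.P s))) := fun _ _ _ => rfl
    have e6 : ∀ (c : k), (SD.unit k).E c = c := fun c => by
      change c + c - c = c
      abel
    have hP0 : A.P (s - A.P s) = 0 := by rw [map_sub, A.PP, sub_self]
    have e4 : ∀ (x : X.V), (bW.r.pre (SD.unit k)).act (A.P s) (pbk μ f x) =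
        pbk μ f (bX.l.act (A.P s) x) := fun x => by
      refine LinearMap.ext (fun y => ?_)
      rw [e0, A.PP, sub_self, map_zero, map_zero, map_zero, sub_zero, pbk_apply, pbk_apply,
        h.m2, A.PP, sub_self, map_zero, LinearMap.zero_apply, TensorProduct.zero_tmul, map_zero,
        add_zero]
    have e5 : ∀ (x : X.V), (bW.r.pre (SD.unit k)).act (s - A.P s) (pbk μ (V.dual.E f) x) =
        pbk μ f (bX.l.act (s - A.P s) x) := fun x => by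
      have h2 : ∀ x w, V.E (μ.f (x ⊗ₜ w)) = μ.f (X.E x ⊗ₜ W.E w) := bl_E μ
      refine LinearMap.ext (fun y => ?_)
      rw [e0, e6, hP0, map_zero, map_zero, zero_sub, sub_zero, pbk_apply, pbk_apply, dual_E,
        h.m2, hP0, map_zero, LinearMap.zero_apply, TensorProduct.zero_tmul, map_zero, zero_add,
        sub_zero, h2, bX.l.E_act, X.EE, W.EE, A.E_odd, map_neg, LinearMap.neg_apply,
        TensorProduct.neg_tmul, map_neg, map_neg, neg_neg]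
    change (nuS μ).f ((f ⊗ₜ w) ⊗ₜ bX.l.act s x) =
      (E2d bW).l.act (A.P s) ((nuS μ).f ((f ⊗ₜ w) ⊗ₜ x)) +
        (E2d bW).l.act (s - A.P s) ((nuS μ).f ((V.dual.tens W).E (f ⊗ₜ w) ⊗ₜ x))
    rw [e3, nuS_tmul, nuS_tmul, nuS_tmul, map_add, map_add, e1, e1, e1, e1, e4, e4, e5, e5,
      W.EE, bX.l.P_act]
    simp only [pbk_add, pbk_sub, map_sub, LinearMap.sub_apply, TensorProduct.sub_tmul,
      TensorProduct.add_tmul]
    abel

end NC
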