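import Pool.Agent.H94.NC.TwoBd

/-!
# Two-B, part e: the comparison of traces
-/

set_option autoImplicit false

open scoped TensorProduct

noncomputable section

namespace NC

variable {k : Type} [Field k] {A : DGA k} {X Y V W : SD k}

/-! ### intertwining -/

theorem dualTens_muS (μ : SD.Hom (X.tens W) V) (x : X.V) (n : V.dual.V ⊗[k] W.V) :
    (dualTens V V).f ((muS μ).f (x ⊗ₜ n)) = (muN μ).f (x ⊗ₜ (dualTens V W).f n) := by
  refine tens_ext (f := (dualTens V V).f ∘ₗ (muS μ).f ∘ₗ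
      TensorProduct.mk k X.V (V.dual.V ⊗[k] W.V) x)
    (g := (muN μ).f ∘ₗ TensorProduct.mk k X.V (V.V →ₗ[k] W.V) x ∘ₗ (dualTens V W).f)
    (fun f w => ?_) n
  refine LinearMap.ext (fun y => ?_)
  change (dualTens V V).f ((muS μ).f (x ⊗ₜ (f ⊗ₜ w))) y =
    μ.f (x ⊗ₜ (dualTens V W).f (f ⊗ₜ w) y)
  have e3 : V.E (μ.f (x ⊗ₜ w)) = μ.f (X.E x ⊗ₜ W.E w) := bl_E μ x w
  have e4 : V.E (μ.f (X.E x ⊗ₜ w)) = μ.f (x ⊗ₜ W.E w) := by
    have h := bl_E μ (X.E x) w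
    rw [X.EE] at h
    exact h
  rw [muS_tmul, map_add, LinearMap.add_apply, dualTens_tmul, dualTens_tmul, dualTens_tmul,
    LinearMap.sub_apply, LinearMap.sub_apply, dual_P, dual_P, e3, e4, V.PP, map_sub V.P, V.PP,
    sub_self, sub_self, map_zero, sub_zero, zero_smul, zero_smul, add_zero, zero_add,
    TensorProduct.tmul_add, map_add, TensorProduct.tmul_smul, TensorProduct.tmul_smul,
    map_smul, map_smul]

theorem dualTens_nuS (μ : SD.Hom (X.tens W) V) (x : X.V) (n : V.dual.V ⊗[k] W.V) :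
    (dualTens W W).f ((nuS μ).f (n ⊗ₜ x)) = (nuN μ).f ((dualTens V W).f n ⊗ₜ x) := by
  refine tens_ext (f := (dualTens W W).f ∘ₗ (nuS μ).f ∘ₗ
      (TensorProduct.mk k (V.dual.V ⊗[k] W.V) X.V).flip x)
    (g := (nuN μ).f ∘ₗ (TensorProduct.mk k (V.V →ₗ[k] W.V) X.V).flip x ∘ₗ (dualTens V W).f)
    (fun f w => ?_) n
  refine LinearMap.ext (fun y => ?_)
  change (dualTens W W).f ((nuS μ).f ((f ⊗ₜ w) ⊗ₜ x)) y =
    (dualTens V W).f (f ⊗ₜ w) (μ.f (x ⊗ₜ y))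
  have e3 : V.P (μ.f (x ⊗ₜ y)) = μ.f (X.P x ⊗ₜ W.P y) + μ.f ((x - X.P x) ⊗ₜ (y - W.P y)) :=
    bl_P μ x y
  rw [nuS_tmul, map_add, LinearMap.add_apply, dualTens_tmul, dualTens_tmul, dualTens_tmul,
    pbk_apply, pbk_apply, pbk_apply, pbk_apply, W.EE, e3]
  simp only [TensorProduct.sub_tmul, TensorProduct.tmul_sub, map_sub, map_add, sub_smul,
    add_smul]
  abel

/-! ### the trace identity -/

theorem tr_pair0 (μ : SD.Hom (X.tens W) V) (x : X.V) (n : V.dual.V ⊗[k] W.V) :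
    (trD V).f ((muS μ).f (x ⊗ₜ n)) = (trD W).f ((nuS μ).f ((V.dual.tens W).P n ⊗ₜ x)) +
      (trD W).f ((nuS μ).f ((n - (V.dual.tens W).P n) ⊗ₜ X.E x)) := by
  refine tens_ext (f := (trD V).f ∘ₗ (muS μ).f ∘ₗ
      TensorProduct.mk k X.V (V.dual.V ⊗[k] W.V) x)
    (g := (trD W).f ∘ₗ (nuS μ).f ∘ₗ (TensorProduct.mk k (V.dual.V ⊗[k] W.V) X.V).flip x ∘ₗ
        (V.dual.tens W).P +
      (trD W).f ∘ₗ (nuS μ).f ∘ₗ (TensorProduct.mk k (V.dual.V ⊗[k] W.V) X.V).flip (X.E x) ∘ₗ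
        (LinearMap.id - (V.dual.tens W).P)) (fun f w => ?_) n
  have e0 : (V.dual.tens W).P (f ⊗ₜ w) = V.dual.P f ⊗ₜ W.P w +
    (f - V.dual.P f) ⊗ₜ (w - W.P w) := rfl
  have e1 : ∀ (f : V.V →ₗ[k] k) (w : W.V) (x : X.V), (trD W).f ((nuS μ).f ((f ⊗ₜ w) ⊗ₜ x)) =
      f (μ.f (X.P x ⊗ₜ w)) + f (μ.f ((x - X.P x) ⊗ₜ W.E w)) := fun f w x => by
    rw [nuS_tmul, map_add]; rfl
  have e2 : (trD V).f ((muS μ).f (x ⊗ₜ (f ⊗ₜ w))) = V.dual.P f (μ.f (x ⊗ₜ w)) +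
      (f - V.dual.P f) (μ.f (X.E x ⊗ₜ w)) := by
    rw [muS_tmul, map_add]; rfl
  change (trD V).f ((muS μ).f (x ⊗ₜ (f ⊗ₜ w))) =
    (trD W).f ((nuS μ).f ((V.dual.tens W).P (f ⊗ₜ w) ⊗ₜ x)) +
      (trD W).f ((nuS μ).f ((f ⊗ₜ w - (V.dual.tens W).P (f ⊗ₜ w)) ⊗ₜ X.E x))
  rw [e0, e2]
  simp only [TensorProduct.add_tmul, TensorProduct.sub_tmul, map_add, map_sub]
  rw [e1, e1, e1, e1, e1, e1, e1]
  simp only [LinearMap.sub_apply, X.PP, map_add, map_sub, TensorProduct.add_tmul,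
    TensorProduct.sub_tmul, TensorProduct.tmul_sub, TensorProduct.tmul_add, SD.E_apply, W.PP]
  abel

theorem tr_pair (bX : Bi A A X) (bW : Bi A A W) (μ : SD.Hom (X.tens W) V) (h : MuD bX bW μ)
    (g : (GG bX (bW.tensR V.dual)).V) :
    (trD V).f ((contrG bX (bW.tensR V.dual) (muS μ) (muS_D bX bW μ h)).f g) =
      (trE bW).f ((bG bX (bW.tensR V.dual) (E1d bW) (E2d bW) (E1d_E2d bW) (nuS μ)
        (nuS_D bX bW μ h)).f g) := by
  induction g using Wd.induction with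
  | hadd a b ha hb => simp only [map_add, ha, hb]
  | hsnoc w _ r =>
    have e1 : (bG bX (bW.tensR V.dual) (E1d bW) (E2d bW) (E1d_E2d bW) (nuS μ)
      (nuS_D bX bW μ h)).f (Wd.snoc w r) = Wd.snoc ((bG bX (bW.tensR V.dual) (E1d bW) (E2d bW)
        (E1d_E2d bW) (nuS μ) (nuS_D bX bW μ h)).f w) r := Wd.mh_snoc _ _ _
    rw [contrG_snoc, e1, map_zero]
    exact (tr2_snoc _ _ _ _ _ _).symm
  | hnil v =>
    have e1 : (bG bX (bW.tensR V.dual) (E1d bW) (E2d bW) (E1d_E2d bW) (nuS μ)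
      (nuS_D bX bW μ h)).f (Wd.nil v) = Wd.nil ((evN bX (bW.tensR V.dual) (E1d bW) (E2d bW)
        (nuS μ) (nuS_D bX bW μ h)).f v) := Wd.mh_nil _ _
    rw [contrG_nil, e1]
    refine Eq.trans ?_ (trc_nil _ _ (cyc_tr0 (E1d_E2d bW) (trD_cyc1 bW) (trD_cyc2 bW)) _).symm
    refine tens_ext (f := (trD V).f ∘ₗ (contrB bX (bW.tensR V.dual) (muS μ)
        (muS_D bX bW μ h)).f)
      (g := (trc (E1d bW) (trD W) (trD_cyc1 bW)).f ∘ₗ (evN bX (bW.tensR V.dual) (E1d bW)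
        (E2d bW) (nuS μ) (nuS_D bX bW μ h)).f) (fun w n => ?_) v
    have e2 : (evN bX (bW.tensR V.dual) (E1d bW) (E2d bW) (nuS μ) (nuS_D bX bW μ h)).f
      (w ⊗ₜ n) = hn A (nuS μ) ((V.dual.tens W).P n) w +
        hn A (nuS μ) (n - (V.dual.tens W).P n) (EW X A.toSD w) := rfl
    change (trD V).f (augF (muS μ).f (w ⊗ₜ n)) = (trc (E1d bW) (trD W) (trD_cyc1 bW)).f
      ((evN bX (bW.tensR V.dual) (E1d bW) (E2d bW) (nuS μ) (nuS_D bX bW μ h)).f (w ⊗ₜ n))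
    rw [e2]
    induction w using Wd.induction with
    | hadd a b ha hb =>
      have ha' := ha rfl
      have hb' := hb rfl
      rw [map_add] at ha' hb'
      rw [TensorProduct.add_tmul, map_add, map_add, ha', hb']
      simp only [map_add]
      abel
    | hnil x =>
      rw [augF_nil, EW_nil, hn_nil, hn_nil, map_add, trc_nil, trc_nil]
      exact tr_pair0 μ x n
    | hsnoc w _ r =>
      rw [augF_snoc, EW_snoc, map_neg, hn_snoc, hn_snoc, map_add, map_neg, trc_snoc, trc_snoc]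
      simp

/-- the trace on `hom V V` -/
def tauV (V : SD k) (hV : V.FinH) : (SD.hom V V).Coh →ₗ[k] k :=
  tauG (dualTens V V) (dualTens_qi V V hV) (trD V)

/-- the comparison of traces for the pairings with `hom V W` -/
theorem pair_tr (bX : Bi A A X) (bW : Bi A A W) (μ : SD.Hom (X.tens W) V) (h : MuD bX bW μ)
    (hV : V.FinH) (hW : W.FinH) (c : (GG bX (Nb bW V)).Coh) :
    tauV V hV (SD.Coh.map (contrG bX (Nb bW V) (muN μ) (muN_D bX bW μ h)) c) =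
      tau bW hW (SD.Coh.map (bG bX (Nb bW V) (E1 bW) (E2 bW) (E1_E2 bW) (nuN μ)
        (nuN_D bX bW μ h)) c) := by
  have hq : (gMap (bX := bX) (bX' := bX) (SD.Hom.id X) (Bi.isHom_id bX) (dualTens V W)
      (dualTens_Nb bW V)).QI :=
    gMap_qi (SD.Hom.id X) (Bi.isHom_id bX) (dualTens V W) (dualTens_Nb bW V)
      (SD.Hom.QI.of_bijective Function.bijective_id) (dualTens_qi V W hV)
  obtain ⟨c', rfl⟩ := ((SD.Coh.map_bijective_iff _).2 hq).2 c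
  obtain ⟨g, hg, rfl⟩ := SD.Coh.exists_mk c'
  rw [SD.Coh.map_mk, SD.Coh.map_mk, SD.Coh.map_mk]
  have h1 := contrG_gMap (SD.Hom.id X) (Bi.isHom_id bX) (dualTens V W) (dualTens_Nb bW V)
    (muS_D bX bW μ h) (muN_D bX bW μ h) (dualTens V V) (fun x n => dualTens_muS μ x n) g
  have h2 := bG_gMap (SD.Hom.id X) (Bi.isHom_id bX) (dualTens V W) (dualTens_Nb bW V)
    (E1d_E2d bW) (E1_E2 bW) (nuS_D bX bW μ h) (nuN_D bX bW μ h) (dualTens W W)
    (dualTens_E1 bW) (dualTens_E2 bW) (fun n x => dualTens_nuS μ x n) g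
  have hg1 : (V.dual.tens V).D ((contrG bX (bW.tensR V.dual) (muS μ) (muS_D bX bW μ h)).f g) =
      0 := by rw [← SD.Hom.D, hg, map_zero]
  have hg2 : (HC2 (E1d bW) (E2d bW) (E1d_E2d bW)).D ((bG bX (bW.tensR V.dual) (E1d bW)
      (E2d bW) (E1d_E2d bW) (nuS μ) (nuS_D bX bW μ h)).f g) = 0 := by
    rw [← SD.Hom.D, hg, map_zero]
  refine (tauG_mk (dualTens V V) (dualTens_qi V V hV) (trD V) hg1 _ ?_).trans
    ((tr_pair bX bW μ h g).trans
      (tauG_mk (cE bW) (cE_qi bW hW) (trE bW) hg2 _ ?_).symm)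
  · rw [h1]
    exact SD.Hml.refl _
  · have h3 : (cE bW).f ((bG bX (bW.tensR V.dual) (E1d bW) (E2d bW) (E1d_E2d bW) (nuS μ)
      (nuS_D bX bW μ h)).f g) = _ := h2
    rw [h3]
    exact SD.Hml.refl _

end NC
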